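import Pool.Agent.Lib.MP_1e748d_nt.Va.Main

set_option autoImplicit false

namespace Pool.Agent.Lib.MP_1e748d_nt.Va

open Polynomial

/-- Transfer of the group-theoretic hypothesis from the field `M` to the splitting field. -/
lemma abs_grp (L M Ω : Type) [Field L] [NumberField L] [Normal ℚ L] [Field M] [Algebra ℚ M]
    [Normal ℚ M] [Field Ω] [Algebra ℚ Ω] [Normal ℚ Ω] [Algebra L Ω] [Algebra M Ω]
    [IsScalarTower ℚ L Ω] [IsScalarTower ℚ M Ω] {B b k : ℕ} (H : Subgroup (M ≃ₐ[ℚ] M))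
    (h0 : 0 < H.index) (hB : H.index ≤ B) (hH : ∀ g ∈ H, ∀ h ∈ H, g ^ b * h = h * g ^ b)
    {q : M[X]} (hq : q ≠ 0) (hk : q.natDegree ≤ k) {α : L}
    (hα : aeval (algebraMap L Ω α) q = 0) : ∃ A N : Subgroup (L ≃ₐ[ℚ] L), N.Normal ∧
      A.index ≤ B ∧ (∀ g ∈ A, ∀ h ∈ A, (g ^ b * h)⁻¹ * (h * g ^ b) ∈ N) ∧
      (orb N α).card ≤ k := by
  classical
  let u : (Ω ≃ₐ[ℚ] Ω) →* (L ≃ₐ[ℚ] L) := AlgEquiv.restrictNormalHom L
  let v : (Ω ≃ₐ[ℚ] Ω) →* (M ≃ₐ[ℚ] M) := AlgEquiv.restrictNormalHom M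
  have hu : Function.Surjective u := AlgEquiv.restrictNormalHom_surjective Ω
  have hv : Function.Surjective v := AlgEquiv.restrictNormalHom_surjective Ω
  refine ⟨(H.comap v).map u, v.ker.map u, v.normal_ker.map u hu, ?_, ?_, ?_⟩
  · have h1 := (H.comap v).index_map_dvd hu
    rw [H.index_comap_of_surjective hv] at h1
    exact (Nat.le_of_dvd h0 h1).trans hB
  · rintro _ ⟨g, hg, rfl⟩ _ ⟨h, hh, rfl⟩
    refine ⟨(g ^ b * h)⁻¹ * (h * g ^ b), ?_, by simp⟩
    rw [SetLike.mem_coe, MonoidHom.mem_ker, map_mul, map_inv, inv_mul_eq_one, map_mul, map_mul,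
      map_pow]
    exact hH _ hg _ hh
  · refine le_trans (Finset.card_le_card_of_injOn (t := (q.aroots Ω).toFinset) (algebraMap L Ω)
      (fun z hz => ?_) (algebraMap L Ω).injective.injOn) ((Multiset.toFinset_card_le _).trans
        ((card_roots' _).trans (natDegree_map_le.trans hk)))
    obtain ⟨_, ⟨n, hn, rfl⟩, rfl⟩ := mem_orb.mp hz
    have e : (n : Ω →+* Ω).comp (algebraMap M Ω) = algebraMap M Ω := by
      ext x
      have h1 := n.restrictNormal_commutes M x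
      rw [show n.restrictNormal M = 1 from hn] at h1
      exact h1.symm
    have h2 := hom_eval₂ q (algebraMap M Ω) (n : Ω →+* Ω) (algebraMap L Ω α)
    rw [e, ← aeval_def, ← aeval_def, hα, map_zero] at h2
    rw [Finset.mem_coe, Multiset.mem_toFinset, mem_aroots]
    exact ⟨hq, (congrArg (aeval · q) (n.restrictNormal_commutes L α)).trans h2.symm⟩

lemma abs_aux {c ε : ℝ} {B b k D : ℕ} {P : ℤ → Prop} (h : Concl c ε B b k D P) {p : ℤ[X]}
    (hm : p.Monic) (hi : Irreducible p) (hs : (p.map (algebraMap ℤ ℝ)).roots.card = p.natDegree)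
    (hr : ∀ x ∈ (p.map (algebraMap ℤ ℝ)).roots, |x - c| ≤ 2 + ε)
    (L : Type) [Field L] [inst : Algebra ℚ L]
    [hL : IsSplittingField ℚ L (p.map (algebraMap ℤ ℚ))]
    (M : Type) [Field M] [Algebra ℚ M] [Normal ℚ M] (H : Subgroup (M ≃ₐ[ℚ] M))
    (h0 : 0 < H.index) (hB : H.index ≤ B) (hH : ∀ g ∈ H, ∀ h ∈ H, g ^ b * h = h * g ^ b)
    {q : M[X]} (hq : q ∣ p.map (algebraMap ℤ M)) (hq0 : 0 < q.natDegree) (hk : q.natDegree ≤ k)
    (hD : D < p.natDegree) :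
    ∃ m : ℤ, P m ∧ ∀ x ∈ (p.map (algebraMap ℤ ℝ)).roots, |x - m| ≤ 2 := by
  have : CharZero L := algebraRat.charZero L
  obtain rfl : inst = DivisionRing.toRatAlgebra := Subsingleton.elim _ _
  obtain ⟨p', hp'⟩ : ∃ p', p' = p.map (algebraMap ℤ ℚ) := ⟨_, rfl⟩
  rw [← hp'] at hL
  have hm' : p'.Monic := hp' ▸ hm.map _
  have hi' : Irreducible p' := hp' ▸ (hm.irreducible_iff_irreducible_map_fraction_map).mp hi
  have hmm : p'.map (algebraMap ℚ ℝ) = p.map (algebraMap ℤ ℝ) := by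
    rw [hp', map_map]
    congr 1
  have hsp : (p'.map (algebraMap ℚ ℝ)).Splits := by
    rw [hmm, splits_iff_card_roots, hs, hm.natDegree_map]
  have : FiniteDimensional ℚ L := IsSplittingField.finiteDimensional L p'
  have : NumberField L := ⟨⟩
  have : IsGalois ℚ L := IsGalois.of_separable_splitting_field hi'.separable
  let ι := IsSplittingField.lift L p' hsp
  let j : L →ₐ[ℚ] AlgebraicClosure ℚ := IsAlgClosed.lift
  let j' : M →ₐ[ℚ] AlgebraicClosure ℚ := IsAlgClosed.lift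
  let := j.toRingHom.toAlgebra
  let := j'.toRingHom.toAlgebra
  have : IsScalarTower ℚ L (AlgebraicClosure ℚ) := .of_algebraMap_eq' (RingHom.ext_rat _ _)
  have : IsScalarTower ℚ M (AlgebraicClosure ℚ) := .of_algebraMap_eq' (RingHom.ext_rat _ _)
  have : Normal ℚ (AlgebraicClosure ℚ) := 
    @IsAlgClosure.normal ℚ _ _ _ _ (AlgebraicClosure.instIsAlgClosure ℚ)
  obtain ⟨β, hβ⟩ := IsAlgClosed.exists_aeval_eq_zero (AlgebraicClosure ℚ) q
    (natDegree_pos_iff_degree_pos.mp hq0).ne'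
  have hβ' : β ∈ p'.rootSet (AlgebraicClosure ℚ) := by
    rw [mem_rootSet_of_ne hm'.ne_zero, hp', aeval_map_algebraMap,
      ← aeval_map_algebraMap M β p]
    exact aeval_eq_zero_of_dvd_aeval_eq_zero hq hβ
  rw [← (IsSplittingField.splits L p').image_rootSet j] at hβ'
  obtain ⟨α, hα, rfl⟩ := hβ'
  replace hα := aeval_eq_zero_of_mem_rootSet hα
  obtain ⟨A, N, hN, hA1, hA2, hA3⟩ := abs_grp L M (AlgebraicClosure ℚ) H h0 hB hH
    (ne_zero_of_natDegree_gt hq0) hk (α := α) hβ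
  have hint : IsIntegral ℤ α := ⟨p, hm, by
    rw [hp', aeval_map_algebraMap] at hα
    exact hα⟩
  have hmin : minpoly ℚ α = p' := (minpoly.eq_of_irreducible_of_monic hi' hα hm').symm
  refine (h L A N hN hA1 hA2 ι α ⟨hint, fun g => hr _ ?_⟩ hA3 ?_).imp
    fun m hm => ⟨hm.1, fun x hx => ?_⟩
  · rw [← hmm, mem_roots (hm'.map _).ne_zero, IsRoot.def, eval_map_algebraMap]
    change aeval (ι (g α)) p' = 0
    rw [aeval_algHom_apply, aeval_algHom_apply, hα, map_zero, map_zero]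
  · intro q hq hd h0
    have h1 : aeval α (q.map (algebraMap ℤ ℚ)) = 0 := by
      rw [aeval_map_algebraMap]
      exact h0
    have h2 := natDegree_le_of_dvd (minpoly.dvd ℚ α h1)
      ((Polynomial.map_ne_zero_iff (algebraMap ℤ ℚ).injective_int).mpr hq)
    rw [hmin, hp', hm.natDegree_map] at h2
    have := natDegree_map_le (f := algebraMap ℤ ℚ) (p := q)
    omega
  · have h1 : x ∈ p'.rootSet ℝ := by
      rw [← hmm] at hx
      exact Finset.mem_coe.mpr (Multiset.mem_toFinset.mpr hx)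
    rw [← (IsSplittingField.splits L p').image_rootSet ι] at h1
    obtain ⟨y, hy, rfl⟩ := h1
    obtain ⟨g, rfl⟩ := minpoly.exists_algEquiv_of_root' (K := ℚ) (x := y) (y := α)
      (Algebra.IsAlgebraic.isAlgebraic α) (by rw [hmin]; exact aeval_eq_zero_of_mem_rootSet hy)
    exact hm.2 g

lemma main_abs {c ε : ℝ} {B b k D : ℕ} {P : ℤ → Prop} (h : Concl c ε B b k D P) {p : ℤ[X]}
    (hm : p.Monic) (hi : Irreducible p) (hs : (p.map (algebraMap ℤ ℝ)).roots.card = p.natDegree)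
    (hr : ∀ x ∈ (p.map (algebraMap ℤ ℝ)).roots, |x - c| ≤ 2 + ε)
    (hM : ∃ M : IntermediateField ℚ ℂ, IsGalois ℚ M ∧
      (∃ H : Subgroup (M ≃ₐ[ℚ] M), 0 < H.index ∧ H.index ≤ B ∧
        ∀ g ∈ H, ∀ h ∈ H, g ^ b * h = h * g ^ b) ∧
      ∃ q : M[X], q ∣ p.map (algebraMap ℤ M) ∧ 0 < q.natDegree ∧ q.natDegree ≤ k)
    (hD : D < p.natDegree) :
    ∃ m : ℤ, P m ∧ ∀ x ∈ (p.map (algebraMap ℤ ℝ)).roots, |x - m| ≤ 2 := by
  obtain ⟨M, hM, ⟨H, h0, hB, hH⟩, q, h1, h2, h3⟩ := hM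
  exact abs_aux h hm hi hs hr (p.map (algebraMap ℤ ℚ)).SplittingField
    (hL := IsSplittingField.splittingField _) M H h0 hB hH h1 h2 h3 hD

end Pool.Agent.Lib.MP_1e748d_nt.Va
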