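import Pool.Agent.Lib.MP_1e748d_nt.Va.Defs

set_option autoImplicit false

namespace Pool.Agent.Lib.MP_1e748d_nt.Va

open Polynomial

lemma alg_key {D E : Type} [CommRing D] [IsDomain D] [CommRing E] [IsDomain E] {ϖ : D}
    (h0 : ϖ ≠ 0) (φ : D →+* E) (hs : Function.Surjective φ) (hφ : ∀ a, φ a = 0 ↔ ϖ ∣ a)
    {Ψ : D[X]} {k : ℕ} {g : E[X]} (hk : 0 < k) (hΨ : Ψ.map φ = X ^ k * g) (hg : ¬ X ∣ g)
    (ω : ℕ) : ∀ (n : ℕ) (h : D) (U V : D[X]), k * ω ≤ n → C h = Ψ * U + X ^ n * V →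
      ϖ ^ ω ∣ h := by
  have hC : ∀ p : D[X], p.map φ = 0 → C ϖ ∣ p := fun p hp =>
    (C_dvd_iff_dvd_coeff _ _).2 fun i => (hφ _).1 (by rw [← coeff_map, hp, coeff_zero])
  have hϖ : φ ϖ = 0 := (hφ _).2 dvd_rfl
  induction ω with
  | zero => exact fun _ _ _ _ _ _ => by rw [pow_zero]; exact one_dvd _
  | succ ω ih =>
    intro n h U V hn e
    obtain ⟨n, rfl⟩ : ∃ n', n = k + n' := ⟨n - k, by rw [Nat.mul_succ] at hn; omega⟩
    have e1 : C (φ h) = X ^ k * (g * U.map φ + X ^ n * V.map φ) := by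
      have h1 := congrArg (Polynomial.map φ) e
      rw [map_C, Polynomial.map_add, Polynomial.map_mul, Polynomial.map_mul, Polynomial.map_pow,
        map_X, hΨ] at h1
      rw [h1]
      ring
    have e2 : φ h = 0 := by
      have h1 : (X : E[X]) ∣ C (φ h) := by
        rw [e1]
        exact (dvd_pow_self X hk.ne').mul_right _
      rwa [X_dvd_iff, coeff_C_zero] at h1
    obtain ⟨h1, rfl⟩ := (hφ _).1 e2
    rw [e2, map_zero] at e1
    have e3 := (mul_eq_zero.1 e1.symm).resolve_left (pow_ne_zero _ X_ne_zero)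
    have e4 : (X : E[X]) ^ n ∣ g * U.map φ := ⟨-V.map φ, by linear_combination e3⟩
    obtain ⟨W, hW⟩ := prime_X.pow_dvd_of_dvd_mul_left n hg e4
    obtain ⟨U1, rfl⟩ := map_surjective φ hs W
    obtain ⟨U2, hU⟩ := hC (U - X ^ n * U1) (by
      rw [Polynomial.map_sub, Polynomial.map_mul, Polynomial.map_pow, map_X, hW, sub_self])
    have e5 : C ϖ * (C h1 - Ψ * U2) = X ^ n * (Ψ * U1 + X ^ k * V) := by
      rw [map_mul] at e
      linear_combination e + Ψ * hU
    obtain ⟨V2, hV⟩ := hC (Ψ * U1 + X ^ k * V) (by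
      have h2 := congrArg (Polynomial.map φ) e5
      rw [Polynomial.map_mul, map_C, hϖ, map_zero, zero_mul, Polynomial.map_mul,
        Polynomial.map_pow, map_X] at h2
      exact (mul_eq_zero.1 h2.symm).resolve_left (pow_ne_zero _ X_ne_zero))
    rw [hV, mul_left_comm] at e5
    have e6 := mul_left_cancel₀ (C_ne_zero.2 h0) e5
    rw [pow_succ']
    exact mul_dvd_mul_left ϖ (ih n h1 U2 V2 (by rw [Nat.mul_succ] at hn; omega)
      (by linear_combination e6))

lemma alg_refl {D : Type} [CommRing D] [IsDomain D] {Φ : D[X]} (hm : 0 < Φ.natDegree) {n : ℕ}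
    (hn : Φ.natDegree ≤ n) (h : D) (f : D[X]) (hf : f.natDegree < Φ.natDegree)
    (hd : Φ ∣ C h * X ^ n - f.comp (C Φ.leadingCoeff * X)) :
    ∃ U V, C h = reflect Φ.natDegree Φ * U + X ^ n * V := by
  obtain ⟨Ψ, hΨ⟩ : ∃ Ψ, Ψ = reflect Φ.natDegree Φ := ⟨_, rfl⟩
  have hA : C Φ.leadingCoeff - -(divX Ψ * X) = Ψ := by
    have h1 := divX_mul_X_add Ψ
    have h2 : Ψ.coeff 0 = Φ.leadingCoeff := by
      rw [hΨ, coeff_reflect, revAt_zero, leadingCoeff]
    rw [h2] at h1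
    linear_combination h1
  have hsum : f.comp (C Φ.leadingCoeff * X) =
      ∑ j ∈ Finset.range Φ.natDegree, C (f.coeff j * Φ.leadingCoeff ^ j) * X ^ j := by
    rw [comp, eval₂_eq_sum_range' _ hf]
    refine Finset.sum_congr rfl fun j _ => ?_
    rw [mul_pow, map_mul, map_pow, mul_assoc]
  have hmem : reflect n (f.comp (C Φ.leadingCoeff * X)) ∈ Ideal.span {Ψ, X ^ n} := by
    rw [hsum]
    refine Finset.sum_induction _ (fun q => reflect n q ∈ Ideal.span {Ψ, X ^ n})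
      (fun a b ha hb => ?_) ?_ fun j hj => ?_
    · rw [reflect_add]
      exact add_mem ha hb
    · rw [reflect_zero]
      exact zero_mem _
    · have hj' : j ≤ n := (Finset.mem_range.1 hj).le.trans hn
      obtain ⟨q, hq⟩ := sub_dvd_pow_sub_pow (C Φ.leadingCoeff) (-(divX Ψ * X)) j
      rw [hA] at hq
      obtain ⟨i, rfl⟩ := Nat.exists_eq_add_of_le hj'
      rw [reflect_C_mul_X_pow, revAt_le hj', Nat.add_sub_cancel_left, Ideal.mem_span_pair]
      refine ⟨C (f.coeff j) * q * X ^ i, C (f.coeff j) * (-divX Ψ) ^ j, ?_⟩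
      rw [← neg_mul, mul_pow] at hq
      rw [map_mul, map_pow]
      linear_combination (-C (f.coeff j) * X ^ i) * hq
  have hdeg : (C h * X ^ n - f.comp (C Φ.leadingCoeff * X)).natDegree ≤ n := by
    refine (natDegree_sub_le _ _).trans (max_le (natDegree_C_mul_X_pow_le _ _) ?_)
    rw [hsum]
    exact natDegree_sum_le_of_forall_le _ _ fun j hj =>
      (natDegree_C_mul_X_pow_le _ _).trans ((Finset.mem_range.1 hj).le.trans hn)
  obtain ⟨G, hG⟩ := hd
  have hΦ : Φ ≠ 0 := fun e => by simp [e] at hm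
  obtain ⟨i, rfl⟩ := Nat.exists_eq_add_of_le hn
  have hGd : G.natDegree ≤ i := by
    by_cases h0 : G = 0
    · simp [h0]
    · rw [hG, natDegree_mul hΦ h0] at hdeg
      omega
  have h1 := congrArg (reflect (Φ.natDegree + i)) hG
  rw [reflect_mul _ _ le_rfl hGd, reflect_sub, reflect_C_mul_X_pow, revAt_le le_rfl, Nat.sub_self,
    pow_zero, mul_one, ← hΨ] at h1
  obtain ⟨a, b, hab⟩ := Ideal.mem_span_pair.1 hmem
  exact ⟨reflect i G + a, b, by rw [← hΨ]; linear_combination h1 - hab⟩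

/-- A pole of `y` along the prime `ϖ` forces divisibility. -/
theorem alg {D : Type} [CommRing D] [IsDomain D] {ϖ : D} (hϖ : Prime ϖ) {Φ : D[X]}
    (h1 : ϖ ∣ Φ.leadingCoeff) (h2 : ¬ C ϖ ∣ Φ) (ω : ℕ) (h : D) (f : D[X])
    (hf : f.degree < Φ.natDegree)
    (hd : Φ ∣ C h * X ^ (Φ.natDegree * ω) - f.comp (C Φ.leadingCoeff * X)) : ϖ ^ ω ∣ h := by
  rcases Nat.eq_zero_or_pos ω with rfl | hω
  · rw [pow_zero]
    exact one_dvd _
  have hm : 0 < Φ.natDegree := by
    refine Nat.pos_of_ne_zero fun e => h2 ?_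
    rw [leadingCoeff, e] at h1
    rw [eq_C_of_natDegree_eq_zero e]
    exact map_dvd C h1
  have hf' : f.natDegree < Φ.natDegree := by
    by_cases h0 : f = 0
    · simpa [h0] using hm
    · exact (natDegree_lt_iff_degree_lt h0).2 hf
  obtain ⟨U, V, e⟩ := alg_refl hm (Nat.le_mul_of_pos_right _ hω) h f hf' hd
  have hP : (Ideal.span {ϖ}).IsPrime := (Ideal.span_singleton_prime hϖ.ne_zero).2 hϖ
  have hφ : ∀ a, Ideal.Quotient.mk (Ideal.span {ϖ}) a = 0 ↔ ϖ ∣ a := fun a => by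
    rw [Ideal.Quotient.eq_zero_iff_mem, Ideal.mem_span_singleton]
  have hne : (reflect Φ.natDegree Φ).map (Ideal.Quotient.mk (Ideal.span {ϖ})) ≠ 0 := by
    intro h0
    refine h2 ((C_dvd_iff_dvd_coeff _ _).2 fun i => (hφ _).1 ?_)
    have h3 := congrArg (fun p => p.coeff (revAt Φ.natDegree i)) h0
    simpa only [coeff_map, coeff_reflect, revAt_invol, coeff_zero] using h3
  obtain ⟨k, g, hg, hg'⟩ : ∃ (k : ℕ) (g : (D ⧸ Ideal.span {ϖ})[X]),
      (reflect Φ.natDegree Φ).map (Ideal.Quotient.mk (Ideal.span {ϖ})) = X ^ k * g ∧ ¬ X ∣ g := by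
    obtain ⟨g, hg, hg'⟩ := exists_eq_pow_rootMultiplicity_mul_and_not_dvd _ hne 0
    rw [C_0, sub_zero] at hg hg'
    exact ⟨_, g, hg, hg'⟩
  have hk : 0 < k := by
    refine Nat.pos_of_ne_zero fun e => hg' ?_
    rw [e, pow_zero, one_mul] at hg
    rw [← hg, X_dvd_iff, coeff_map, coeff_reflect, revAt_zero]
    exact (hφ _).2 h1
  have hkm : k ≤ Φ.natDegree := by
    have h3 := natDegree_le_of_dvd ⟨g, hg⟩ hne
    rw [natDegree_X_pow] at h3
    exact h3.trans (natDegree_map_le.trans (natDegree_reflect_le.trans (max_le le_rfl le_rfl)))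
  exact alg_key hϖ.ne_zero _ Ideal.Quotient.mk_surjective hφ hk hg hg' ω _ h U V
    (Nat.mul_le_mul_right _ hkm) e

end Pool.Agent.Lib.MP_1e748d_nt.Va
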