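import Pool.Agent.Lib.MP_1e748d_nt.Va.Defs

set_option autoImplicit false

namespace Pool.Agent.Lib.MP_1e748d_nt.Va

open Polynomial

lemma apx_inv {c : ℝ} {A : ℝ[X]} (hA : ∀ x ∈ II c, A.eval x ≠ 0) {δ : ℝ} (hδ : 0 < δ) :
    ∃ r : ℝ[X], ∀ x ∈ II c, |1 - A.eval x * r.eval x| ≤ δ := by
  obtain ⟨M, hM⟩ := (isCompact_Icc (a := c - 2) (b := c + 2)).exists_bound_of_continuousOn
    A.continuous.continuousOn
  have M0 : 0 < |M| + 1 := by positivity
  obtain ⟨r, hr⟩ := exists_polynomial_near_of_continuousOn (c - 2) (c + 2)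
    (fun x => (A.eval x)⁻¹) (A.continuous.continuousOn.inv₀ hA) (δ / (|M| + 1)) (by positivity)
  refine ⟨r, fun x hx => ?_⟩
  have e : 1 - A.eval x * r.eval x = -(A.eval x * (r.eval x - (A.eval x)⁻¹)) := by
    rw [mul_sub, mul_inv_cancel₀ (hA x hx), neg_sub]
  have h1 : |A.eval x| ≤ |M| + 1 := by linarith [le_abs_self M, (Real.norm_eq_abs _).ge.trans (hM x hx)]
  rw [e, abs_neg, abs_mul]
  exact (mul_le_mul h1 (hr x hx).le (abs_nonneg _) M0.le).trans (mul_div_cancel₀ _ M0.ne').le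

lemma apx_tail {s δ : ℝ} (h1 : δ ≤ 1) (h : |1 - s| ≤ δ) (n : ℕ) :
    |∑ i ∈ Finset.range n, s ^ i * (1 - s) ^ (2 * n - i) * (2 * n).choose i| ≤ (9 * δ) ^ n := by
  have h0 : 0 ≤ δ := (abs_nonneg _).trans h
  have h2 : |s| ≤ 2 := by
    rw [abs_le] at h ⊢
    constructor <;> linarith [h.1, h.2]
  have e : (9 * δ) ^ n = ∑ i ∈ Finset.range (2 * n + 1),
      δ ^ n * (2 ^ i * 1 ^ (2 * n - i) * (2 * n).choose i) := by
    rw [← Finset.mul_sum, ← add_pow, pow_mul, mul_pow, mul_comm]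
    norm_num
  rw [e]
  refine (Finset.abs_sum_le_sum_abs _ _).trans ((Finset.sum_le_sum fun i hi => ?_).trans
    (Finset.sum_le_sum_of_subset_of_nonneg (Finset.range_mono (by omega))
      fun i _ _ => by positivity))
  have hi' := Finset.mem_range.1 hi
  have h3 : |1 - s| ^ (2 * n - i) ≤ δ ^ n :=
    (pow_le_pow_left₀ (abs_nonneg _) h _).trans (pow_le_pow_of_le_one h0 h1 (by omega))
  rw [abs_mul, abs_mul, abs_pow, abs_pow, Nat.abs_cast, one_pow, mul_one, ← mul_assoc,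
    mul_comm (δ ^ n)]
  gcongr

lemma apx_coe (a : ℤ[X]) (x : ℝ) : ((a.eval₂ (Int.castRingHom ℝ) x : ℝ) : ℂ) =
    a.eval₂ (Int.castRingHom ℂ) (x : ℂ) := by
  rw [← RingHom.ext_int (Complex.ofRealHom.comp (Int.castRingHom ℝ)) (Int.castRingHom ℂ)]
  exact hom_eval₂ a (Int.castRingHom ℝ) Complex.ofRealHom x

lemma apx_bd {p : ℂ[X]} (h0 : p ≠ 0) {B : ℝ} {m : ℕ} (hm : p.natDegree ≤ m)
    (h : ∀ z, p.eval z = 0 → ‖z‖ ≤ B) (j : ℕ) :
    ‖p.coeff j‖ ≤ max B 1 ^ m * m.choose (m / 2) * ‖p.leadingCoeff‖ := by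
  have l0 := leadingCoeff_ne_zero.2 h0
  have h1 := coeff_bdd_of_roots_le (B := B) (d := m) (RingHom.id ℂ) (monic_mul_leadingCoeff_inv h0)
    (IsAlgClosed.splits _) (by rwa [natDegree_mul_leadingCoeff_inv _ h0]) (fun z hz => h z (by
      have := isRoot_of_mem_roots hz
      rw [map_id, IsRoot.def, eval_mul, eval_C] at this
      exact (mul_eq_zero.1 this).resolve_right (inv_ne_zero l0))) j
  rwa [map_id, coeff_mul_C, norm_mul, norm_inv, mul_inv_le_iff₀ (norm_pos_iff.2 l0)] at h1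

lemma apx_prime {ξ : ℝ} (A : ℤ[X]) : A ≠ 0 → A.eval₂ (Int.castRingHom ℝ) ξ = 0 →
    ∃ π : ℤ[X], Prime π ∧ π.eval₂ (Int.castRingHom ℝ) ξ = 0 := by
  induction A using UniqueFactorizationMonoid.induction_on_prime with
  | h₁ => exact fun h => absurd rfl h
  | h₂ u hu => exact fun _ h => absurd h (hu.map (eval₂RingHom (Int.castRingHom ℝ) ξ)).ne_zero
  | h₃ a π ha hπ ih =>
    intro _ h
    rw [eval₂_mul, mul_eq_zero] at h
    exact h.elim (fun k => ⟨π, hπ, k⟩) (ih ha)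

lemma apx_dvd {ξ : ℝ} {π a : ℤ[X]} (hπ : Prime π) (h : π.eval₂ (Int.castRingHom ℝ) ξ = 0)
    (ha : a.eval₂ (Int.castRingHom ℝ) ξ = 0) : π ∣ a := by
  have e : ∀ b : ℤ[X], aeval ξ (b.map (Int.castRingHom ℚ)) = b.eval₂ (Int.castRingHom ℝ) ξ :=
    fun b => by
      rw [aeval_def, eval₂_map, RingHom.ext_int (RingHom.comp _ _) (Int.castRingHom ℝ)]
  have h1 : π.IsPrimitive := hπ.irreducible.isPrimitive fun k => by
    rw [eq_C_of_natDegree_eq_zero k, eval₂_C, eq_intCast, Int.cast_eq_zero] at h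
    exact hπ.ne_zero (by rw [eq_C_of_natDegree_eq_zero k, h, C_0])
  exact (IsPrimitive.Int.dvd_iff_map_cast_dvd_map_cast _ _ h1).2
    ((((IsPrimitive.Int.irreducible_iff_irreducible_map_cast h1).1
      hπ.irreducible).dvd_iff_aeval_eq_zero ((e π).trans h)).1 ((e a).trans ha))

/-- Exponentially good approximation of `A ^ (-n)` in linear degree. -/
theorem apx {c : ℝ} {A : ℝ[X]} (hA : ∀ x ∈ II c, A.eval x ≠ 0) {ε : ℝ} (hε : 0 < ε) :
    ∃ d : ℕ, ∀ n : ℕ, ∃ q : ℝ[X], q.natDegree ≤ d * n ∧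
      ∀ x ∈ II c, |1 - q.eval x * A.eval x ^ n| ≤ ε ^ n := by
  obtain ⟨r, hr⟩ := apx_inv hA (δ := min 1 (ε / 9)) (by positivity)
  refine ⟨3 * (A.natDegree + r.natDegree), fun n => ⟨∑ i ∈ Finset.range (n + 1),
    A ^ i * r ^ (n + i) * (1 - A * r) ^ (2 * n - (n + i)) * C ((2 * n).choose (n + i) : ℝ), ?_,
    fun x hx => ?_⟩⟩
  · refine natDegree_sum_le_of_forall_le _ _ fun i hi => (natDegree_mul_C_le _ _).trans ?_
    have hi' : i ≤ n := Nat.lt_succ_iff.1 (Finset.mem_range.1 hi)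
    have h1 : (1 - A * r).natDegree ≤ A.natDegree + r.natDegree :=
      (natDegree_sub_le _ _).trans (max_le (by simp) natDegree_mul_le)
    have h2 := (natDegree_pow_le (p := A) (n := i)).trans (Nat.mul_le_mul_right _ hi')
    have h3 := (natDegree_pow_le (p := r) (n := n + i)).trans
      (Nat.mul_le_mul_right _ (show n + i ≤ 2 * n by omega))
    have h4 := (natDegree_pow_le (p := 1 - A * r) (n := 2 * n - (n + i))).trans
      (Nat.mul_le_mul (show 2 * n - (n + i) ≤ n by omega) h1)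
    refine natDegree_mul_le.trans ((add_le_add (natDegree_mul_le.trans (add_le_add h2 h3)) h4).trans ?_)
    nlinarith [Nat.zero_le (n * A.natDegree)]
  · have e := add_pow (A.eval x * r.eval x) (1 - A.eval x * r.eval x) (2 * n)
    rw [add_sub_cancel, one_pow, show 2 * n + 1 = n + (n + 1) by ring, Finset.sum_range_add] at e
    have e2 : (∑ i ∈ Finset.range (n + 1), A ^ i * r ^ (n + i) * (1 - A * r) ^ (2 * n - (n + i)) *
        C ((2 * n).choose (n + i) : ℝ)).eval x * A.eval x ^ n = ∑ i ∈ Finset.range (n + 1),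
          (A.eval x * r.eval x) ^ (n + i) * (1 - A.eval x * r.eval x) ^ (2 * n - (n + i)) *
            (2 * n).choose (n + i) := by
      rw [eval_finsetSum, Finset.sum_mul]
      refine Finset.sum_congr rfl fun i _ => ?_
      simp only [eval_mul, eval_pow, eval_sub, eval_one, eval_C]
      rw [mul_pow, pow_add (A.eval x)]
      ring
    rw [e2, sub_eq_iff_eq_add.2 e]
    exact (apx_tail (min_le_left _ _) (hr x hx) n).trans (pow_le_pow_left₀ (by positivity)
      (by linarith [min_le_right 1 (ε / 9)]) n)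

/-- The leading coefficient has no root in the interval. -/
theorem noroot {c : ℝ} {Φ : ℤ[X][X]} (hp : Prime Φ) (h1 : Φ.natDegree ≠ 0)
    (h0 : ∀ x ∈ II c, Φ.leadingCoeff.eval₂ (Int.castRingHom ℝ) x ≠ 0 →
      ∀ y : ℂ, ev (x : ℂ) y Φ = 0 → ∃ y' ∈ II c, y = (y' : ℝ)) :
    ∀ x ∈ II c, Φ.leadingCoeff.eval₂ (Int.castRingHom ℝ) x ≠ 0 := by
  intro ξ hξ hz
  have A0 : Φ.leadingCoeff ≠ 0 := leadingCoeff_ne_zero.2 hp.ne_zero
  obtain ⟨π, hπ, h2⟩ := apx_prime _ A0 hz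
  have fin : {x : ℝ | Φ.leadingCoeff.eval₂ (Int.castRingHom ℝ) x = 0}.Finite := by
    have := finite_setOfPred_isRoot ((Polynomial.map_ne_zero_iff
      (Int.castRingHom ℝ).injective_int).2 A0)
    simpa only [IsRoot.def, eval_map] using this
  have cl : ξ ∈ closure (Set.Ioo (c - 2) (c + 2) ∩
      (Set.univ \ {x : ℝ | Φ.leadingCoeff.eval₂ (Int.castRingHom ℝ) x = 0})) := by
    refine closure_minimal ((dense_univ.sdiff_finite fin).open_subset_closure_inter isOpen_Ioo)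
      isClosed_closure ?_
    rwa [closure_Ioo (by linarith)]
  have h3 : ∀ j, (Φ.coeff j).eval₂ (Int.castRingHom ℝ) ξ = 0 := fun j => by
    have k : |(Φ.coeff j).eval₂ (Int.castRingHom ℝ) ξ| ≤
        max (|c| + 2) 1 ^ Φ.natDegree * Φ.natDegree.choose (Φ.natDegree / 2) *
          |Φ.leadingCoeff.eval₂ (Int.castRingHom ℝ) ξ| := by
      refine closure_minimal (t := {x : ℝ | |(Φ.coeff j).eval₂ (Int.castRingHom ℝ) x| ≤
        max (|c| + 2) 1 ^ Φ.natDegree * Φ.natDegree.choose (Φ.natDegree / 2) *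
          |Φ.leadingCoeff.eval₂ (Int.castRingHom ℝ) x|}) (fun x hx => ?_)
        (isClosed_le (Polynomial.continuous_eval₂ _ _).abs
          (continuous_const.mul (Polynomial.continuous_eval₂ _ _).abs)) cl
      have k1 : eval₂RingHom (Int.castRingHom ℂ) (x : ℂ) Φ.leadingCoeff ≠ 0 := by
        rw [coe_eval₂RingHom, ← apx_coe]
        exact Complex.ofReal_ne_zero.2 hx.2.2
      have k2 := leadingCoeff_map_of_leadingCoeff_ne_zero _ k1
      have k3 := apx_bd (B := |c| + 2) (leadingCoeff_ne_zero.1 (k2 ▸ k1)) natDegree_map_le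
        (fun z e => by
          obtain ⟨y, hy, rfl⟩ := h0 x (Set.Ioo_subset_Icc_self hx.1) hx.2.2 z ((e2_eq _ _ _ _).trans e)
          rw [Complex.norm_real]
          exact abs_le_of_II hy) j
      rwa [k2, coeff_map, coe_eval₂RingHom, ← apx_coe, ← apx_coe, Complex.norm_real,
        Complex.norm_real] at k3
    rwa [hz, abs_zero, mul_zero, abs_nonpos_iff] at k
  exact hπ.not_isUnit (hp.irreducible.isPrimitive h1 π
    ((C_dvd_iff_dvd_coeff _ _).2 fun j => apx_dvd hπ h2 (h3 j)))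

end Pool.Agent.Lib.MP_1e748d_nt.Va
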