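import Pool.Agent.Lib.MP_1e748d_nt.Va.Ph

set_option autoImplicit false

namespace Pool.Agent.Lib.MP_1e748d_nt.Va

open Polynomial

lemma auxp_num (B D k : ℕ) : ∃ t s n1 n2 E : ℕ, 2 * t * B < t + s ∧
    4 * ((n1 + (t + s) * D) * (n2 + (t + s) * k)) ≤ 2 ^ t ∧
    s * ((n1 + (t + s) * D) * (n2 + (t + s) * k)) < (t + s) * n1 * n2 ∧
    n1 + (t + s) * D = E * D + 1 := by
  obtain ⟨a, ha⟩ : ∃ a, a = (6 * B + 7) * (2 * B + 2) * D := ⟨_, rfl⟩
  obtain ⟨b, hb⟩ : ∃ b, b = (6 * B + 7) * (2 * B + 2) * k := ⟨_, rfl⟩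
  obtain ⟨u, hu⟩ : ∃ u, u = 36 * ((a + 1) * (b + 1)) := ⟨_, rfl⟩
  have u0 : 0 < u := by rw [hu]; positivity
  refine ⟨3 * u, (2 * B + 1) * (3 * u), (6 * B + 6) * ((2 * B + 2) * (3 * u) * D) + 1,
    (6 * B + 6) * ((2 * B + 2) * (3 * u) * k) + 1, (6 * B + 7) * ((2 * B + 2) * (3 * u)),
    by nlinarith, ?_, ?_, by ring⟩
  · have h1 : u ^ 3 ≤ 2 ^ (3 * u) := by
      rw [pow_mul']
      exact Nat.pow_le_pow_left (Nat.lt_pow_self (by norm_num)).le 3
    have h2 : a * (3 * u) + 1 ≤ (a + 1) * (3 * u) := by nlinarith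
    have h3 : b * (3 * u) + 1 ≤ (b + 1) * (3 * u) := by nlinarith
    calc _ = 4 * ((a * (3 * u) + 1) * (b * (3 * u) + 1)) := by rw [ha, hb]; ring
      _ ≤ 4 * ((a + 1) * (3 * u) * ((b + 1) * (3 * u))) :=
        Nat.mul_le_mul_left _ (Nat.mul_le_mul h2 h3)
      _ = u ^ 2 * (36 * ((a + 1) * (b + 1))) := by ring
      _ = u ^ 3 := by rw [← hu]; ring
      _ ≤ _ := h1
  · rw [show 3 * u + (2 * B + 1) * (3 * u) = (2 * B + 2) * (3 * u) by ring]
    generalize (2 * B + 2) * (3 * u) * D = m1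
    generalize (2 * B + 2) * (3 * u) * k = m2
    have h1 : (6 * B + 6) * ((6 * B + 6) * m1 + 1 + m1) ≤ (6 * B + 7) * ((6 * B + 6) * m1 + 1) := by
      nlinarith
    have h2 : (6 * B + 6) * ((6 * B + 6) * m2 + 1 + m2) ≤ (6 * B + 7) * ((6 * B + 6) * m2 + 1) := by
      nlinarith
    have h3 : 0 < 3 * u * (((6 * B + 6) * m1 + 1) * ((6 * B + 6) * m2 + 1)) := by positivity
    generalize (6 * B + 6) * m1 + 1 + m1 = N1 at h1 ⊢
    generalize (6 * B + 6) * m2 + 1 + m2 = N2 at h2 ⊢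
    generalize (6 * B + 6) * m1 + 1 = n1 at h1 h3 ⊢
    generalize (6 * B + 6) * m2 + 1 = n2 at h2 h3 ⊢
    have h4 : (2 * B + 1) * (6 * B + 7) ^ 2 < (2 * B + 2) * (6 * B + 6) ^ 2 := by
      rw [show (2 * B + 2) * (6 * B + 6) ^ 2 =
        (2 * B + 1) * (6 * B + 7) ^ 2 + (12 * B ^ 2 + 34 * B + 23) by ring]
      exact Nat.lt_add_of_pos_right (by positivity)
    refine Nat.lt_of_mul_lt_mul_left (a := (6 * B + 6) ^ 2) ?_
    calc _ = (2 * B + 1) * (3 * u) * ((6 * B + 6) * N1 * ((6 * B + 6) * N2)) := by ring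
      _ ≤ (2 * B + 1) * (3 * u) * ((6 * B + 7) * n1 * ((6 * B + 7) * n2)) :=
        Nat.mul_le_mul_left _ (Nat.mul_le_mul h1 h2)
      _ = (2 * B + 1) * (6 * B + 7) ^ 2 * (3 * u * (n1 * n2)) := by ring
      _ < (2 * B + 2) * (6 * B + 6) ^ 2 * (3 * u * (n1 * n2)) := Nat.mul_lt_mul_of_pos_right h4 h3
      _ = _ := by ring

section

variable {R : Type} [CommRing R]

lemma auxp_deg {p q : R[X]} {d n : ℕ} (hp : p.natDegree ≤ d) (hq : q.degree < n) :
    (p * q).degree < (n + d : ℕ) := by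
  refine (degree_mul_le_of_le (degree_le_of_natDegree_le hp) le_rfl).trans_lt ?_
  rw [add_comm n, Nat.cast_add]
  exact WithBot.add_lt_add_left (WithBot.natCast_ne_bot d) hq

lemma auxp_mul {P Z : R[X][X]} {d k n1 n2 : ℕ} (h1 : ∀ j, (P.coeff j).natDegree ≤ d)
    (h2 : P.natDegree ≤ k) (h : Box n1 n2 Z) : Box (n1 + d) (n2 + k) (P * Z) := by
  refine ⟨auxp_deg h2 h.1, fun j => ?_⟩
  rw [coeff_mul, ← mem_degreeLT]
  exact Submodule.sum_mem _ fun i _ => mem_degreeLT.2 (auxp_deg (h1 _) (h.2 _))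

lemma auxp_C (r : R) {Z : R[X][X]} {n1 n2 : ℕ} (h : Box n1 n2 Z) : Box n1 n2 (C (C r) * Z) := by
  refine auxp_mul (d := 0) (k := 0) (fun j => ?_) (natDegree_C _).le h
  rw [coeff_C]
  split_ifs <;> simp

lemma auxp_sub {Y Z : R[X][X]} {n1 n2 : ℕ} (h : Box n1 n2 Y) (h' : Box n1 n2 Z) :
    Box n1 n2 (Y - Z) :=
  ⟨(degree_sub_le _ _).trans_lt (max_lt h.1 h'.1), fun j => by
    rw [coeff_sub]
    exact (degree_sub_le _ _).trans_lt (max_lt (h.2 j) (h'.2 j))⟩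

lemma auxp_pow {W : R[X][X]} {D : ℕ} (hD : ∀ j, (W.coeff j).natDegree ≤ D) (M : ℕ) :
    ∀ j, ((W ^ M).coeff j).natDegree ≤ M * D := by
  induction M with
  | zero =>
    intro j
    rw [pow_zero, coeff_one]
    split_ifs <;> simp
  | succ M ih =>
    intro j
    rw [pow_succ, coeff_mul, add_mul, one_mul]
    exact natDegree_sum_le_of_forall_le _ _ fun i _ =>
      natDegree_mul_le.trans (add_le_add (ih _) (hD _))

end

lemma auxp_toR {Z : ℤ[X][X]} {n1 n2 : ℕ} (h : Box n1 n2 Z) : Box n1 n2 (toR Z) :=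
  ⟨degree_map_le.trans_lt h.1, fun j => by
    rw [coeff_map]
    exact degree_map_le.trans_lt (h.2 j)⟩

lemma auxp_fam (n1 n2 q : ℕ) : ∃ Z : (Fin n2 → Fin n1 → Fin q) → ℤ[X][X],
    (0 < n1 → ∀ z, Box n1 n2 (Z z)) ∧
      ∀ z (b : Fin n2) (a : Fin n1), ((Z z).coeff b).coeff a = (z b a : ℕ) := by
  classical
  refine ⟨fun z => ofFn n2 fun b => ofFn n1 fun a => (z b a : ℕ),
    fun h z => ⟨ofFn_degree_lt _, fun j => ?_⟩, fun z b a => ?_⟩
  · by_cases e : j < n2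
    · rw [ofFn_coeff_eq_val_of_lt _ e]
      exact ofFn_degree_lt _
    · rw [ofFn_coeff_eq_zero_of_ge _ (not_lt.1 e), degree_zero]
      exact WithBot.bot_lt_coe _
  · rw [ofFn_coeff_eq_val_of_lt _ b.2, ofFn_coeff_eq_val_of_lt _ a.2]

/-- The auxiliary polynomial: in the ideal `(W ^ M, p ^ M)` and small on the square. -/
theorem aux (c : ℝ) (B D : ℕ) {p : ℕ} (hp : 2 ≤ p) (W : ℤ[X][X]) (hW : W.Monic)
    (hD : ∀ j, (W.coeff j).natDegree ≤ D) :
    ∃ (M E : ℕ) (F Z f : ℤ[X][X]), F ≠ 0 ∧ F = W ^ M * Z - (p : ℤ[X][X]) ^ M * f ∧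
      (∀ j, (F.coeff j).natDegree ≤ E * D) ∧
      ∀ x ∈ II c, ∀ y ∈ II c, |ev x y F| ^ B < (p : ℝ) ^ M := by
  have p0 : 0 < p := by omega
  have p1 : (0 : ℝ) < p := by exact_mod_cast p0
  have p2 : (p : ℂ) ≠ 0 := by exact_mod_cast p0.ne'
  obtain ⟨t, s, n1, n2, E, h1, h2, h3, h4⟩ := auxp_num B D W.natDegree
  obtain ⟨Z, z1, z2⟩ := auxp_fam n1 n2 (p ^ (t + s))
  have n0 : 0 < n1 := Nat.pos_of_ne_zero fun e => by simp [e] at h3
  have b1 := fun z => auxp_mul (auxp_pow hD (t + s)) natDegree_pow_le (z1 n0 z)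
  obtain ⟨z, -, z', -, hz, f, f1, f2⟩ := ph c _ _ (p ^ s) (by positivity) Finset.univ
    (fun z => C (C ((p : ℝ) ^ (t + s))⁻¹) * toR (W ^ (t + s) * Z z))
    (fun z _ => auxp_C _ (auxp_toR (b1 z))) (by
      simp only [Finset.card_univ, Fintype.card_fun, Fintype.card_fin, ← pow_mul]
      exact Nat.pow_lt_pow_right hp h3)
  refine ⟨t + s, E, _, Z z - Z z', f, fun e => hz ?_, rfl, fun j => ?_, fun x hx y hy => ?_⟩
  · have a1 := congrArg (map (mapRingHom (Int.castRingHom (ZMod (p ^ (t + s))))))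
      (sub_eq_zero.1 e)
    have a2 : (p : (ZMod (p ^ (t + s)))[X][X]) ^ (t + s) = 0 := by
      exact_mod_cast CharP.cast_eq_zero (ZMod (p ^ (t + s)))[X][X] (p ^ (t + s))
    rw [Polynomial.map_mul, Polynomial.map_mul, Polynomial.map_pow _ (t + s) (p := (p : ℤ[X][X])),
      Polynomial.map_natCast, a2, zero_mul, ((hW.pow _).map _).mul_right_eq_zero_iff] at a1
    funext b a
    have a3 := congrArg (fun r => (r.coeff b).coeff a) a1
    simp only [coeff_map, coe_mapRingHom, coeff_sub, z2, coeff_zero, map_sub, map_natCast,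
      sub_eq_zero, ZMod.natCast_eq_natCast_iff', Nat.mod_eq_of_lt (Fin.is_lt _)] at a3
    exact Fin.ext a3
  · have a1 := (auxp_sub (auxp_sub (b1 z) (b1 z')) (auxp_C ((p : ℤ) ^ (t + s)) f1)).2 j
    rw [← mul_sub, map_pow, map_pow, map_natCast, map_natCast, h4] at a1
    exact natDegree_le_iff_coeff_eq_zero.2 fun N hN =>
      coeff_eq_zero_of_degree_lt (a1.trans_le (Nat.cast_le.2 hN))
  · have a1 : ∑ b ∈ Finset.range (n2 + (t + s) * W.natDegree),
        ‖(mo c b).eval₂ Complex.ofRealHom y‖ ≤ (n2 + (t + s) * W.natDegree : ℕ) * 2 := by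
      refine (Finset.sum_le_card_nsmul _ _ 2 fun b _ => ?_).trans (by simp)
      have := eval₂_hom Complex.ofRealHom (p := mo c b) y
      rw [Complex.ofRealHom_eq_coe, Complex.ofRealHom_eq_coe] at this
      rw [this, Complex.norm_real]
      exact abs_mo_le hy b
    have a2 := (f2 x hx y).trans (mul_le_mul_of_nonneg_left a1 (by positivity))
    have a3 : ((ev x y (W ^ (t + s) * (Z z - Z z') - (p : ℤ[X][X]) ^ (t + s) * f) : ℝ) : ℂ) = (p : ℂ) ^ (t + s) *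
        (evR x y (C (C ((p : ℝ) ^ (t + s))⁻¹) * toR (W ^ (t + s) * Z z)) -
          evR x y (C (C ((p : ℝ) ^ (t + s))⁻¹) * toR (W ^ (t + s) * Z z')) -
            ev (x : ℂ) (y : ℂ) f) := by
      rw [ofReal_ev, map_mul (evR x y), map_mul (evR x y), evR_toR, evR_toR, e2_C, eval₂_C]
      simp only [map_sub, map_mul, map_pow, map_natCast, map_inv₀]
      field_simp
    have a4 : |ev x y (W ^ (t + s) * (Z z - Z z') - (p : ℤ[X][X]) ^ (t + s) * f)| ≤ (p : ℝ) ^ (2 * t) := by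
      rw [← Real.norm_eq_abs, ← Complex.norm_real, a3, norm_mul, norm_pow, Complex.norm_natCast]
      refine (mul_le_mul_of_nonneg_left a2 (by positivity)).trans ?_
      have a5 : (4 : ℝ) * ((n1 + (t + s) * D : ℕ) * (n2 + (t + s) * W.natDegree : ℕ)) ≤ p ^ t := by
        exact_mod_cast h2.trans (Nat.pow_le_pow_left hp t)
      generalize ((n1 + (t + s) * D : ℕ) : ℝ) = N1 at a5 ⊢
      generalize ((n2 + (t + s) * W.natDegree : ℕ) : ℝ) = N2 at a5 ⊢
      calc _ = (p : ℝ) ^ t * (4 * (N1 * N2)) := by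
            push_cast
            field_simp
            ring
        _ ≤ (p : ℝ) ^ t * p ^ t := mul_le_mul_of_nonneg_left a5 (by positivity)
        _ = _ := by rw [two_mul, pow_add]
    refine (pow_le_pow_left₀ (abs_nonneg _) a4 B).trans_lt ?_
    rw [← pow_mul]
    exact pow_lt_pow_right₀ (by exact_mod_cast hp) h1

end Pool.Agent.Lib.MP_1e748d_nt.Va
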