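import Pool.Agent.Lib.MP_1e748d_nt.Va.Conc

set_option autoImplicit false

namespace Pool.Agent.Lib.MP_1e748d_nt.Va

open Polynomial

section Sm

variable {L : Type} [Field L] {V : ValuationSubring L} {p r : ℕ}

/-- The `r`-th power of `d` is divisible by `p` in the valuation ring `V`. -/
def Sm (V : ValuationSubring L) (p r : ℕ) (d : L) : Prop := V.valuation d ^ r ≤ V.valuation p

lemma Sm.add {a b : L} (ha : Sm V p r a) (hb : Sm V p r b) : Sm V p r (a + b) := by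
  rcases le_max_iff.mp (V.valuation.map_add a b) with h | h
  exacts [(pow_le_pow_left' h r).trans ha, (pow_le_pow_left' h r).trans hb]

lemma Sm.mul {a x : L} (ha : Sm V p r a) (hx : x ∈ V) : Sm V p r (a * x) := by
  refine le_trans (pow_le_pow_left' ?_ r) ha
  rw [map_mul]
  exact mul_le_of_le_one_right' ((V.valuation_le_one_iff x).mpr hx)

lemma Sm.neg {a : L} (ha : Sm V p r a) : Sm V p r (-a) := by
  rwa [Sm, Valuation.map_neg]

lemma sm_p (hr : 0 < r) : Sm V p r p :=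
  pow_le_of_le_one zero_le ((V.valuation_le_one_iff _).mpr (natCast_mem V p)) hr.ne'

lemma sm_sum {κ : Type} (hr : 0 < r) (s : Finset κ) (f : κ → L) (h : ∀ i ∈ s, Sm V p r (f i)) :
    Sm V p r (∑ i ∈ s, f i) :=
  Finset.sum_induction f (Sm V p r) (fun _ _ => Sm.add)
    (by simpa using (sm_p (V := V) (p := p) hr).mul V.zero_mem) h

lemma sm_iff (hp : (p : L) ≠ 0) {d : L} : Sm V p r d ↔ ∃ z ∈ V, d ^ r = p * z := by
  rw [Sm, ← map_pow]
  constructor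
  · intro h
    refine ⟨d ^ r / p, (V.valuation_le_one_iff _).mp ?_, by field_simp⟩
    rw [map_div₀]
    exact div_le_one_of_le₀ h zero_le
  · rintro ⟨z, hz, e⟩
    rw [e, map_mul]
    exact mul_le_of_le_one_right' ((V.valuation_le_one_iff z).mpr hz)

lemma sm_prod {κ : Type} {s : Finset κ} (hs : s.Nonempty) {k : ℕ} (hk : s.card ≤ k) (f : κ → L)
    (hf : ∀ i ∈ s, f i ∈ V) (h : Sm V p r (∏ i ∈ s, f i)) : ∃ i ∈ s, Sm V p (k * r) (f i) := by
  obtain ⟨i, hi, hm⟩ := s.exists_min_image (fun i => V.valuation (f i)) hs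
  refine ⟨i, hi, le_trans ?_ h⟩
  rw [pow_mul, map_prod]
  refine pow_le_pow_left' ?_ r
  exact (pow_le_pow_of_le_one zero_le ((V.valuation_le_one_iff _).mpr (hf i hi)) hk).trans
    (Finset.pow_card_le_prod s _ _ hm)

lemma Sm.pow {a b : L} (h : Sm V p r (a - b)) (ha : a ∈ V) (hb : b ∈ V) (n : ℕ) :
    Sm V p r (a ^ n - b ^ n) := by
  rw [← (Commute.all a b).mul_geom_sum₂]
  exact h.mul (sum_mem fun i _ => mul_mem (pow_mem ha _) (pow_mem hb _))

lemma sm_frob {κ : Type} (hp : p.Prime) (hr : 0 < r) (e : ℕ) (s : Finset κ) (f : κ → L)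
    (hf : ∀ i, f i ∈ V) : Sm V p r ((∑ i ∈ s, f i) ^ p ^ e - ∑ i ∈ s, f i ^ p ^ e) := by
  classical
  induction s using Finset.induction_on with
  | empty => simpa [hp.ne_zero] using (sm_p (V := V) (p := p) hr).mul V.zero_mem
  | insert i s hi ih =>
    have hs : ∑ i ∈ s, f i ∈ V := sum_mem fun i _ => hf i
    obtain ⟨t, ht⟩ := exists_add_pow_prime_pow_eq hp (⟨f i, hf i⟩ : V) ⟨_, hs⟩ e
    have h1 : (f i + ∑ i ∈ s, f i) ^ p ^ e = f i ^ p ^ e + (∑ i ∈ s, f i) ^ p ^ e +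
        p * f i * (∑ i ∈ s, f i) * t := by simpa using congrArg Subtype.val ht
    rw [Finset.sum_insert hi, Finset.sum_insert hi, h1]
    convert ih.add ((((sm_p hr).mul (hf i)).mul hs).mul t.2) using 1
    ring

end Sm

section Orb

variable {L : Type} [Field L] [NumberField L] {N : Subgroup (L ≃ₐ[ℚ] L)}

/-- `z` lies in the orbit of `y` under `N`. -/
def Rl (N : Subgroup (L ≃ₐ[ℚ] L)) (y z : L) : Prop := ∃ n ∈ N, n y = z

lemma Rl.refl (y : L) : Rl N y y := ⟨1, N.one_mem, rfl⟩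

lemma Rl.symm {y z : L} (h : Rl N y z) : Rl N z y := by
  obtain ⟨n, hn, rfl⟩ := h
  exact ⟨n⁻¹, N.inv_mem hn, by simp⟩

lemma Rl.trans {x y z : L} (h : Rl N x y) (h' : Rl N y z) : Rl N x z := by
  obtain ⟨n, hn, rfl⟩ := h
  obtain ⟨n', hn', rfl⟩ := h'
  exact ⟨n' * n, N.mul_mem hn' hn, rfl⟩

lemma Rl.map [hN : N.Normal] {y z : L} (h : Rl N y z) (g : L ≃ₐ[ℚ] L) : Rl N (g y) (g z) := by
  obtain ⟨n, hn, rfl⟩ := h
  exact ⟨g * n * g⁻¹, hN.conj_mem n hn g, by simp⟩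

lemma Rl.rho {y z : L} (h : Rl N y z) (m : ℤ) : Rl N (m - y) (m - z) := by
  obtain ⟨n, hn, rfl⟩ := h
  exact ⟨n, hn, by simp⟩

open Classical in
/-- The orbit of `y` under `N`. -/
noncomputable def orb (N : Subgroup (L ≃ₐ[ℚ] L)) (y : L) : Finset L :=
  (Finset.univ.filter (· ∈ N)).image fun n => n y

lemma mem_orb {y z : L} : z ∈ orb N y ↔ Rl N y z := by
  simp [orb, Rl]

lemma orb_map [N.Normal] (y : L) (g : L ≃ₐ[ℚ] L) :
    orb N (g y) = (orb N y).map ⟨g, g.injective⟩ := by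
  ext z
  rw [Finset.mem_map, mem_orb]
  refine ⟨fun h => ⟨g⁻¹ z, mem_orb.mpr (by simpa using h.map g⁻¹), by simp⟩, ?_⟩
  rintro ⟨w, hw, rfl⟩
  exact (mem_orb.mp hw).map g

lemma orb_eq {y z : L} (h : Rl N y z) : orb N z = orb N y := by
  ext w
  rw [mem_orb, mem_orb]
  exact ⟨h.trans, h.symm.trans⟩

lemma Rl.int {y z : L} (h : Rl N y z) (hy : IsIntegral ℤ y) : IsIntegral ℤ z := by
  obtain ⟨n, -, rfl⟩ := h
  exact map_isIntegral_int (n : L →+* L) hy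

/-- A congruence on the fixed field of `N` moves to the orbits of `N`. -/
lemma blk_step [N.Normal] {V : ValuationSubring L} (hV : ∀ x, IsIntegral ℤ x → x ∈ V) {p r k : ℕ}
    (hp : p.Prime) (hr : 0 < r) (e : ℕ) (s : L ≃ₐ[ℚ] L)
    (h : ∀ x, IsIntegral ℤ x → (∀ n ∈ N, n x = x) → Sm V p r (s x - x ^ p ^ e))
    {y : L} (hy : IsIntegral ℤ y) (hk : (orb N y).card ≤ k) :
    ∃ w, Rl N y w ∧ Sm V p (k * r) (s w - y ^ p ^ e) := by
  obtain ⟨f, hf⟩ : ∃ f : L[X], f = ∏ w ∈ orb N y, (X - C w) := ⟨_, rfl⟩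
  have hmap : ∀ g : L ≃ₐ[ℚ] L, f.map (g : L →+* L) = ∏ w ∈ orb N y, (X - C (g w)) := fun g => by
    simp [hf, Polynomial.map_prod]
  have hint : ∀ i, IsIntegral ℤ (f.coeff i) := fun i => by
    have h1 : f ∈ lifts (integralClosure ℤ L).val.toRingHom := by
      rw [hf]
      refine Subsemiring.prod_mem _ fun w hw => ?_
      exact ⟨X - C ⟨w, (mem_orb.mp hw).int hy⟩, by simp⟩
    obtain ⟨a, ha⟩ := (lifts_iff_coeff_lifts f).mp h1 i
    exact ha ▸ a.2
  have hfix : ∀ i, ∀ n ∈ N, n (f.coeff i) = f.coeff i := fun i n hn => by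
    have h1 := hmap n
    have h2 := Finset.prod_map (orb N y) ⟨n, n.injective⟩ fun w => X - C w
    rw [← orb_map, orb_eq ⟨n, hn, rfl⟩, ← hf] at h2
    have h3 := congrArg (coeff · i) (h1.trans h2.symm)
    simpa using h3
  have hy' := hV y hy
  have h0 : ∑ i ∈ Finset.range (f.natDegree + 1), f.coeff i * y ^ i = 0 := by
    rw [← eval_eq_sum_range, hf, eval_prod]
    exact Finset.prod_eq_zero (mem_orb.mpr (Rl.refl y)) (by simp)
  have h1 := (sm_frob (V := V) hp hr e (Finset.range (f.natDegree + 1))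
    (fun i => f.coeff i * y ^ i) fun i => mul_mem (hV _ (hint i)) (pow_mem hy' i)).neg
  have h2 := sm_sum hr (Finset.range (f.natDegree + 1)) _ fun i _ =>
    (h _ (hint i) (hfix i)).mul (pow_mem (pow_mem hy' (p ^ e)) i)
  have h3 : Sm V p r (∏ w ∈ orb N y, (y ^ p ^ e - s w)) := by
    convert h2.add h1 using 1
    have h4 := congrArg (eval (y ^ p ^ e)) (hmap s)
    rw [eval_prod, eval_map, eval₂_eq_sum_range] at h4
    rw [h0, zero_pow (pow_ne_zero e hp.ne_zero), zero_sub, neg_neg, ← Finset.sum_add_distrib]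
    simp only [eval_sub, eval_X, eval_C] at h4
    rw [← h4]
    refine Finset.sum_congr rfl fun i _ => ?_
    rw [mul_pow, pow_right_comm]
    simp [sub_mul]
  obtain ⟨w, hw, h5⟩ := sm_prod ⟨y, mem_orb.mpr (Rl.refl y)⟩ hk _ (fun w hw => sub_mem
    (pow_mem hy' _) (hV _ (map_isIntegral_int (s : L →+* L) ((mem_orb.mp hw).int hy)))) h3
  exact ⟨w, mem_orb.mp hw, by simpa using h5.neg⟩

end Orb

/-- The local alternative relative to a normal subgroup with orbits of bounded size. -/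
theorem local_rel (B b k : ℕ) (hb : 0 < b) : ∃ p r q : ℕ, p.Prime ∧ 2 ≤ q ∧
    ∀ (L : Type) [Field L] [NumberField L] [IsGalois ℚ L] (A N : Subgroup (L ≃ₐ[ℚ] L)),
    N.Normal → A.index ≤ B → (∀ g ∈ A, ∀ h ∈ A, (g ^ b * h)⁻¹ * (h * g ^ b) ∈ N) →
    ∃ V : ValuationSubring L, (∀ x, IsIntegral ℤ x → x ∈ V) ∧ (∀ z ∈ V, (p : L) * z ≠ 1) ∧
      ((∃ σ : L ≃ₐ[ℚ] L, (∀ h ∈ A, (σ * h)⁻¹ * (h * σ) ∈ N) ∧ ∀ y, IsIntegral ℤ y →
          (orb N y).card ≤ k → ∃ w, Rl N y w ∧ Sm V p r (σ w - y ^ q)) ∨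
       (∃ τ : L ≃ₐ[ℚ] L, (∀ h ∈ A, (τ * h)⁻¹ * (h * τ) ∈ N) ∧ τ ∉ N ∧
          (∃ j, τ ^ (2 * j + 1) ∈ N) ∧ ∀ y, IsIntegral ℤ y →
          (orb N y).card ≤ k → ∃ w, Rl N y w ∧ Sm V p r (τ w - y))) := by
  obtain ⟨p, r, q, hp, hr, hq, ⟨e, rfl⟩, H⟩ := local_out B b hb
  refine ⟨p, k * r, p ^ e, hp, hq, fun L _ _ _ A N hN hB hA => ?_⟩
  let M := IntermediateField.fixedField N
  have : IsGalois ℚ M := IsGalois.of_fixedField_normal_subgroup N
  let res : (L ≃ₐ[ℚ] L) →* (M ≃ₐ[ℚ] M) := AlgEquiv.restrictNormalHom M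
  have hres : ∀ (g : L ≃ₐ[ℚ] L) (x : M), (res g x : L) = g x := fun g x =>
    AlgEquiv.restrictNormal_commutes g M x
  have hsur : Function.Surjective res := AlgEquiv.restrictNormalHom_surjective L
  have hker : ∀ g, res g = 1 ↔ g ∈ N := fun g => by
    rw [← IntermediateField.fixingSubgroup_fixedField N, IntermediateField.mem_fixingSubgroup_iff,
      AlgEquiv.ext_iff]
    refine ⟨fun h x hx => ?_, fun h x => Subtype.ext ?_⟩
    · exact (hres g ⟨x, hx⟩).symm.trans (congrArg Subtype.val (h ⟨x, hx⟩))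
    · exact (hres g x).trans (h x x.2)
  have hcom : ∀ g h, res g * res h = res h * res g ↔ (g * h)⁻¹ * (h * g) ∈ N := fun g h => by
    rw [← hker, map_mul, map_inv, inv_mul_eq_one, map_mul, map_mul]
  obtain ⟨R, hR, h3, hout⟩ := H M (A.map res)
    ((Nat.le_of_dvd (Nat.pos_of_ne_zero A.index_ne_zero_of_finite)
      (A.index_map_dvd hsur)).trans hB) (by
    rintro _ ⟨g, hg, rfl⟩ _ ⟨h, hh, rfl⟩
    rw [← map_pow]
    exact (hcom _ _).mpr (hA g hg h hh))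
  have hp0 : (p : L) ≠ 0 := Nat.cast_ne_zero.mpr hp.ne_zero
  obtain ⟨V, hV1, hV2⟩ := Ideal.image_subset_nonunits_valuationSubring
    (A := R.map (algebraMap M L)) (Ideal.span {(p : R.map (algebraMap M L))}) (by
      rw [Ne, Ideal.span_singleton_eq_top, isUnit_iff_exists_inv]
      rintro ⟨⟨_, z, hz, rfl⟩, h⟩
      refine h3 z hz ((algebraMap M L).injective ?_)
      simpa using congrArg Subtype.val h)
  have hpV : V.valuation p < 1 :=
    V.mem_nonunits_iff.mp (hV2 ⟨p, Ideal.mem_span_singleton_self _, by simp⟩)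
  have hV : ∀ x, IsIntegral ℤ x → x ∈ V := fun x hx => by
    obtain ⟨y, rfl⟩ := IsIntegrallyClosed.isIntegral_iff.mp (hx.tower_top (A := V))
    exact y.2
  have key : ∀ (s : L ≃ₐ[ℚ] L) (n : ℕ),
      (∀ x : M, IsIntegral ℤ x → ∃ z ∈ R, (res s x - x ^ n) ^ r = p * z) →
      ∀ x, IsIntegral ℤ x → (∀ n ∈ N, n x = x) → Sm V p r (s x - x ^ n) := by
    intro s n h x hx hfix
    obtain ⟨z, hz, e⟩ := h ⟨x, fun g => hfix g.1 g.2⟩
      ((isIntegral_algHom_iff (algebraMap M L).toIntAlgHom (algebraMap M L).injective).mp hx)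
    refine (sm_iff hp0).mpr ⟨z, hV1 ⟨z, hz, rfl⟩, ?_⟩
    simpa [hres] using congrArg Subtype.val e
  refine ⟨V, hV, fun z hz e => ?_, ?_⟩
  · have h1 := congrArg V.valuation e
    rw [map_mul, map_one] at h1
    exact (mul_lt_one_of_lt_of_le hpV ((V.valuation_le_one_iff z).mpr hz)).ne h1
  rcases hout with ⟨σ, h1, h2⟩ | ⟨τ, h1, h2, ⟨j, hj⟩, h4⟩
  · obtain ⟨σ, rfl⟩ := hsur σ
    exact Or.inl ⟨σ, fun h hh => (hcom _ _).mp (h1 _ ⟨h, hh, rfl⟩),
      fun y hy hk => blk_step hV hp hr e σ (key σ _ h2) hy hk⟩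
  · obtain ⟨τ, rfl⟩ := hsur τ
    refine Or.inr ⟨τ, fun h hh => (hcom _ _).mp (h1 _ ⟨h, hh, rfl⟩), mt (hker τ).mpr h2,
      ⟨j, (hker _).mp (by rw [map_pow, ← hj, pow_orderOf_eq_one])⟩, fun y hy hk => ?_⟩
    simpa using blk_step hV hp hr 0 τ (key τ _ (by simpa using h4)) hy hk

end Pool.Agent.Lib.MP_1e748d_nt.Va
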