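import Pool.Agent.Lib.MP_1e748d_nt.Va.Defs

set_option autoImplicit false

namespace Pool.Agent.Lib.MP_1e748d_nt.Va

open Polynomial

/-- The rescaled polynomial. -/
noncomputable def ceR (a l m : ℝ) (f : ℝ[X]) : ℝ[X] := C a * (taylor m f).comp (C l * X)

lemma ce_eval (a l m x : ℝ) (f : ℝ[X]) : (ceR a l m f).eval x = a * f.eval (l * x + m) := by
  simp [ceR, eval_comp, taylor_eval]

lemma ce_coeff (a l m : ℝ) {L : ℕ} {f : ℝ[X]} (hf : f.natDegree ≤ L) :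
    (ceR a l m f).coeff L = a * (f.coeff L * l ^ L) := by
  rw [ceR, coeff_C_mul, comp_C_mul_X_coeff]
  rcases hf.eq_or_lt with rfl | h
  · rw [coeff_taylor_natDegree, leadingCoeff]
  · rw [coeff_eq_zero_of_natDegree_lt h, coeff_eq_zero_of_natDegree_lt (by rwa [natDegree_taylor])]

lemma ce_deg (a l m : ℝ) {L : ℕ} {f : ℝ[X]} (hf : f.natDegree ≤ L) :
    (ceR a l m f).degree ≤ L := by
  refine (degree_le_iff_coeff_zero _ _).2 fun n hn => ?_
  have h : f.natDegree < n := hf.trans_lt (by exact_mod_cast hn)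
  rw [ce_coeff a l m h.le, coeff_eq_zero_of_natDegree_lt h, zero_mul, mul_zero]

lemma ce_bd {B l m a : ℝ} (hB : 0 < B) (ha : |a| = B⁻¹) {f : ℝ[X]}
    (hb : ∀ x ∈ Set.Icc (-1 : ℝ) 1, |f.eval (l * x + m)| ≤ B) :
    ∀ x ∈ Set.Icc (-1 : ℝ) 1, |(ceR a l m f).eval x| ≤ 1 := fun x hx => by
  rw [ce_eval, abs_mul, ha, inv_mul_le_iff₀ hB, mul_one]
  exact hb x hx

lemma ce_gen {B l m : ℝ} (hB : 0 < B) {L : ℕ} {f : ℝ[X]} (hf : f.natDegree ≤ L)
    (hb : ∀ x ∈ Set.Icc (-1 : ℝ) 1, |f.eval (l * x + m)| ≤ B) :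
    |f.coeff L * l ^ L| ≤ B * 2 ^ (L - 1) := by
  have h0 : |B⁻¹| = B⁻¹ := abs_of_pos (inv_pos.2 hB)
  have h1 := Chebyshev.coeff_le_of_forall_abs_le_one (ce_deg B⁻¹ l m hf) (ce_bd hB h0 hb)
  have h2 := Chebyshev.coeff_le_of_forall_abs_le_one (ce_deg (-B⁻¹) l m hf)
    (ce_bd hB (by rw [abs_neg, h0]) hb)
  rw [ce_coeff _ _ _ hf] at h1 h2
  rw [neg_mul, ← mul_neg] at h2
  rw [inv_mul_le_iff₀ hB] at h1 h2
  exact abs_le.2 ⟨by linarith, h1⟩

lemma ce_mem {c x : ℝ} (hx : x ∈ Set.Icc (-1 : ℝ) 1) : 2 * x + c ∈ II c :=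
  ⟨by linarith [hx.1], by linarith [hx.2]⟩

lemma ce_pow {L : ℕ} (hL : L ≠ 0) : (2 : ℝ) ^ L = 2 * 2 ^ (L - 1) := by
  rw [← pow_succ', Nat.sub_add_cancel (Nat.pos_of_ne_zero hL)]

/-- Extremal property of the Chebyshev polynomial on the interval. -/
theorem ce1 {c μ : ℝ} {L : ℕ} (hL : L ≠ 0) {f : ℝ[X]} (hf : f.natDegree ≤ L)
    (hb : ∀ x ∈ II c, |f.eval x| ≤ 2 * μ) : |f.coeff L| ≤ μ := by
  have h0 : 0 ≤ 2 * μ := (abs_nonneg _).trans (hb c (mem_II.2 (by simp)))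
  refine le_of_forall_pos_le_add fun δ hδ => ?_
  have h1 := ce_gen (B := 2 * (μ + δ)) (l := 2) (m := c) (by linarith) hf fun x hx =>
    (hb _ (ce_mem hx)).trans (by linarith)
  rw [abs_mul, abs_of_pos (by positivity : (0 : ℝ) < 2 ^ L), ce_pow hL] at h1
  have h2 : (0 : ℝ) < 2 ^ (L - 1) := by positivity
  nlinarith

theorem ce2 {c μ : ℝ} {L : ℕ} (hL : L ≠ 0) (hμ : 0 < μ) {f : ℝ[X]} (hf : f.natDegree ≤ L)
    (hb : ∀ x ∈ II c, |f.eval x| ≤ 2 * μ) (he : f.coeff L = μ) : f = C μ * ch c L := by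
  have h0 : 0 < 2 * μ := by linarith
  have h1 := (Chebyshev.coeff_eq_iff_of_forall_abs_le_one (ce_deg (2 * μ)⁻¹ 2 c hf)
    (ce_bd h0 (abs_of_pos (inv_pos.2 h0)) fun x hx => hb _ (ce_mem hx))).1 (by
      rw [ce_coeff _ _ _ hf, he, ce_pow hL]
      field_simp)
  refine Polynomial.funext fun y => ?_
  have h2 := congrArg (eval ((y - c) / 2)) h1
  have h3 := congrArg (eval ((y - c) / 2)) (Chebyshev.C_comp_two_mul_X ℝ L)
  rw [ce_eval, show 2 * ((y - c) / 2) + c = y by ring, inv_mul_eq_iff_eq_mul₀ h0.ne'] at h2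
  simp only [eval_comp, eval_mul, eval_ofNat, eval_X] at h3
  rw [show 2 * ((y - c) / 2) = y - c by ring] at h3
  rw [eval_mul, eval_C, ch_eval, h2, h3]
  ring

/-- A non-zero integer polynomial is at most exponentially small on an interval. -/
theorem lb {s t : ℝ} (hst : s < t) : ∃ κ : ℝ, 0 < κ ∧ ∀ (ω : ℕ) (h : ℤ[X]), h ≠ 0 →
    h.natDegree < ω → ∃ x ∈ Set.Icc s t, κ ^ ω ≤ |h.eval₂ (Int.castRingHom ℝ) x| := by
  have hl : 0 < (t - s) / 2 := by linarith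
  refine ⟨min (1 / 2) ((t - s) / 2 / 2), by positivity, fun ω h h0 hω => ?_⟩
  set κ := min (1 / 2) ((t - s) / 2 / 2) with hκ
  have k0 : 0 < κ := by positivity
  have k1 : κ < 1 := (min_le_left _ _).trans_lt (by norm_num)
  have k2 : κ * 2 ≤ (t - s) / 2 := by linarith [min_le_right (1 / 2) ((t - s) / 2 / 2)]
  by_contra! hc
  have h1 := ce_gen (B := κ ^ ω) (l := (t - s) / 2) (m := (s + t) / 2) (by positivity)
    (f := h.map (Int.castRingHom ℝ)) natDegree_map_le fun x hx => by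
      rw [eval_map]
      exact (hc _ ⟨by nlinarith [hx.1], by nlinarith [hx.2]⟩).le
  have h2 : (1 : ℝ) ≤ |(h.map (Int.castRingHom ℝ)).coeff h.natDegree| := by
    rw [coeff_map, eq_intCast]
    exact_mod_cast Int.one_le_abs (leadingCoeff_ne_zero.2 h0)
  have h3 : κ ^ h.natDegree * 2 ^ h.natDegree ≤ ((t - s) / 2) ^ h.natDegree := by
    rw [← mul_pow]
    exact pow_le_pow_left₀ (by positivity) k2 _
  have h4 : (2 : ℝ) ^ (h.natDegree - 1) ≤ 2 ^ h.natDegree :=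
    pow_le_pow_right₀ (by norm_num) (Nat.sub_le _ _)
  have h5 := pow_lt_pow_right_of_lt_one₀ k0 k1 hω
  rw [abs_mul, abs_of_pos (pow_pos hl _)] at h1
  have h6 := le_mul_of_one_le_left (pow_pos hl h.natDegree).le h2
  have h7 := mul_le_mul_of_nonneg_left h4 (pow_pos k0 ω).le
  have h8 := mul_lt_mul_of_pos_right h5 (by positivity : (0 : ℝ) < 2 ^ h.natDegree)
  linarith

lemma ce_norm (w₀ : ℂ) (S : Finset ℂ) : w₀ ∉ S → ∀ (a : ℂ → ℂ) (B : ℝ), a w₀ ≠ 0 →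
    (∀ k, 0 < k → ‖a w₀ * w₀ ^ k + ∑ w ∈ S, a w * w ^ k‖ ≤ B) → ‖w₀‖ ≤ 1 := by
  classical
  induction S using Finset.induction_on with
  | empty =>
    intro _ a B ha h
    by_contra! h1
    have h2 := norm_pos_iff.2 ha
    obtain ⟨k, hk⟩ := pow_unbounded_of_one_lt (B / ‖a w₀‖) h1
    have h3 := h (k + 1) k.succ_pos
    rw [Finset.sum_empty, add_zero, norm_mul, norm_pow] at h3
    rw [div_lt_iff₀' h2] at hk
    have h4 := mul_le_mul_of_nonneg_left (pow_le_pow_right₀ h1.le k.le_succ) h2.le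
    exact absurd (hk.trans_le h4) h3.not_gt
  | insert v S hv ih =>
    intro hw a B ha h
    rw [Finset.mem_insert, not_or] at hw
    refine ih hw.2 (fun w => a w * (w - v)) (B + ‖v‖ * B) (mul_ne_zero ha (sub_ne_zero.2 hw.1))
      fun k hk => ?_
    have h1 := h (k + 1) k.succ_pos
    have h2 := mul_le_mul_of_nonneg_left (h k hk) (norm_nonneg v)
    rw [← norm_mul] at h2
    refine le_trans (le_of_eq ?_) ((norm_sub_le _ _).trans (add_le_add h1 h2))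
    congr 1
    have h3 : ∑ w ∈ S, a w * (w - v) * w ^ k =
        ∑ w ∈ S, a w * w ^ (k + 1) - v * ∑ w ∈ S, a w * w ^ k := by
      rw [Finset.mul_sum, ← Finset.sum_sub_distrib]
      exact Finset.sum_congr rfl fun w _ => by ring
    rw [h3, Finset.sum_insert hv, Finset.sum_insert hv]
    ring

lemma ce_norm_le {s : Multiset ℂ} {B : ℝ} (h : ∀ k, 0 < k → ‖(s.map (· ^ k)).sum‖ ≤ B) {w : ℂ}
    (hw : w ∈ s) : ‖w‖ ≤ 1 := by
  classical
  refine ce_norm w (s.toFinset.erase w) (Finset.notMem_erase _ _) (fun z => (s.count z : ℂ)) B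
    (Nat.cast_ne_zero.2 (Multiset.count_ne_zero.2 hw)) fun k hk => ?_
  rw [Finset.add_sum_erase _ (fun z => (s.count z : ℂ) * z ^ k) (Multiset.mem_toFinset.2 hw)]
  simpa only [Finset.sum_multiset_map_count, nsmul_eq_mul] using h k hk

/-- Bounded power sums force the non-zero roots to be roots of unity. -/
theorem kron (E : ℤ[X]) (hE : E.Monic) {b : ℕ} (hb : 0 < b) (Bd : ℝ)
    (h : ∀ k, 0 < k → ‖((E.map (Int.castRingHom ℂ)).roots.map (· ^ (b * k))).sum‖ ≤ Bd) :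
    ∃ T, 0 < T ∧ ∀ z ∈ (E.map (Int.castRingHom ℂ)).roots, z ≠ 0 → z ^ T = 1 := by
  classical
  have h1 : ∀ z ∈ (E.map (Int.castRingHom ℂ)).roots, ‖z‖ ≤ 1 := fun z hz => by
    have h2 := ce_norm_le (s := (E.map (Int.castRingHom ℂ)).roots.map (· ^ b)) (B := Bd)
      (fun k hk => by simpa only [Multiset.map_map, Function.comp_def, pow_mul] using h k hk)
      (Multiset.mem_map_of_mem _ hz)
    rwa [norm_pow, pow_le_one_iff_of_nonneg (norm_nonneg _) hb.ne'] at h2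
  have h2 : (E.map (Int.castRingHom ℂ)).mahlerMeasure = 1 := by
    rw [mahlerMeasure_eq_leadingCoeff_mul_prod_roots, (hE.map _).leadingCoeff, norm_one, one_mul]
    refine Multiset.prod_eq_one fun x hx => ?_
    obtain ⟨z, hz, rfl⟩ := Multiset.mem_map.1 hx
    exact max_eq_left (h1 z hz)
  have h3 : ∀ z ∈ (E.map (Int.castRingHom ℂ)).roots, ∃ n, 0 < n ∧ (z ≠ 0 → z ^ n = 1) :=
    fun z hz => by
      by_cases h0 : z = 0
      · exact ⟨1, one_pos, fun e => absurd h0 e⟩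
      · obtain ⟨n, hn, e⟩ := pow_eq_one_of_mahlerMeasure_eq_one h2 h0 hz
        exact ⟨n, hn, fun _ => e⟩
  choose! n hn e using h3
  refine ⟨∏ z ∈ (E.map (Int.castRingHom ℂ)).roots.toFinset, n z,
    Finset.prod_pos fun z hz => hn z (Multiset.mem_toFinset.1 hz), fun z hz h0 => ?_⟩
  obtain ⟨d, hd⟩ := Finset.dvd_prod_of_mem n (Multiset.mem_toFinset.2 hz)
  rw [hd, pow_mul, e z hz h0, one_pow]

end Pool.Agent.Lib.MP_1e748d_nt.Va
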