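import Pool.Agent.Lib.MP_1e748d_nt.Va.Defs

set_option autoImplicit false

namespace Pool.Agent.Lib.MP_1e748d_nt.Va

open Polynomial

/-- The norm of `H` modulo a monic `Φ`. -/
theorem exists_prod {R : Type} [CommRing R] (Φ H : R[X]) (hΦ : Φ.Monic) :
    ∃ N : R, ∀ φ : R →+* ℂ, φ N = ((Φ.map φ).roots.map fun y => H.eval₂ φ y).prod := by
  refine ⟨resultant Φ H Φ.natDegree H.natDegree, fun φ => ?_⟩
  have h := resultant_eq_prod_eval (Φ.map φ) (H.map φ) H.natDegree natDegree_map_le
    (IsAlgClosed.splits _)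
  rw [hΦ.natDegree_map, resultant_map_map, (hΦ.map φ).leadingCoeff, one_pow, one_mul] at h
  rw [h]
  congr 1
  exact Multiset.map_congr rfl fun y _ => eval_map φ y

/-- The trace of `H` modulo a monic `Φ`. -/
theorem exists_sum {R : Type} [CommRing R] (Φ H : R[X]) (hΦ : Φ.Monic) :
    ∃ T : R, ∀ φ : R →+* ℂ, φ T = ((Φ.map φ).roots.map fun y => H.eval₂ φ y).sum := by
  have hc : ∀ φ : R →+* ℂ, (Φ.map φ).roots.card = Φ.natDegree := fun φ => by
    rw [← (IsAlgClosed.splits _).natDegree_eq_card_roots, hΦ.natDegree_map]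
  rcases Nat.eq_zero_or_pos Φ.natDegree with h0 | h0
  · refine ⟨0, fun φ => ?_⟩
    have h1 : (Φ.map φ).roots = 0 := Multiset.card_eq_zero.mp ((hc φ).trans h0)
    simp [h1]
  obtain ⟨N, hN⟩ := exists_prod (Φ.map (C : R →+* R[X])) (C X - H.map C) (hΦ.map _)
  refine ⟨-N.coeff (Φ.natDegree - 1), fun φ => ?_⟩
  have key : N.map φ =
      (((Φ.map φ).roots.map fun y => H.eval₂ φ y).map fun a => X - C a).prod := by
    apply Polynomial.funext
    intro t
    have h := hN (eval₂RingHom φ t)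
    have e : (eval₂RingHom φ t).comp (C : R →+* R[X]) = φ := by
      ext a
      simp
    rw [Polynomial.map_map, e] at h
    rw [eval_map, eval_multiset_prod, Multiset.map_map, Multiset.map_map]
    refine h.trans ?_
    congr 1
    refine Multiset.map_congr rfl fun y _ => ?_
    simp [eval₂_map, e]
  have h2 := multiset_prod_X_sub_C_coeff_card_pred
    ((Φ.map φ).roots.map fun y => H.eval₂ φ y) (by rw [Multiset.card_map, hc]; exact h0)
  rw [← key, Multiset.card_map, hc, coeff_map] at h2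
  rw [map_neg, h2, neg_neg]

theorem exists_ps {Φ : ℤ[X][X]} (hΦ : Φ.Monic) : ∃ p, IsPs Φ p := by
  choose p hp using fun K : ℕ => exists_sum Φ (X ^ K) hΦ
  refine ⟨p, fun K x => ?_⟩
  have h := hp K (eval₂RingHom (Int.castRingHom ℂ) x)
  simpa [rts] using h

end Pool.Agent.Lib.MP_1e748d_nt.Va
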