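import Pool.Agent.Lib.MP_1e748d_nt.Va.Defs

set_option autoImplicit false

namespace Pool.Agent.Lib.MP_1e748d_nt.Va

open Polynomial

lemma dct_cos {j : ℤ} (hj : j ≠ 0) : ∫ θ in (0 : ℝ)..Real.pi, Real.cos (j * θ) = 0 := by
  have hj' : (j : ℝ) ≠ 0 := by exact_mod_cast hj
  rw [intervalIntegral.integral_comp_mul_left (fun x => Real.cos x) hj', integral_cos]
  simp [Real.sin_int_mul_pi]

lemma dct_cont (c : ℝ) (f : ℝ[X]) : Continuous fun θ : ℝ => f.eval (c + 2 * Real.cos θ) :=
  f.continuous.comp (by fun_prop)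

lemma dct_orth (c : ℝ) (j : ℕ) {n : ℕ} (hn : n ≠ 0) :
    ∫ θ in (0 : ℝ)..Real.pi, (ch c j).eval (c + 2 * Real.cos θ) *
      (ch c n).eval (c + 2 * Real.cos θ) = if j = n then 2 * Real.pi else 0 := by
  have e : ∀ θ : ℝ, (ch c j).eval (c + 2 * Real.cos θ) * (ch c n).eval (c + 2 * Real.cos θ) =
      2 * Real.cos (((j : ℤ) + n : ℤ) * θ) + 2 * Real.cos (((j : ℤ) - n : ℤ) * θ) := by
    intro θ
    rw [ch_cos, ch_cos]
    push_cast
    rw [add_mul, sub_mul, Real.cos_add, Real.cos_sub]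
    ring
  simp only [e]
  rw [intervalIntegral.integral_add (Continuous.intervalIntegrable (by fun_prop) _ _)
    (Continuous.intervalIntegrable (by fun_prop) _ _), intervalIntegral.integral_const_mul,
    intervalIntegral.integral_const_mul, dct_cos (by omega)]
  split_ifs with h
  · subst h
    simp
  · rw [dct_cos (by omega)]
    simp

lemma dct_deg {f q : ℝ[X]} {d : ℕ} (hf : f.natDegree ≤ d) (hq : q.Monic) (hd : q.natDegree = d) :
    (f - C (f.coeff d) * q).degree < d := by
  rw [degree_lt_iff_coeff_zero]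
  intro k hk
  rw [coeff_sub, coeff_C_mul]
  rcases eq_or_lt_of_le hk with rfl | hk'
  · rw [← hd, hq.coeff_natDegree]
    ring
  · rw [coeff_eq_zero_of_natDegree_lt (hf.trans_lt hk'),
      coeff_eq_zero_of_natDegree_lt (hd.trans_lt hk')]
    ring

lemma dct_split (c : ℝ) (n : ℕ) (f q : ℝ[X]) (a : ℝ) :
    ∫ θ in (0 : ℝ)..Real.pi, f.eval (c + 2 * Real.cos θ) * (ch c n).eval (c + 2 * Real.cos θ) =
      (∫ θ in (0 : ℝ)..Real.pi, (f - C a * q).eval (c + 2 * Real.cos θ) *
        (ch c n).eval (c + 2 * Real.cos θ)) +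
      a * ∫ θ in (0 : ℝ)..Real.pi, q.eval (c + 2 * Real.cos θ) *
        (ch c n).eval (c + 2 * Real.cos θ) := by
  have h1 : Continuous fun θ : ℝ => (f - C a * q).eval (c + 2 * Real.cos θ) *
      (ch c n).eval (c + 2 * Real.cos θ) := (dct_cont c _).mul (dct_cont c _)
  have h2 : Continuous fun θ : ℝ => a * (q.eval (c + 2 * Real.cos θ) *
      (ch c n).eval (c + 2 * Real.cos θ)) :=
    continuous_const.mul ((dct_cont c _).mul (dct_cont c _))
  rw [← intervalIntegral.integral_const_mul, ← intervalIntegral.integral_add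
    (h1.intervalIntegrable _ _) (h2.intervalIntegrable _ _)]
  refine intervalIntegral.integral_congr (fun θ _ => ?_)
  simp only [eval_sub, eval_mul, eval_C]
  ring

lemma dct_low (c : ℝ) {n : ℕ} (hn : n ≠ 0) (d : ℕ) : ∀ f : ℝ[X], f.degree < d → d ≤ n →
    ∫ θ in (0 : ℝ)..Real.pi, f.eval (c + 2 * Real.cos θ) *
      (ch c n).eval (c + 2 * Real.cos θ) = 0 := by
  induction d with
  | zero =>
    intro f hf _
    have : f = 0 := by
      ext k
      exact (degree_lt_iff_coeff_zero f 0).1 hf k (Nat.zero_le k)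
    simp [this]
  | succ d ih =>
    intro f hf hd
    have hf' : f.natDegree ≤ d := by
      rw [natDegree_le_iff_coeff_eq_zero]
      exact fun k hk => (degree_lt_iff_coeff_zero f (d + 1)).1 hf k hk
    rw [dct_split c n f (mo c d) (f.coeff d),
      ih _ (dct_deg hf' (mo_monic c d) (natDegree_mo c d)) (by omega), zero_add]
    refine mul_eq_zero_of_right _ ?_
    have h1 := dct_orth c d hn
    rw [if_neg (by omega)] at h1
    unfold mo
    split_ifs with h
    · subst h
      simp only [ch_zero, eval_ofNat, intervalIntegral.integral_const_mul] at h1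
      simp only [eval_one, one_mul]
      linarith
    · exact h1

lemma dct_int (c : ℝ) {n : ℕ} (hn : n ≠ 0) (f : ℝ[X]) (hf : f.natDegree ≤ n) :
    ∫ θ in (0 : ℝ)..Real.pi, f.eval (c + 2 * Real.cos θ) *
      (ch c n).eval (c + 2 * Real.cos θ) = 2 * Real.pi * f.coeff n := by
  rw [dct_split c n f (ch c n) (f.coeff n),
    dct_low c hn n _ (dct_deg hf (ch_monic c hn) (natDegree_ch c hn)) le_rfl, dct_orth c n hn,
    if_pos rfl]
  ring

lemma dct_tele (ψ : ℝ) (T : ℕ) :
    2 * Real.sin (ψ / 2) * ∑ k ∈ Finset.range T, Real.cos (((k + 1 : ℕ) : ℝ) * ψ) =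
      Real.sin (T * ψ + ψ / 2) - Real.sin (ψ / 2) := by
  induction T with
  | zero => simp
  | succ T ih =>
    rw [Finset.sum_range_succ, mul_add, ih]
    have e : (T : ℝ) * ψ + ψ / 2 = ((T + 1 : ℕ) : ℝ) * ψ - ψ / 2 := by
      push_cast
      ring
    rw [e, Real.sin_sub, Real.sin_add]
    ring

open Filter Topology in
lemma dct_ces {ψ : ℝ} (h : Real.cos ψ ≠ 1) : Tendsto (fun T : ℕ =>
    (∑ k ∈ Finset.range T, Real.cos (((k + 1 : ℕ) : ℝ) * ψ)) / T) atTop (𝓝 0) := by
  have hs : Real.sin (ψ / 2) ≠ 0 := by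
    intro e
    apply h
    have h1 := Real.cos_two_mul' (ψ / 2)
    have h2 := Real.sin_sq_add_cos_sq (ψ / 2)
    rw [e] at h1 h2
    rw [show ψ = 2 * (ψ / 2) by ring, h1]
    linarith
  have hs' : 0 < |Real.sin (ψ / 2)| := abs_pos.2 hs
  refine squeeze_zero_norm (fun T => ?_)
    (tendsto_const_div_atTop_nhds_zero_nat (1 / |Real.sin (ψ / 2)|))
  rw [norm_div, Real.norm_natCast]
  refine div_le_div_of_nonneg_right ?_ (Nat.cast_nonneg T)
  rw [Real.norm_eq_abs, le_div_iff₀ hs']
  have h1 := congrArg abs (dct_tele ψ T)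
  rw [abs_mul, abs_mul, abs_two] at h1
  have h2 := abs_sub (Real.sin (T * ψ + ψ / 2)) (Real.sin (ψ / 2))
  have h3 := Real.abs_sin_le_one (T * ψ + ψ / 2)
  have h4 := Real.abs_sin_le_one (ψ / 2)
  linarith

open Filter Topology in
lemma dct_pair {α β : ℝ} (h : Real.cos α ≠ Real.cos β) : Tendsto (fun T : ℕ =>
    (∑ k ∈ Finset.range T, 2 * Real.cos (((k + 1 : ℕ) : ℝ) * α) *
      (2 * Real.cos (((k + 1 : ℕ) : ℝ) * β))) / T) atTop (𝓝 0) := by
  have key : ∀ γ : ℝ, Real.cos γ = 1 → Real.sin γ = 0 := by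
    intro γ e
    have h2 := Real.sin_sq_add_cos_sq γ
    rw [e] at h2
    exact pow_eq_zero_iff (two_ne_zero) |>.1 (by linarith)
  have h1 : Real.cos (α - β) ≠ 1 := by
    intro e
    apply h
    rw [show α = (α - β) + β by ring, Real.cos_add, e, key _ e]
    ring
  have h2 : Real.cos (α + β) ≠ 1 := by
    intro e
    apply h
    rw [show α = (α + β) - β by ring, Real.cos_sub, e, key _ e]
    ring
  have h3 := ((dct_ces h1).const_mul 2).add ((dct_ces h2).const_mul 2)
  rw [mul_zero, add_zero] at h3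
  refine h3.congr (fun T => ?_)
  rw [← mul_div_assoc, ← mul_div_assoc, ← add_div, Finset.mul_sum, Finset.mul_sum,
    ← Finset.sum_add_distrib]
  congr 1
  refine Finset.sum_congr rfl (fun k _ => ?_)
  rw [mul_sub, mul_add (((k + 1 : ℕ) : ℝ)), Real.cos_sub, Real.cos_add]
  ring

lemma dct_swap (s : Multiset ℝ) (g : ℕ → ℝ → ℝ) (b : ℕ → ℝ) (T : ℕ) :
    (∑ k ∈ Finset.range T, (s.map (g k)).sum * b k) / T =
      (s.map fun y => (∑ k ∈ Finset.range T, g k y * b k) / T).sum := by
  induction s using Multiset.induction_on with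
  | empty => simp
  | cons a s ih =>
    simp only [Multiset.map_cons, Multiset.sum_cons, add_mul, Finset.sum_add_distrib, add_div, ih]

lemma dct_abs (s : Multiset ℝ) (g : ℝ → ℝ) (h : ∀ y ∈ s, |g y| ≤ 2) :
    |(s.map g).sum| ≤ 2 * s.card := by
  induction s using Multiset.induction_on with
  | empty => simp
  | cons a s ih =>
    rw [Multiset.map_cons, Multiset.sum_cons, Multiset.card_cons]
    have h1 := abs_add_le (g a) (s.map g).sum
    have h2 := h a (Multiset.mem_cons_self a s)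
    have h3 := ih (fun y hy => h y (Multiset.mem_cons_of_mem hy))
    push_cast
    linarith

/-- A persistent top Chebyshev coefficient forces a Chebyshev relation. -/
theorem dct (c : ℝ) (K L m : ℕ) (hL : L ≠ 0) {μ : ℝ} (hμ : μ ≠ 0) (P : ℕ → ℝ[X])
    (ys : ℝ → Multiset ℝ) (hm : ∀ x ∈ II c, (ys x).card ≤ m)
    (hys : ∀ x ∈ II c, ∀ y ∈ ys x, y ∈ II c)
    (hP : ∀ k, 0 < k → (P k).natDegree ≤ k * L ∧ (P k).coeff (k * L) = μ ∧
      ∀ x ∈ II c, (P k).eval x = ((ys x).map fun y => (ch c (k * K)).eval y).sum) :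
    {x ∈ II c | ∃ y ∈ ys x, (ch c K).eval y = (ch c L).eval x}.Infinite := by
  intro hfin
  set S := {x ∈ II c | ∃ y ∈ ys x, (ch c K).eval y = (ch c L).eval x} with hS
  let F : ℕ → ℝ → ℝ := fun T θ => (∑ k ∈ Finset.range T,
    (P (k + 1)).eval (c + 2 * Real.cos θ) * (ch c ((k + 1) * L)).eval (c + 2 * Real.cos θ)) / T
  have hc : ∀ k : ℕ, Continuous fun θ : ℝ => (P (k + 1)).eval (c + 2 * Real.cos θ) *
      (ch c ((k + 1) * L)).eval (c + 2 * Real.cos θ) :=
    fun k => (dct_cont c _).mul (dct_cont c _)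
  have hFc : ∀ T, Continuous (F T) := fun T =>
    (continuous_finsetSum _ (fun k _ => hc k)).div_const _
  have hint : ∀ T : ℕ, T ≠ 0 → ∫ θ in (0 : ℝ)..Real.pi, F T θ = 2 * Real.pi * μ := by
    intro T hT
    have hT' : (T : ℝ) ≠ 0 := by exact_mod_cast hT
    simp only [F]
    rw [intervalIntegral.integral_div, intervalIntegral.integral_finsetSum
      (fun k _ => (hc k).intervalIntegrable _ _), Finset.sum_congr rfl (fun k _ => by
        rw [dct_int c (mul_ne_zero (Nat.succ_ne_zero k) hL) _ (hP (k + 1) k.succ_pos).1,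
          (hP (k + 1) k.succ_pos).2.1])]
    simp only [Finset.sum_const, Finset.card_range, nsmul_eq_mul]
    field_simp
  have hbd : ∀ (T : ℕ) (θ : ℝ), ‖F T θ‖ ≤ 4 * m := by
    intro T θ
    have hx := cos_mem_II c θ
    rcases Nat.eq_zero_or_pos T with rfl | hT
    · simp [F]
    have hT' : (0 : ℝ) < T := by exact_mod_cast hT
    simp only [F]
    rw [norm_div, Real.norm_natCast, div_le_iff₀ hT']
    refine (norm_sum_le _ _).trans ?_
    refine (Finset.sum_le_card_nsmul _ _ (4 * (m : ℝ)) (fun k _ => ?_)).trans ?_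
    · rw [norm_mul, Real.norm_eq_abs, Real.norm_eq_abs, (hP (k + 1) k.succ_pos).2.2 _ hx]
      have h1 := dct_abs (ys (c + 2 * Real.cos θ)) (fun y => (ch c ((k + 1) * K)).eval y)
        (fun y hy => abs_ch_le (hys _ hx y hy) _)
      have h2 : ((ys (c + 2 * Real.cos θ)).card : ℝ) ≤ m := by exact_mod_cast hm _ hx
      have h3 := abs_ch_le hx ((k + 1) * L)
      have h4 : (0 : ℝ) ≤ m := Nat.cast_nonneg m
      calc _ ≤ (2 * (m : ℝ)) * 2 :=
            mul_le_mul (by linarith) h3 (abs_nonneg _) (by linarith)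
        _ = _ := by ring
    · rw [Finset.card_range, nsmul_eq_mul, mul_comm]
  have hlim : ∀ θ : ℝ, c + 2 * Real.cos θ ∉ S →
      Filter.Tendsto (fun T => F T θ) Filter.atTop (nhds 0) := by
    intro θ hθ
    have hx := cos_mem_II c θ
    have e : ∀ T : ℕ, F T θ = ((ys (c + 2 * Real.cos θ)).map fun y => (∑ k ∈ Finset.range T,
        (ch c ((k + 1) * K)).eval y * (ch c ((k + 1) * L)).eval (c + 2 * Real.cos θ)) / T).sum := by
      intro T
      rw [← dct_swap (ys (c + 2 * Real.cos θ)) (fun k y => (ch c ((k + 1) * K)).eval y)]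
      simp only [F]
      congr 1
      exact Finset.sum_congr rfl (fun k _ => by rw [(hP (k + 1) k.succ_pos).2.2 _ hx])
    simp only [e]
    have h1 := tendsto_multiset_sum (f := fun (y : ℝ) (T : ℕ) => (∑ k ∈ Finset.range T,
        (ch c ((k + 1) * K)).eval y * (ch c ((k + 1) * L)).eval (c + 2 * Real.cos θ)) / T)
      (x := Filter.atTop) (a := fun _ => 0) (ys (c + 2 * Real.cos θ)) (by
        intro y hy
        obtain ⟨φ, -, rfl⟩ := exists_cos (hys _ hx y hy)
        have h2 : Real.cos (K * φ) ≠ Real.cos (L * θ) := by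
          intro a
          exact hθ ⟨hx, _, hy, by rw [ch_cos, ch_cos, a]⟩
        refine (dct_pair h2).congr (fun T => ?_)
        congr 1
        refine Finset.sum_congr rfl (fun k _ => ?_)
        rw [ch_cos, ch_cos, Nat.cast_mul, Nat.cast_mul, mul_assoc _ (K : ℝ), mul_assoc _ (L : ℝ)])
    simpa using h1
  have hfin' : ((fun θ : ℝ => c + 2 * Real.cos θ) ⁻¹' S ∩ Set.Icc 0 Real.pi).Finite := by
    refine Set.Finite.of_finite_image (f := fun θ : ℝ => c + 2 * Real.cos θ)
      (hfin.subset ?_) ?_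
    · rintro _ ⟨θ, hθ, rfl⟩
      exact hθ.1
    · intro a ha b hb e
      refine Real.injOn_cos ha.2 hb.2 ?_
      have e' : c + 2 * Real.cos a = c + 2 * Real.cos b := e
      linarith
  have hae : ∀ᵐ θ : ℝ, θ ∈ Set.uIoc (0 : ℝ) Real.pi →
      Filter.Tendsto (fun T => F T θ) Filter.atTop (nhds ((fun _ => (0 : ℝ)) θ)) := by
    filter_upwards [hfin'.countable.ae_notMem MeasureTheory.volume] with θ hθ hI
    rw [Set.uIoc_of_le Real.pi_pos.le] at hI
    exact hlim θ (fun a => hθ ⟨a, hI.1.le, hI.2⟩)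
  have hT := intervalIntegral.tendsto_integral_filter_of_dominated_convergence
    (μ := MeasureTheory.volume) (a := 0) (b := Real.pi) (l := Filter.atTop) (F := F)
    (f := fun _ => (0 : ℝ)) (fun _ => 4 * (m : ℝ))
    (Filter.Eventually.of_forall fun T => (hFc T).aestronglyMeasurable)
    (Filter.Eventually.of_forall fun T => Filter.Eventually.of_forall fun θ _ => hbd T θ)
    intervalIntegrable_const hae
  have hT2 : Filter.Tendsto (fun T : ℕ => ∫ θ in (0 : ℝ)..Real.pi, F T θ) Filter.atTop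
      (nhds (2 * Real.pi * μ)) := by
    refine tendsto_const_nhds.congr' ?_
    filter_upwards [Filter.eventually_ne_atTop 0] with T hT0
    exact (hint T hT0).symm
  have h0 := tendsto_nhds_unique hT2 hT
  rw [intervalIntegral.integral_zero] at h0
  exact mul_ne_zero (mul_ne_zero two_ne_zero Real.pi_ne_zero) hμ h0

end Pool.Agent.Lib.MP_1e748d_nt.Va
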