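import Pool.Agent.Lib.MP_1e748d_nt.Va.Char

set_option autoImplicit false

namespace Pool.Agent.Lib.MP_1e748d_nt.Va

open Polynomial

theorem int_N {Φ : ℤ[X][X]} (hΦ : Φ.Monic) (K L : ℕ) : ∃ N : ℤ[X][X], ∀ c x : ℂ,
    ev c x N = 0 ↔ ∃ y, ev x y Φ = 0 ∧ (ch c K).eval y = (ch c L).eval x := by
  obtain ⟨N, hN⟩ := exists_prod (Φ.map (mapRingHom C))
    (ch (C X : ℤ[X][X]) K - C (ch (X : ℤ[X]) L)) (hΦ.map _)
  refine ⟨N, fun c x => ?_⟩
  have h1 : (ev c x).comp (mapRingHom C) = eval₂RingHom (Int.castRingHom ℂ) x :=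
    RingHom.ext fun p => e2_map_C _ c x p
  have h2 : ev c x (ch (X : ℤ[X]) L) = (ch c L).eval x := by
    rw [e2_eq, ch_map, coe_eval₂RingHom, eval₂_X]
  rw [hN, map_map, h1, Multiset.prod_eq_zero_iff, Multiset.mem_map]
  refine exists_congr fun y => and_congr (mem_rts hΦ) ?_
  rw [eval₂_sub, eval₂_C, h2, ch_eval₂, e2_C, eval₂_X, sub_eq_zero]

theorem int_cast (c y : ℝ) (k : ℕ) :
    (((ch c k).eval y : ℝ) : ℂ) = (ch (c : ℂ) k).eval (y : ℂ) :=
  (eval₂_at_apply Complex.ofRealHom y).symm.trans (ch_eval₂ Complex.ofRealHom c k y)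

theorem int_integral {Φ : ℤ[X][X]} (hΦ : Φ.Monic) {K L : ℕ} (hKL : K < L) {c y : ℂ}
    (hy : ev 0 y Φ = 0) (h : (ch c K).eval y = (ch c L).eval 0) : IsIntegral ℤ c := by
  have h1 : IsIntegral ℤ y := by
    refine ⟨Φ.map (evalRingHom 0), hΦ.map _, ?_⟩
    have h2 : (algebraMap ℤ ℂ).comp (evalRingHom 0) = eval₂RingHom (Int.castRingHom ℂ) 0 := by
      ext
      · simp
      · simp
    rw [eval₂_map, h2]
    exact hy
  have hL : L ≠ 0 := by omega
  have h2 : IsIntegral (integralClosure ℤ ℂ) (-c) := by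
    refine ⟨ch 0 L - ch (-⟨y, h1⟩) K, (ch_monic _ hL).sub_of_left (degree_lt_degree ?_), ?_⟩
    · rw [natDegree_ch _ hL]
      exact (natDegree_ch_le _ _).trans_lt hKL
    · rw [ch_eval, ch_eval] at h
      rw [eval₂_sub, ch_eval₂, ch_eval₂, ch_eval, ch_eval, map_zero, map_neg, sub_eq_zero, sub_zero,
        ← zero_sub c, ← h]
      congr 1
      change y - c = 0 - c - -y
      ring
  simpa using (isIntegral_trans (R := ℤ) _ h2).neg

theorem int_w (u : ℂ) : ∃ w v : ℂ, w * v = 1 ∧ u = w + v := by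
  obtain ⟨s, hs⟩ := IsAlgClosed.exists_eq_mul_self (u ^ 2 - 4)
  exact ⟨(u + s) / 2, (u - s) / 2, by linear_combination hs / 4, by ring⟩

theorem int_centre {c : ℝ} {c' : ℂ} {K L : ℕ} (hKL : K < L)
    (h : ∀ x ∈ II c, ∃ y ∈ II c, (ch c' K).eval (y : ℂ) = (ch c' L).eval (x : ℂ)) : c' = c := by
  obtain ⟨S, hS⟩ : ∃ S : Set ℝ,
      S = {r | ∃ w v : ℂ, w * v = 1 ∧ r = ‖w‖ ∧ ∃ x ∈ II c, (x : ℂ) = c' + w + v} := ⟨_, rfl⟩
  have hex : ∀ x : ℝ, ∃ w v : ℂ, w * v = 1 ∧ (x : ℂ) = c' + w + v := fun x => by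
    obtain ⟨w, v, h1, h2⟩ := int_w (x - c')
    exact ⟨w, v, h1, by linear_combination h2⟩
  have hmem : ∀ w v : ℂ, w * v = 1 → ∀ x ∈ II c, (x : ℂ) = c' + w + v → ‖w‖ ∈ S ∧ ‖v‖ ∈ S :=
    fun w v h1 x hx h2 => by
      rw [hS]
      exact ⟨⟨w, v, h1, rfl, x, hx, h2⟩,
        v, w, by rw [mul_comm, h1], rfl, x, hx, by linear_combination h2⟩
  have hbd : BddAbove S := by
    rw [hS]
    refine ⟨|c| + 2 + ‖c'‖ + 1, ?_⟩
    rintro _ ⟨w, v, h1, rfl, x, hx, h2⟩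
    have h3 : ‖w‖ * ‖v‖ = 1 := by rw [← norm_mul, h1, norm_one]
    have h4 : ‖w‖ ≤ ‖(x : ℂ)‖ + ‖c'‖ + ‖v‖ := by
      rw [show w = x - c' - v by linear_combination -h2]
      exact (norm_sub_le _ _).trans (add_le_add_left (norm_sub_le _ _) _)
    rw [Complex.norm_real, Real.norm_eq_abs] at h4
    have h5 := abs_le_of_II hx
    rcases le_total ‖w‖ 1 with h6 | h6
    · linarith [abs_nonneg c, norm_nonneg c']
    · nlinarith [norm_nonneg v]
  have hc : c ∈ II c := mem_II.2 (by simp)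
  have hne : S.Nonempty := by
    obtain ⟨w, v, h1, h2⟩ := hex c
    exact ⟨_, (hmem w v h1 c hc h2).1⟩
  have hL : L ≠ 0 := by omega
  have hM : sSup S ≤ 1 := by
    by_contra hM
    rw [not_le] at hM
    have h0 : 0 ≤ sSup S ^ K := by positivity
    have h1 : sSup S ≤ (sSup S ^ K) ^ ((L : ℝ)⁻¹) := by
      refine csSup_le hne fun r hr => ?_
      rw [hS] at hr
      obtain ⟨w, v, h1, rfl, x, hx, h2⟩ := hr
      obtain ⟨y, hy, h3⟩ := h x hx
      obtain ⟨w', v', h4, h5⟩ := hex y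
      rw [h2, h5, ch_w _ _ _ h1, ch_w _ _ _ h4] at h3
      have h6 : w ^ L * v ^ L = 1 := by rw [← mul_pow, h1, one_pow]
      have h7 : w' ^ K * v' ^ K = 1 := by rw [← mul_pow, h4, one_pow]
      have h8 : (w ^ L - w' ^ K) * (w ^ L - v' ^ K) = 0 := by
        linear_combination (-w ^ L) * h3 - h6 + h7
      have h9 := hmem w' v' h4 y hy h5
      refine le_of_pow_le_pow_left₀ hL (by positivity) ?_
      rw [Real.rpow_inv_natCast_pow h0 hL, ← norm_pow]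
      rcases mul_eq_zero.1 h8 with e | e <;> rw [sub_eq_zero.1 e, norm_pow]
      · exact pow_le_pow_left₀ (norm_nonneg _) (le_csSup hbd h9.1) K
      · exact pow_le_pow_left₀ (norm_nonneg _) (le_csSup hbd h9.2) K
    have h2 := pow_le_pow_left₀ (by linarith) h1 L
    rw [Real.rpow_inv_natCast_pow h0 hL] at h2
    exact absurd (pow_lt_pow_right₀ hM hKL) (not_lt.2 h2)
  have key : ∀ x ∈ II c, (x - c'.re) ^ 2 + c'.im ^ 2 ≤ 4 := fun x hx => by
    obtain ⟨w, v, h1, h2⟩ := hex x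
    have h3 := hmem w v h1 x hx h2
    have h4 : ‖(x : ℂ) - c'‖ ≤ 2 := by
      rw [show (x : ℂ) - c' = w + v by linear_combination h2]
      linarith [norm_add_le w v, le_csSup hbd h3.1, le_csSup hbd h3.2]
    have h5 := pow_le_pow_left₀ (norm_nonneg _) h4 2
    rw [Complex.sq_norm, Complex.normSq_apply] at h5
    simp only [Complex.sub_re, Complex.ofReal_re, Complex.sub_im, Complex.ofReal_im] at h5
    linarith
  have h1 := key (c + 2) (mem_II.2 (by simp))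
  have h2 := key (c - 2) (mem_II.2 (by simp))
  have h3 : (c'.re - c) ^ 2 + c'.im ^ 2 ≤ 0 := by linarith
  refine Complex.ext ?_ ?_
  · rw [Complex.ofReal_re]
    nlinarith [sq_nonneg c'.im, sq_nonneg (c'.re - c)]
  · rw [Complex.ofReal_im]
    nlinarith [sq_nonneg c'.im, sq_nonneg (c'.re - c)]

theorem int_of_roots {c : ℝ} (hc : IsIntegral ℤ (c : ℂ))
    (h : ∀ c' : ℂ, aeval c' (minpoly ℤ (c : ℂ)) = 0 → c' = c) : ∃ n : ℤ, c = n := by
  have hm := (minpoly.monic hc).map (algebraMap ℤ ℂ)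
  have hs := IsAlgClosed.splits ((minpoly ℤ (c : ℂ)).map (algebraMap ℤ ℂ))
  have h1 := hs.nextCoeff_eq_neg_sum_roots_of_monic hm
  have h2 : ((minpoly ℤ (c : ℂ)).map (algebraMap ℤ ℂ)).roots =
      Multiset.replicate (minpoly ℤ (c : ℂ)).natDegree (c : ℂ) := by
    refine Multiset.eq_replicate.2 ⟨?_, fun z hz => h z ?_⟩
    · rw [← hs.natDegree_eq_card_roots, (minpoly.monic hc).natDegree_map]
    · rw [aeval_def, ← eval_map]
      exact (mem_roots hm.ne_zero).1 hz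
  rw [h2, Multiset.sum_replicate, nextCoeff_map (RingHom.injective_int _), nsmul_eq_mul] at h1
  have h3 : ((minpoly ℤ (c : ℂ)).natDegree : ℂ) ≠ 0 :=
    Nat.cast_ne_zero.2 (minpoly.natDegree_pos hc).ne'
  have h4 : (c : ℂ) = algebraMap ℚ ℂ
      (-((minpoly ℤ (c : ℂ)).nextCoeff : ℚ) / (minpoly ℤ (c : ℂ)).natDegree) := by
    rw [eq_intCast] at h1
    rw [eq_ratCast]
    push_cast
    rw [h1, neg_neg, mul_div_cancel_left₀ _ h3]
  rw [h4, isIntegral_algebraMap_iff (algebraMap ℚ ℂ).injective] at hc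
  obtain ⟨n, hn⟩ := IsIntegrallyClosed.isIntegral_iff.1 hc
  refine ⟨n, Complex.ofReal_injective ?_⟩
  rw [h4, ← hn]
  simp

/-- An expanding Chebyshev relation on a critical curve forces an integer centre. -/
theorem int_of_rel {c : ℝ} {Φ : ℤ[X][X]} (hΦ : Φ.Monic) (hC : Crit c Φ) {K L : ℕ} (hKL : K < L)
    (hinf : {x ∈ II c | ∃ y ∈ II c, ev x y Φ = 0 ∧
      (ch c K).eval y = (ch c L).eval x}.Infinite) : ∃ n : ℤ, c = n := by
  obtain ⟨N, hN⟩ := int_N hΦ K L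
  have h1 : N.map (eval₂RingHom (Int.castRingHom ℂ) (c : ℂ)) = 0 := by
    refine eq_zero_of_infinite_isRoot _
      ((hinf.image Complex.ofReal_injective.injOn).mono ?_)
    rintro _ ⟨x, ⟨-, y, -, h2, h3⟩, rfl⟩
    rw [Set.mem_ofPred_eq, IsRoot.def, ← e2_eq]
    exact (hN c x).2 ⟨y, by rw [← ofReal_ev, h2, Complex.ofReal_zero],
      by rw [← int_cast, ← int_cast, h3]⟩
  obtain ⟨y0, h2, h3⟩ := (hN c 0).1 (by rw [e2_eq, h1, eval_zero])
  have hc := int_integral hΦ hKL h2 h3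
  refine int_of_roots hc fun c' hc' => int_centre hKL fun x hx => ?_
  have h4 : N.map (eval₂RingHom (Int.castRingHom ℂ) c') = 0 := by
    ext j
    have h5 := congrArg (fun p => coeff p j) h1
    simp only [coeff_map, coeff_zero, coe_eval₂RingHom] at h5 ⊢
    exact aeval_eq_zero_of_dvd_aeval_eq_zero (minpoly.isIntegrallyClosed_dvd hc h5) hc'
  obtain ⟨y, h5, h6⟩ := (hN c' x).1 (by rw [e2_eq, h4, eval_zero])
  obtain ⟨y', hy', rfl⟩ := hC x hx y h5
  exact ⟨y', hy', h6⟩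

end Pool.Agent.Lib.MP_1e748d_nt.Va
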