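import Pool.Agent.Lib.MP_1e748d_nt.Va.Pk
import Pool.Agent.Lib.MP_1e748d_nt.Va.Dct
import Pool.Agent.Lib.MP_1e748d_nt.Va.Int

set_option autoImplicit false

namespace Pool.Agent.Lib.MP_1e748d_nt.Va

open Polynomial

lemma cls_zero_of_sum {α : Type} (s : Multiset α) (f : α → ℝ) (h : ∀ y ∈ s, 0 ≤ f y)
    (hs : (s.map f).sum = 0) : ∀ y ∈ s, f y = 0 := by
  intro y hy
  refine le_antisymm ?_ (h y hy)
  rw [← hs]
  refine Multiset.single_le_sum ?_ _ (Multiset.mem_map_of_mem f hy)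
  intro x hx
  obtain ⟨z, hz, rfl⟩ := Multiset.mem_map.mp hx
  exact h z hz

lemma cls_re_sum (s : Multiset ℂ) :
    (s.map fun w => 1 - w.re).sum = (s.card : ℝ) - s.sum.re := by
  induction s using Multiset.induction_on with
  | empty => simp
  | cons a s ih =>
    rw [Multiset.map_cons, Multiset.sum_cons, ih, Multiset.sum_cons, Multiset.card_cons,
      Complex.add_re]
    push_cast
    ring

lemma cls_unit_sum (s : Multiset ℂ) (h : ∀ w ∈ s, ‖w‖ = 1) (hs : s.sum = (s.card : ℂ)) :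
    ∀ w ∈ s, w = 1 := by
  have h0 : ∀ w ∈ s, 0 ≤ 1 - w.re := by
    intro w hw
    have := Complex.re_le_norm w
    linarith [h w hw]
  have h1 := cls_zero_of_sum s (fun w => 1 - w.re) h0 (by rw [cls_re_sum, hs]; simp)
  intro w hw
  have e1 : w.re = 1 := by linarith [h1 w hw]
  have e2 : w.re * w.re + w.im * w.im = 1 := by
    rw [← Complex.normSq_apply, Complex.normSq_eq_norm_sq, h w hw]
    norm_num
  have e3 : w.im = 0 := by
    rw [e1] at e2
    exact mul_self_eq_zero.mp (by linarith)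
  exact Complex.ext (by simpa using e1) (by simpa using e3)

lemma cls_pow_sum (s : Multiset ℂ) {T K : ℕ} (hT : T ∣ K) (hK : K ≠ 0)
    (h : ∀ z ∈ s, z ≠ 0 → z ^ T = 1) :
    (s.map (· ^ K)).sum = ((s.countP (· ≠ 0) : ℕ) : ℂ) := by
  classical
  induction s using Multiset.induction_on with
  | empty => simp
  | cons a s ih =>
    rw [Multiset.map_cons, Multiset.sum_cons,
      ih (fun z hz => h z (Multiset.mem_cons_of_mem hz)), Multiset.countP_cons]
    by_cases ha : a = 0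
    · simp [ha, hK]
    · obtain ⟨k, rfl⟩ := hT
      simp [ha, pow_mul, h a (Multiset.mem_cons_self a s) ha, add_comm]

lemma cls_abs_sum (s : Multiset ℝ) (f : ℝ → ℝ) (h : ∀ y ∈ s, |f y| ≤ 2) :
    |(s.map f).sum| ≤ 2 * (s.card : ℝ) := by
  induction s using Multiset.induction_on with
  | empty => simp
  | cons a s ih =>
    rw [Multiset.map_cons, Multiset.sum_cons, Multiset.card_cons]
    have h1 := ih (fun z hz => h z (Multiset.mem_cons_of_mem hz))
    have h2 := h a (Multiset.mem_cons_self a s)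
    have h3 := abs_add_le (f a) (s.map f).sum
    push_cast
    linarith

lemma cls_sq_sum (s : Multiset ℝ) (f g : ℝ → ℝ) (t : ℝ) (h : ∀ y, f y ^ 2 = g y + 2) :
    (s.map fun y => (f y - t) ^ 2).sum =
      (s.map g).sum + 2 * (s.card : ℝ) - 2 * t * (s.map f).sum + (s.card : ℝ) * t ^ 2 := by
  induction s using Multiset.induction_on with
  | empty => simp
  | cons a s ih =>
    simp only [Multiset.map_cons, Multiset.sum_cons, Multiset.card_cons, ih]
    have := h a
    push_cast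
    linear_combination this

lemma cls_card_roots {E : ℤ[X]} (hE : E.Monic) :
    (E.map (Int.castRingHom ℂ)).roots.card = E.natDegree := by
  rw [← (IsAlgClosed.splits _).natDegree_eq_card_roots, hE.natDegree_map]

lemma cls_nonzero_root {E : ℤ[X]} (hE : E.Monic) {i : ℕ} (hi : i ≠ E.natDegree)
    (h : E.coeff i ≠ 0) : ∃ z ∈ (E.map (Int.castRingHom ℂ)).roots, z ≠ 0 := by
  by_contra hn
  push Not at hn
  have h1 := (IsAlgClosed.splits (E.map (Int.castRingHom ℂ))).eq_prod_roots_of_monic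
    (hE.map (Int.castRingHom ℂ))
  have h2 : ((E.map (Int.castRingHom ℂ)).roots.map fun a => X - C a) =
      (E.map (Int.castRingHom ℂ)).roots.map fun _ => (X : ℂ[X]) :=
    Multiset.map_congr rfl fun z hz => by simp [hn z hz]
  rw [h2, Multiset.map_const', Multiset.prod_replicate, cls_card_roots hE] at h1
  have h3 := congrArg (fun q : ℂ[X] => q.coeff i) h1
  simp only [coeff_map, coeff_X_pow, if_neg hi, eq_intCast, Int.cast_eq_zero] at h3
  exact h h3

lemma cls_deg_zero {Φ : ℤ[X][X]} (hΦ : Φ.Monic) {i : ℕ} (hi : Φ.natDegree ≤ i) :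
    (Φ.coeff i).natDegree = 0 := by
  rcases hi.eq_or_lt with h | h
  · rw [← h, hΦ.coeff_natDegree, natDegree_one]
  · rw [coeff_eq_zero_of_natDegree_lt h, natDegree_zero]

lemma cls_slope {Φ : ℤ[X][X]} (hΦ : Φ.Monic)
    (h : ∃ i, Φ.natDegree - i < (Φ.coeff i).natDegree) :
    ∃ i0, i0 < Φ.natDegree ∧ Φ.natDegree - i0 < (Φ.coeff i0).natDegree ∧
      ∀ i, (Φ.natDegree - i0) * (Φ.coeff i).natDegree ≤
        (Φ.coeff i0).natDegree * (Φ.natDegree - i) := by
  obtain ⟨i, hi⟩ := h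
  have him : i < Φ.natDegree := by
    by_contra hn
    rw [cls_deg_zero hΦ (not_lt.mp hn)] at hi
    omega
  obtain ⟨i0, hi0, hmax⟩ := Finset.exists_max_image (Finset.range Φ.natDegree)
    (fun j => ((Φ.coeff j).natDegree : ℚ) / ((Φ.natDegree - j : ℕ) : ℚ))
    ⟨i, Finset.mem_range.mpr him⟩
  have hi0' := Finset.mem_range.mp hi0
  have key : ∀ j, (Φ.natDegree - i0) * (Φ.coeff j).natDegree ≤
      (Φ.coeff i0).natDegree * (Φ.natDegree - j) := by
    intro j
    by_cases hj : j < Φ.natDegree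
    · have h1 := hmax j (Finset.mem_range.mpr hj)
      have p1 : (0 : ℚ) < ((Φ.natDegree - j : ℕ) : ℚ) := by exact_mod_cast Nat.sub_pos_of_lt hj
      have p2 : (0 : ℚ) < ((Φ.natDegree - i0 : ℕ) : ℚ) := by
        exact_mod_cast Nat.sub_pos_of_lt hi0'
      rw [div_le_div_iff₀ p1 p2] at h1
      rw [mul_comm]
      exact_mod_cast h1
    · rw [cls_deg_zero hΦ (not_lt.mp hj)]
      simp
  refine ⟨i0, hi0', ?_, key⟩
  have h2 := key i
  have p1 : 0 < Φ.natDegree - i := Nat.sub_pos_of_lt him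
  have p2 : 0 < Φ.natDegree - i0 := Nat.sub_pos_of_lt hi0'
  by_contra hn
  have h3 : (Φ.coeff i0).natDegree * (Φ.natDegree - i) ≤
      (Φ.natDegree - i0) * (Φ.natDegree - i) := Nat.mul_le_mul_right _ (not_lt.mp hn)
  have h4 := Nat.mul_lt_mul_of_pos_left hi p2
  omega

/-- A branch of slope above one forces an integer centre and a Chebyshev relation. -/
theorem steep {c : ℝ} {Φ : ℤ[X][X]} (hΦ : Φ.Monic) (hC : Crit c Φ)
    (h : ∃ i, Φ.natDegree - i < (Φ.coeff i).natDegree) : (∃ n : ℤ, c = n) ∧ ∃ K L : ℕ,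
      0 < K ∧ 0 < L ∧ {x ∈ II c | ∃ y ∈ II c, ev x y Φ = 0 ∧
        (ch c K).eval y = (ch c L).eval x}.Infinite := by
  classical
  obtain ⟨i0, hi0, hlt, hab⟩ := cls_slope hΦ h
  set a := (Φ.coeff i0).natDegree with hadef
  set b := Φ.natDegree - i0 with hbdef
  have hb : 0 < b := Nat.sub_pos_of_lt hi0
  have ha : 0 < a := lt_trans hb hlt
  obtain ⟨E, T, p, P, ys, hE, hEd, hEc, hT, hroot, hp, -, hPd, hys⟩ := core hΦ hC ha hb hab
  have hne : Φ.coeff i0 ≠ 0 := by
    intro h0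
    rw [h0, natDegree_zero] at hadef
    omega
  have hEi : E.coeff i0 ≠ 0 := by
    rw [hEc i0 a hi0.le (mul_comm _ _)]
    exact mt leadingCoeff_eq_zero.mp hne
  obtain ⟨z, hz, hz0⟩ := cls_nonzero_root hE (by omega) hEi
  set μ : ℕ := (E.map (Int.castRingHom ℂ)).roots.countP (· ≠ 0) with hμdef
  have hμ : 0 < μ := Multiset.countP_pos.mpr ⟨z, hz, hz0⟩
  have hinf := dct c (T * b) (T * a) Φ.natDegree (Nat.mul_pos hT ha).ne' (μ := (μ : ℝ))
    (by exact_mod_cast hμ.ne') (fun k => P (k * T * b)) ys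
    (fun x hx => (hys x hx).1.le) (fun x hx => (hys x hx).2.1) (by
      intro k hk
      have hkT : 0 < k * T := Nat.mul_pos hk hT
      obtain ⟨d1, d2⟩ := hPd (k * T) hkT
      refine ⟨by rwa [← mul_assoc], ?_, ?_⟩
      · rw [← mul_assoc, d2]
        have e1 := (hp (k * T * b)).2 (k * T * a) (by ring)
        rw [cls_pow_sum _ (T := T) ⟨k * b, by ring⟩ (Nat.mul_pos hkT hb).ne' hroot] at e1
        have e2 : (p (k * T * b)).coeff (k * T * a) = (μ : ℤ) := by exact_mod_cast e1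
        rw [e2]
        simp
      · intro x hx
        rw [← mul_assoc]
        exact (hys x hx).2.2.2 _)
  have hi : {x ∈ II c | ∃ y ∈ II c, ev x y Φ = 0 ∧
      (ch c (T * b)).eval y = (ch c (T * a)).eval x}.Infinite := by
    refine hinf.mono ?_
    rintro x ⟨hx, y, hy, hxy⟩
    exact ⟨hx, y, (hys x hx).2.1 y hy, ((hys x hx).2.2.1 y).mp hy, hxy⟩
  exact ⟨int_of_rel hΦ hC (Nat.mul_lt_mul_of_pos_left hlt hT) hi, _, _, Nat.mul_pos hT hb,
    Nat.mul_pos hT ha, hi⟩

/-- All slopes equal to one. -/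
theorem flat {c : ℝ} {Φ : ℤ[X][X]} (hΦ : Φ.Monic) (hC : Crit c Φ) (h1 : Φ.natDegree ≠ 0)
    (h : ∀ i, (Φ.coeff i).natDegree ≤ Φ.natDegree - i)
    (h0 : (Φ.coeff 0).coeff Φ.natDegree ≠ 0) :
    (∀ x ∈ II c, ∀ y : ℝ, ev x y Φ = 0 → y = x) ∨ ∃ c0 : ℚ, c = c0 ∧ ∃ T, 0 < T ∧
      ∀ x ∈ II c, ∀ y : ℝ, ev x y Φ = 0 → (ch c T).eval y = (ch c T).eval x := by
  classical
  obtain ⟨E, T, p, P, ys, hE, hEd, hEc, hT, hroot, hp, hPc, hPd, hys⟩ :=
    core hΦ hC (a := 1) (b := 1) one_pos one_pos (by simpa using h)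
  simp only [one_mul, mul_one] at hEc hp hPd
  have hE0 : E.coeff 0 ≠ 0 := by
    rwa [hEc 0 Φ.natDegree (Nat.zero_le _) (by simp)]
  have hnz : ∀ z ∈ (E.map (Int.castRingHom ℂ)).roots, z ≠ 0 := by
    rintro z hz rfl
    have h2 := (mem_roots (hE.map (Int.castRingHom ℂ)).ne_zero).mp hz
    rw [IsRoot.def, ← coeff_zero_eq_eval_zero, coeff_map] at h2
    exact hE0 (by simpa using h2)
  have hcard : (E.map (Int.castRingHom ℂ)).roots.card = Φ.natDegree := by
    rw [cls_card_roots hE, hEd]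
  have hm : (0 : ℝ) < Φ.natDegree := by exact_mod_cast Nat.pos_of_ne_zero h1
  have hfull : ∀ K, K ≠ 0 → (∀ z ∈ (E.map (Int.castRingHom ℂ)).roots, z ^ K = 1) →
      P K = C (Φ.natDegree : ℝ) * ch c K := by
    intro K hK hz
    obtain ⟨d1, d2⟩ := hPd K (Nat.pos_of_ne_zero hK)
    refine ce2 hK hm d1 ?_ ?_
    · intro x hx
      rw [(hys x hx).2.2.2 K, ← (hys x hx).1]
      exact cls_abs_sum _ _ fun y hy => abs_ch_le ((hys x hx).2.1 y hy) K
    · rw [d2]
      have e1 := (hp K).2 K rfl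
      rw [Multiset.map_congr rfl hz, Multiset.map_const', Multiset.sum_replicate, hcard] at e1
      have e2 : (p K).coeff K = (Φ.natDegree : ℤ) := by
        have : (((p K).coeff K : ℤ) : ℂ) = ((Φ.natDegree : ℤ) : ℂ) := by simpa using e1
        exact_mod_cast this
      rw [e2]
      simp
  have hrel : ∀ K, K ≠ 0 → (∀ z ∈ (E.map (Int.castRingHom ℂ)).roots, z ^ K = 1) →
      ∀ x ∈ II c, ∀ y : ℝ, ev x y Φ = 0 → (ch c K).eval y = (ch c K).eval x := by
    intro K hK hz x hx y hy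
    have f1 := hfull K hK hz
    have f2 := hfull (2 * K) (by omega) fun z hz' => by rw [mul_comm, pow_mul, hz z hz', one_pow]
    obtain ⟨c1, -, c3, c4⟩ := hys x hx
    have hsq : ∀ y : ℝ, (ch c K).eval y ^ 2 = (ch c (2 * K)).eval y + 2 := by
      intro y
      have := congrArg (eval y) (ch_sq c K)
      simpa using this
    have hs := cls_sq_sum (ys x) (fun y => (ch c K).eval y) (fun y => (ch c (2 * K)).eval y)
      ((ch c K).eval x) hsq
    rw [← c4 K, ← c4 (2 * K), f1, f2, c1, eval_mul, eval_mul, eval_C] at hs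
    have hz0 := cls_zero_of_sum (ys x) (fun y => ((ch c K).eval y - (ch c K).eval x) ^ 2)
      (fun y _ => sq_nonneg _) (by rw [hs]; linear_combination (-(Φ.natDegree : ℝ)) * hsq x)
      y ((c3 y).mpr hy)
    exact sub_eq_zero.mp (pow_eq_zero_iff two_ne_zero |>.mp hz0)
  by_cases hall : ∀ z ∈ (E.map (Int.castRingHom ℂ)).roots, z = 1
  · left
    intro x hx y hy
    have := hrel 1 one_ne_zero (fun z hz => by rw [hall z hz, one_pow]) x hx y hy
    rw [ch_one] at this
    simpa using this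
  · right
    have hT1 : ∀ z ∈ (E.map (Int.castRingHom ℂ)).roots, z ^ T = 1 :=
      fun z hz => hroot z hz (hnz z hz)
    obtain ⟨S, rfl⟩ := Nat.exists_eq_succ_of_ne_zero hT.ne'
    have f1 := congrArg (fun q : ℝ[X] => q.coeff S) (hfull (S + 1) hT.ne' hT1)
    simp only [coeff_C_mul] at f1
    rw [hPc, Finset.sum_range_succ, Finset.sum_range_succ, Finset.sum_eq_zero (by
      intro i hi
      rw [coeff_eq_zero_of_natDegree_lt (lt_of_le_of_lt (hp i).1 (Finset.mem_range.mp hi))]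
      simp), ch_coeff_pred, ch_coeff_self c hT.ne'] at f1
    have hπ : (p S).coeff S ≠ (Φ.natDegree : ℤ) := by
      intro he
      apply hall
      have e1 := (hp S).2 S rfl
      have e2 := cls_unit_sum ((E.map (Int.castRingHom ℂ)).roots.map (· ^ S)) (by
        intro w hw
        obtain ⟨z, hz, rfl⟩ := Multiset.mem_map.mp hw
        have n1 : ‖z‖ = 1 := Complex.norm_eq_one_of_pow_eq_one (hT1 z hz) hT.ne'
        simp [n1]) (by rw [← e1, he, Multiset.card_map, hcard]; simp)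
      intro z hz
      have e3 := e2 _ (Multiset.mem_map_of_mem (· ^ S) hz)
      have e4 := hT1 z hz
      rwa [Nat.succ_eq_add_one, pow_succ, e3, one_mul] at e4
    refine ⟨((p (S + 1)).coeff S : ℚ) /
      (((S + 1 : ℕ) : ℚ) * (((p S).coeff S : ℚ) - (Φ.natDegree : ℚ))), ?_, S + 1, hT,
      hrel (S + 1) hT.ne' hT1⟩
    have n1 : ((S + 1 : ℕ) : ℝ) ≠ 0 := by exact_mod_cast hT.ne'
    have n2 : (((p S).coeff S : ℤ) : ℝ) - (Φ.natDegree : ℝ) ≠ 0 := by
      rw [sub_ne_zero]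
      exact_mod_cast hπ
    rw [Rat.cast_div, Rat.cast_mul, Rat.cast_sub, Rat.cast_intCast, Rat.cast_intCast,
      Rat.cast_natCast, Rat.cast_natCast, eq_div_iff (mul_ne_zero n1 n2)]
    linear_combination -f1

end Pool.Agent.Lib.MP_1e748d_nt.Va
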