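import Pool.Agent.Lib.MP_1e748d_nt.Va.Eng
import Pool.Agent.Lib.MP_1e748d_nt.Va.Alg
import Pool.Agent.Lib.MP_1e748d_nt.Va.Apx

set_option autoImplicit false

namespace Pool.Agent.Lib.MP_1e748d_nt.Va

open Polynomial

lemma z1_box {a b m n : ℕ} {q : ℝ[X]} {W : ℝ[X][X]} (hq : q.natDegree ≤ b * n)
    (hW : Box (a * n + 1) m W) : Box ((a + b) * n + 1) m (C q * W) := by
  refine ⟨?_, fun j => ?_⟩
  · rw [← smul_eq_C_mul]
    exact (degree_smul_le _ _).trans_lt hW.1
  · rw [coeff_C_mul]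
    have h1 : (W.coeff j).natDegree ≤ a * n := by
      have := hW.2 j
      by_cases h0 : W.coeff j = 0
      · simp [h0]
      · have := (natDegree_lt_iff_degree_lt h0).2 this
        omega
    have h2 : (q * W.coeff j).natDegree < (a + b) * n + 1 := by
      have := natDegree_mul_le (p := q) (q := W.coeff j)
      nlinarith
    exact degree_le_natDegree.trans_lt (by exact_mod_cast h2)

lemma z1_small {ϖ h : ℤ[X]} (hϖ : Prime ϖ) {ω : ℕ} (h0 : h ≠ 0) (hd : h.natDegree < ω)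
    (hc : ∀ a, |h.coeff a| < 2 ^ ω) : ¬ ϖ ^ ω ∣ h := by
  intro hv
  by_cases hn : ϖ.natDegree = 0
  · obtain ⟨l, rfl⟩ := natDegree_eq_zero.1 hn
    have hl : Prime l := prime_C_iff.1 hϖ
    rw [← C_pow, C_dvd_iff_dvd_coeff] at hv
    have hne : h.coeff h.natDegree ≠ 0 := by
      rw [coeff_natDegree]; exact leadingCoeff_ne_zero.2 h0
    have h1 := Int.le_of_dvd (abs_pos.2 hne) ((dvd_abs _ _).2 ((abs_dvd _ _).2 (hv h.natDegree)))
    have h2 : 2 ≤ |l| := by
      have := (Int.prime_iff_natAbs_prime.1 hl).two_le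
      rw [Int.abs_eq_natAbs]
      exact_mod_cast this
    have h3 : (2 : ℤ) ^ ω ≤ |l| ^ ω := pow_le_pow_left₀ (by norm_num) h2 ω
    rw [abs_pow] at h1
    linarith [hc h.natDegree]
  · have h1 := natDegree_le_of_dvd hv h0
    rw [natDegree_pow] at h1
    have : ω ≤ ω * ϖ.natDegree := Nat.le_mul_of_pos_right _ (Nat.pos_of_ne_zero hn)
    omega

lemma z1_cast (p : ℤ[X]) (x : ℝ) :
    ((p.eval₂ (Int.castRingHom ℝ) x : ℝ) : ℂ) = p.eval₂ (Int.castRingHom ℂ) (x : ℂ) := by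
  have := ofReal_ev x x (C p)
  simpa using this

lemma z1_est {ρ H Y E : ℝ} {m ω : ℕ} (hρ : 2 ≤ ρ) (hm : m ≠ 0) (hω : 0 < ω)
    (hY0 : 0 ≤ Y) (hE0 : 0 ≤ E) (hH : H ≤ (4 * ρ) ^ ω) (hY : Y ≤ ρ)
    (hE : E ≤ (1 / (16 * ρ ^ 2)) ^ (m * ω)) : H * Y ^ (m * ω) * E ≤ 1 / 4 := by
  have hρ0 : 0 < ρ := by linarith
  have h1 : Y ^ (m * ω) ≤ ρ ^ (m * ω) := pow_le_pow_left₀ hY0 hY _
  have h2 : Y ^ (m * ω) * E ≤ (1 / (16 * ρ)) ^ (m * ω) := by
    calc Y ^ (m * ω) * E ≤ ρ ^ (m * ω) * (1 / (16 * ρ ^ 2)) ^ (m * ω) := by gcongr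
      _ = (1 / (16 * ρ)) ^ (m * ω) := by
        rw [← mul_pow]; congr 1; field_simp
  have h3 : (1 / (16 * ρ)) ^ (m * ω) ≤ (1 / (16 * ρ)) ^ ω := by
    apply pow_le_pow_of_le_one (by positivity)
    · rw [div_le_one (by positivity)]; linarith
    · exact Nat.le_mul_of_pos_left _ (Nat.pos_of_ne_zero hm)
  calc H * Y ^ (m * ω) * E = H * (Y ^ (m * ω) * E) := by ring
    _ ≤ (4 * ρ) ^ ω * (1 / (16 * ρ)) ^ ω := by
        apply mul_le_mul hH (h2.trans h3) (by positivity) (by positivity)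
    _ = (1 / 4) ^ ω := by rw [← mul_pow]; congr 1; field_simp; ring
    _ ≤ (1 / 4) ^ 1 := pow_le_pow_of_le_one (by norm_num) (by norm_num) hω
    _ = 1 / 4 := by norm_num

/-- Without small sections the curve is monic up to sign. -/
theorem lead_unit {c : ℝ} {Φ : ℤ[X][X]} (hp : Prime Φ) (h1 : Φ.natDegree ≠ 0)
    (hN : NoSmall c Φ) (hr : ∀ x ∈ II c, Φ.leadingCoeff.eval₂ (Int.castRingHom ℝ) x ≠ 0) :
    IsUnit Φ.leadingCoeff := by
  by_contra hu
  have hA0 : Φ.leadingCoeff ≠ 0 := leadingCoeff_ne_zero.2 hp.ne_zero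
  obtain ⟨ϖ, hirr, hdv⟩ := WfDvdMonoid.exists_irreducible_factor hu hA0
  have hϖ : Prime ϖ := hirr.prime
  have hnd : ¬ C ϖ ∣ Φ := by
    intro hd
    have hass := (prime_C_iff.2 hϖ).associated_of_dvd hp hd
    have := natDegree_eq_of_degree_eq (degree_eq_degree_of_associated hass)
    rw [natDegree_C] at this
    exact h1 this.symm
  set A := Φ.leadingCoeff with hA
  set m := Φ.natDegree with hm
  have hPt : (integralNormalization Φ).Monic := monic_integralNormalization hp.ne_zero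
  have hP : (toR (integralNormalization Φ)).Monic := hPt.map _
  have hPd : (toR (integralNormalization Φ)).natDegree = m := by
    rw [hPt.natDegree_map, natDegree_integralNormalization]
  obtain ⟨d1, hd1⟩ := deg_mod _ X hP
  have hρ : 2 ≤ |c| + 2 := by linarith [abs_nonneg c]
  obtain ⟨d2, hd2⟩ := apx (c := c) (A := A.map (Int.castRingHom ℝ))
    (fun x hx => by rw [eval_map]; exact hr x hx) (ε := 1 / (16 * (|c| + 2) ^ 2)) (by positivity)
  obtain ⟨K, hK⟩ := (isCompact_Icc (a := c - 2) (b := c + 2)).exists_bound_of_continuousOn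
    (f := fun x : ℝ => (A.map (Int.castRingHom ℝ)).eval x) (Polynomial.continuous _).continuousOn
  obtain ⟨ω, hω, hE⟩ := eng c (K * (|c| + 2)) m ((d1 + d2) * m)
  obtain ⟨q, hq, hqa⟩ := hd2 (m * ω)
  have hB := z1_box hq (hd1 (m * ω))
  rw [hPd, ← mul_assoc] at hB
  obtain ⟨h, hh0, hhd, hhc, hhx, f, hfd, hf⟩ := hE _ hB
  refine z1_small hϖ hh0 hhd hhc (alg hϖ hdv hnd ω h f hfd (hN _ ?_))
  intro x hx y hy hxy
  set a : ℝ := A.eval₂ (Int.castRingHom ℝ) x with ha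
  have hKa : |a| ≤ K := by
    have := hK x hx
    rwa [eval_map, Real.norm_eq_abs] at this
  have hy' := abs_le_of_II hy
  have hu' : ‖((a * y : ℝ) : ℂ)‖ ≤ K * (|c| + 2) := by
    rw [Complex.norm_real, Real.norm_eq_abs, abs_mul]
    exact mul_le_mul hKa hy' (abs_nonneg _) ((abs_nonneg _).trans hKa)
  have h2 := hf x hx _ hu'
  have hz : ev x (a * y) (integralNormalization Φ) = 0 := by
    have := integralNormalization_eval₂_leadingCoeff_mul (p := Φ) (Nat.pos_of_ne_zero h1)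
      (eval₂RingHom (Int.castRingHom ℝ) x) y
    have h3 : Φ.eval₂ (eval₂RingHom (Int.castRingHom ℝ) x) y = 0 := hxy
    rw [h3, mul_zero] at this
    exact this
  have hzc : evR x ((a * y : ℝ) : ℂ) (toR (integralNormalization Φ)) = 0 := by
    rw [evR_toR, ← ofReal_ev, hz, Complex.ofReal_zero]
  have hR : evR x ((a * y : ℝ) : ℂ) (X ^ (m * ω) %ₘ toR (integralNormalization Φ))
      = ((a * y : ℝ) : ℂ) ^ (m * ω) := by
    have := congrArg (evR x ((a * y : ℝ) : ℂ))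
      (modByMonic_add_div (X ^ (m * ω) : ℝ[X][X]) (toR (integralNormalization Φ)))
    rw [map_add, map_mul, hzc, zero_mul, add_zero, map_pow, e2_X] at this
    exact this
  have hqx : q.eval₂ Complex.ofRealHom (x : ℂ) = ((q.eval x : ℝ) : ℂ) := by
    have := eval₂_at_apply (p := q) Complex.ofRealHom x
    simpa using this
  rw [map_mul, hR, e2_C, hqx, ← z1_cast, ← ofReal_ev, ← Complex.ofReal_pow, ← Complex.ofReal_mul,
    ← Complex.ofReal_mul, ← Complex.ofReal_sub, Complex.norm_real, Real.norm_eq_abs] at h2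
  have h4 := hqa x hx
  rw [eval_map, ← ha] at h4
  have h5 := z1_est hρ h1 hω (abs_nonneg y) (abs_nonneg _) (hhx x hx) hy' h4
  rw [map_sub, map_mul, map_pow, e2_C, e2_X, e2_comp, ← ha]
  set H := h.eval₂ (Int.castRingHom ℝ) x
  set F := ev x (a * y) f
  have h6 : H * y ^ (m * ω) - F = H * y ^ (m * ω) * (1 - q.eval x * a ^ (m * ω))
      + (H * (q.eval x * (a * y) ^ (m * ω)) - F) := by
    rw [mul_pow]; ring
  rw [h6]
  refine (abs_add_le _ _).trans_lt ?_
  rw [abs_mul, abs_mul, abs_pow]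
  linarith

end Pool.Agent.Lib.MP_1e748d_nt.Va
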