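import Pool.Agent.Lib.MP_1e748d_nt.Va.Z0
import Pool.Agent.Lib.MP_1e748d_nt.Va.Z1
import Pool.Agent.Lib.MP_1e748d_nt.Va.Cls

set_option autoImplicit false

namespace Pool.Agent.Lib.MP_1e748d_nt.Va

open Polynomial

lemma classify_swap {c : ℝ} {Φ : ℤ[X][X]} (hN : NoSmall c Φ) : NoSmall c (Bivariate.swap Φ) := by
  intro f hf
  have := map_dvd (Bivariate.swap (R := ℤ)) (hN (Bivariate.swap f) fun x hx y hy h => by
    rw [e2_swap]
    exact hf y hy x hx (by rwa [e2_swap]))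
  rwa [Bivariate.swap_swap_apply] at this

/-- A polynomial not divisible by the prime `Φ` has a non-zero constant multiple modulo `Φ`. -/
lemma rig_bezout {R : Type} [CommRing R] [IsDomain R] {Φ f : R[X]} (hp : Prime Φ)
    (hf : ¬ Φ ∣ f) : ∃ r : R, r ≠ 0 ∧ ∃ V : R[X], Φ ∣ C r - f * V := by
  have := AdjoinRoot.isDomain_of_prime hp
  have h1 : IsAlgebraic R (AdjoinRoot.root Φ) :=
    ⟨Φ, hp.ne_zero, by rw [AdjoinRoot.aeval_eq, AdjoinRoot.mk_self]⟩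
  have h2 : IsAlgebraic R (AdjoinRoot.mk Φ f) := by
    rw [← AdjoinRoot.aeval_eq]
    exact Algebra.isAlgebraic_adjoin_singleton_iff.mpr h1 _ (aeval_mem_adjoin_singleton R _)
  have h3 : AdjoinRoot.mk Φ f ≠ 0 := fun h => hf (AdjoinRoot.mk_eq_zero.mp h)
  obtain ⟨r, hr, t, ht⟩ := h2.exists_nonzero_dvd (mem_nonZeroDivisors_of_ne_zero h3)
  obtain ⟨V, rfl⟩ := AdjoinRoot.mk_surjective t
  refine ⟨r, hr, V, AdjoinRoot.mk_eq_mk.mp ?_⟩
  rw [map_mul, ← ht, AdjoinRoot.mk_C, AdjoinRoot.algebraMap_eq]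

lemma classify_norm {c : ℝ} {Φ : ℤ[X][X]} (hp : Prime Φ)
    (h1 : Φ.natDegree ≠ 0) (hN : NoSmall c Φ) : ∃ u : ℤ, u ≠ 0 ∧ (C (C u) * Φ).Monic ∧
      Crit c (C (C u) * Φ) ∧ (Φ.coeff Φ.natDegree).coeff 0 ≠ 0 := by
  have hr := noroot hp h1 (crit0 h1 hN)
  obtain ⟨u, hu, h⟩ := Polynomial.isUnit_iff.mp (lead_unit hp h1 hN hr)
  have hu0 := hu.ne_zero
  refine ⟨u, hu0, monic_C_mul_of_mul_leadingCoeff_eq_one (by
    rw [← h, ← C_mul, Int.isUnit_mul_self hu, C_1]),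
    fun x hx y hy => crit0 h1 hN x hx (hr x hx) y (by
      rw [map_mul, e2_C, eval₂_C, mul_eq_zero] at hy
      exact hy.resolve_left (by simpa using hu0)), ?_⟩
  rw [coeff_natDegree, ← h, coeff_C_zero]
  exact hu0

/-- The curve is a component of a Chebyshev correspondence with integer centre. -/
def Rel (c : ℝ) (Φ : ℤ[X][X]) : Prop :=
  ∃ m : ℤ, c = m ∧ ∃ K L : ℕ, 0 < K ∧ 0 < L ∧ Φ ∣ (ch m K).map C - C (ch m L)

lemma classify_steep {c : ℝ} {Φ : ℤ[X][X]} (hp : Prime Φ) (h1 : Φ.natDegree ≠ 0)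
    (hN : NoSmall c Φ) (h : ¬ ∀ i, (Φ.coeff i).natDegree ≤ Φ.natDegree - i) : Rel c Φ := by
  obtain ⟨u, hu, hm, hC, -⟩ := classify_norm hp h1 hN
  obtain ⟨i, hi⟩ := not_forall.mp h
  obtain ⟨⟨m, rfl⟩, K, L, hK, hL, hinf⟩ := steep hm hC ⟨i, by
    rw [natDegree_C_mul (C_ne_zero.mpr hu), coeff_C_mul, natDegree_C_mul hu]
    omega⟩
  refine ⟨m, rfl, K, L, hK, hL, ?_⟩
  by_contra hd
  obtain ⟨r, hr, V, U, hU⟩ := rig_bezout hp hd
  refine hr (Polynomial.map_injective (Int.castRingHom ℝ) Int.cast_injective ?_)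
  rw [Polynomial.map_zero]
  refine eq_zero_of_infinite_isRoot _ (hinf.mono ?_)
  rintro x ⟨-, y, -, h2, h3⟩
  rw [map_mul, e2_C, eval₂_C, mul_eq_zero] at h2
  have h4 := congrArg (ev x y) hU
  rw [map_mul, h2.resolve_left (by simpa using hu), zero_mul, map_sub, map_mul, map_sub, e2_map_C,
    e2_C, e2_C, ch_eval₂, ch_eval₂, eq_intCast, h3, sub_self, zero_mul, sub_zero] at h4
  rw [Set.mem_ofPred_eq, IsRoot.def, eval_map, h4]

/-- Classification of the curves without small sections. -/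
theorem classify {c : ℝ} {Φ : ℤ[X][X]} (hp : Prime Φ)
    (h1 : Φ.natDegree ≠ 0) (h2 : (Bivariate.swap Φ).natDegree ≠ 0) (hN : NoSmall c Φ) :
    Rel c Φ ∨ (∀ x ∈ II c, ∀ y : ℝ, ev x y Φ = 0 → y = x) ∨ ∃ c0 : ℚ, c = c0 ∧ ∃ T, 0 < T ∧
      ∀ x ∈ II c, ∀ y : ℝ, ev x y Φ = 0 → (ch c T).eval y = (ch c T).eval x := by
  have hp' := (MulEquiv.prime_iff (Bivariate.swap (R := ℤ))).mpr hp
  by_cases hd : ∀ i, (Φ.coeff i).natDegree ≤ Φ.natDegree - i
  swap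
  · exact Or.inl (classify_steep hp h1 hN hd)
  by_cases hd' : ∀ i, ((Bivariate.swap Φ).coeff i).natDegree ≤ (Bivariate.swap Φ).natDegree - i
  swap
  · obtain ⟨m, hm, K, L, hK, hL, h⟩ := classify_steep hp' h2 (classify_swap hN) hd'
    refine Or.inl ⟨m, hm, L, K, hL, hK, ?_⟩
    have := map_dvd (Bivariate.swap (R := ℤ)) h
    rw [Bivariate.swap_swap_apply, map_sub, Bivariate.swap_C, Bivariate.swap_map_C] at this
    exact dvd_sub_comm.mp this
  right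
  obtain ⟨u, hu, hm, hC, he⟩ := classify_norm hp h1 hN
  obtain ⟨-, -, -, -, he'⟩ := classify_norm hp' h2 (classify_swap hN)
  rw [coeff_swap] at he'
  rw [← coeff_swap] at he
  have e1 := (le_natDegree_of_ne_zero he').trans (hd 0)
  have e2' := (le_natDegree_of_ne_zero he).trans (hd' 0)
  have e : (Bivariate.swap Φ).natDegree = Φ.natDegree := by omega
  have hn : (C (C u) * Φ).natDegree = Φ.natDegree := natDegree_C_mul (C_ne_zero.mpr hu)
  have hz : ∀ x y : ℝ, ev x y Φ = 0 → ev x y (C (C u) * Φ) = 0 := fun x y h => by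
    rw [map_mul, h, mul_zero]
  rcases flat hm hC (by rwa [hn]) (fun i => by
    rw [hn, coeff_C_mul, natDegree_C_mul hu]; exact hd i) (by
    rw [hn, coeff_C_mul, coeff_C_mul, ← e]; exact mul_ne_zero hu he') with h | ⟨c0, h0, T, hT, h⟩
  · exact Or.inl fun x hx y hy => h x hx y (hz x y hy)
  · exact Or.inr ⟨c0, h0, T, hT, fun x hx y hy => h x hx y (hz x y hy)⟩

end Pool.Agent.Lib.MP_1e748d_nt.Va
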