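import Pool.Agent.Lib.MP_1e748d_nt.Va.Defs

set_option autoImplicit false

namespace Pool.Agent.Lib.MP_1e748d_nt.Va

open Polynomial

lemma frob_pow {G S : Type} [Group G] [CommRing S] [MulSemiringAction G S] {P : Ideal S} {φ : G}
    {q : ℕ} (h : ∀ x : S, φ • x - x ^ q ∈ P) (n : ℕ) (x : S) : φ ^ n • x - x ^ q ^ n ∈ P := by
  induction n generalizing x with
  | zero => simp
  | succ n ih =>
    have h1 := ih (φ • x)
    have h2 : (φ • x) ^ q ^ n - (x ^ q) ^ q ^ n ∈ P :=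
      Ideal.mem_of_dvd P (sub_dvd_pow_sub_pow _ _ _) (h x)
    have h3 := add_mem h1 h2
    rwa [sub_add_sub_cancel, ← mul_smul, ← pow_succ, ← pow_mul, ← pow_succ'] at h3

lemma frob_card {G : Type} [Group G] [Finite G] (A I : Subgroup G) :
    Nat.card I ≤ A.index * Nat.card {g : G // g ∈ A ∧ g ∈ I} := by
  have h0 : A.relIndex ⊤ ≠ 0 := by
    rw [Subgroup.relIndex_top_right]
    exact A.index_ne_zero_of_finite
  have h1 : A.relIndex I ≤ A.index := by
    rw [← Subgroup.relIndex_top_right]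
    exact Subgroup.relIndex_le_of_le_right le_top h0
  have h2 : Nat.card (A.subgroupOf I) ≤ Nat.card {g : G // g ∈ A ∧ g ∈ I} :=
    Nat.card_le_card_of_injective (fun g => ⟨g.1.1, g.2, g.1.2⟩) fun _ _ e =>
      Subtype.ext (Subtype.ext (Subtype.ext_iff.1 e :))
  rw [← (A.subgroupOf I).index_mul_card]
  exact Nat.mul_le_mul h1 h2

open NumberField in
/-- A prime above `p`, a Frobenius power in `A` and the bound on ramification. -/
theorem frob {L : Type} [Field L] [NumberField L] [IsGalois ℚ L] (A : Subgroup (L ≃ₐ[ℚ] L))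
    {B : ℕ} (hB : A.index ≤ B) {p : ℕ} (hp : p.Prime) : ∃ P : Ideal (𝓞 L), P.IsMaximal ∧
      (p : 𝓞 L) ∈ P ∧ (∃ σ ∈ A, ∀ x : 𝓞 L, σ • x - x ^ p ^ B.factorial ∈ P) ∧
      ∀ e : ℕ, (p : 𝓞 L) ∈ P ^ e →
        e ≤ B * Nat.card {g : L ≃ₐ[ℚ] L // g ∈ A ∧ ∀ x : 𝓞 L, g • x - x ∈ P} := by
  have : Fact p.Prime := ⟨hp⟩
  have : NeZero p := ⟨hp.ne_zero⟩
  have hm : (Ideal.span {(p : ℤ)}).IsMaximal := Int.ideal_span_isMaximal_of_prime p
  obtain ⟨P, hP, hPp⟩ :=
    Ideal.exists_maximal_ideal_liesOver_of_isIntegral (S := 𝓞 L) (Ideal.span {(p : ℤ)})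
  have hmap : (Ideal.span {(p : ℤ)}).map (algebraMap ℤ (𝓞 L)) = Ideal.span {(p : 𝓞 L)} := by
    rw [Ideal.map_span, Set.image_singleton]
    simp
  have hne : (Ideal.span {(p : ℤ)}).map (algebraMap ℤ (𝓞 L)) ≠ ⊥ := by
    rw [hmap, Ne, Ideal.span_singleton_eq_bot]
    exact Nat.cast_ne_zero.2 hp.ne_zero
  have h3 : (p : 𝓞 L) ∈ P := by
    rw [← Ideal.span_singleton_le_iff_mem, ← hmap, Ideal.map_le_iff_le_comap]
    exact (P.over_def (Ideal.span {(p : ℤ)})).le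
  refine ⟨P, hP, h3, ?_, fun e he => ?_⟩
  · obtain ⟨φ, hφ⟩ := IsArithFrobAt.exists_of_isInvariant ℤ (L ≃ₐ[ℚ] L) P
    have hc : Nat.card (ℤ ⧸ P.under ℤ) = p := by
      rw [← P.over_def (Ideal.span {(p : ℤ)})]
      exact Int.card_ideal_quot p
    refine ⟨φ ^ B.factorial, Subgroup.pow_mem_of_index_ne_zero_of_dvd
      A.index_ne_zero_of_finite φ fun m h1 h2 => Nat.dvd_factorial h1 (h2.trans hB),
      frob_pow (fun x => ?_) _⟩
    have h := hφ x
    rw [hc] at h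
    exact h
  · have h1 : Nat.card (P.inertia (L ≃ₐ[ℚ] L)) =
        multiplicity P ((Ideal.span {(p : ℤ)}).map (algebraMap ℤ (𝓞 L))) := by
      rw [Ideal.card_inertia_eq_ramificationIdxIn (Ideal.span {(p : ℤ)}) P,
        Ideal.ramificationIdxIn_eq_ramificationIdx _ P (L ≃ₐ[ℚ] L),
        Ideal.IsDedekindDomain.ramificationIdx_eq_multiplicity _ P hne]
    have hfin : FiniteMultiplicity P ((Ideal.span {(p : ℤ)}).map (algebraMap ℤ (𝓞 L))) :=
      FiniteMultiplicity.of_not_isUnit (by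
        rw [Ideal.isUnit_iff]
        exact hP.ne_top) hne
    have h2 : e ≤ Nat.card (P.inertia (L ≃ₐ[ℚ] L)) := by
      rw [h1, ← hfin.pow_dvd_iff_le_multiplicity, Ideal.dvd_iff_le, hmap,
        Ideal.span_singleton_le_iff_mem]
      exact he
    exact h2.trans ((frob_card A _).trans (Nat.mul_le_mul_right _ hB))

end Pool.Agent.Lib.MP_1e748d_nt.Va
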