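import Pool.Agent.Lib.MP_1e748d_nt.Va.Out
import Pool.Agent.Lib.MP_1e748d_nt.Va.Frob

set_option autoImplicit false

namespace Pool.Agent.Lib.MP_1e748d_nt.Va

open Polynomial

section Abstract

variable {S G : Type} [CommRing S] [IsDomain S] [IsDiscreteValuationRing S] [Group G]
  [MulSemiringAction G S] {π : S}

lemma conc_dvd_iff (hπ : Irreducible π) {n : ℕ} {x : S} :
    π ^ n ∣ x ↔ x ∈ IsLocalRing.maximalIdeal S ^ n := by
  rw [hπ.maximalIdeal_eq, Ideal.span_singleton_pow, Ideal.mem_span_singleton]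

lemma conc_dvd_smul (hπ : Irreducible π) (g : G) {x : S} (h : π ∣ x) : π ∣ g • x := by
  have h1 : ∀ y : S, π ∣ y ↔ ¬ IsUnit y := fun y => by
    rw [← pow_one π, conc_dvd_iff hπ, pow_one, IsLocalRing.mem_maximalIdeal, mem_nonunits_iff]
  rw [h1] at h ⊢
  refine fun hu => h ?_
  have h2 := hu.map (MulSemiringAction.toRingHom G S g⁻¹)
  rwa [MulSemiringAction.toRingHom_apply, inv_smul_smul] at h2

lemma conc_ext (hπ : Irreducible π) (g : G) (q : ℕ) {x y : S} (hxy : π ∣ x - y)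
    (h : π ∣ g • y - y ^ q) : π ∣ g • x - x ^ q := by
  have h1 := conc_dvd_smul hπ g hxy
  rw [smul_sub] at h1
  have h2 := dvd_sub (dvd_add h1 h) (hxy.trans (sub_dvd_pow_sub_pow x y q))
  rwa [sub_add_sub_cancel, sub_sub_sub_cancel_right] at h2

omit [IsDomain S] [IsDiscreteValuationRing S] in
lemma conc_iter {σ : G} {q : ℕ} (h : ∀ x : S, π ∣ σ • x - x ^ q) (n : ℕ) (x : S) :
    π ∣ σ ^ n • x - x ^ q ^ n := by
  induction n with
  | zero => simp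
  | succ n ih =>
    have h1 := dvd_add (h (σ ^ n • x)) (ih.trans (sub_dvd_pow_sub_pow _ _ q))
    rwa [sub_add_sub_cancel, ← mul_smul, ← pow_succ', ← pow_mul, ← pow_succ] at h1

end Abstract

open NumberField

section Concrete

variable {L : Type} [Field L] (P : Ideal (𝓞 L)) [hP : P.IsPrime]

/-- The localisation at `P` inside the field. -/
def conc_loc : Subring L where
  carrier := {x | ∃ a s : 𝓞 L, s ∉ P ∧ x * s = a}
  one_mem' := ⟨1, 1, hP.one_notMem, by simp⟩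
  zero_mem' := ⟨0, 1, hP.one_notMem, by simp⟩
  mul_mem' := by
    rintro x y ⟨a, s, hs, h⟩ ⟨b, t, ht, h'⟩
    refine ⟨a * b, s * t, fun e => (hP.mem_or_mem e).elim hs ht, ?_⟩
    simp only [RingOfIntegers.coe_eq_algebraMap] at *
    rw [map_mul, map_mul, mul_mul_mul_comm, h, h']
  add_mem' := by
    rintro x y ⟨a, s, hs, h⟩ ⟨b, t, ht, h'⟩
    refine ⟨a * t + b * s, s * t, fun e => (hP.mem_or_mem e).elim hs ht, ?_⟩
    simp only [RingOfIntegers.coe_eq_algebraMap] at *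
    rw [map_add, map_mul, map_mul, map_mul, ← h, ← h']
    ring
  neg_mem' := by
    rintro x ⟨a, s, hs, h⟩
    refine ⟨-a, s, hs, ?_⟩
    simp only [RingOfIntegers.coe_eq_algebraMap] at *
    rw [map_neg, neg_mul, h]

lemma conc_mem (a : 𝓞 L) : algebraMap (𝓞 L) L a ∈ conc_loc P :=
  ⟨a, 1, hP.one_notMem, by simp⟩

/-- The ring of integers maps to the localisation. -/
noncomputable abbrev conc_alg : Algebra (𝓞 L) (conc_loc P) :=
  ((algebraMap (𝓞 L) L).codRestrict (conc_loc P) (conc_mem P)).toAlgebra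

lemma conc_isLoc : letI := conc_alg P; IsLocalization.AtPrime (conc_loc P) P := by
  let := conc_alg P
  refine (isLocalization_iff _ _).2 ⟨fun s => ?_, fun z => ?_, fun {x y} h => ⟨1, ?_⟩⟩
  · have h0 : algebraMap (𝓞 L) L s ≠ 0 := fun e => s.2 (by
      rw [(map_eq_zero_iff _ RingOfIntegers.coe_injective).1 e]
      exact P.zero_mem)
    refine IsUnit.of_mul_eq_one ⟨(algebraMap (𝓞 L) L s)⁻¹, 1, s, s.2, ?_⟩ (Subtype.ext ?_)
    · exact (inv_mul_cancel₀ h0).trans (map_one _).symm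
    · exact mul_inv_cancel₀ h0
  · obtain ⟨a, s, hs, h⟩ := z.2
    exact ⟨(a, ⟨s, hs⟩), Subtype.ext h⟩
  · have h1 : algebraMap (𝓞 L) L x = algebraMap (𝓞 L) L y :=
      congrArg (Subtype.val : conc_loc P → L) h
    rw [RingOfIntegers.coe_injective h1]

variable [CharZero L]

/-- The elements of `A` that fix `P`. -/
def conc_stab (A : Subgroup (L ≃ₐ[ℚ] L)) : Subgroup (L ≃ₐ[ℚ] L) where
  carrier := {g | g ∈ A ∧ ∀ a : 𝓞 L, g • a ∈ P ↔ a ∈ P}
  one_mem' := ⟨A.one_mem, fun a => by rw [one_smul]⟩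
  mul_mem' := fun {g h} hg hh => ⟨A.mul_mem hg.1 hh.1, fun a => by rw [mul_smul, hg.2, hh.2]⟩
  inv_mem' := fun {g} hg => ⟨A.inv_mem hg.1, fun a => by rw [← hg.2, smul_inv_smul]⟩

lemma conc_inv (A : Subgroup (L ≃ₐ[ℚ] L)) : IsInvariantSubring (conc_stab P A) (conc_loc P) := by
  refine ⟨fun g x ⟨a, s, hs, h⟩ => ⟨g.1 • a, g.1 • s, fun e => hs ((g.2.2 s).1 e), ?_⟩⟩
  exact (map_mul g.1 x s).symm.trans (congrArg g.1 h)

end Concrete

/-- The local alternative at a prime above a prime number `p` not dividing `2 b`. -/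
theorem local_out (B b : ℕ) (hb : 0 < b) : ∃ p r q : ℕ, p.Prime ∧ 0 < r ∧ 2 ≤ q ∧
    (∃ e, q = p ^ e) ∧
    ∀ (L : Type) [Field L] [NumberField L] [IsGalois ℚ L] (H : Subgroup (L ≃ₐ[ℚ] L)),
    H.index ≤ B → (∀ g ∈ H, ∀ h ∈ H, g ^ b * h = h * g ^ b) →
    ∃ R : Subring L, (∀ x, IsIntegral ℤ x → x ∈ R) ∧ (∀ z ∈ R, (p : L) * z ≠ 1) ∧
      ((∃ σ : L ≃ₐ[ℚ] L, (∀ h ∈ H, σ * h = h * σ) ∧
          ∀ x, IsIntegral ℤ x → ∃ z ∈ R, (σ x - x ^ q) ^ r = p * z) ∨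
       (∃ τ : L ≃ₐ[ℚ] L, (∀ h ∈ H, τ * h = h * τ) ∧ τ ≠ 1 ∧ Odd (orderOf τ) ∧
          ∀ x, IsIntegral ℤ x → ∃ z ∈ R, (τ x - x) ^ r = p * z)) := by
  obtain ⟨p, hbp, hp⟩ := Nat.exists_infinite_primes (b + 3)
  have hq0 : 2 ≤ p ^ B.factorial := hp.two_le.trans (Nat.le_self_pow B.factorial_ne_zero p)
  have hq : 2 ≤ (p ^ B.factorial) ^ b := hq0.trans (Nat.le_self_pow hb.ne' _)
  obtain ⟨r, hr, H⟩ := abs_out p ((p ^ B.factorial) ^ b) B b (by omega) hq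
    (fun h => by have := Nat.le_of_dvd hb h; omega)
  refine ⟨p, r, (p ^ B.factorial) ^ b, hp, hr, hq, ⟨_, (pow_mul _ _ _).symm⟩,
    fun L _ _ _ A hB hA => ?_⟩
  obtain ⟨P, hP, h3, ⟨σ, hσA, hσ⟩, hram⟩ := frob A hB hp
  let := conc_alg P
  have := conc_isLoc P
  have := conc_inv P A
  have hP0 : P ≠ ⊥ := fun e => by
    rw [e, Ideal.mem_bot] at h3
    exact Nat.cast_ne_zero.2 hp.ne_zero h3
  have := IsLocalization.AtPrime.isDiscreteValuationRing_of_dedekind_domain (𝓞 L) hP0 (conc_loc P)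
  obtain ⟨π, hπ⟩ := IsDiscreteValuationRing.exists_irreducible (conc_loc P)
  have hpow : ∀ (n : ℕ) (a : 𝓞 L), π ^ n ∣ algebraMap (𝓞 L) (conc_loc P) a ↔ a ∈ P ^ n :=
    fun n a => by
      rw [conc_dvd_iff hπ, ← IsLocalization.AtPrime.under_maximalIdeal_pow P (conc_loc P) n,
        Ideal.mem_comap]
  have hone : ∀ a : 𝓞 L, π ∣ algebraMap (𝓞 L) (conc_loc P) a ↔ a ∈ P := fun a => by
    have h1 := hpow 1 a
    rwa [pow_one, pow_one] at h1
  have hπ3 : π ∣ (p : conc_loc P) := by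
    have h1 := (hone p).2 h3
    rwa [map_natCast] at h1
  have hext : ∀ (g : conc_stab P A) (q : ℕ), (∀ a : 𝓞 L, g.1 • a - a ^ q ∈ P) →
      ∀ x : conc_loc P, π ∣ g • x - x ^ q := by
    intro g q hg x
    obtain ⟨⟨a, s⟩, h⟩ := IsLocalization.surj P.primeCompl x
    obtain ⟨t, u, hu, htp⟩ := hP.exists_inv s.2
    refine conc_ext hπ g q (y := algebraMap (𝓞 L) (conc_loc P) (t * a)) ?_ ?_
    · have h1 : x - algebraMap (𝓞 L) (conc_loc P) (t * a) =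
          x * algebraMap (𝓞 L) (conc_loc P) u := by
        rw [eq_sub_of_add_eq' htp, map_sub, map_one, map_mul, map_mul, ← h]
        ring
      rw [h1]
      exact ((hone u).2 hu).mul_left x
    · have h1 := (hone _).2 (hg (t * a))
      rw [map_sub, map_pow] at h1
      exact h1
  have hst : ∀ g ∈ A, ∀ q : ℕ, q ≠ 0 → (∀ a : 𝓞 L, g • a - a ^ q ∈ P) → g ∈ conc_stab P A :=
    fun g hg q hq0 h => ⟨hg, fun a => by
      rw [← Submodule.sub_mem_iff_left _ (h a), sub_sub_cancel,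
        hP.isPrime.pow_mem_iff_mem q (Nat.pos_of_ne_zero hq0)]⟩
  let Z : Subgroup (conc_stab P A) :=
    (Subgroup.centralizer (A : Set (L ≃ₐ[ℚ] L))).subgroupOf (conc_stab P A)
  have hZ : ∀ g : conc_stab P A, g ∈ Z ↔ ∀ h ∈ A, g.1 * h = h * g.1 := fun g =>
    ⟨fun h1 h hh => (h1 h hh).symm, fun h1 h hh => (h1 h hh).symm⟩
  have hZ1 : ∀ g ∈ Z, ∀ h ∈ Z, g * h = h * g := fun g hg h _ =>
    Subtype.ext ((hZ g).1 hg h.1 h.2.1)
  have hZ2 : ∀ g : conc_stab P A, g ^ b ∈ Z := fun g => (hZ _).2 (hA g.1 g.2.1)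
  have : FaithfulSMul (conc_stab P A) (conc_loc P) := ⟨fun {g h} e => by
    refine Subtype.ext (AlgEquiv.ext fun y => ?_)
    obtain ⟨a, b, -, rfl⟩ := IsFractionRing.div_surjective (𝓞 L) y
    have h1 : ∀ c : 𝓞 L, g.1 (algebraMap (𝓞 L) L c) = h.1 (algebraMap (𝓞 L) L c) :=
      fun c => congrArg Subtype.val (e ⟨_, conc_mem P c⟩)
    rw [map_div₀, map_div₀, h1, h1]⟩
  obtain ⟨σ', hσ'⟩ : ∃ σ' : conc_stab P A, σ'.1 = σ :=
    ⟨⟨σ, hst σ hσA _ (by omega) hσ⟩, rfl⟩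
  have hσ2 := hext σ' _ (hσ' ▸ hσ)
  have hres : Res p π := by
    refine ⟨hp, hπ, hπ3, B.factorial * orderOf σ', Nat.mul_pos B.factorial_pos (orderOf_pos σ'),
      fun x => ?_⟩
    have h1 := (conc_iter hσ2 (orderOf σ') x).neg_right
    rwa [pow_orderOf_eq_one, one_smul, neg_sub, ← pow_mul] at h1
  obtain ⟨e, he⟩ := IsDiscreteValuationRing.associated_pow_irreducible
    (Nat.cast_ne_zero.2 hp.ne_zero : (p : conc_loc P) ≠ 0) hπ
  have hcard : e ≤ B * Nat.card (fil (conc_stab P A) π 1) := by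
    refine (hram e ((hpow e p).1 (by rw [map_natCast]; exact he.symm.dvd))).trans
      (Nat.mul_le_mul_left B ?_)
    have h1 : ∀ g : {g : L ≃ₐ[ℚ] L // g ∈ A ∧ ∀ x : 𝓞 L, g • x - x ∈ P},
        ∀ a : 𝓞 L, g.1 • a - a ^ 1 ∈ P := fun g a => by
      rw [pow_one]
      exact g.2.2 a
    refine Nat.card_le_card_of_injective
      (fun g => ⟨⟨g.1, hst g.1 g.2.1 1 one_ne_zero (h1 g)⟩, fun x => ?_⟩) fun g h e => ?_
    · have h2 := hext ⟨g.1, hst g.1 g.2.1 1 one_ne_zero (h1 g)⟩ 1 (h1 g) x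
      rwa [pow_one, ← pow_one π] at h2
    · exact Subtype.ext (congrArg (fun u => u.1.1) e)
  refine ⟨conc_loc P, fun x hx => conc_mem P ⟨x, hx⟩, fun z hz e3 => ?_, ?_⟩
  · refine hπ.not_isUnit (isUnit_of_dvd_one (hπ3.trans ⟨⟨z, hz⟩, Subtype.ext e3.symm⟩))
  have hσ3 := conc_iter hσ2 b
  rcases H (conc_loc P) (conc_stab P A) π hres Z hZ1 hZ2 (σ' ^ b) (hZ2 σ') hσ3 e he.symm hcard with
    h | ⟨τ, h0, h1, h2, h4⟩
  · refine Or.inl ⟨(σ' ^ b).1, (hZ _).1 (hZ2 σ'), fun x hx => ?_⟩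
    obtain ⟨z, hz⟩ := he.dvd.trans ((pow_dvd_pow π h).trans
      (pow_dvd_pow_of_dvd (hσ3 ⟨x, conc_mem P ⟨x, hx⟩⟩) r))
    exact ⟨z, z.2, congrArg Subtype.val hz⟩
  · refine Or.inr ⟨τ, (hZ τ).1 h0, fun e1 => h1 (Subtype.ext e1), by rwa [Subgroup.orderOf_coe],
      fun x hx => ?_⟩
    obtain ⟨z, hz⟩ := h4 ⟨x, conc_mem P ⟨x, hx⟩⟩
    exact ⟨z, z.2, congrArg Subtype.val hz⟩

end Pool.Agent.Lib.MP_1e748d_nt.Va
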