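import Mathlib

/-! Definitions and basic facts for the finiteness theorem on virtually abelian conjugate sets. -/

set_option autoImplicit false

namespace Pool.Agent.Lib.MP_1e748d_nt.Va

open Polynomial

/-- The interval of length four with centre `c`. -/
def II (c : ℝ) : Set ℝ := Set.Icc (c - 2) (c + 2)

lemma mem_II {c x : ℝ} : x ∈ II c ↔ |x - c| ≤ 2 := by
  simp only [II, Set.mem_Icc, abs_le]
  constructor <;> rintro ⟨h1, h2⟩ <;> constructor <;> linarith

lemma abs_le_of_II {c x : ℝ} (h : x ∈ II c) : |x| ≤ |c| + 2 := by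
  have := abs_add_le c (x - c)
  rw [add_sub_cancel] at this
  linarith [mem_II.mp h]

lemma exists_cos {c x : ℝ} (h : x ∈ II c) : ∃ θ ∈ Set.Icc 0 Real.pi, x = c + 2 * Real.cos θ := by
  obtain ⟨h1, h2⟩ := h
  refine ⟨Real.arccos ((x - c) / 2), ⟨Real.arccos_nonneg _, Real.arccos_le_pi _⟩, ?_⟩
  rw [Real.cos_arccos (by linarith) (by linarith)]
  ring

lemma cos_mem_II (c θ : ℝ) : c + 2 * Real.cos θ ∈ II c :=
  ⟨by linarith [Real.neg_one_le_cos θ], by linarith [Real.cos_le_one θ]⟩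

section Cheb

variable {R S : Type} [CommRing R] [CommRing S]

/-- The monic Chebyshev polynomial `C_k (X - c)`. -/
noncomputable def ch (c : R) (k : ℕ) : R[X] := (Chebyshev.C R k).comp (X - C c)

lemma ch_zero (c : R) : ch c 0 = 2 := by simp [ch]

lemma ch_one (c : R) : ch c 1 = X - C c := by simp [ch]

lemma ch_add_two (c : R) (k : ℕ) : ch c (k + 2) = (X - C c) * ch c (k + 1) - ch c k := by
  simp [ch, Chebyshev.C_add_two]

lemma ch_map (φ : R →+* S) (c : R) (k : ℕ) : (ch c k).map φ = ch (φ c) k := by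
  simp [ch, map_comp]

lemma ch_eval₂ (φ : R →+* S) (c : R) (k : ℕ) (y : S) :
    (ch c k).eval₂ φ y = (ch (φ c) k).eval y := by
  rw [← ch_map, eval_map]

lemma ch_eval (c y : R) (k : ℕ) : (ch c k).eval y = (Chebyshev.C R k).eval (y - c) := by
  simp [ch, eval_comp]

lemma ch_sq (c : R) (k : ℕ) : ch c k ^ 2 = ch c (2 * k) + 2 := by
  have h := congrArg (fun p : R[X] => p.comp (X - C c)) (Chebyshev.C_mul_C R k k)
  simp only [mul_comp, add_comp, sub_self, Chebyshev.C_zero] at h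
  rw [sq, ch, h, ch]
  simp [two_mul]

lemma ch_w (c w v : R) (h : w * v = 1) (k : ℕ) : (ch c k).eval (c + w + v) = w ^ k + v ^ k := by
  rw [ch_eval, ← dickson_one_one_eq_chebyshev_C, ← dickson_one_one_eval_add_inv w v h]
  congr 1
  ring

lemma ch_cos (c θ : ℝ) (k : ℕ) : (ch c k).eval (c + 2 * Real.cos θ) = 2 * Real.cos (k * θ) := by
  rw [ch_eval, add_sub_cancel_left, Chebyshev.C_two_mul_real_cos]
  simp

lemma abs_ch_le {c x : ℝ} (h : x ∈ II c) (k : ℕ) : |(ch c k).eval x| ≤ 2 := by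
  obtain ⟨θ, -, rfl⟩ := exists_cos h
  rw [ch_cos, abs_mul, abs_two]
  linarith [Real.abs_cos_le_one (k * θ)]

lemma ch_top (c : R) (k : ℕ) : (ch c k).natDegree ≤ k ∧ (ch c (k + 1)).natDegree ≤ k + 1 ∧
    (ch c (k + 1)).coeff (k + 1) = 1 ∧ (ch c (k + 1)).coeff k = -((k + 1 : ℕ) : R) * c := by
  induction k with
  | zero =>
    refine ⟨by simp [ch_zero], ?_, ?_, ?_⟩
    · rw [zero_add, ch_one]; exact natDegree_X_sub_C_le c
    · simp [ch_one]
    · simp [ch_one]
  | succ k ih =>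
    obtain ⟨h0, h1, h2, h3⟩ := ih
    have e1 : (ch c k).coeff (k + 1) = 0 := coeff_eq_zero_of_natDegree_lt (by omega)
    have e2 : (ch c k).coeff (k + 1 + 1) = 0 := coeff_eq_zero_of_natDegree_lt (by omega)
    have e3 : (ch c (k + 1)).coeff (k + 1 + 1) = 0 := coeff_eq_zero_of_natDegree_lt (by omega)
    refine ⟨h1, ?_, ?_, ?_⟩
    · rw [ch_add_two]
      refine (natDegree_sub_le _ _).trans (max_le (natDegree_mul_le.trans ?_) (by omega))
      have := natDegree_X_sub_C_le c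
      omega
    · rw [ch_add_two, sub_mul, coeff_sub, coeff_sub, coeff_X_mul, coeff_C_mul, h2, e2, e3]
      ring
    · rw [ch_add_two, sub_mul, coeff_sub, coeff_sub, coeff_X_mul, coeff_C_mul, h2, h3, e1]
      push_cast
      ring

lemma natDegree_ch_le (c : R) (k : ℕ) : (ch c k).natDegree ≤ k := (ch_top c k).1

lemma ch_coeff_self (c : R) {k : ℕ} (hk : k ≠ 0) : (ch c k).coeff k = 1 := by
  obtain ⟨k, rfl⟩ := Nat.exists_eq_succ_of_ne_zero hk
  exact (ch_top c k).2.2.1

lemma ch_coeff_pred (c : R) (k : ℕ) : (ch c (k + 1)).coeff k = -((k + 1 : ℕ) : R) * c :=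
  (ch_top c k).2.2.2

lemma ch_monic (c : R) {k : ℕ} (hk : k ≠ 0) : (ch c k).Monic :=
  monic_of_natDegree_le_of_coeff_eq_one k (natDegree_ch_le c k) (ch_coeff_self c hk)

lemma natDegree_ch [Nontrivial R] (c : R) {k : ℕ} (hk : k ≠ 0) : (ch c k).natDegree = k :=
  natDegree_eq_of_le_of_coeff_ne_zero (natDegree_ch_le c k) (by simp [ch_coeff_self c hk])

end Cheb

/-- The monic sequence `1, ch c 1, ch c 2, ...`. -/
noncomputable def mo (c : ℝ) (k : ℕ) : ℝ[X] := if k = 0 then 1 else ch c k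

lemma mo_monic (c : ℝ) (k : ℕ) : (mo c k).Monic := by
  unfold mo
  split_ifs with h
  exacts [monic_one, ch_monic c h]

lemma natDegree_mo (c : ℝ) (k : ℕ) : (mo c k).natDegree = k := by
  unfold mo
  split_ifs with h
  exacts [by simp [h], natDegree_ch c h]

lemma abs_mo_le {c x : ℝ} (h : x ∈ II c) (k : ℕ) : |(mo c k).eval x| ≤ 2 := by
  unfold mo
  split_ifs
  exacts [by simp, abs_ch_le h k]

section Ev

variable {R S A A' : Type} [CommRing R] [CommRing S] [CommRing A] [CommRing A']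

/-- Evaluation of a polynomial in two variables: inner variable at `x`, outer variable at `y`. -/
noncomputable def e2 (φ : R →+* A) (x y : A) : R[X][X] →+* A :=
  eval₂RingHom (eval₂RingHom φ x) y

@[simp] lemma e2_C (φ : R →+* A) (x y : A) (p : R[X]) : e2 φ x y (C p) = p.eval₂ φ x := by
  simp [e2]

@[simp] lemma e2_X (φ : R →+* A) (x y : A) : e2 φ x y X = y := by simp [e2]

lemma e2_eq (φ : R →+* A) (x y : A) (f : R[X][X]) :
    e2 φ x y f = (f.map (eval₂RingHom φ x)).eval y := by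
  simp [e2, eval_map]

lemma e2_sum (φ : R →+* A) (x y : A) (f : R[X][X]) {n : ℕ} (h : f.natDegree < n) :
    e2 φ x y f = ∑ j ∈ Finset.range n, (f.coeff j).eval₂ φ x * y ^ j := by
  simp [e2, eval₂_eq_sum_range' _ h]

lemma hom_e2 (χ : A →+* A') (φ : R →+* A) (x y : A) (f : R[X][X]) :
    χ (e2 φ x y f) = e2 (χ.comp φ) (χ x) (χ y) f := by
  have : χ.comp (e2 φ x y) = e2 (χ.comp φ) (χ x) (χ y) := by ext <;> simp
  exact congrArg (fun F : R[X][X] →+* A' => F f) this

lemma e2_map (ψ : R →+* S) (φ : S →+* A) (x y : A) (f : R[X][X]) :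
    e2 φ x y (f.map (mapRingHom ψ)) = e2 (φ.comp ψ) x y f := by
  have : (e2 φ x y).comp (mapRingHom (mapRingHom ψ)) = e2 (φ.comp ψ) x y := by ext <;> simp
  exact congrArg (fun F : R[X][X] →+* A => F f) this

lemma e2_map_C (φ : R →+* A) (x y : A) (p : R[X]) : e2 φ x y (p.map C) = p.eval₂ φ y := by
  have : (e2 φ x y).comp (mapRingHom C) = eval₂RingHom φ y := by ext <;> simp
  exact congrArg (fun F : R[X] →+* A => F p) this

lemma e2_swap (φ : R →+* A) (x y : A) (f : R[X][X]) :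
    e2 φ x y (Bivariate.swap f) = e2 φ y x f := by
  have : (e2 φ x y).comp (Bivariate.swap (R := R) : R[X][X] →+* R[X][X]) = e2 φ y x := by
    ext <;> simp [Bivariate.swap_C_C, Bivariate.swap_X, Bivariate.swap_Y]
  exact congrArg (fun F : R[X][X] →+* A => F f) this

lemma e2_comp (φ : R →+* A) (x y : A) (f : R[X][X]) (a : R[X]) :
    e2 φ x y (f.comp (C a * X)) = e2 φ x (a.eval₂ φ x * y) f := by
  simp [e2, eval₂_comp]

lemma coeff_swap (f : R[X][X]) (i j : ℕ) :
    ((Bivariate.swap f).coeff i).coeff j = (f.coeff j).coeff i := by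
  induction f using Polynomial.induction_on' with
  | add p q hp hq => simp [hp, hq]
  | monomial n a =>
    rw [Bivariate.swap_monomial, coeff_mul_C, coeff_map, coeff_C_mul, coeff_X_pow, coeff_monomial]
    by_cases h : j = n
    · simp [h]
    · simp [h, Ne.symm h]

/-- Evaluation of an integer polynomial in two variables. -/
noncomputable abbrev ev (x y : A) : ℤ[X][X] →+* A := e2 (Int.castRingHom A) x y

lemma hom_ev (χ : A →+* A') (x y : A) (f : ℤ[X][X]) : χ (ev x y f) = ev (χ x) (χ y) f := by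
  rw [hom_e2, RingHom.ext_int (χ.comp _) (Int.castRingHom A')]

lemma ofReal_ev (x y : ℝ) (f : ℤ[X][X]) : ((ev x y f : ℝ) : ℂ) = ev (x : ℂ) (y : ℂ) f :=
  hom_ev Complex.ofRealHom x y f

/-- Evaluation of a real polynomial in two variables at complex points. -/
noncomputable abbrev evR (x u : ℂ) : ℝ[X][X] →+* ℂ := e2 Complex.ofRealHom x u

/-- An integer polynomial in two variables, read over the reals. -/
noncomputable abbrev toR (f : ℤ[X][X]) : ℝ[X][X] := f.map (mapRingHom (Int.castRingHom ℝ))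

lemma evR_toR (x u : ℂ) (f : ℤ[X][X]) : evR x u (toR f) = ev x u f := by
  rw [e2_map, RingHom.ext_int (RingHom.comp _ _) (Int.castRingHom ℂ)]

/-- Inner degree below `N1`, outer degree below `N2`. -/
def Box (N1 N2 : ℕ) (W : R[X][X]) : Prop :=
  W.degree < N2 ∧ ∀ j, (W.coeff j).degree < N1

end Ev

/-- The complex roots `y` of `Φ (x, y)`, with multiplicity. -/
noncomputable def rts (Φ : ℤ[X][X]) (x : ℂ) : Multiset ℂ :=
  (Φ.map (eval₂RingHom (Int.castRingHom ℂ) x)).roots

lemma mem_rts {Φ : ℤ[X][X]} (h : Φ.Monic) {x y : ℂ} : y ∈ rts Φ x ↔ ev x y Φ = 0 := by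
  rw [rts, mem_roots (h.map _).ne_zero, e2_eq, IsRoot.def]

lemma card_rts {Φ : ℤ[X][X]} (h : Φ.Monic) (x : ℂ) : (rts Φ x).card = Φ.natDegree := by
  rw [rts, ← (IsAlgClosed.splits _).natDegree_eq_card_roots, h.natDegree_map]

/-- `p K` is the `K`-th power sum of the roots of `Φ (x, ·)`. -/
def IsPs (Φ : ℤ[X][X]) (p : ℕ → ℤ[X]) : Prop :=
  ∀ (K : ℕ) (x : ℂ), (p K).eval₂ (Int.castRingHom ℂ) x = ((rts Φ x).map (· ^ K)).sum

/-- Every integer polynomial that is below one on the part of the curve inside the square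
vanishes on the curve. -/
def NoSmall (c : ℝ) (Φ : ℤ[X][X]) : Prop :=
  ∀ f : ℤ[X][X], (∀ x ∈ II c, ∀ y ∈ II c, ev x y Φ = 0 → |ev x y f| < 1) → Φ ∣ f

/-- Above every point of the interval all points of the curve lie in the interval. -/
def Crit (c : ℝ) (Φ : ℤ[X][X]) : Prop :=
  ∀ x ∈ II c, ∀ y : ℂ, ev (x : ℂ) y Φ = 0 → ∃ y' ∈ II c, y = (y' : ℝ)

/-- An algebraic integer with all conjugates within `2 + ε` of `c`. -/
def Cf {L : Type} [Field L] [Algebra ℚ L] (c ε : ℝ) (ι : L →+* ℝ) (α : L) : Prop :=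
  IsIntegral ℤ α ∧ ∀ g : L ≃ₐ[ℚ] L, |ι (g α) - c| ≤ 2 + ε

/-- Degree above `D`. -/
def Big {L : Type} [Field L] (D : ℕ) (α : L) : Prop :=
  ∀ p : ℤ[X], p ≠ 0 → p.natDegree ≤ D → p.eval₂ (Int.castRingHom L) α ≠ 0

section Ram

variable {R : Type} [CommRing R]

/-- Ramification filtration: the elements acting trivially modulo `π ^ j`. -/
def fil (G : Type) [Group G] [MulSemiringAction G R] (π : R) (j : ℕ) : Subgroup G where
  carrier := {g | ∀ x : R, π ^ j ∣ g • x - x}
  one_mem' := by simp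
  mul_mem' := by
    intro g h hg hh x
    have := dvd_add (hg (h • x)) (hh x)
    rwa [sub_add_sub_cancel, ← mul_smul] at this
  inv_mem' := by
    intro g hg x
    have := (hg (g⁻¹ • x)).neg_right
    rwa [neg_sub, smul_inv_smul] at this

lemma mem_fil {G : Type} [Group G] [MulSemiringAction G R] {π : R} {j : ℕ} {g : G} :
    g ∈ fil G π j ↔ ∀ x : R, π ^ j ∣ g • x - x := Iff.rfl

/-- The order of `g π - π` at `π`. -/
noncomputable def iv {G : Type} [Group G] [MulSemiringAction G R] (π : R) (g : G) : ℕ :=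
  multiplicity π (g • π - π)

/-- The norm of `π` for the subgroup `H`. -/
noncomputable def nm {G : Type} [Group G] [MulSemiringAction G R] (π : R) (H : Subgroup G) : R :=
  ∏ᶠ h : H, (h : G) • π

/-- The sum of `i` over the coset `g H`. -/
noncomputable def sg {G : Type} [Group G] (i : G → ℕ) (H : Subgroup G) (g : G) : ℕ :=
  ∑ᶠ h : H, i (g * h)

/-- Residue characteristic `p` and finite-type residue field. -/
structure Res (p : ℕ) (π : R) : Prop where
  prime : p.Prime
  irr : Irreducible π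
  dvd : π ∣ (p : R)
  frob : ∃ f, 0 < f ∧ ∀ x : R, π ∣ x ^ p ^ f - x

/-- The group-theoretic shadow of a wildly ramified abelian action. -/
structure Shadow (p : ℕ) (G : Type) [CommGroup G] (Fil : ℕ → Subgroup G) (i : G → ℕ) (e : ℕ) :
    Prop where
  prime : p.Prime
  pgrp : IsPGroup p G
  top : Fil 2 = ⊤
  mem : ∀ g : G, g ≠ 1 → ∀ j, (g ∈ Fil j ↔ j ≤ i g)
  card_le : Nat.card G ≤ e
  dvd : ∀ (H : Subgroup G) (g : G), g ∉ H → Nat.card H ∣ sg i H g
  pow : ∀ (H : Subgroup G) (g : G), g ^ p ∉ H →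
    p * sg i H g + Nat.card H ≤ sg i H (g ^ p) + p * Nat.card H ∨ sg i H g + e ≤ sg i H (g ^ p)
  last : ∀ (H : Subgroup G) (g : G), g ∉ H → g ^ p ∈ H → sg i H g ≤ e + Nat.card H

end Ram

end Pool.Agent.Lib.MP_1e748d_nt.Va
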