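import Pool.Agent.Lib.MP_1e748d_nt.Va.Ph

set_option autoImplicit false

namespace Pool.Agent.Lib.MP_1e748d_nt.Va

open Polynomial

lemma eng_pow (a b S : ℕ) : ∃ s : ℕ, 4 * (a * s + b) * S ≤ 2 ^ s := by
  set t := 8 * a * S + 4 * b * S with ht
  refine ⟨2 * t, ?_⟩
  have h1 : t + 1 ≤ 2 ^ t := Nat.lt_two_pow_self
  have h2 : 2 ^ (2 * t) = 2 ^ t * 2 ^ t := by rw [two_mul, pow_add]
  have h3 : (t + 1) * (t + 1) ≤ 2 ^ t * 2 ^ t := Nat.mul_le_mul h1 h1
  have h4 : (t + 1) * t = (t + 1) * (8 * a * S + 4 * b * S) := by rw [← ht]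
  rw [h2]
  nlinarith [Nat.zero_le (a * S), Nat.zero_le (b * S * t)]

lemma eng_eval (h : ℤ[X]) {ω : ℕ} (hd : h.natDegree < ω) (hc : ∀ a, |h.coeff a| < 2 ^ ω)
    {ρ x : ℝ} (hρ : 1 ≤ ρ) (hx : |x| ≤ ρ) : |h.eval₂ (Int.castRingHom ℝ) x| ≤ (4 * ρ) ^ ω := by
  rw [eval₂_eq_sum_range' _ hd]
  refine (Finset.abs_sum_le_sum_abs _ _).trans ?_
  have h1 : ∀ i ∈ Finset.range ω, |(Int.castRingHom ℝ) (h.coeff i) * x ^ i| ≤ 2 ^ ω * ρ ^ ω := by
    intro i hi
    rw [abs_mul, abs_pow]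
    have a1 : |(Int.castRingHom ℝ) (h.coeff i)| ≤ 2 ^ ω := by
      have := (hc i).le
      rw [eq_intCast, ← Int.cast_abs]
      exact_mod_cast this
    have a2 : |x| ^ i ≤ ρ ^ ω :=
      (pow_le_pow_left₀ (abs_nonneg x) hx i).trans
        (pow_le_pow_right₀ hρ (Finset.mem_range.1 hi).le)
    gcongr
  refine (Finset.sum_le_card_nsmul _ _ _ h1).trans ?_
  rw [Finset.card_range, nsmul_eq_mul, mul_pow, show (4 : ℝ) = 2 * 2 by norm_num, mul_pow,
    mul_assoc]
  have a3 : (ω : ℝ) ≤ 2 ^ ω := by exact_mod_cast (Nat.lt_two_pow_self (n := ω)).le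
  have a4 : 0 ≤ ρ := by linarith
  gcongr

/-- Multiples of one real polynomial that are close to an integer polynomial. -/
theorem eng (c Cu : ℝ) (m C1 : ℕ) : ∃ ω : ℕ, 0 < ω ∧ ∀ G : ℝ[X][X], Box (C1 * ω + 1) m G →
    ∃ h : ℤ[X], h ≠ 0 ∧ h.natDegree < ω ∧ (∀ a, |h.coeff a| < 2 ^ ω) ∧
      (∀ x ∈ II c, |h.eval₂ (Int.castRingHom ℝ) x| ≤ (4 * (|c| + 2)) ^ ω) ∧
      ∃ f : ℤ[X][X], f.degree < m ∧ ∀ x ∈ II c, ∀ u : ℂ, ‖u‖ ≤ Cu →
        ‖h.eval₂ (Int.castRingHom ℂ) x * evR x u G - ev (x : ℂ) u f‖ ≤ 1 / 2 := by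
  have hcont : Continuous fun u : ℂ =>
      ∑ b ∈ Finset.range m, ‖(mo c b).eval₂ Complex.ofRealHom u‖ :=
    continuous_finsetSum _ fun b _ => (Polynomial.continuous_eval₂ _ _).norm
  obtain ⟨S₀, hS₀⟩ := (isCompact_closedBall (0 : ℂ) Cu).exists_bound_of_continuousOn
    hcont.continuousOn
  obtain ⟨S, hS⟩ := exists_nat_ge S₀
  obtain ⟨s, hs⟩ := eng_pow ((C1 + 1) * ((C1 + 2) * m)) (C1 + 2) S
  set ω := (C1 + 2) * m * s + 1 with hω
  have hω0 : 0 < ω := Nat.succ_pos _
  set N1 := C1 * ω + 1 + ω with hN1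
  have hN : (C1 + 1) * ((C1 + 2) * m) * s + (C1 + 2) = N1 := by rw [hN1, hω]; ring
  rw [hN] at hs
  refine ⟨ω, hω0, fun G hG => ?_⟩
  set hz : (Fin ω → Fin (2 ^ ω)) → ℤ[X] := fun z => ofFn ω fun a => ((z a : ℕ) : ℤ) with hhz
  have hdeg : ∀ z, (hz z).natDegree < ω := fun z => ofFn_natDegree_lt hω0 _
  have hbox : ∀ z ∈ (Finset.univ : Finset (Fin ω → Fin (2 ^ ω))),
      Box N1 m (C ((hz z).map (Int.castRingHom ℝ)) * G) := by
    intro z _
    refine ⟨?_, fun j => ?_⟩
    · rw [C_mul']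
      exact (degree_smul_le _ _).trans_lt hG.1
    · rw [coeff_C_mul]
      have a1 : ((hz z).map (Int.castRingHom ℝ)).natDegree < ω :=
        natDegree_map_le.trans_lt (hdeg z)
      have a2 : (G.coeff j).natDegree ≤ C1 * ω + 1 := natDegree_le_iff_degree_le.2 (hG.2 j).le
      refine degree_le_natDegree.trans_lt ?_
      have a3 := natDegree_mul_le (p := (hz z).map (Int.castRingHom ℝ)) (q := G.coeff j)
      exact_mod_cast (by omega :
        ((hz z).map (Int.castRingHom ℝ) * G.coeff j).natDegree < N1)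
  have hcard : (2 ^ s) ^ (N1 * m) < (Finset.univ : Finset (Fin ω → Fin (2 ^ ω))).card := by
    rw [Finset.card_univ, Fintype.card_fun, Fintype.card_fin, Fintype.card_fin, ← pow_mul,
      ← pow_mul]
    refine Nat.pow_lt_pow_right (by norm_num) ?_
    have a1 : N1 ≤ (C1 + 2) * ω := by rw [hN1]; nlinarith
    have a2 : s * (N1 * m) ≤ s * ((C1 + 2) * ω * m) := by gcongr
    have a3 : s * ((C1 + 2) * ω * m) + ω = ω * ω := by
      conv_rhs => rw [hω]
      rw [← hω]
      nth_rewrite 3 [hω]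
      ring
    omega
  obtain ⟨z, -, z', -, hne, f, hf, hb⟩ := ph c N1 m (2 ^ s) (by positivity) Finset.univ
    (fun z => C ((hz z).map (Int.castRingHom ℝ)) * G) hbox hcard
  have hd : (hz z - hz z').natDegree < ω :=
    (natDegree_sub_le _ _).trans_lt (max_lt (hdeg z) (hdeg z'))
  have hc : ∀ a, |(hz z - hz z').coeff a| < 2 ^ ω := by
    intro a
    rw [coeff_sub]
    by_cases ha : a < ω
    · simp only [hhz, ofFn_coeff_eq_val_of_lt _ ha]
      have a1 : (((z ⟨a, ha⟩ : ℕ) : ℤ)) < 2 ^ ω := by exact_mod_cast (z ⟨a, ha⟩).2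
      have a2 : (((z' ⟨a, ha⟩ : ℕ) : ℤ)) < 2 ^ ω := by exact_mod_cast (z' ⟨a, ha⟩).2
      have a3 := Int.natCast_nonneg (z ⟨a, ha⟩ : ℕ)
      have a4 := Int.natCast_nonneg (z' ⟨a, ha⟩ : ℕ)
      rw [abs_lt]
      constructor <;> linarith
    · simp only [hhz, ofFn_coeff_eq_zero_of_ge _ (not_lt.1 ha)]
      simp
  refine ⟨hz z - hz z', fun h0 => hne ?_, hd, hc, fun x hx =>
    eng_eval _ hd hc (by linarith [abs_nonneg c]) (abs_le_of_II hx), f, hf.1, fun x hx u hu => ?_⟩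
  · have := injective_ofFn ω (sub_eq_zero.1 h0)
    funext a
    exact Fin.ext (by exact_mod_cast congrFun this a)
  · have e : ∀ w, evR x u (C ((hz w).map (Int.castRingHom ℝ)) * G) =
        (hz w).eval₂ (Int.castRingHom ℂ) x * evR x u G := by
      intro w
      rw [map_mul, e2_C, eval₂_map, RingHom.ext_int (RingHom.comp _ _) (Int.castRingHom ℂ)]
    have h1 := hb x hx u
    rw [e, e, ← sub_mul, ← eval₂_sub] at h1
    refine h1.trans ?_
    have h2 := (le_abs_self _).trans ((hS₀ u (by simpa using hu)).trans hS)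
    have h3 : 4 * (N1 : ℝ) * S ≤ 2 ^ s := by exact_mod_cast hs
    refine (mul_le_mul_of_nonneg_left h2 (by positivity)).trans ?_
    push_cast
    rw [div_mul_eq_mul_div, div_le_iff₀ (by positivity)]
    linarith

/-- Linear growth of the inner degree of `p ^ k` reduced modulo a monic `P`. -/
theorem deg_mod (P p : ℝ[X][X]) (hP : P.Monic) :
    ∃ d : ℕ, ∀ k, Box (d * k + 1) P.natDegree (p ^ k %ₘ P) := by
  have hb : ∀ q : ℝ[X][X], ∃ d : ℕ, ∀ i, (q.coeff i).natDegree ≤ d := by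
    intro q
    refine ⟨q.support.sup fun i => (q.coeff i).natDegree, fun i => ?_⟩
    by_cases hi : i ∈ q.support
    · exact Finset.le_sup (f := fun i => (q.coeff i).natDegree) hi
    · rw [notMem_support_iff.1 hi]
      simp
  choose e he using fun j : ℕ => hb ((X ^ j * p) %ₘ P)
  have hlt : ∀ q : ℝ[X][X], (q %ₘ P).degree < P.natDegree := fun q => by
    rw [← degree_eq_natDegree hP.ne_zero]
    exact degree_modByMonic_lt q hP
  set d := (Finset.range P.natDegree).sup e with hd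
  have key : ∀ k i, ((p ^ k %ₘ P).coeff i).natDegree ≤ d * k := by
    intro k
    induction k with
    | zero =>
      intro i
      rw [pow_zero]
      rcases eq_or_ne P 1 with rfl | h1
      · simp
      · rw [(modByMonic_eq_self_iff hP).2 (by
          rw [degree_one]
          exact hP.degree_pos.2 h1), coeff_one]
        split_ifs <;> simp
    | succ k ih =>
      intro i
      set r := p ^ k %ₘ P with hr
      have e1 : p ^ (k + 1) %ₘ P = (r * p) %ₘ P := by
        refine modByMonic_eq_of_dvd_sub hP ⟨p ^ k /ₘ P * p, ?_⟩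
        have := modByMonic_add_div (p ^ k) P
        rw [pow_succ, ← sub_mul, ← mul_assoc]
        congr 1
        linear_combination -this
      have e2 : r * p = ∑ j ∈ r.support, r.coeff j • (X ^ j * p) := by
        conv_lhs => rw [r.as_sum_support_C_mul_X_pow, Finset.sum_mul]
        exact Finset.sum_congr rfl fun j _ => by rw [mul_assoc, C_mul']
      have e3 : (r * p) %ₘ P = ∑ j ∈ r.support, r.coeff j • ((X ^ j * p) %ₘ P) := by
        rw [e2]
        refine (map_sum (modByMonicHom P) _ _).trans (Finset.sum_congr rfl fun j _ => ?_)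
        exact (modByMonicHom P).map_smul _ _
      rw [e1, e3, finsetSum_coeff]
      refine natDegree_sum_le_of_forall_le _ _ fun j hj => ?_
      rw [coeff_smul, smul_eq_mul]
      have hj' : j < P.natDegree := by
        exact_mod_cast (le_degree_of_mem_supp j hj).trans_lt (hlt _)
      have a1 : e j ≤ d := Finset.le_sup (f := e) (Finset.mem_range.2 hj')
      have a2 := he j i
      have a3 := ih j
      refine natDegree_mul_le.trans ?_
      rw [mul_add, mul_one]
      omega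
  refine ⟨d, fun k => ⟨hlt _, fun j => degree_le_natDegree.trans_lt ?_⟩⟩
  exact_mod_cast Nat.lt_succ_of_le (key k j)

end Pool.Agent.Lib.MP_1e748d_nt.Va
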