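import Pool.Agent.Lib.MP_1e748d_nt.Va.Tei

set_option autoImplicit false

namespace Pool.Agent.Lib.MP_1e748d_nt.Va

open Polynomial

variable {R : Type} [CommRing R] [IsDomain R] [IsDiscreteValuationRing R] {π : R}
  {p : ℕ}

/-- Divided differences: approximate roots give an approximate factorisation. -/
theorem dd (hπ : Irreducible π) {ι : Type} (s : Finset ι) (r : ι → R) (hr : Set.InjOn r s) :
    ∃ c0 : ℕ, ∀ (T : ℕ) (P : R[X]) (y : R), (∀ i ∈ s, π ^ (T + c0) ∣ P.eval (r i)) →
      ∃ z w : R, P.eval y = z * ∏ i ∈ s, (y - r i) + π ^ T * w := by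
  classical
  induction s using Finset.induction_on with
  | empty => exact ⟨0, fun T P y _ => ⟨P.eval y, 0, by simp⟩⟩
  | insert a s ha ih =>
    obtain ⟨c0, h0⟩ := ih (hr.mono (by simp))
    have h1 : ∀ i ∈ s, r i - r a ≠ 0 := fun i hi e =>
      ha (hr (by simp [hi]) (by simp) (sub_eq_zero.1 e) ▸ hi)
    obtain ⟨c1, h2⟩ := IsDiscreteValuationRing.associated_pow_irreducible
      (Finset.prod_ne_zero_iff.2 h1) hπ
    refine ⟨c0 + c1, fun T P y hP => ?_⟩
    obtain ⟨P1, h3⟩ := X_sub_C_dvd_sub_C_eval (a := r a) (p := P)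
    have h4 : ∀ v, P.eval v - P.eval (r a) = (v - r a) * P1.eval v := fun v => by
      simpa using congrArg (eval v) h3
    have h5 := hP a (Finset.mem_insert_self _ _)
    obtain ⟨z, w, h6⟩ := h0 T P1 y fun i hi => by
      have h7 := dvd_sub (hP i (Finset.mem_insert_of_mem hi)) h5
      rw [h4, ← add_assoc, pow_add, mul_comm] at h7
      have h8 := (Finset.dvd_prod_of_mem (fun i => r i - r a) hi).trans h2.dvd
      exact (mul_dvd_mul_iff_left (h1 i hi)).1 ((mul_dvd_mul_right h8 _).trans h7)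
    obtain ⟨w0, h7⟩ := (pow_dvd_pow π (Nat.le_add_right T _)).trans h5
    refine ⟨z, w0 + (y - r a) * w, ?_⟩
    rw [Finset.prod_insert ha, eq_add_of_sub_eq (h4 y), h6, h7]
    ring

variable {G : Type} [CommGroup G] [Finite G] [MulSemiringAction G R] [FaithfulSMul G R]

theorem exp_dvd (hw : fil G π 2 = ⊤) (g : G) (x : R) : π ∣ g • x - x :=
  (dvd_pow_self π two_ne_zero).trans (mem_fil.1 (hw ▸ Subgroup.mem_top g) x)

/-- Residue classes have fixed representatives. -/
theorem lift (h : Res p π) (hG : IsPGroup p G) (hw : fil G π 2 = ⊤) (x : R) :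
    ∃ a : R, (∀ g : G, g • a = a) ∧ π ∣ x - a := by
  have := Fintype.ofFinite G
  have : Fact p.Prime := ⟨h.prime⟩
  obtain ⟨n, hn⟩ := IsPGroup.iff_card.1 hG
  obtain ⟨f, hf, hx⟩ := h.frob
  have e : ∀ u v : R, Ideal.Quotient.mk (Ideal.span {π}) u = Ideal.Quotient.mk _ v ↔ π ∣ u - v :=
    fun u v => Ideal.Quotient.eq.trans Ideal.mem_span_singleton
  have h1 : ∀ m, Ideal.Quotient.mk (Ideal.span {π}) (x ^ p ^ (f * m)) = Ideal.Quotient.mk _ x := by
    intro m
    induction m with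
    | zero => simp
    | succ m ih => rw [mul_add_one, pow_add, pow_mul, (e _ _).2 (hx _), ih]
  refine ⟨∏ g : G, g • x ^ p ^ (f * n - n), fun g => ?_, (e _ _).1 ?_⟩
  · rw [Finset.smul_prod']
    simp only [← mul_smul]
    exact Equiv.prod_comp (Equiv.mulLeft g) fun g : G => g • x ^ p ^ (f * n - n)
  · rw [map_prod, Finset.prod_congr rfl fun g _ => (e _ _).2 (exp_dvd hw g _), Finset.prod_const,
      Finset.card_univ, ← Nat.card_eq_fintype_card, hn, ← map_pow, ← pow_mul, ← pow_add,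
      Nat.sub_add_cancel (Nat.le_mul_of_pos_left n hf), h1]

/-- Expansion in the uniformizer with fixed coefficients. -/
theorem expn (h : Res p π) (hG : IsPGroup p G) (hw : fil G π 2 = ⊤) (T : ℕ) (x : R) :
    ∃ P : R[X], (∀ (g : G) (k : ℕ), g • P.coeff k = P.coeff k) ∧ π ^ T ∣ P.eval π - x ∧
      (π ∣ x → P.coeff 0 = 0) := by
  induction T generalizing x with
  | zero => exact ⟨0, by simp, by simp, by simp⟩
  | succ T ih =>
    obtain ⟨a, h1, ⟨x1, h2⟩, h3⟩ : ∃ a : R, (∀ g : G, g • a = a) ∧ π ∣ x - a ∧ (π ∣ x → a = 0) := by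
      by_cases hx : π ∣ x
      · exact ⟨0, smul_zero, by simpa using hx, fun _ => rfl⟩
      · obtain ⟨a, h1, h2⟩ := lift h hG hw x
        exact ⟨a, h1, h2, fun e => absurd e hx⟩
    obtain ⟨P, h4, ⟨w, h5⟩, -⟩ := ih x1
    refine ⟨C a + X * P, fun g k => ?_, ⟨w, ?_⟩, fun e => by simp [h3 e]⟩
    · cases k with
      | zero => simp [h1]
      | succ k => simp [coeff_X_mul, h4]
    · simp only [eval_add, eval_C, eval_mul, eval_X]
      linear_combination π * h5 - h2

/-- Total ramification. -/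
theorem eh (h : Res p π) (hG : IsPGroup p G) (hw : fil G π 2 = ⊤) (H : Subgroup G) {x : R}
    (hx : ∀ g ∈ H, g • x = x) (h1 : π ∣ x) : π ^ Nat.card H ∣ x := by
  have := Fintype.ofFinite H
  have hd : ∀ g : G, π ∣ g • π := fun g => by simpa using dvd_add (exp_dvd hw g π) (dvd_refl π)
  obtain ⟨c0, h0⟩ := dd h.irr (Finset.univ : Finset H) (fun g => (g : G) • π) fun g _ g' _ e => by
    by_contra hne
    refine smul_ne h (g := (g' : G)⁻¹ * g) (fun y => by simpa using exp_dvd hw _ y)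
      (fun e' => hne (Subtype.ext (inv_mul_eq_one.1 e').symm)) ?_
    have e' : (g : G) • π = (g' : G) • π := e
    rw [mul_smul, e', inv_smul_smul]
  obtain ⟨P, h2, ⟨c, h3⟩, h4⟩ := expn h hG hw (Nat.card H + c0) x
  obtain ⟨z, w, h5⟩ := h0 (Nat.card H) (P - C x) 0 fun g _ => by
    have h6 : (g : G) • P = P := Polynomial.ext fun k => (coeff_smul _ _ _).trans (h2 g k)
    have h7 := smul_eval_smul R (g : G) P π
    rw [h6] at h7
    rw [eval_sub, eval_C, h7, ← hx g g.2, ← smul_sub, h3, smul_mul', smul_pow']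
    exact (pow_dvd_pow_of_dvd (hd g) _).mul_right _
  rw [eval_sub, eval_C, ← coeff_zero_eq_eval_zero, h4 h1, zero_sub] at h5
  rw [← dvd_neg, h5]
  refine dvd_add (Dvd.dvd.mul_left ?_ _) (dvd_mul_right _ _)
  rw [Nat.card_eq_fintype_card, ← Finset.card_univ, ← Finset.prod_const]
  exact Finset.prod_dvd_prod_of_dvd _ _ fun g _ => by simpa using hd g

theorem nm_fixed (H : Subgroup G) : ∀ g ∈ H, g • nm π H = nm π H := by
  intro g hg
  have := Fintype.ofFinite H
  rw [nm, finprod_eq_prod_of_fintype, Finset.smul_prod']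
  simp only [← mul_smul]
  exact Equiv.prod_comp (Equiv.mulLeft (⟨g, hg⟩ : H)) fun g : H => (g : G) • π

theorem nm_assoc (hπ : Irreducible π) (H : Subgroup G) :
    Associated (nm π H) (π ^ Nat.card H) := by
  have := Fintype.ofFinite H
  rw [nm, finprod_eq_prod_of_fintype, Nat.card_eq_fintype_card, ← Finset.card_univ,
    ← Finset.prod_const]
  exact Associated.prod _ _ _ fun g _ => IsDiscreteValuationRing.associated_of_irreducible R
    (hπ.map (MulSemiringAction.toRingEquiv G R g)) hπ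

/-- Fixed elements are units times powers of the norm of the uniformizer. -/
theorem ehd (h : Res p π) (hG : IsPGroup p G) (hw : fil G π 2 = ⊤) (H : Subgroup G) {x : R}
    (hx : ∀ g ∈ H, g • x = x) (h0 : x ≠ 0) :
    ∃ (k : ℕ) (u : R), IsUnit u ∧ (∀ g ∈ H, g • u = u) ∧ x = nm π H ^ k * u := by
  have h1 := nm_assoc h.irr H
  have h2 : nm π H ≠ 0 := h1.ne_zero_iff.2 (pow_ne_zero _ h.irr.ne_zero)
  have h3 : ¬ IsUnit (nm π H) := fun e =>
    h.irr.not_isUnit ((isUnit_pow_iff Nat.card_pos.ne').1 (h1.isUnit e))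
  induction x using (wellFounded_dvdNotUnit (α := R)).induction with
  | _ x ih =>
    by_cases hu : IsUnit x
    · exact ⟨0, x, hu, hx, by simp⟩
    · have h4 : π ∣ x := by
        rw [← Ideal.mem_span_singleton, ← h.irr.maximalIdeal_eq]
        exact hu
      obtain ⟨y, rfl⟩ := h1.dvd.trans (eh h hG hw H hx h4)
      have h5 := right_ne_zero_of_mul h0
      obtain ⟨k, u, h6, h7, rfl⟩ := ih y ⟨h5, _, h3, mul_comm _ _⟩ (fun g hg => by
        have h6 := hx g hg
        rw [smul_mul', nm_fixed H g hg] at h6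
        exact mul_left_cancel₀ h2 h6) h5
      exact ⟨k + 1, u, h6, h7, by ring⟩

end Pool.Agent.Lib.MP_1e748d_nt.Va
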