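import Pool.Agent.Lib.MP_1e748d_nt.Va.Exp

set_option autoImplicit false

namespace Pool.Agent.Lib.MP_1e748d_nt.Va

open Polynomial

theorem her_pow {A : Type} [CommRing A] {p q a b : A} (ha : p ∣ a) (hb : p ∣ b)
    (hab : p * q ∣ a - b) (j : ℕ) : p ^ (j + 1) * q ∣ a ^ (j + 1) - b ^ (j + 1) := by
  induction j with
  | zero => simpa using hab
  | succ j ih =>
    have e : a ^ (j + 1 + 1) - b ^ (j + 1 + 1)
        = a * (a ^ (j + 1) - b ^ (j + 1)) + b ^ (j + 1) * (a - b) := by ring
    rw [e]
    refine dvd_add ?_ ?_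
    · have e1 : p ^ (j + 1 + 1) * q = p * (p ^ (j + 1) * q) := by ring
      rw [e1]
      exact mul_dvd_mul ha ih
    · have e1 : p ^ (j + 1 + 1) * q = p ^ (j + 1) * (p * q) := by ring
      rw [e1]
      exact mul_dvd_mul (pow_dvd_pow_of_dvd hb _) hab

theorem her_prod_sub {A : Type} [CommRing A] {ι : Type} (p : A) (s : Finset ι) (r : ι → A)
    (hr : ∀ i ∈ s, p ∣ r i) : C p ∣ ∏ i ∈ s, (X - C (r i)) - X ^ s.card := by
  classical
  induction s using Finset.induction_on with
  | empty => simp
  | insert i s hi ih =>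
    rw [Finset.prod_insert hi, Finset.card_insert_of_notMem hi]
    have h1 := ih fun j hj => hr j (Finset.mem_insert_of_mem hj)
    have h2 : C p ∣ C (r i) := map_dvd C (hr i (Finset.mem_insert_self i s))
    have e : (X - C (r i)) * ∏ j ∈ s, (X - C (r j)) - X ^ (s.card + 1)
        = X * (∏ j ∈ s, (X - C (r j)) - X ^ s.card) - C (r i) * ∏ j ∈ s, (X - C (r j)) := by
      ring
    rw [e]
    exact dvd_sub (h1.mul_left _) (h2.mul_right _)

variable {R : Type} [CommRing R] [IsDomain R] [IsDiscreteValuationRing R] {π : R}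
  {p : ℕ}
variable {G : Type} [CommGroup G] [Finite G] [MulSemiringAction G R] [FaithfulSMul G R]

omit [IsDomain R] [IsDiscreteValuationRing R] [Finite G] [FaithfulSMul G R] in
theorem her_one (hw : fil G π 2 = ⊤) (g : G) : g ∈ fil G π 1 := by
  intro x
  have h2 : g ∈ fil G π 2 := hw ▸ Subgroup.mem_top g
  exact (pow_dvd_pow π (by norm_num)).trans (h2 x)

omit [IsDomain R] [IsDiscreteValuationRing R] [Finite G] [FaithfulSMul G R] in
theorem her_pi (hw : fil G π 2 = ⊤) (g : G) : π ∣ g • π := by
  have h1 := her_one hw g π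
  rw [pow_one] at h1
  simpa using dvd_add h1 (dvd_refl π)

omit [IsDomain R] [IsDiscreteValuationRing R] [Finite G] [FaithfulSMul G R] in
theorem her_smul (hw : fil G π 2 = ⊤) (g : G) {k : ℕ} {x : R} (hk : π ^ k ∣ x) :
    π ^ k ∣ g • x := by
  obtain ⟨y, rfl⟩ := hk
  rw [smul_mul', smul_pow']
  exact (pow_dvd_pow_of_dvd (her_pi hw g) k).mul_right _

/-- The norm of the uniformizer decides the action on the fixed ring. -/
theorem th (h : Res p π) (hG : IsPGroup p G) (hw : fil G π 2 = ⊤) (H : Subgroup G) (g : G)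
    {s : ℕ} (hs : π ^ (Nat.card H + s) ∣ g • nm π H - nm π H) {x : R}
    (hx : ∀ g ∈ H, g • x = x) {k : ℕ} (hk : π ^ k ∣ x) : π ^ (k + s) ∣ g • x - x := by
  have hp : Prime π := h.irr.prime
  have hwn : π ^ Nat.card H ∣ nm π H := (nm_assoc h.irr H).symm.dvd
  have key : ∀ m, m ≤ s → ∀ (k : ℕ) (x : R), (∀ g ∈ H, g • x = x) → π ^ k ∣ x →
      π ^ (k + m) ∣ g • x - x := by
    intro m
    induction m with
    | zero => exact fun _ k x _ hk => dvd_sub (her_smul hw g hk) hk
    | succ m ih =>
      intro hm k x hx hk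
      by_cases h0 : x = 0
      · simp [h0]
      obtain ⟨j, u, hu, hufix, rfl⟩ := ehd h hG hw H hx h0
      obtain ⟨a, ha, hua⟩ := lift h hG hw u
      have hkj : k ≤ Nat.card H * j := by
        have h1 : π ^ k ∣ nm π H ^ j := (hu.dvd_mul_right).mp hk
        have h2 : π ^ k ∣ (π ^ Nat.card H) ^ j :=
          h1.trans (pow_dvd_pow_of_dvd (nm_assoc h.irr H).dvd j)
        rw [← pow_mul] at h2
        exact (pow_dvd_pow_iff hp.ne_zero hp.not_isUnit).mp h2
      have hwj : π ^ k ∣ nm π H ^ j := by
        refine (pow_dvd_pow π hkj).trans ?_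
        rw [pow_mul]
        exact pow_dvd_pow_of_dvd hwn j
      have h1 : π ^ (k + 1 + m) ∣
          g • (nm π H ^ j * (u - a)) - nm π H ^ j * (u - a) := by
        refine ih (by omega) (k + 1) _ ?_ ?_
        · intro g' hg'
          rw [smul_mul', smul_pow', smul_sub, nm_fixed H g' hg', hufix g' hg', ha g']
        · rw [pow_succ]
          exact mul_dvd_mul hwj hua
      have h2 : π ^ (k + (m + 1)) ∣ (g • nm π H) ^ j - nm π H ^ j := by
        cases j with
        | zero => simp
        | succ j =>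
          have h3 := her_pow (q := π ^ s) (her_smul hw g hwn) hwn (by rwa [← pow_add]) j
          rw [← pow_mul, ← pow_add] at h3
          exact (pow_dvd_pow π (by omega)).trans h3
      have e : g • (nm π H ^ j * u) - nm π H ^ j * u
          = (g • (nm π H ^ j * (u - a)) - nm π H ^ j * (u - a))
            + ((g • nm π H) ^ j - nm π H ^ j) * a := by
        simp only [smul_mul', smul_pow', smul_sub, ha g]
        ring
      rw [e]
      refine dvd_add ?_ (h2.mul_right _)
      rwa [show k + (m + 1) = k + 1 + m by ring]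
  exact key s le_rfl k x hx hk

omit [Finite G] in
theorem her_ne_one {H : Subgroup G} {g : G} (hg : g ∉ H) (t : H) : g * (t : G) ≠ 1 := by
  intro e
  apply hg
  rw [eq_inv_of_mul_eq_one_left e]
  exact H.inv_mem t.2

omit [Finite G] in
theorem her_le (h : Res p π) (hw : fil G π 2 = ⊤) {H : Subgroup G} [Fintype H] {g : G}
    (hg : g ∉ H) {n : ℕ} (hn : π ^ n ∣ ∏ t : H, (π - (g * (t : G)) • π)) :
    n ≤ ∑ t : H, iv π (g * (t : G)) := by
  have hp : Prime π := h.irr.prime
  rw [pow_dvd_iff_le_emultiplicity, Finset.emultiplicity_prod hp] at hn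
  have e : ∀ t : H, emultiplicity π (π - (g * (t : G)) • π) = (iv π (g * (t : G)) : ℕ∞) := by
    intro t
    have h0 : (g * (t : G)) • π - π ≠ 0 :=
      sub_ne_zero.mpr (smul_ne h (her_one hw _) (her_ne_one hg t))
    rw [← neg_sub, emultiplicity_neg, iv]
    exact (FiniteMultiplicity.of_prime_left hp h0).emultiplicity_eq_multiplicity
  simp only [e] at hn
  exact_mod_cast hn

/-- The formula of Herbrand and Tate. -/
theorem her (h : Res p π) (hG : IsPGroup p G) (hw : fil G π 2 = ⊤) (H : Subgroup G) {g : G}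
    (hg : g ∉ H) (n : ℕ) : π ^ n ∣ g • nm π H - nm π H ↔ n ≤ sg (iv π) H g := by
  classical
  have := Fintype.ofFinite H
  rw [sg, finsum_eq_sum_of_fintype]
  constructor
  · intro hn
    by_cases hle : n ≤ Nat.card H
    · refine hle.trans ?_
      rw [Nat.card_eq_fintype_card, Fintype.card_eq_sum_ones]
      refine Finset.sum_le_sum fun t _ => ?_
      exact (mem_fil_iff h (her_one hw _) (her_ne_one hg t) 1).mp (her_one hw _)
    obtain ⟨s, rfl⟩ := Nat.exists_eq_add_of_le (le_of_not_ge hle)
    set F : R[X] := ∏ t : H, (X - C ((t : G) • π)) with hF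
    have hsm : ∀ g' : G, g' • F = ∏ t : H, (X - C ((g' * (t : G)) • π)) := by
      intro g'
      rw [hF, Finset.smul_prod']
      refine Finset.prod_congr rfl fun t _ => ?_
      rw [smul_sub, smul_X, smul_C, mul_smul]
    have hfix : ∀ g' ∈ H, g' • F = F := by
      intro g' hg'
      rw [hsm, hF]
      exact Fintype.prod_equiv (Equiv.mulLeft (⟨g', hg'⟩ : H)) _ _ fun t => rfl
    have hd : C π ∣ F - X ^ (Finset.univ : Finset H).card :=
      her_prod_sub π _ _ fun t _ => her_pi hw _
    set F' : R[X] := F - X ^ (Finset.univ : Finset H).card with hF'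
    have hsm' : ∀ g' : G, g' • F' - F' = g' • F - F := by
      intro g'
      rw [hF', smul_sub, smul_pow', smul_X]
      ring
    have hfix' : ∀ k, ∀ g' ∈ H, g' • F'.coeff k = F'.coeff k := by
      intro k g' hg'
      have := hsm' g'
      rw [hfix g' hg', sub_self, sub_eq_zero] at this
      rw [← coeff_smul, this]
    have h1 : C (π ^ (Nat.card H + s)) ∣ g • F - F := by
      rw [← hsm', C_dvd_iff_dvd_coeff]
      intro k
      rw [coeff_sub, coeff_smul]
      exact th h hG hw H g hn (hfix' k)
        (eh h hG hw H (hfix' k) ((C_dvd_iff_dvd_coeff _ _).mp hd k))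
    have h2 := map_dvd (evalRingHom π) h1
    have h3 : F.eval π = 0 := by
      rw [hF, eval_prod]
      exact Finset.prod_eq_zero (Finset.mem_univ (1 : H)) (by simp)
    simp only [coe_evalRingHom, eval_C, eval_sub, h3, sub_zero, hsm, eval_prod, eval_X] at h2
    exact her_le h hw hg h2
  · intro hn
    have hinj : Set.InjOn (fun t : H => (g * (t : G)) • π) (Finset.univ : Finset H) := by
      intro t _ t' _ e
      by_contra hne
      have h1 : (g * (t' : G))⁻¹ * (g * (t : G)) ≠ 1 := by
        intro e1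
        rw [inv_mul_eq_one, mul_right_inj] at e1
        exact hne (Subtype.ext e1.symm)
      refine smul_ne h (her_one hw _) h1 ?_
      have e' : (g * (t : G)) • π = (g * (t' : G)) • π := e
      rw [mul_smul, e', inv_smul_smul]
    obtain ⟨c0, hc0⟩ := dd h.irr Finset.univ _ hinj
    obtain ⟨P, hP, hPw, -⟩ := expn h hG hw (n + c0) (nm π H)
    have hPs : ∀ g' : G, g' • P = P := fun g' => by
      ext k
      rw [coeff_smul, hP]
    obtain ⟨z, w, hz⟩ := hc0 n (P - C (g • nm π H)) π (by
      intro t _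
      have e : (P - C (g • nm π H)).eval ((g * (t : G)) • π)
          = (g * (t : G)) • (P.eval π - nm π H) := by
        rw [eval_sub, eval_C, smul_sub, ← smul_eval_smul, hPs, mul_smul g (t : G) (nm π H),
          nm_fixed H _ t.2]
      rw [e]
      exact her_smul hw _ hPw)
    have h1 : π ^ n ∣ ∏ t : H, (π - (g * (t : G)) • π) := by
      refine (pow_dvd_pow π hn).trans ?_
      rw [← Finset.prod_pow_eq_pow_sum]
      refine Finset.prod_dvd_prod_of_dvd _ _ fun t _ => ?_
      rw [← neg_sub, dvd_neg]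
      exact pow_multiplicity_dvd _ _
    have h2 : π ^ n ∣ P.eval π - g • nm π H := by
      rw [eval_sub, eval_C] at hz
      rw [hz]
      exact dvd_add (h1.mul_left _) (dvd_mul_right _ _)
    have h3 : π ^ n ∣ P.eval π - nm π H := (pow_dvd_pow π (Nat.le_add_right n c0)).trans hPw
    have := dvd_sub h3 h2
    rwa [sub_sub_sub_cancel_left] at this

end Pool.Agent.Lib.MP_1e748d_nt.Va
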