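import Pool.Agent.Lib.MP_1e748d_nt.Va.Tei

set_option autoImplicit false

namespace Pool.Agent.Lib.MP_1e748d_nt.Va

open Polynomial

variable {R : Type} [CommRing R] [IsDomain R] [IsDiscreteValuationRing R] {π : R}
  {p : ℕ}

/-- The graded pieces are small when a Frobenius element commutes with the group. -/
theorem idx {A : Type} [CommGroup A] [Finite A] [MulSemiringAction A R] (h : Res p π) (σ : A)
    {q : ℕ} (hq : 2 ≤ q) (hσ : ∀ x : R, π ∣ σ • x - x ^ q) {j : ℕ} (hj : j ≠ 0) :
    (fil A π (j + 1)).relIndex (fil A π j) ≤ q := by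
  classical
  obtain ⟨i, rfl⟩ : ∃ i, j = i + 1 := ⟨j - 1, by omega⟩
  have hπ0 : π ≠ 0 := h.irr.ne_zero
  have hpr : Prime π := h.irr.prime
  have hmono : ∀ g ∈ fil A π (i + 1), g ∈ fil A π 1 := fun g hg x =>
    (pow_dvd_pow π (by omega)).trans (hg x)
  obtain ⟨s, hs⟩ : π ∣ σ • π := by
    have := dvd_add (hσ π) (dvd_pow_self π (n := q) (by omega))
    rwa [sub_add_cancel] at this
  have hsu : ¬ π ∣ s := by
    have h1 : Irreducible (σ • π) :=
      (MulEquiv.irreducible_iff (MulSemiringAction.toRingEquiv A R σ)).2 h.irr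
    rw [hs] at h1
    rcases h1.isUnit_or_isUnit rfl with h2 | h2
    · exact absurd h2 h.irr.not_isUnit
    · exact fun h3 => h.irr.not_isUnit (isUnit_of_dvd_unit h3 h2)
  have hI : (Ideal.span {π}).IsPrime := (Ideal.span_singleton_prime hπ0).2 hpr
  let m := Ideal.Quotient.mk (Ideal.span {π})
  have hm : ∀ x : R, m x = 0 ↔ π ∣ x := fun x =>
    Ideal.Quotient.eq_zero_iff_mem.trans Ideal.mem_span_singleton
  have hs0 : m s ≠ 0 := fun h0 => hsu ((hm s).1 h0)
  let P : (R ⧸ Ideal.span {π})[X] := C (m s ^ (i + 1)) * X ^ q - C (m s) * X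
  have hP0 : P ≠ 0 := by
    intro h0
    have := congrArg (fun p => coeff p q) h0
    have hq1 : ¬ 1 = q := by omega
    simp only [P, coeff_sub, coeff_C_mul, coeff_X_pow, if_true, coeff_X, if_neg hq1, mul_one,
      mul_zero, sub_zero, coeff_zero] at this
    exact pow_ne_zero _ hs0 this
  have hPd : P.natDegree ≤ q := by
    refine (natDegree_sub_le _ _).trans (max_le (natDegree_C_mul_X_pow_le _ _) ?_)
    exact (natDegree_C_mul_le _ _).trans (natDegree_X_le.trans (by omega))
  choose d hd using fun g : fil A π (i + 1) => g.2 π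
  have hroot : ∀ g : fil A π (i + 1), m (d g) ∈ P.roots.toFinset := by
    intro g
    obtain ⟨t, ht⟩ := g.2 s
    have e1 : (g : A) • π = π + π ^ (i + 1) * d g := by rw [← hd, add_sub_cancel]
    have e2 : (g : A) • s = s + π ^ (i + 1) * t := by rw [← ht, add_sub_cancel]
    have e3 : σ • (g : A) • π = (g : A) • σ • π := by rw [← mul_smul, mul_comm, mul_smul]
    rw [hs, smul_mul', e1, e2, smul_add, smul_mul', smul_pow', hs] at e3
    have e4 : π ^ (i + 1) * (s ^ (i + 1) * σ • d g - s * d g) =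
        π ^ (i + 1) * (π * (t + π ^ i * d g * t)) := by
      linear_combination e3
    have e5 : π ∣ s ^ (i + 1) * σ • d g - s * d g :=
      ⟨_, mul_left_cancel₀ (pow_ne_zero _ hπ0) e4⟩
    have e6 : π ∣ s ^ (i + 1) * d g ^ q - s * d g := by
      have := dvd_sub e5 ((hσ (d g)).mul_left (s ^ (i + 1)))
      refine this.trans (dvd_of_eq ?_)
      ring
    rw [Multiset.mem_toFinset, mem_roots hP0, IsRoot.def]
    have e7 := (hm _).2 e6
    simp only [map_sub, map_mul, map_pow] at e7
    simpa [P] using e7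
  have hinj : ∀ g g' : fil A π (i + 1), m (d g) = m (d g') →
      g⁻¹ * g' ∈ (fil A π (i + 1 + 1)).subgroupOf (fil A π (i + 1)) := by
    intro g g' e
    rw [Subgroup.mem_subgroupOf]
    refine tei h (hmono _ (g⁻¹ * g').2) ?_
    obtain ⟨y, hy⟩ : π ∣ d g' - d g := (hm _).1 (by rw [map_sub, e, sub_self])
    have e1 : (g' : A) • π - (g : A) • π = π ^ (i + 1 + 1) * y := by
      linear_combination hd g' - hd g + π ^ (i + 1) * hy
    have e2 : π ∣ (g : A)⁻¹ • π := by
      have := dvd_add (hmono _ (g⁻¹).2 π) (dvd_of_eq (pow_one π))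
      rwa [sub_add_cancel, pow_one] at this
    have e3 : ((g⁻¹ * g' : fil A π (i + 1)) : A) • π - π =
        (g : A)⁻¹ • ((g' : A) • π - (g : A) • π) := by
      rw [smul_sub, inv_smul_smul, ← mul_smul]
      rfl
    rw [e3, e1, smul_mul', smul_pow']
    exact (pow_dvd_pow_of_dvd e2 _).mul_right _
  let φ : (fil A π (i + 1) ⧸ (fil A π (i + 1 + 1)).subgroupOf (fil A π (i + 1))) →
      P.roots.toFinset := fun a => ⟨m (d a.out), hroot _⟩
  have hφ : Function.Injective φ := by
    intro a b e
    have := QuotientGroup.eq.2 (hinj a.out b.out (congrArg Subtype.val e))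
    rwa [QuotientGroup.out_eq', QuotientGroup.out_eq'] at this
  have h1 := Nat.card_le_card_of_injective φ hφ
  rw [Nat.card_eq_fintype_card (α := P.roots.toFinset), Fintype.card_coe] at h1
  exact h1.trans ((Multiset.toFinset_card_le _).trans ((card_roots' P).trans hPd))

end Pool.Agent.Lib.MP_1e748d_nt.Va
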