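import Pool.Agent.Lib.MP_1e748d_nt.Va.Defs

set_option autoImplicit false

namespace Pool.Agent.Lib.MP_1e748d_nt.Va

open Polynomial

variable {L : Type} [Field L] [NumberField L] [IsGalois ℚ L]

theorem norm_va_int {y : L} (hy : IsIntegral ℤ y) :
    ∃ n : ℤ, (n : L) = ∏ g : L ≃ₐ[ℚ] L, g y := by
  obtain ⟨n, hn⟩ := IsIntegrallyClosed.isIntegral_iff.1 (Algebra.isIntegral_norm ℚ hy)
  refine ⟨n, ?_⟩
  rw [← Algebra.norm_eq_prod_automorphisms, ← hn]
  simp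

theorem norm_va_abs (ι : L →+* ℝ) {y : L} {n : ℤ} (hn : (n : L) = ∏ g : L ≃ₐ[ℚ] L, g y) :
    |(n : ℝ)| = ∏ g : L ≃ₐ[ℚ] L, |ι (g y)| := by
  rw [← Finset.abs_prod, ← map_prod, ← hn, map_intCast]

theorem norm_va_ne {y : L} (h0 : y ≠ 0) {n : ℤ} (hn : (n : L) = ∏ g : L ≃ₐ[ℚ] L, g y) : n ≠ 0 := by
  rintro rfl
  obtain ⟨g, -, hg⟩ := Finset.prod_eq_zero_iff.1 (hn.symm.trans Int.cast_zero)
  exact h0 ((map_eq_zero g).1 hg)

omit [IsGalois ℚ L] in
theorem norm_va_pos (ι : L →+* ℝ) {y : L} (h0 : y ≠ 0) (g : L ≃ₐ[ℚ] L) : 0 < |ι (g y)| :=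
  abs_pos.2 ((map_ne_zero ι).2 ((map_ne_zero g).2 h0))

omit [IsGalois ℚ L] in
theorem norm_va_dvd {p : ℕ} (hp : p.Prime) (R : Subring L) (h3 : ∀ z ∈ R, (p : L) * z ≠ 1)
    {z : L} (hz : z ∈ R) (k : ℕ) : ∀ n : ℤ, (n : L) = (p : L) ^ k * z → (p : ℤ) ^ k ∣ n := by
  induction k with
  | zero => intro n _; simp
  | succ k ih =>
    intro n hn
    have hd : (p : ℤ) ∣ n := by
      by_contra hnd
      obtain ⟨u, v, huv⟩ := ((Nat.prime_iff_prime_int.1 hp).irreducible.coprime_iff_not_dvd).2 hnd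
      have h1 : ((u * p + v * n : ℤ) : L) = 1 := by rw [huv, Int.cast_one]
      push_cast at h1
      refine h3 (u + v * (p ^ k * z)) (R.add_mem (intCast_mem R u)
        (R.mul_mem (intCast_mem R v) (R.mul_mem (R.pow_mem (natCast_mem R p) k) hz))) ?_
      rw [← h1, hn]
      ring
    obtain ⟨n', rfl⟩ := hd
    have h2 : (n' : L) = (p : L) ^ k * z := by
      apply mul_left_cancel₀ (Nat.cast_ne_zero.2 hp.ne_zero : (p : L) ≠ 0)
      push_cast at hn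
      rw [hn]
      ring
    rw [pow_succ']
    exact mul_dvd_mul_left _ (ih n' h2)

theorem small_zero (ι : L →+* ℝ) {y : L} (hy : IsIntegral ℤ y)
    (hs : ∀ g : L ≃ₐ[ℚ] L, |ι (g y)| < 1) : y = 0 := by
  by_contra h0
  obtain ⟨n, hn⟩ := norm_va_int hy
  have h1 : (1 : ℝ) ≤ |(n : ℝ)| := by exact_mod_cast Int.one_le_abs (norm_va_ne h0 hn)
  have h2 := Finset.prod_lt_prod_of_nonempty (s := Finset.univ) (fun g _ => norm_va_pos ι h0 g)
    (fun g _ => hs g) Finset.univ_nonempty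
  rw [← norm_va_abs ι hn, Finset.prod_const_one] at h2
  linarith

theorem norm_zero (ι : L →+* ℝ) (A : Subgroup (L ≃ₐ[ℚ] L)) {B M p : ℕ} (hp : p.Prime)
    (hB : A.index ≤ B) (R : Subring L) (hR : ∀ x, IsIntegral ℤ x → x ∈ R)
    (h3 : ∀ z ∈ R, (p : L) * z ≠ 1) {y : L}
    (hy : IsIntegral ℤ y) (hA : ∀ g ∈ A, ∃ z ∈ R, g y = (p : L) ^ M * z)
    (hs : ∀ g : L ≃ₐ[ℚ] L, |ι (g y)| ^ B < (p : ℝ) ^ M) : y = 0 := by
  classical
  by_contra h0
  obtain ⟨n, hn⟩ := norm_va_int hy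
  choose! z hzR hz using hA
  have hcard : (Finset.univ.filter fun g => g ∈ A).card = Nat.card A := by
    rw [Nat.card_eq_fintype_card, Fintype.card_subtype]
  have hsplit : (n : L) = (p : L) ^ (M * Nat.card A) * ((∏ g ∈ Finset.univ.filter (fun g => g ∈ A), z g) *
      ∏ g ∈ Finset.univ.filter (fun g => ¬ g ∈ A), g y) := by
    rw [hn, ← Finset.prod_filter_mul_prod_filter_not Finset.univ (fun g => g ∈ A),
      Finset.prod_congr rfl (fun g hg => hz g (Finset.mem_filter.1 hg).2),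
      Finset.prod_mul_distrib, Finset.prod_const, hcard, ← pow_mul, mul_assoc]
  have hd := norm_va_dvd hp R h3 (R.mul_mem (R.prod_mem fun g hg => hzR g (Finset.mem_filter.1 hg).2)
    (R.prod_mem fun g _ => hR _ (hy.map (g.toRingEquiv.toRingHom.toIntAlgHom)))) _ n hsplit
  have h1 : (p : ℝ) ^ (M * Nat.card A) ≤ |(n : ℝ)| := by
    exact_mod_cast Int.le_of_dvd (abs_pos.2 (norm_va_ne h0 hn)) ((dvd_abs _ _).2 hd)
  have h2 := Finset.prod_lt_prod_of_nonempty (s := Finset.univ)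
    (fun g _ => pow_pos (norm_va_pos ι h0 g) B) (fun g _ => hs g) Finset.univ_nonempty
  rw [Finset.prod_pow, ← norm_va_abs ι hn, Finset.prod_const, ← pow_mul, Finset.card_univ,
    ← Nat.card_eq_fintype_card, ← A.card_mul_index] at h2
  have h4 : ((p : ℝ) ^ (M * Nat.card A)) ^ B ≤ |(n : ℝ)| ^ B :=
    pow_le_pow_left₀ (by positivity) h1 B
  have h5 : (p : ℝ) ^ (M * (Nat.card A * A.index)) ≤ ((p : ℝ) ^ (M * Nat.card A)) ^ B := by
    rw [← pow_mul, mul_assoc]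
    exact pow_le_pow_right₀ (by exact_mod_cast hp.one_le) (Nat.mul_le_mul_left _ (Nat.mul_le_mul_left _ hB))
  linarith

/-- An open condition that holds on the square holds on a slightly larger square. -/
theorem thicken (c : ℝ) {K : Set (ℝ × ℝ)} (hK : IsClosed K)
    (h : ∀ x ∈ II c, ∀ y ∈ II c, (x, y) ∉ K) : ∃ ε : ℝ, 0 < ε ∧
      ∀ x y : ℝ, |x - c| ≤ 2 + ε → |y - c| ≤ 2 + ε → (x, y) ∉ K := by
  have hc : IsCompact (II c ×ˢ II c) := isCompact_Icc.prod isCompact_Icc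
  obtain ⟨δ, hδ, hsub⟩ := hc.exists_cthickening_subset_open hK.isOpen_compl
    (fun z hz => h z.1 hz.1 z.2 hz.2)
  have key : ∀ x : ℝ, |x - c| ≤ 2 + δ → ∃ x' ∈ II c, dist x x' ≤ δ := by
    intro x hx
    obtain ⟨h1, h2⟩ := abs_le.1 hx
    rcases le_total x (c - 2) with h3 | h3
    · exact ⟨c - 2, ⟨le_rfl, by linarith⟩, by
        rw [Real.dist_eq, abs_le]; constructor <;> linarith⟩
    · rcases le_total x (c + 2) with h4 | h4
      · exact ⟨x, ⟨h3, h4⟩, by rw [dist_self]; exact hδ.le⟩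
      · exact ⟨c + 2, ⟨by linarith, le_rfl⟩, by
          rw [Real.dist_eq, abs_le]; constructor <;> linarith⟩
  refine ⟨δ, hδ, fun x y hx hy => ?_⟩
  obtain ⟨x', hx', dx⟩ := key x hx
  obtain ⟨y', hy', dy⟩ := key y hy
  exact hsub (Metric.mem_cthickening_of_dist_le (x, y) (x', y') δ _ ⟨hx', hy'⟩
    (by rw [Prod.dist_eq]; exact max_le dx dy))

theorem continuous_ev (f : ℤ[X][X]) : Continuous fun z : ℝ × ℝ => ev z.1 z.2 f := by
  simp only [e2_sum _ _ _ f (Nat.lt_succ_self _)]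
  exact continuous_finsetSum _ fun j _ =>
    (((f.coeff j).continuous_eval₂ _).comp continuous_fst).mul (continuous_snd.pow j)

theorem isIntegral_ev {S : Type} [CommRing S] {α β : S} (hα : IsIntegral ℤ α)
    (hβ : IsIntegral ℤ β) (f : ℤ[X][X]) : IsIntegral ℤ (ev α β f) := by
  have h := hom_ev (integralClosure ℤ S).val.toRingHom ⟨α, hα⟩ ⟨β, hβ⟩ f
  exact h ▸ (ev (⟨α, hα⟩ : integralClosure ℤ S) ⟨β, hβ⟩ f).2

end Pool.Agent.Lib.MP_1e748d_nt.Va
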