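import Pool.Agent.Lib.MP_1e748d_nt.Va.Defs

set_option autoImplicit false

namespace Pool.Agent.Lib.MP_1e748d_nt.Va

open Polynomial

section

variable {K : Type} [NormedField K] [IsUltrametricDist K]

lemma pad_norm_le {x : K} (hx : IsIntegral ℤ x) : ‖x‖ ≤ 1 := by
  have h : IsIntegral (NormedField.valuation (K := K)).integer x := hx.tower_top
  have := (Valuation.integer.integers (NormedField.valuation (K := K))).mem_of_integral h
  exact_mod_cast (Valuation.mem_integer_iff _ _).1 this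

lemma pad_sub {x y : K} (h : ‖y‖ < ‖x‖) : ‖x - y‖ = ‖x‖ := by
  rw [sub_eq_add_neg, IsUltrametricDist.norm_add_eq_max_of_norm_ne_norm (by simpa using h.ne'),
    norm_neg, max_eq_left h.le]

lemma pad_root [IsAlgClosed K] {x : K} (hx : 1 < ‖x‖) :
    ∃ w v : K, w * v = 1 ∧ x = w + v ∧ ‖w‖ = ‖x‖ ∧ ‖v‖ ≤ 1 := by
  obtain ⟨w, hw⟩ := IsAlgClosed.exists_root (C 1 * X ^ 2 + C (-x) * X + C 1 : K[X])
    (by rw [degree_quadratic one_ne_zero]; norm_num)
  have h1 : w * (x - w) = 1 := by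
    simp only [IsRoot.def, eval_add, eval_mul, eval_C, eval_pow, eval_X] at hw
    linear_combination -hw
  have h2 : ‖w‖ * ‖x - w‖ = 1 := by rw [← norm_mul, h1, norm_one]
  rcases le_total ‖x - w‖ 1 with h | h
  · refine ⟨w, x - w, h1, by ring, ?_, h⟩
    rw [← pad_sub (h.trans_lt hx), sub_sub_cancel]
  · have h3 : ‖w‖ ≤ 1 := by nlinarith [norm_nonneg w]
    exact ⟨x - w, w, by rw [mul_comm, h1], by ring, pad_sub (h3.trans_lt hx), h3⟩

lemma pad_pow {z : K} (hz : ‖z‖ ≤ 1) (i : ℕ) : ‖1 - z ^ i‖ ≤ ‖1 - z‖ := by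
  induction i with
  | zero => simp
  | succ i ih =>
    rw [show 1 - z ^ (i + 1) = (1 - z) + z * (1 - z ^ i) by ring]
    refine (IsUltrametricDist.norm_add_le_max _ _).trans (max_le le_rfl ?_)
    rw [norm_mul]
    exact (mul_le_of_le_one_left (norm_nonneg _) hz).trans ih

end

lemma pad_zeta {l : ℕ} [hl : Fact l.Prime] {z : PadicAlgCl l} {T : ℕ} (hT : 0 < T) (hz : z ^ T = 1)
    (h : ‖1 - z‖ ≤ (l : ℝ)⁻¹) : z = 1 ∨ z = -1 := by
  have h0 : 0 < orderOf z := (isOfFinOrder_iff_pow_eq_one.2 ⟨T, hT, hz⟩).orderOf_pos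
  obtain ⟨n, hn⟩ := Nat.exists_eq_succ_of_ne_zero h0.ne'
  have hp : IsPrimitiveRoot z (n + 1) := by
    have := IsPrimitiveRoot.orderOf z
    rwa [hn] at this
  have hz1 : ‖z‖ ≤ 1 := by
    have : ‖z‖ ^ T = 1 := by rw [← norm_pow, hz, norm_one]
    exact ((pow_eq_one_iff_of_nonneg (norm_nonneg z) hT.ne').1 this).le
  have h1 : ‖((n : PadicAlgCl l) + 1)‖ ≤ (l : ℝ)⁻¹ ^ n := by
    rw [← hp.prod_one_sub_pow_eq_order, norm_prod]
    refine (Finset.prod_le_prod (fun _ _ => norm_nonneg _)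
      (fun i _ => (pad_pow hz1 (i + 1)).trans h)).trans ?_
    simp
  have h2 : ‖(((n + 1 : ℕ) : ℤ) : ℚ_[l])‖ ≤ (l : ℝ) ^ (-n : ℤ) := by
    rw [← PadicAlgCl.norm_extends, zpow_neg, zpow_natCast, ← inv_pow]
    simpa using h1
  have h3 : l ^ n ∣ n + 1 := by exact_mod_cast (Padic.norm_int_le_pow_iff_dvd _ _).1 h2
  have h4 : 2 ^ n ≤ n + 1 :=
    (Nat.pow_le_pow_left hl.out.two_le n).trans (Nat.le_of_dvd n.succ_pos h3)
  rcases n with _ | _ | n
  · exact Or.inl (by simpa using hp.pow_eq_one)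
  · exact mul_self_eq_one_iff.1 (by rw [← sq]; exact hp.pow_eq_one)
  · have := Nat.lt_two_pow_self (n := n + 1)
    rw [pow_succ] at h4
    omega

lemma pad_c {c : ℚ} {l : ℕ} [hl : Fact l.Prime] (h : l ∣ c.den) :
    (l : ℝ) ≤ ‖(c : PadicAlgCl l)‖ := by
  have h0 : (0 : ℝ) < l := by exact_mod_cast hl.out.pos
  have h1 : ‖((c.den : ℤ) : ℚ_[l])‖ ≤ (l : ℝ) ^ (-(1 : ℕ) : ℤ) :=
    (Padic.norm_int_le_pow_iff_dvd _ _).2 (by exact_mod_cast (pow_one l).symm ▸ h)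
  have h2 : 1 ≤ ‖(c.num : ℚ_[l])‖ := by
    rw [← not_lt, Padic.norm_intCast_lt_one_iff]
    intro h3
    have h4 : l ∣ c.num.natAbs := Int.natCast_dvd.1 h3
    exact hl.out.one_lt.ne' (Nat.eq_one_of_dvd_coprimes c.reduced h4 h)
  have h3 : (c.num : ℚ_[l]) = (c : ℚ_[l]) * ((c.den : ℤ) : ℚ_[l]) := by
    exact_mod_cast (Rat.mul_den_eq_num c).symm
  have h4 : ‖(c : PadicAlgCl l)‖ = ‖(c : ℚ_[l])‖ := by
    rw [← PadicAlgCl.norm_extends, map_ratCast]
  rw [h3, norm_mul] at h2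
  rw [h4]
  simp only [Nat.cast_one, zpow_neg, zpow_one] at h1
  have h5 := h2.trans (mul_le_mul_of_nonneg_left h1 (norm_nonneg _))
  rwa [← div_eq_mul_inv, le_div_iff₀ h0, one_mul] at h5

lemma pad_main {l : ℕ} [hl : Fact l.Prime] {c a b : PadicAlgCl l} (hc : (l : ℝ) ≤ ‖c‖) {T : ℕ}
    (hT : 0 < T) (ha : ‖a‖ ≤ 1) (hb : ‖b‖ ≤ 1) (h : (ch c T).eval b = (ch c T).eval a) :
    b = a ∨ a + b = 2 * c := by
  have hl1 : (1 : ℝ) < l := by exact_mod_cast hl.out.one_lt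
  have hc1 : 1 < ‖c‖ := hl1.trans_le hc
  have e1 : ‖a - c‖ = ‖c‖ := by rw [norm_sub_rev, pad_sub (ha.trans_lt hc1)]
  have e2 : ‖b - c‖ = ‖c‖ := by rw [norm_sub_rev, pad_sub (hb.trans_lt hc1)]
  obtain ⟨w, v, h1, h2, h3, h4⟩ := pad_root (e1 ▸ hc1)
  obtain ⟨w', v', h1', h2', h3', h4'⟩ := pad_root (e2 ▸ hc1)
  rw [e1] at h3
  rw [e2] at h3'
  have ea : a = c + w + v := by linear_combination h2
  have eb : b = c + w' + v' := by linear_combination h2'
  rw [ea, eb, ch_w _ _ _ h1, ch_w _ _ _ h1'] at h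
  have p1 : w ^ T * v ^ T = 1 := by rw [← mul_pow, h1, one_pow]
  have p2 : w' ^ T * v' ^ T = 1 := by rw [← mul_pow, h1', one_pow]
  have p3 : (w' ^ T - w ^ T) * (w' ^ T * w ^ T - 1) = 0 := by
    linear_combination (w ^ T * w' ^ T) * h - w ^ T * p2 + w' ^ T * p1
  have p4 : w' ^ T = w ^ T := by
    refine sub_eq_zero.1 ((mul_eq_zero.1 p3).resolve_right fun e => ?_)
    have e' := congrArg norm (sub_eq_zero.1 e)
    rw [norm_mul, norm_pow, norm_pow, h3, h3', norm_one] at e'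
    have := one_lt_pow₀ hc1 hT.ne'
    nlinarith
  have p5 : (w' * v) ^ T = 1 := by rw [mul_pow, p4, p1]
  have p6 : a - b = (1 - w' * v) * (w - v') := by
    rw [ea, eb]
    linear_combination w' * h1 - v * h1'
  have p7 : ‖1 - w' * v‖ * ‖c‖ ≤ 1 := by
    rw [← h3, ← pad_sub (x := w) (y := v') (by rw [h3]; exact h4'.trans_lt hc1), ← norm_mul, ← p6,
      sub_eq_add_neg]
    exact (IsUltrametricDist.norm_add_le_max _ _).trans (max_le ha (by rwa [norm_neg]))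
  have p8 : ‖1 - w' * v‖ ≤ (l : ℝ)⁻¹ := by
    rw [← one_div, le_div_iff₀ (by linarith)]
    exact (mul_le_mul_of_nonneg_left hc (norm_nonneg _)).trans p7
  rcases pad_zeta hT p5 p8 with e | e
  · left
    rw [e] at p6
    linear_combination -p6
  · right
    rw [ea, eb]
    linear_combination (w + v') * e - w' * h1 - v * h1'

/-- For a rational non-integer centre only the identity and the reflection are integral. -/
theorem pad {L : Type} [Field L] [NumberField L] {c : ℚ} (hc : ∀ n : ℤ, c ≠ n) {T : ℕ}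
    (hT : 0 < T) {α β : L} (hα : IsIntegral ℤ α) (hβ : IsIntegral ℤ β)
    (h : (ch (c : L) T).eval β = (ch (c : L) T).eval α) : β = α ∨ α + β = 2 * (c : L) := by
  have hd : c.den ≠ 1 := fun e => hc c.num ((Rat.den_eq_one_iff c).1 e).symm
  have : Fact c.den.minFac.Prime := ⟨Nat.minFac_prime hd⟩
  let ι : L →+* PadicAlgCl c.den.minFac :=
    (IsAlgClosed.lift : L →ₐ[ℚ] PadicAlgCl c.den.minFac).toRingHom
  have e : ∀ y : L, ι ((ch (c : L) T).eval y) = (ch (c : PadicAlgCl c.den.minFac) T).eval (ι y) :=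
    fun y => by rw [← map_ratCast ι c, ← ch_map, eval_map, eval₂_at_apply]
  have := pad_main (pad_c (Nat.minFac_dvd c.den)) hT (pad_norm_le (hα.map ι.toIntAlgHom))
    (pad_norm_le (hβ.map ι.toIntAlgHom)) ((e β).symm.trans ((congrArg ι h).trans (e α)))
  refine this.imp (fun e => ι.injective e) fun e => ι.injective ?_
  rw [map_add, map_mul, map_ratCast, map_ofNat]
  exact e

end Pool.Agent.Lib.MP_1e748d_nt.Va
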