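import Pool.Agent.Lib.MP_1e748d_nt.Va.Defs

set_option autoImplicit false

namespace Pool.Agent.Lib.MP_1e748d_nt.Va

open Polynomial

/-- The larger of the absolute values of the roots of `X ^ 2 - t X + 1`. -/
noncomputable def rho (t : ℝ) : ℝ := max 1 ((|t| + √(t ^ 2 - 4)) / 2)

lemma rho_one_le (t : ℝ) : 1 ≤ rho t := le_max_left _ _

lemma rho_small {t : ℝ} (h : |t| ≤ 2) : rho t = 1 := by
  have h1 : t ^ 2 - 4 ≤ 0 := by nlinarith [sq_abs t, abs_nonneg t]
  rw [rho, Real.sqrt_eq_zero_of_nonpos h1]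
  exact max_eq_left (by linarith)

lemma rho_abs (v : ℝ) : |v + v⁻¹| = |v| + |v|⁻¹ := by
  rcases le_or_gt 0 v with h0 | h0
  · rw [abs_of_nonneg h0, abs_of_nonneg (by positivity)]
  · have := inv_lt_zero.mpr h0
    rw [abs_of_neg h0, abs_of_neg (by linarith), inv_neg]
    ring

lemma rho_add {v : ℝ} (h : 1 ≤ |v|) : rho (v + v⁻¹) = |v| := by
  have h0 : |v| ≠ 0 := by positivity
  have h1 : |v|⁻¹ ≤ 1 := inv_le_one_of_one_le₀ h
  have h2 : (v + v⁻¹) ^ 2 - 4 = (|v| - |v|⁻¹) ^ 2 := by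
    rw [← sq_abs, rho_abs]
    field_simp
    ring
  rw [rho, h2, Real.sqrt_sq (by linarith), rho_abs]
  rw [max_eq_right (by linarith)]
  ring

lemma rho_ex {t : ℝ} (h : 2 ≤ |t|) : ∃ v : ℝ, 1 ≤ |v| ∧ t = v + v⁻¹ := by
  have h1 : 0 ≤ t ^ 2 - 4 := by nlinarith [sq_abs t]
  have h2 := Real.sq_sqrt h1
  have h3 := Real.sqrt_nonneg (t ^ 2 - 4)
  rcases le_or_gt 0 t with h0 | h0
  · rw [abs_of_nonneg h0] at h
    refine ⟨(t + √(t ^ 2 - 4)) / 2, le_abs.mpr (Or.inl (by linarith)), ?_⟩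
    rw [inv_eq_of_mul_eq_one_right (b := (t - √(t ^ 2 - 4)) / 2) (by linarith)]
    ring
  · rw [abs_of_neg h0] at h
    refine ⟨(t - √(t ^ 2 - 4)) / 2, le_abs.mpr (Or.inr (by linarith)), ?_⟩
    rw [inv_eq_of_mul_eq_one_right (b := (t + √(t ^ 2 - 4)) / 2) (by linarith)]
    ring

lemma rho_ch (c t : ℝ) (K : ℕ) : rho ((ch c K).eval t) = rho (t - c) ^ K := by
  rcases le_total |t - c| 2 with h | h
  · rw [rho_small h, one_pow, rho_small (abs_ch_le (mem_II.mpr h) K)]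
  · obtain ⟨v, hv, e⟩ := rho_ex h
    have h0 : v ≠ 0 := by
      rintro rfl
      norm_num at hv
    have e' : t = c + v + v⁻¹ := by linarith
    rw [e, rho_add hv, e', ch_w c v v⁻¹ (mul_inv_cancel₀ h0), inv_pow,
      rho_add (by rw [abs_pow]; exact one_le_pow₀ hv), abs_pow]

lemma rho_lt {t : ℝ} (h : 2 < |t|) : 1 < rho t :=
  lt_max_of_lt_right (by linarith [Real.sqrt_nonneg (t ^ 2 - 4)])

lemma rho_inv {t : ℝ} (h : 1 < rho t) : |t| = rho t + (rho t)⁻¹ := by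
  obtain ⟨v, hv, rfl⟩ := rho_ex (t := t) (by
    by_contra h1
    exact h.ne' (rho_small (not_le.mp h1).le))
  rw [rho_add hv, rho_abs]

/-- A Chebyshev relation along an orbit that leaves the interval is a sign change. -/
theorem real_rel {G : Type} [Group G] [Finite G] (u : G → ℝ) (s : G) (c : ℝ) {K L : ℕ}
    (hK : 0 < K) (h : ∀ g, (ch c K).eval (u (g * s)) = (ch c L).eval (u g))
    {g0 : G} (h0 : 2 < |u g0 - c|) : u (g0 * s) = u g0 ∨ u g0 + u (g0 * s) = 2 * c := by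
  have := Fintype.ofFinite G
  have h1 : ∀ g, rho (u (g * s) - c) ^ K = rho (u g - c) ^ L := fun g => by
    rw [← rho_ch, ← rho_ch, h]
  have h2 : 1 < ∏ g, rho (u g - c) := by
    classical
    rw [← Finset.mul_prod_erase _ _ (Finset.mem_univ g0)]
    have := Finset.one_le_prod (s := Finset.univ.erase g0) (f := fun g => rho (u g - c))
      fun g _ => rho_one_le _
    nlinarith [rho_lt h0]
  have h3 : (∏ g, rho (u g - c)) ^ K = (∏ g, rho (u g - c)) ^ L := by
    rw [← Finset.prod_pow, ← Finset.prod_pow, ← Finset.prod_congr rfl fun g _ => h1 g]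
    exact (Equiv.prod_comp (Equiv.mulRight s) fun g => rho (u g - c) ^ K).symm
  obtain rfl : K = L := pow_right_injective₀ (by linarith) h2.ne' h3
  have h4 : rho (u (g0 * s) - c) = rho (u g0 - c) :=
    (pow_left_inj₀ (by linarith [rho_one_le (u (g0 * s) - c)])
      (by linarith [rho_one_le (u g0 - c)]) hK.ne').mp (h1 g0)
  have h5 : |u (g0 * s) - c| = |u g0 - c| := by
    rw [rho_inv (rho_lt h0), rho_inv (h4 ▸ rho_lt h0), h4]
  rcases abs_eq_abs.mp h5 with h6 | h6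
  · exact Or.inl (by linarith)
  · exact Or.inr (by linarith)

end Pool.Agent.Lib.MP_1e748d_nt.Va
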