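import Pool.Agent.Lib.MP_1e748d_nt.Va.Classify
import Pool.Agent.Lib.MP_1e748d_nt.Va.Pad
import Pool.Agent.Lib.MP_1e748d_nt.Va.Norm
import Pool.Agent.Lib.MP_1e748d_nt.Va.Rho

set_option autoImplicit false

namespace Pool.Agent.Lib.MP_1e748d_nt.Va

open Polynomial

/-- For an integer centre some conjugate leaves the interval. -/
def Far {L : Type} [Field L] [Algebra ℚ L] (c : ℝ) (ι : L →+* ℝ) (α : L) : Prop :=
  ∀ m : ℤ, c = m → ∃ g : L ≃ₐ[ℚ] L, 2 < |ι (g α) - c|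

section

variable {L : Type} [Field L] [NumberField L]

lemma Cf.conj {c ε : ℝ} {ι : L →+* ℝ} {α : L} (h : Cf c ε ι α) (g : L ≃ₐ[ℚ] L) :
    Cf c ε ι (g α) :=
  ⟨map_isIntegral_int (g : L →+* L) h.1, fun g' => h.2 (g' * g)⟩

lemma Cf.mono {c ε ε' : ℝ} {ι : L →+* ℝ} {α : L} (h : Cf c ε ι α) (he : ε ≤ ε') :
    Cf c ε' ι α :=
  ⟨h.1, fun g => (h.2 g).trans (by linarith)⟩

lemma Big.conj {D : ℕ} {α : L} (h : Big D α) (g : L ≃ₐ[ℚ] L) : Big D (g α) := by
  intro p hp hd h0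
  apply h p hp hd
  apply g.injective
  have := hom_eval₂ p (Int.castRingHom L) (g : L →+* L) α
  rw [RingHom.ext_int (RingHom.comp _ _) (Int.castRingHom L)] at this
  rw [map_zero, ← h0]
  exact this

omit [NumberField L] in
lemma Big.mono {D D' : ℕ} {α : L} (h : Big D α) (hd : D' ≤ D) : Big D' α :=
  fun p hp h1 => h p hp (h1.trans hd)

lemma Far.conj {c : ℝ} {ι : L →+* ℝ} {α : L} (h : Far c ι α) (g : L ≃ₐ[ℚ] L) :
    Far c ι (g α) := by
  intro m hm
  obtain ⟨g', h'⟩ := h m hm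
  exact ⟨g' * g⁻¹, by simpa using h'⟩

lemma rig_rel {m : ℤ} {ι : L →+* ℝ} {α : L} (h : Far m ι α) (s : L ≃ₐ[ℚ] L) {K K' : ℕ}
    (hK : 0 < K) (e : (ch (m : L) K).eval (s α) = (ch (m : L) K').eval α) :
    s α = α ∨ α + s α = ((⌊2 * (m : ℝ)⌋ : ℤ) : L) := by
  obtain ⟨g0, h0⟩ := h m rfl
  have e1 : ∀ (g : L ≃ₐ[ℚ] L) (y : L) (k : ℕ),
      ι (g ((ch (m : L) k).eval y)) = (ch (m : ℝ) k).eval (ι (g y)) := fun g y k => by
    have := hom_eval₂ (ch (m : L) k) (RingHom.id L) (ι.comp (g : L →+* L)) y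
    rw [ch_eval₂, ch_eval₂] at this
    simpa using this
  rcases real_rel (fun g : L ≃ₐ[ℚ] L => ι (g α)) s m hK (L := K') (fun g => by
    rw [AlgEquiv.mul_apply, ← e1, ← e1, e]) h0 with h1 | h1
  · exact Or.inl (g0.injective (ι.injective h1))
  · refine Or.inr (g0.injective (ι.injective ?_))
    rw [map_add, map_add, map_intCast, map_intCast, ← AlgEquiv.mul_apply, h1]
    norm_cast
    rw [Int.floor_intCast]

end

/-- The conclusion of the rigidity theorem for the polynomial `F`. -/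
def rig_P (c : ℝ) (F : ℤ[X][X]) : Prop :=
  ∃ ε : ℝ, 0 < ε ∧ ∃ D : ℕ, ∀ (L : Type) [Field L] [NumberField L] [IsGalois ℚ L]
    (ι : L →+* ℝ) (α : L) (s : L ≃ₐ[ℚ] L), Cf c ε ι α → Big D α → Far c ι α →
    ev α (s α) F = 0 → s α = α ∨ α + s α = ((⌊2 * c⌋ : ℤ) : L)

lemma rig_mul {c : ℝ} {F G : ℤ[X][X]} (hF : rig_P c F) (hG : rig_P c G) : rig_P c (F * G) := by
  obtain ⟨ε, hε, D, h⟩ := hF
  obtain ⟨ε', hε', D', h'⟩ := hG
  refine ⟨min ε ε', lt_min hε hε', max D D', fun L _ _ _ ι α s hα bα fα h0 => ?_⟩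
  rw [map_mul, mul_eq_zero] at h0
  rcases h0 with h0 | h0
  · exact h L ι α s (hα.mono (min_le_left _ _)) (bα.mono (le_max_left _ _)) fα h0
  · exact h' L ι α s (hα.mono (min_le_right _ _)) (bα.mono (le_max_right _ _)) fα h0

lemma rig_small {c : ℝ} {Φ : ℤ[X][X]} (hp : Prime Φ) (hN : ¬ NoSmall c Φ) : rig_P c Φ := by
  obtain ⟨f, hf⟩ := not_forall.mp hN
  obtain ⟨hf1, hf2⟩ := Classical.not_imp.mp hf
  obtain ⟨r, hr, V, hV⟩ := rig_bezout hp hf2
  have hK : IsClosed {z : ℝ × ℝ | ev z.1 z.2 Φ = 0 ∧ 1 ≤ |ev z.1 z.2 f|} :=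
    (isClosed_eq (continuous_ev Φ) continuous_const).inter
      (isClosed_le continuous_const (continuous_ev f).abs)
  obtain ⟨ε, hε, h⟩ := thicken c hK (fun x hx y hy hxy => (not_le.mpr (hf1 x hx y hy hxy.1)) hxy.2)
  refine ⟨ε, hε, r.natDegree, fun L _ _ _ ι α s hα bα _ h0 => ?_⟩
  exfalso
  have hβ := hα.conj s
  generalize s α = β at h0 hβ
  have h1 : ev α β f = 0 := by
    refine small_zero ι (isIntegral_ev hα.1 hβ.1 f) fun g => ?_
    have e : ∀ p : ℤ[X][X], ι (g (ev α β p)) = ev (ι (g α)) (ι (g β)) p := fun p =>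
      hom_ev (ι.comp (g : L →+* L)) α β p
    have h2 := h _ _ (hα.2 g) (hβ.2 g)
    rw [e]
    by_contra h3
    refine h2 ⟨?_, not_lt.mp h3⟩
    change ev (ι (g α)) (ι (g β)) Φ = 0
    rw [← e, h0, map_zero, map_zero]
  have h2 : ev α β (C r - f * V) = 0 := by
    obtain ⟨U, hU⟩ := hV
    rw [hU, map_mul, h0, zero_mul]
  rw [map_sub, map_mul, h1, zero_mul, sub_zero, e2_C] at h2
  exact bα r hr le_rfl h2

/-- An integer multiple of the shifted Chebyshev polynomial. -/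
lemma rig_int (c0 : ℚ) (T : ℕ) : ∃ (Q : ℤ[X]) (v : ℤ), v ≠ 0 ∧
    ∀ (K : Type) [Field K] [CharZero K] (y : K),
      Q.eval₂ (Int.castRingHom K) y = v * (ch (c0 : K) T).eval y := by
  obtain ⟨v, hv, h⟩ := IsLocalization.integerNormalization_spec (S := ℚ) (nonZeroDivisors ℤ)
    (ch c0 T)
  refine ⟨IsLocalization.integerNormalization (nonZeroDivisors ℤ) (ch c0 T), v,
    nonZeroDivisors.ne_zero hv, fun K _ _ y => ?_⟩
  have e : Int.castRingHom K = (Rat.castHom K).comp (algebraMap ℤ ℚ) := RingHom.ext_int _ _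
  rw [e, ← eval₂_map, h, ← coe_eval₂RingHom, map_zsmul, coe_eval₂RingHom, ch_eval₂, zsmul_eq_mul]
  rfl

lemma rig_nosmall {c : ℝ} {Φ : ℤ[X][X]} (hp : Prime Φ)
    (h1 : Φ.natDegree ≠ 0) (h2 : (Bivariate.swap Φ).natDegree ≠ 0) (hN : NoSmall c Φ) :
    rig_P c Φ := by
  refine ⟨1, one_pos, 0, fun L _ _ _ ι α s hα _ fα h0 => ?_⟩
  have hβ := hα.conj s
  have key : ∀ f : ℤ[X][X], (∀ x ∈ II c, ∀ y : ℝ, ev x y Φ = 0 → ev x y f = 0) →
      ev α (s α) f = 0 := by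
    intro f hf
    obtain ⟨U, hU⟩ := hN f fun x hx y _ hxy => by
      rw [hf x hx y hxy, abs_zero]
      exact one_pos
    rw [hU, map_mul, h0, zero_mul]
  rcases classify hp h1 h2 hN with ⟨m, rfl, K, K', hK, -, U, hU⟩ | h | ⟨c0, hc0, T, hT, h⟩
  · have h3 := congrArg (ev α (s α)) hU
    rw [map_mul, h0, zero_mul, map_sub, e2_map_C, e2_C, ch_eval₂, ch_eval₂, sub_eq_zero,
      eq_intCast] at h3
    exact rig_rel fα s hK h3
  · left
    have h3 := key (X - C X) fun x hx y hxy => by simp [h x hx y hxy]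
    simpa [sub_eq_zero] using h3
  · obtain ⟨Q, v, hv, hQ⟩ := rig_int c0 T
    have h3 := key (Q.map C - C Q) fun x hx y hxy => by
      rw [map_sub, e2_map_C, e2_C, hQ, hQ, ← hc0, h x hx y hxy, sub_self]
    rw [map_sub, e2_map_C, e2_C, hQ, hQ, sub_eq_zero] at h3
    have h4 := mul_left_cancel₀ (Int.cast_ne_zero.mpr hv) h3
    by_cases h5 : ∀ n : ℤ, c0 ≠ n
    swap
    · obtain ⟨n, hn⟩ := not_forall.mp h5
      obtain rfl := not_not.mp hn
      rw [Rat.cast_intCast] at hc0 h4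
      subst hc0
      exact rig_rel fα s hT h4
    rcases pad h5 hT hα.1 hβ.1 h4 with h6 | h6
    · exact Or.inl h6
    · right
      have h7 : IsIntegral ℤ (algebraMap ℚ L (2 * c0)) := by
        have h8 : algebraMap ℚ L (2 * c0) = α + s α := by rw [h6]; simp
        rw [h8]
        exact hα.1.add hβ.1
      rw [isIntegral_algebraMap_iff (algebraMap ℚ L).injective] at h7
      obtain ⟨m, hm⟩ := IsIntegrallyClosed.isIntegral_iff.mp h7
      have h9 : (m : ℚ) = 2 * c0 := by simpa using hm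
      have h10 : 2 * c = (m : ℝ) := by
        rw [hc0]
        exact_mod_cast h9.symm
      rw [h10, Int.floor_intCast, h6]
      exact_mod_cast congrArg (fun q : ℚ => (q : L)) h9.symm

lemma rig_prime (c : ℝ) {Φ : ℤ[X][X]} (hp : Prime Φ) : rig_P c Φ := by
  by_cases h1 : Φ.natDegree = 0
  · obtain ⟨a, rfl⟩ := natDegree_eq_zero.mp h1
    refine ⟨1, one_pos, a.natDegree, fun L _ _ _ ι α s _ bα _ h0 => ?_⟩
    rw [e2_C] at h0
    exact (bα a (fun h => hp.ne_zero (by rw [h, C_0])) le_rfl h0).elim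
  by_cases h2 : (Bivariate.swap Φ).natDegree = 0
  · obtain ⟨a, ha⟩ := natDegree_eq_zero.mp h2
    refine ⟨1, one_pos, a.natDegree, fun L _ _ _ ι α s _ bα _ h0 => ?_⟩
    rw [← e2_swap, ← ha, e2_C] at h0
    refine (bα.conj s a (fun h => hp.ne_zero ?_) le_rfl h0).elim
    rw [h, C_0] at ha
    exact (map_eq_zero_iff _ (Bivariate.swap (R := ℤ)).injective).mp ha.symm
  by_cases hN : NoSmall c Φ
  exacts [rig_nosmall hp h1 h2 hN, rig_small hp hN]

/-- Rigidity: a fixed curve carries only diagonal or reflected pairs of large degree. -/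
theorem rig (c : ℝ) {F : ℤ[X][X]} (hF : F ≠ 0) : rig_P c F := by
  induction F using UniqueFactorizationMonoid.induction_on_prime with
  | h₁ => exact (hF rfl).elim
  | h₂ x hx =>
    exact ⟨1, one_pos, 0, fun L _ _ _ ι α s _ _ _ h0 => ((hx.map (ev α (s α))).ne_zero h0).elim⟩
  | h₃ a p ha hp ih => exact rig_mul (rig_prime c hp) (ih ha)

end Pool.Agent.Lib.MP_1e748d_nt.Va
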