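import Pool.Agent.Lib.MP_1e748d_nt.Va.Auxp
import Pool.Agent.Lib.MP_1e748d_nt.Va.Rig
import Pool.Agent.Lib.MP_1e748d_nt.Va.Blk

set_option autoImplicit false

namespace Pool.Agent.Lib.MP_1e748d_nt.Va

open Polynomial

lemma main_aux (c : ℝ) (B D : ℕ) {p : ℕ} (hp : 2 ≤ p) (W : ℤ[X][X]) (hW : W.Monic)
    (hD : ∀ j, (W.coeff j).natDegree ≤ D) : ∃ ε : ℝ, 0 < ε ∧
    ∃ (M E : ℕ) (F Z f : ℤ[X][X]), F ≠ 0 ∧ F = W ^ M * Z - (p : ℤ[X][X]) ^ M * f ∧
      (∀ j, (F.coeff j).natDegree ≤ E * D) ∧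
      ∀ x y : ℝ, |x - c| ≤ 2 + ε → |y - c| ≤ 2 + ε → |ev x y F| ^ B < (p : ℝ) ^ M := by
  obtain ⟨M, E, F, Z, f, h0, h1, h2, h3⟩ := aux c B D hp W hW hD
  have hK : IsClosed {z : ℝ × ℝ | (p : ℝ) ^ M ≤ |ev z.1 z.2 F| ^ B} :=
    isClosed_le continuous_const ((continuous_ev F).abs.pow B)
  obtain ⟨ε, hε, h⟩ := thicken c hK fun x hx y hy => not_le.mpr (h3 x hx y hy)
  exact ⟨ε, hε, M, E, F, Z, f, h0, h1, h2, fun x y hx hy => not_le.mp (h x y hx hy)⟩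

lemma main_deg (W : ℤ[X][X]) : ∃ D, ∀ j, (W.coeff j).natDegree ≤ D := by
  refine ⟨W.support.sup fun j => (W.coeff j).natDegree, fun j => ?_⟩
  by_cases h : j ∈ W.support
  · exact Finset.le_sup (f := fun j => (W.coeff j).natDegree) h
  · simp [notMem_support_iff.mp h]

section

variable {L : Type} [Field L] [NumberField L]

lemma main_van [IsGalois ℚ L] {ι : L →+* ℝ} {A N : Subgroup (L ≃ₐ[ℚ] L)} [hN : N.Normal]
    {B k M p r : ℕ} (hp : p.Prime) (hB : A.index ≤ B) {V : ValuationSubring L}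
    (hV : ∀ x, IsIntegral ℤ x → x ∈ V) (h3 : ∀ z ∈ V, (p : L) * z ≠ 1) {c ε : ℝ}
    {W F Z f : ℤ[X][X]} (hF : F = (W ^ r) ^ M * Z - (p : ℤ[X][X]) ^ M * f)
    (hs : ∀ x y : ℝ, |x - c| ≤ 2 + ε → |y - c| ≤ 2 + ε → |ev x y F| ^ (B * k) < (p : ℝ) ^ M)
    {α : L} (hα : Cf c ε ι α) (hk : (orb N α).card ≤ k) (s : L ≃ₐ[ℚ] L)
    (hc : ∀ h ∈ A, (s * h)⁻¹ * (h * s) ∈ N)
    (hW : ∀ g ∈ A, ∃ w, Rl N (g α) w ∧ Sm V p r (ev (g α) (s w) W)) :
    ∃ n ∈ N, ev α ((s * n) α) F = 0 := by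
  classical
  by_contra hcon
  have hn : ∀ w ∈ orb N α, ev α (s w) F ≠ 0 := fun w hw h => by
    obtain ⟨n, hn, rfl⟩ := mem_orb.mp hw
    exact hcon ⟨n, hn, h⟩
  have e1 : ∀ (g : L ≃ₐ[ℚ] L) (w : L), g (ev α w F) = ev (g α) (g w) F := fun g w =>
    hom_ev (g : L →+* L) α w F
  have e : ∀ g : L ≃ₐ[ℚ] L, g (∏ w ∈ orb N α, ev α (s w) F) =
      ∏ w ∈ orb N α, ev (g α) (g (s w)) F := fun g => by simp only [map_prod, e1]
  have hw : ∀ w ∈ orb N α, Cf c ε ι (s w) := fun w hw => by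
    obtain ⟨n, -, rfl⟩ := mem_orb.mp hw
    exact (hα.conj n).conj s
  have hne : α ∈ orb N α := mem_orb.mpr (Rl.refl α)
  have h0 : ∏ w ∈ orb N α, ev α (s w) F = 0 := by
    refine norm_zero ι A (M := M) hp hB V.toSubring hV h3
      (IsIntegral.prod _ fun w h => isIntegral_ev hα.1 (hw w h).1 F) (fun g hg => ?_) fun g => ?_
    · obtain ⟨_, ⟨n, hn, rfl⟩, h⟩ := hW g hg
      obtain ⟨z, hz, h⟩ := (sm_iff (Nat.cast_ne_zero.mpr hp.ne_zero)).mp h
      obtain ⟨w0, hm, e2⟩ : ∃ w0 ∈ orb N α, g (s w0) = s (n (g α)) :=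
        ⟨_, mem_orb.mpr ⟨_, N.mul_mem (N.inv_mem (hc g hg)) (hN.conj_mem' n hn g), rfl⟩, by simp⟩
      have hi := fun u => hV _ (isIntegral_ev (hα.conj g).1 (((hα.conj g).conj n).conj s).1 u)
      refine ⟨_, V.mul_mem _ _ (sub_mem (mul_mem (pow_mem hz M) (hi Z)) (hi f)) (prod_mem
        (t := (orb N α).erase w0) fun w h => hV _ (isIntegral_ev (hα.conj g).1
          ((hw w (Finset.mem_of_mem_erase h)).conj g).1 F)), ?_⟩
      rw [e, ← Finset.mul_prod_erase _ _ hm, ← mul_assoc]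
      congr 1
      rw [e2, hF, map_sub, map_mul, map_mul, map_pow, map_pow, map_pow, h, map_natCast, mul_pow]
      ring
    · have h1 : (1 : ℝ) ≤ (p : ℝ) ^ M := one_le_pow₀ (by exact_mod_cast hp.one_le)
      have h2 : ∀ w ∈ orb N α, |ι (ev (g α) (g (s w)) F)| ^ (B * k) < (p : ℝ) ^ M := fun w h => by
        rw [hom_ev]
        exact hs _ _ (hα.2 g) ((hw w h).2 g)
      refine lt_of_pow_lt_pow_left₀ k (by positivity) ?_
      rw [e, map_prod, Finset.abs_prod, ← pow_mul, ← Finset.prod_pow]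
      refine (Finset.prod_lt_prod_of_nonempty (fun w h => pow_pos ?_ _) h2 ⟨α, hne⟩).trans_le ?_
      · rw [← e1]
        exact norm_va_pos ι (hn w h) g
      · rw [Finset.prod_const]
        exact pow_le_pow_right₀ h1 hk
  exact Finset.prod_ne_zero_iff.mpr hn h0

lemma orb_sub {N : Subgroup (L ≃ₐ[ℚ] L)} (y : L) (m : ℤ) :
    (orb N (m - y)).card ≤ (orb N y).card := by
  classical
  refine le_trans (Finset.card_le_card fun z hz => ?_) (Finset.card_image_le (f := ((m : L) - ·)))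
  exact Finset.mem_image.mpr ⟨m - z, mem_orb.mpr (by simpa using (mem_orb.mp hz).rho m), by simp⟩

lemma main_iter {N : Subgroup (L ≃ₐ[ℚ] L)} {V : ValuationSubring L} {p r q k : ℕ} {α : L} {m : ℤ}
    (hV : ∀ g : L ≃ₐ[ℚ] L, g α ∈ V) (hk : ∀ g : L ≃ₐ[ℚ] L, (orb N (g α)).card ≤ k)
    (h : ∀ g : L ≃ₐ[ℚ] L, ∃ g' : L ≃ₐ[ℚ] L, (Rl N (g α) (g' α) ∨ Rl N (m - g α) (g' α)) ∧
      Sm V p r (g' α - g α ^ q)) (g : L ≃ₐ[ℚ] L) :
    ∃ i < 2 * k + 2, ∃ l < 2 * k + 2, Sm V p r (g α ^ q ^ (i + l + 1) - g α ^ q ^ i) := by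
  classical
  choose z hz1 hz2 using h
  have key : ∀ i, (Rl N (g α) (z^[i] g α) ∨ Rl N (m - g α) (z^[i] g α)) ∧
      Sm V p r (z^[i + 1] g α - g α ^ q ^ (i + 1)) := by
    intro i
    induction i with
    | zero => exact ⟨Or.inl (Rl.refl _), by simpa using hz2 g⟩
    | succ i ih =>
      constructor
      · rw [Function.iterate_succ_apply']
        rcases ih.1 with h1 | h1 <;> rcases hz1 (z^[i] g) with h2 | h2
        · exact Or.inl (h1.trans h2)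
        · exact Or.inr ((h1.rho m).trans h2)
        · exact Or.inr (h1.trans h2)
        · exact Or.inl (Rl.trans (by simpa using h1.rho m) h2)
      · have := (hz2 (z^[i + 1] g)).add (ih.2.pow (hV _) (pow_mem (hV g) _) q)
        rwa [sub_add_sub_cancel, ← pow_mul, ← pow_succ, ← Function.iterate_succ_apply' z] at this
  obtain ⟨i, hi, j, hj, hij, e⟩ := Finset.exists_ne_map_eq_of_card_lt_of_maps_to
    (s := Finset.range (2 * k + 1)) (t := orb N (g α) ∪ orb N (m - g α))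
    (f := fun i => z^[i + 1] g α) (by
      have := Finset.card_union_le (orb N (g α)) (orb N (m - g α))
      have := orb_sub (N := N) (g α) m
      have := hk g
      rw [Finset.card_range]
      omega) fun i _ => by simpa [mem_orb] using (key (i + 1)).1
  wlog hlt : i < j generalizing i j
  · exact this j hj i hi hij.symm e.symm (by omega)
  rw [Finset.mem_range] at hi hj
  refine ⟨i + 1, by omega, j - i - 1, by omega, ?_⟩
  have := (key j).2.neg.add (key i).2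
  rwa [neg_sub, e, sub_add_sub_cancel, show j + 1 = i + 1 + (j - i - 1) + 1 by omega] at this

end

theorem main_core (c : ℝ) (B b k : ℕ) (hb : 0 < b) : ∃ ε : ℝ, 0 < ε ∧ ∃ D : ℕ,
    ∀ (L : Type) [Field L] [NumberField L] [IsGalois ℚ L] (A N : Subgroup (L ≃ₐ[ℚ] L)),
    N.Normal → A.index ≤ B → (∀ g ∈ A, ∀ h ∈ A, (g ^ b * h)⁻¹ * (h * g ^ b) ∈ N) →
    ∀ (ι : L →+* ℝ) (α : L), Cf c ε ι α → (orb N α).card ≤ k →
    (∀ τ : L ≃ₐ[ℚ] L, (∀ g : L ≃ₐ[ℚ] L, Rl N (g α) (τ (g α))) → τ ∈ N) → Big D α →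
    ¬ Far c ι α := by
  obtain ⟨p, r, q, hp, hq, hloc⟩ := local_rel B b k hb
  set n : ℤ := ⌊2 * c⌋ with hn
  obtain ⟨D1, hD1⟩ := main_deg ((X - C (X ^ q)) ^ r)
  obtain ⟨ε1, hε1, M1, -, F1, Z1, f1, h01, hF1, -, hs1⟩ :=
    main_aux c (B * k) D1 hp.two_le _ ((monic_X_sub_C _).pow r) hD1
  obtain ⟨D3, hD3⟩ := main_deg ((X - C X) ^ r)
  obtain ⟨ε3, hε3, M3, -, F3, Z3, f3, h03, hF3, -, hs3⟩ :=
    main_aux c (B * k) D3 hp.two_le _ ((monic_X_sub_C _).pow r) hD3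
  have hm : (∏ i ∈ Finset.range (2 * k + 2) ×ˢ Finset.range (2 * k + 2),
      (X ^ q ^ (i.1 + i.2 + 1) - X ^ q ^ i.1) : ℤ[X]).Monic := by
    refine monic_prod_of_monic _ _ fun i _ => (monic_X_pow _).sub_of_left ?_
    rw [degree_X_pow, degree_X_pow]
    exact_mod_cast Nat.pow_lt_pow_right hq (by omega)
  obtain ⟨ε2, hε2, M2, E2, F2, Z2, f2, h02, hF2, hd2, hs2⟩ :=
    main_aux c (B * 1) 0 hp.two_le _ ((hm.map C).pow r) fun j => by
      rw [← Polynomial.map_pow, coeff_map, natDegree_C]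
  obtain ⟨δ1, hδ1, K1, hr1⟩ := rig c h01
  obtain ⟨δ3, hδ3, K3, hr3⟩ := rig c h03
  refine ⟨min (min ε1 (min ε2 ε3)) (min δ1 δ3), by positivity, K1 + K3 + F2.natDegree, ?_⟩
  intro L _ _ _ A N hN hB hA ι α hα hk hfix hbig hfar
  have hk' : ∀ g : L ≃ₐ[ℚ] L, (orb N (g α)).card ≤ k := fun g => by
    rwa [orb_map, Finset.card_map]
  have blk : ∀ (s g : L ≃ₐ[ℚ] L), (∃ m ∈ N, (s * m) (g α) = g α ∨ g α + (s * m) (g α) = n) →
      ∀ w, Rl N (g α) w → Rl N (g α) (s w) ∨ Rl N (n - g α) (s w) := by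
    rintro s g ⟨m, hm, h⟩ w hw
    have h1 : Rl N ((s * m) (g α)) (s w) := (Rl.trans (Rl.symm ⟨m, hm, rfl⟩) hw).map s
    rcases h with h | h
    · exact Or.inl (h ▸ h1)
    · exact Or.inr (eq_sub_of_add_eq' h ▸ h1)
  obtain ⟨V, hV, h3, ⟨σ, hσ, h⟩ | ⟨τ, hτ, h1, ⟨j, hj⟩, h⟩⟩ := hloc L A N hN hB hA
  · have key := main_iter (q := q) (m := n) (fun g => hV _ (hα.conj g).1) hk' fun g => by
      have ha := hα.conj g
      obtain ⟨_, ⟨m, hm, rfl⟩, h2⟩ := h _ ha.1 (hk' g)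
      refine ⟨σ * m * g, blk σ g ?_ _ ⟨m, hm, rfl⟩, h2⟩
      refine (main_van hp hB hV h3 hF1 hs1 (ha.mono (by simp)) (hk' g) σ hσ fun g' _ => ?_).imp
        fun m hm => ⟨hm.1, hr1 L ι _ _ (ha.mono (by simp)) ((hbig.conj g).mono (by omega))
          (hfar.conj g) hm.2⟩
      simpa using h _ (ha.conj g').1 (hk' (g' * g))
    obtain ⟨m, hm, h0⟩ := main_van (N := ⊥) (k := 1) hp hB hV h3 hF2 hs2 (hα.mono (by simp))
      (Finset.card_le_one.mpr (by simp [mem_orb, Rl])) 1 (by simp) fun g _ => by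
        obtain ⟨i, hi, l, hl, h2⟩ := key g
        refine ⟨g α, Rl.refl _, ?_⟩
        rw [e2_map_C, eval₂_finsetProd, ← Finset.mul_prod_erase _ _
          (Finset.mk_mem_product (Finset.mem_range.mpr hi) (Finset.mem_range.mpr hl))]
        refine Sm.mul (by simpa using h2) (prod_mem fun i _ => ?_)
        simpa using sub_mem (pow_mem (hV _ (hα.conj g).1) _) (pow_mem (hV _ (hα.conj g).1) _)
    rw [Subgroup.mem_bot.mp hm, one_mul, AlgEquiv.one_apply] at h0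
    have hF : F2 = (F2.map (evalRingHom 0)).map C := by
      ext1 j
      rw [coeff_map, coeff_map, eq_C_of_natDegree_le_zero (p := F2.coeff j) (by simpa using hd2 j)]
      simp
    rw [hF, e2_map_C] at h0
    refine hbig _ (fun h => h02 (by rw [hF, h, Polynomial.map_zero])) ?_ h0
    have := natDegree_map_le (f := evalRingHom 0) (p := F2)
    omega
  · refine h1 (hfix τ fun g => ?_)
    have ha := hα.conj g
    refine (blk τ g ?_ _ (Rl.refl _)).elim id fun k1 => ?_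
    · refine (main_van hp hB hV h3 hF3 hs3 (ha.mono (by simp)) (hk' g) τ hτ fun g' _ => ?_).imp
        fun m hm => ⟨hm.1, hr3 L ι _ _ (ha.mono (by simp)) ((hbig.conj g).mono (by omega))
          (hfar.conj g) hm.2⟩
      simpa using h _ (ha.conj g').1 (hk' (g' * g))
    have k2 : Rl N (g α) ((τ ^ 2) (g α)) := by
      have h2 := k1.map τ
      rw [map_sub, map_intCast] at h2
      exact Rl.trans (by simpa using k1.rho n) h2
    have kj : ∀ i : ℕ, Rl N (g α) ((τ ^ (2 * i)) (g α)) := fun i => by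
      induction i with
      | zero => exact Rl.refl _
      | succ i ih =>
        rw [mul_add, mul_one, pow_add]
        exact ih.trans (k2.map _)
    refine Rl.trans ⟨_, hj, rfl⟩ ?_
    rw [pow_succ']
    exact ((kj j).map τ).symm

/-- Large degree is possible only inside an interval with integer centre satisfying `P`. -/
def Concl (c ε : ℝ) (B b k D : ℕ) (P : ℤ → Prop) : Prop :=
  ∀ (L : Type) [Field L] [NumberField L] [IsGalois ℚ L] (A N : Subgroup (L ≃ₐ[ℚ] L)),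
    N.Normal → A.index ≤ B → (∀ g ∈ A, ∀ h ∈ A, (g ^ b * h)⁻¹ * (h * g ^ b) ∈ N) →
    ∀ (ι : L →+* ℝ) (α : L), Cf c ε ι α → (orb N α).card ≤ k → Big D α →
    ∃ m : ℤ, P m ∧ ∀ g : L ≃ₐ[ℚ] L, |ι (g α) - m| ≤ 2

theorem main_big (c : ℝ) (B b k : ℕ) (hb : 0 < b) : ∃ ε : ℝ, 0 < ε ∧ ∃ D : ℕ,
    Concl c ε B b k D fun m => c = m := by
  obtain ⟨ε, hε, D, h⟩ := main_core c B b k hb
  refine ⟨ε, hε, D, fun L _ _ _ A N hN hB hA ι α hα hk hbig => ?_⟩
  by_contra hcon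
  let N' : Subgroup (L ≃ₐ[ℚ] L) :=
    { carrier := {τ | ∀ g : L ≃ₐ[ℚ] L, Rl N (g α) (τ (g α))}
      one_mem' := fun g => Rl.refl _
      mul_mem' := fun {s t} hs ht g => (ht g).trans (hs (t * g))
      inv_mem' := fun {s} hs g => Rl.symm (by simpa using hs (s⁻¹ * g)) }
  have h1 : ∀ (g : L ≃ₐ[ℚ] L) (z : L), Rl N' (g α) z → Rl N (g α) z := by
    rintro g _ ⟨n, hn, rfl⟩
    exact hn g
  refine h L A N' ⟨fun s hs t g => by simpa using (hs (t⁻¹ * g)).map t⟩ hB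
    (fun g hg g' hg' _ => ⟨_, hA g hg g' hg', rfl⟩) ι α hα
    ((Finset.card_le_card fun z hz => mem_orb.mpr (h1 1 z (mem_orb.mp hz))).trans hk)
    (fun τ hτ g => h1 g _ (hτ g)) hbig fun m hm => ?_
  by_contra h
  exact hcon ⟨m, hm, fun g => hm ▸ not_lt.mp fun h' => h ⟨g, h'⟩⟩

/-- The bounds are uniform in the centre. -/
theorem main_unif (B b k : ℕ) (hb : 0 < b) : ∃ ε : ℝ, 0 < ε ∧ ∃ D : ℕ, ∀ c : ℝ,
    Concl c ε B b k D fun _ => True := by
  classical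
  choose ε hε D h using fun c => main_big c B b k hb
  obtain ⟨t, -, ht⟩ := (isCompact_Icc (a := (0 : ℝ)) (b := 1)).elim_nhds_subcover
    (fun c => Metric.ball c (ε c / 2)) fun c _ => Metric.ball_mem_nhds c (half_pos (hε c))
  have hc : ∀ x ∈ Set.Icc (0 : ℝ) 1, ∃ c ∈ t, |x - c| < ε c / 2 := fun x hx => by
    simpa [Real.dist_eq] using ht hx
  obtain ⟨c1, hc1, -⟩ := hc 0 (by simp)
  obtain ⟨c0, -, hc0⟩ := t.exists_min_image ε ⟨c1, hc1⟩
  refine ⟨ε c0 / 2, half_pos (hε c0), t.sup D, fun c L _ _ _ A N hN hB hA ι α hα hk hbig => ?_⟩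
  obtain ⟨c', hc', hd⟩ := hc (c - ⌊c⌋) ⟨Int.fract_nonneg c, (Int.fract_lt_one c).le⟩
  have e : ∀ g : L ≃ₐ[ℚ] L, g (α - (⌊c⌋ : ℤ)) = g α - (⌊c⌋ : ℤ) := fun g => by simp
  obtain ⟨m, -, hm⟩ := h c' L A N hN hB hA ι (α - (⌊c⌋ : ℤ))
    ⟨hα.1.sub (isIntegral_algebraMap (x := ⌊c⌋)), fun g => by
      have h1 := abs_add_le (ι (g α) - c) (c - ⌊c⌋ - c')
      rw [e, map_sub, map_intCast]
      refine le_trans (le_of_eq ?_) (h1.trans (by linarith [hα.2 g, hc0 c' hc']))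
      congr 1
      ring⟩
    (le_trans (Finset.card_le_card fun z hz => by
      obtain ⟨n, hn, rfl⟩ := mem_orb.mp hz
      exact Finset.mem_image.mpr ⟨n α, mem_orb.mpr ⟨n, hn, rfl⟩, (e n).symm⟩)
      ((Finset.card_image_le (f := (· - ((⌊c⌋ : ℤ) : L)))).trans hk))
    (fun p hp hd h0 => hbig (p.comp (X - C ⌊c⌋)) (by
      rwa [Ne, sub_eq_add_neg, ← C_neg, comp_X_add_C_eq_zero_iff]) (by
      rw [natDegree_comp, natDegree_X_sub_C, mul_one]
      exact hd.trans (Finset.le_sup hc')) (by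
      rwa [eval₂_comp, eval₂_sub, eval₂_X, eval₂_C, eq_intCast]))
  refine ⟨m + ⌊c⌋, trivial, fun g => le_trans (le_of_eq ?_) (hm g)⟩
  rw [e, map_sub, map_intCast]
  congr 1
  push_cast
  ring

/-- Finitely many monic integer polynomials of bounded degree with bounded real roots. -/
lemma main_fin (D : ℕ) (b : ℝ) : {p : ℤ[X] | p.Monic ∧ p.natDegree ≤ D ∧
    (p.map (algebraMap ℤ ℝ)).roots.card = p.natDegree ∧
    ∀ x ∈ (p.map (algebraMap ℤ ℝ)).roots, |x| ≤ b}.Finite := by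
  obtain ⟨N, hN⟩ := exists_nat_ge (max b 1 ^ D * D.choose (D / 2))
  let π : ℤ[X] → Fin (D + 1) → ℤ := fun f i => f.coeff i
  refine ((Set.Finite.pi fun _ => Set.finite_Icc (-N : ℤ) N).subset ?_).of_finite_image
    (?_ : Set.InjOn π _)
  · rintro _ ⟨p, ⟨hm, hd, hs, hr⟩, rfl⟩ i -
    have hm' := hm.map (algebraMap ℤ ℝ)
    have := coeff_bdd_of_roots_le (B := b) (d := D) (RingHom.id ℝ) hm'
      (by rw [map_id, splits_iff_card_roots, hs, hm.natDegree_map])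
      (by rwa [hm.natDegree_map]) (by rwa [map_id]) i
    rw [map_id, coeff_map, Real.norm_eq_abs, eq_intCast] at this
    exact abs_le.mp (by exact_mod_cast this.trans hN)
  · exact fun x hx y hy hxy => (ext_iff_natDegree_le hx.2.1 hy.2.1).2 fun i hi =>
      congr_fun hxy ⟨i, Nat.lt_succ_of_le hi⟩

/-- A non-integer centre admits bounded degree only. -/
lemma main_non {c : ℝ} (hc : ∀ n : ℤ, c ≠ n) (B b k : ℕ) (hb : 0 < b) : ∃ D : ℕ,
    Concl c 0 B b k D fun _ => False := by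
  obtain ⟨ε, hε, D, h⟩ := main_big c B b k hb
  refine ⟨D, fun L _ _ _ A N hN hB hA ι α hα hk hbig => ?_⟩
  obtain ⟨m, hm, -⟩ := h L A N hN hB hA ι α (hα.mono hε.le) hk hbig
  exact (hc m hm).elim

lemma main_mid {c : ℝ} {k : ℤ} (h1 : k < c) (h2 : c < k + 1) (n : ℤ) : c ≠ n := by
  rintro rfl
  have h3 : k < n := by exact_mod_cast h1
  have h4 : n < k + 1 := by exact_mod_cast h2
  omega

end Pool.Agent.Lib.MP_1e748d_nt.Va
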