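import Pool.Agent.Lib.MP_1e748d_nt.Va.Defs

set_option autoImplicit false

namespace Pool.Agent.Lib.MP_1e748d_nt.Va

open Polynomial

/-- A subgroup with cyclic quotient in which `g0` has order `p ^ 2`. -/
lemma max_sub {G : Type} [CommGroup G] [Finite G] {p : ℕ} (hp : p.Prime) (hG : IsPGroup p G)
    {g0 : G} (h0 : g0 ^ p ≠ 1) : ∃ (H : Subgroup G) (g1 : G) (j : ℕ), g0 ^ p ∉ H ∧
      (g1 ^ p ^ j)⁻¹ * g0 ∈ H ∧ p ^ j * Nat.card H ≤ Nat.card G ∧
      Nat.card G ≤ p ^ 2 * (p ^ j * Nat.card H) := by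
  have : Fact p.Prime := ⟨hp⟩
  have : NeZero ((Monoid.exponent G : ℕ) : ℂ) :=
    ⟨Nat.cast_ne_zero.2 Monoid.exponent_ne_zero_of_finite⟩
  obtain ⟨χ, hχ⟩ := CommGroup.exists_apply_ne_one_of_hasEnoughRootsOfUnity G ℂ h0
  obtain ⟨k, hk1, hk2⟩ := Nat.exists_not_and_succ_of_not_zero_of_exists
    (p := fun k => χ g0 ^ p ^ (k + 1) = 1) (by simpa using hχ) (by
      obtain ⟨k, hk⟩ := hG g0
      exact ⟨k, by rw [pow_succ, pow_mul, ← map_pow, hk, map_one, one_pow]⟩)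
  obtain ⟨ψ, hψ⟩ : ∃ ψ : G →* ℂˣ, ∀ g, ψ g = χ g ^ p ^ k :=
    ⟨(powMonoidHom (p ^ k)).comp χ, fun _ => rfl⟩
  have h3 : ψ g0 ^ p ≠ 1 := by rwa [hψ, ← pow_mul, ← pow_succ]
  have h9 : ψ g0 ^ p ^ 2 = 1 := by
    rw [hψ, ← pow_mul, ← pow_add]
    exact hk2
  have : Finite ψ.range := Finite.of_surjective _ ψ.rangeRestrict_surjective
  obtain ⟨⟨_, γ, rfl⟩, hγ⟩ := IsCyclic.exists_monoid_generator (α := ψ.range)
  obtain ⟨n, hn⟩ := IsPGroup.iff_card.1 (hG.of_surjective _ ψ.rangeRestrict_surjective)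
  have ho : orderOf (ψ γ) = p ^ n := by
    rw [← hn, ← orderOf_eq_card_of_forall_mem_powers hγ, ← Subgroup.orderOf_coe]
  obtain ⟨m, hm⟩ := hγ ⟨ψ g0, g0, rfl⟩
  have hm' : ψ γ ^ m = ψ g0 := congrArg Subtype.val hm
  have hd : p ^ n ∣ m * p ^ 2 := by
    rw [← ho, orderOf_dvd_iff_pow_eq_one, pow_mul, hm', h9]
  have hc : Nat.card G = p ^ n * Nat.card ψ.ker := by
    rw [← hn, ← Subgroup.index_ker, Subgroup.index_mul_card]
  have hle : p ^ n ≤ p ^ 2 * p ^ (n - 2) := by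
    rw [← pow_add]
    exact Nat.pow_le_pow_right hp.pos (by omega)
  obtain ⟨m', rfl⟩ : p ^ (n - 2) ∣ m := by
    rcases le_or_gt 2 n with h2 | h2
    · obtain ⟨n, rfl⟩ := Nat.exists_eq_add_of_le' h2
      rw [pow_add] at hd
      exact Nat.dvd_of_mul_dvd_mul_right (pow_pos hp.pos 2) hd
    · rw [Nat.sub_eq_zero_of_le h2.le, pow_zero]
      exact one_dvd m
  refine ⟨ψ.ker, γ ^ m', n - 2, fun e => h3 ?_, ?_, ?_, ?_⟩
  · rw [← map_pow]
    exact e
  · rw [MonoidHom.mem_ker, map_mul, map_inv, ← pow_mul, map_pow, mul_comm m', hm', inv_mul_cancel]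
  · rw [hc]
    exact Nat.mul_le_mul_right _ (Nat.pow_le_pow_right hp.pos (Nat.sub_le n 2))
  · rw [hc, ← mul_assoc]
    exact Nat.mul_le_mul_right _ hle

lemma max_sg {G : Type} [Group G] (i : G → ℕ) (H : Subgroup G) [Fintype H] (g : G) :
    sg i H g = ∑ h : H, i (g * h) := finsum_eq_sum_of_fintype _

/-- The sum depends only on the coset. -/
lemma max_coset {G : Type} [Group G] [Finite G] (i : G → ℕ) {H : Subgroup G} {g g' : G}
    (h : g⁻¹ * g' ∈ H) : sg i H g' = sg i H g := by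
  have := Fintype.ofFinite H
  rw [max_sg, max_sg]
  refine Fintype.sum_equiv (Equiv.mulLeft (⟨_, h⟩ : H)) _ _ fun x => ?_
  simp [mul_assoc]

section
variable {G : Type} [CommGroup G] [Finite G] {Fil : ℕ → Subgroup G} {i : G → ℕ} {p e : ℕ}

lemma max_two (h : Shadow p G Fil i e) {H : Subgroup G} {g : G} (hg : g ∉ H) :
    2 * Nat.card H ≤ sg i H g := by
  have := Fintype.ofFinite H
  rw [max_sg, Nat.card_eq_fintype_card, mul_comm, ← Finset.card_univ, ← smul_eq_mul]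
  refine Finset.card_nsmul_le_sum _ _ _ fun x _ => (h.mem _ (fun e => hg ?_) 2).1 ?_
  · rw [eq_inv_of_mul_eq_one_left e]
    exact H.inv_mem x.2
  · rw [h.top]
    exact Subgroup.mem_top _

lemma max_grow (h : Shadow p G Fil i e) {H : Subgroup G} {g : G} (j : ℕ) (hg : g ^ p ^ j ∉ H)
    (hj : p ^ j * Nat.card H ≤ Nat.card G) :
    p ^ j * Nat.card H + Nat.card H ≤ sg i H (g ^ p ^ j) := by
  induction j with
  | zero =>
    have := max_two h hg
    rw [pow_zero] at this ⊢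
    omega
  | succ j ih =>
    rw [pow_succ, pow_mul] at hg ⊢
    rw [pow_succ, mul_right_comm] at hj
    have h1 := ih (fun e => hg (H.pow_mem e p))
      ((Nat.le_mul_of_pos_right _ h.prime.pos).trans hj)
    have h2 := h.card_le
    have h4 := Nat.mul_le_mul_left p h1
    rw [mul_add, mul_comm p] at h4
    rw [mul_right_comm]
    rcases h.pow H _ hg with h3 | h3 <;> omega

omit [Finite G] in
lemma max_term (h : Shadow p G Fil i e) {g0 x : G} (h1 : g0 ≠ 1) (h2 : g0 * x ≠ 1)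
    (h3 : g0 ^ p * x ≠ 1) (h4 : i (g0 ^ p * x) ≤ i g0) : i (g0 ^ p * x) ≤ i (g0 * x) := by
  have a1 := (h.mem g0 h1 _).2 h4
  have a2 := (h.mem _ h3 _).2 le_rfl
  refine (h.mem _ h2 _).1 (Subgroup.mul_mem _ a1 ?_)
  exact (Subgroup.mul_mem_cancel_left _ (Subgroup.pow_mem _ a1 p)).1 a2

end

/-- The last ramification break is large. -/
theorem brk {G : Type} [CommGroup G] [Finite G] {Fil : ℕ → Subgroup G} {i : G → ℕ} {p e : ℕ}
    (h : Shadow p G Fil i e) : (∀ g : G, g ^ p = 1) ∨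
      ∃ g : G, g ≠ 1 ∧ Nat.card G ≤ p ^ 2 * Nat.card {g : G // g ^ p = 1} * i g := by
  classical
  by_cases hc : ∀ g : G, g ^ p = 1
  · exact Or.inl hc
  right
  have := Fintype.ofFinite G
  obtain ⟨a, ha⟩ := not_forall.1 hc
  obtain ⟨g0, hg0, hmax⟩ := Finset.exists_max_image (Finset.univ.filter fun g : G => g ^ p ≠ 1) i
    ⟨a, Finset.mem_filter.2 ⟨Finset.mem_univ _, ha⟩⟩
  obtain ⟨gm, hgm, hm⟩ := Finset.exists_max_image (Finset.univ.filter fun g : G => g ≠ 1) i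
    ⟨a, Finset.mem_filter.2 ⟨Finset.mem_univ _, fun e => ha (by rw [e, one_pow])⟩⟩
  obtain ⟨H, g1, j, h1, h2, h3, h4⟩ := max_sub h.prime h.pgrp (Finset.mem_filter.1 hg0).2
  refine ⟨gm, (Finset.mem_filter.1 hgm).2, ?_⟩
  have h0 : g0 ∉ H := fun e => h1 (H.pow_mem e p)
  have h5 := max_grow h j (fun e => h0 ((H.mul_mem_cancel_left (H.inv_mem e)).1 h2)) h3
  rw [← max_coset i h2] at h5
  have hne : ∀ {g : G}, g ∉ H → ∀ x : H, g * x ≠ 1 := fun hg x e => hg (by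
    rw [eq_inv_of_mul_eq_one_left e]
    exact H.inv_mem x.2)
  have h6 : sg i H (g0 ^ p) ≤ sg i H g0 + Nat.card {g : G // g ^ p = 1} * i gm := by
    have h7 : (Finset.univ.filter fun x : H => (g0 ^ p * x) ^ p = 1).card ≤
        Nat.card {g : G // g ^ p = 1} := by
      rw [← Fintype.card_subtype, ← Nat.card_eq_fintype_card]
      refine Nat.card_le_card_of_injective (fun x => ⟨g0 ^ p * x.1, x.2⟩) fun x y e => ?_
      exact Subtype.ext (Subtype.ext (mul_left_cancel (congrArg Subtype.val e)))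
    refine le_trans ?_ (Nat.add_le_add_left (Nat.mul_le_mul_right _ h7) _)
    rw [max_sg, max_sg, ← smul_eq_mul, ← Finset.sum_const, Finset.sum_filter,
      ← Finset.sum_add_distrib]
    refine Finset.sum_le_sum fun x _ => ?_
    split_ifs with hx
    · exact le_add_left (hm _ (Finset.mem_filter.2 ⟨Finset.mem_univ _, hne h1 x⟩))
    · exact max_term h (fun e => h0 (e ▸ H.one_mem)) (hne h0 x) (hne h1 x)
        (hmax _ (Finset.mem_filter.2 ⟨Finset.mem_univ _, hx⟩))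
  have h8 := h.card_le
  rw [mul_assoc]
  rcases h.pow H g0 h1 with h9 | h9
  · refine h4.trans (Nat.mul_le_mul_left _ ?_)
    obtain ⟨q, hq⟩ := Nat.exists_eq_add_of_le h.prime.two_le
    have h10 := Nat.mul_le_mul_left q ((Nat.le_add_left _ _).trans h5)
    generalize p ^ j * Nat.card H = A at h5 ⊢
    generalize sg i H (g0 ^ p) = s at h6 h9
    generalize Nat.card {g : G // g ^ p = 1} * i gm = D at h6 ⊢
    rw [hq, add_mul, add_mul] at h9
    omega
  · exact le_trans (by omega) (Nat.le_mul_of_pos_left _ (pow_pos h.prime.pos 2))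

end Pool.Agent.Lib.MP_1e748d_nt.Va
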