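import Pool.Agent.Lib.MP_1e748d_nt.Va.Defs

set_option autoImplicit false

namespace Pool.Agent.Lib.MP_1e748d_nt.Va

open Polynomial

section

variable {G : Type} [CommGroup G] [Finite G] {Fil : ℕ → Subgroup G} {i : G → ℕ} {p e : ℕ}

omit [Finite G] in
lemma rank_cop (hp : p.Prime) {n : ℤ} (hn : ¬ (p : ℤ) ∣ n) (x : G) :
    ∃ u v : ℤ, x = (x ^ n) ^ u * (x ^ p) ^ v := by
  obtain ⟨v, u, h⟩ := (Nat.prime_iff_prime_int.1 hp).irreducible.coprime_iff_not_dvd.2 hn
  refine ⟨u, v, ?_⟩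
  rw [← zpow_natCast, ← zpow_mul, ← zpow_mul, ← zpow_add,
    show n * u + p * v = 1 by linear_combination h, zpow_one]

lemma rank_hyper (hp : p.Prime) {K : Subgroup G} (hK : ∀ x, x ^ p ∈ K) {g : G} (hg : g ∉ K) :
    ∃ H : Subgroup G, K ≤ H ∧ g ∉ H ∧
      Function.Bijective fun x : Fin p × H => g ^ (x.1 : ℕ) * (x.2 : G) := by
  obtain ⟨H, hKH, hH⟩ := Finite.exists_le_maximal (p := fun H : Subgroup G => g ∉ H) hg
  have h1 : g ∉ H := hH.prop
  have h3 : ∀ x, x ^ p ∈ H := fun x => hKH (hK x)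
  refine ⟨H, hKH, h1, ?_, fun x => ?_⟩
  · have key : ∀ (a d : ℕ) (u v : H), a + d < p → g ^ a * (u : G) = g ^ (a + d) * v → d = 0 := by
      intro a d u v had huv
      rw [pow_add, mul_assoc, mul_right_inj] at huv
      have h4 : g ^ (d : ℤ) ∈ H := by
        rw [zpow_natCast, ← H.mul_mem_cancel_right v.2, ← huv]
        exact u.2
      by_contra h5
      obtain ⟨s, t, h6⟩ := rank_cop hp (n := d) (fun h6 => Nat.not_dvd_of_pos_of_lt
        (Nat.pos_of_ne_zero h5) (by omega) (Int.natCast_dvd_natCast.1 h6)) g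
      exact h1 (h6 ▸ H.mul_mem (H.zpow_mem h4 s) (H.zpow_mem (h3 g) t))
    rintro ⟨a, u⟩ ⟨b, v⟩ huv
    have huv' : g ^ (a : ℕ) * (u : G) = g ^ (b : ℕ) * v := huv
    have hab : a = b := by
      apply Fin.ext
      rcases le_total (a : ℕ) b with h | h
      · obtain ⟨d, hd⟩ := Nat.exists_eq_add_of_le h
        have := key a d u v (hd ▸ b.2) (hd ▸ huv')
        omega
      · obtain ⟨d, hd⟩ := Nat.exists_eq_add_of_le h
        have := key b d v u (hd ▸ a.2) (hd ▸ huv'.symm)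
        omega
    subst hab
    rw [Subtype.ext (mul_left_cancel huv')]
  · by_cases hx : x ∈ H
    · exact ⟨(⟨0, hp.pos⟩, ⟨x, hx⟩), by simp⟩
    have h4 : g ∈ H ⊔ Subgroup.zpowers x := by
      by_contra h
      exact hx (hH.le_of_ge h le_sup_left (Subgroup.mem_sup_right (Subgroup.mem_zpowers x)))
    obtain ⟨y, hy, _, ⟨n, rfl⟩, hyn⟩ := Subgroup.mem_sup.1 h4
    have hyn' : x ^ n = y⁻¹ * g := eq_inv_mul_of_mul_eq hyn
    obtain ⟨u, v, h5⟩ := rank_cop hp (n := n) (by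
      rintro ⟨c, rfl⟩
      refine h1 ((H.mul_mem_cancel_left (H.inv_mem hy)).1 ?_)
      rw [← hyn', zpow_mul, zpow_natCast]
      exact H.zpow_mem (h3 x) c) x
    have hp0 : (0 : ℤ) < p := by exact_mod_cast hp.pos
    have h6 := Int.emod_nonneg u hp0.ne'
    have h7 := Int.emod_lt_of_pos u hp0
    refine ⟨(⟨(u % p).toNat, by omega⟩, ⟨(g ^ p) ^ (u / p) * (y⁻¹ ^ u * (x ^ p) ^ v),
      H.mul_mem (H.zpow_mem (h3 g) _) (H.mul_mem (H.zpow_mem (H.inv_mem hy) _)
        (H.zpow_mem (h3 x) _))⟩), ?_⟩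
    change g ^ (u % p).toNat * ((g ^ p) ^ (u / p) * (y⁻¹ ^ u * (x ^ p) ^ v)) = x
    rw [← mul_assoc, ← zpow_natCast g, ← zpow_natCast g, ← zpow_mul, ← zpow_add,
      Int.toNat_of_nonneg h6, Int.emod_add_mul_ediv, ← mul_assoc, ← mul_zpow, mul_comm g, ← hyn',
      ← h5]

omit [Finite G] in
lemma rank_sum [Fintype G] {H : Subgroup G} {g : G}
    (hb : Function.Bijective fun x : Fin p × H => g ^ (x.1 : ℕ) * (x.2 : G)) (m : G → ℕ)
    (hm : ∀ x, m (g * x) = m x) : ∑ x, m x = p * ∑ᶠ x : H, m (g * x) := by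
  classical
  have h1 : ∀ (a : ℕ) (x : G), m (g ^ a * x) = m x := by
    intro a
    induction a with
    | zero => simp
    | succ a ih => intro x; rw [pow_succ', mul_assoc, hm, ih]
  rw [← hb.sum_comp m, Fintype.sum_prod_type, finsum_eq_sum_of_fintype]
  simp only [h1, hm, Finset.sum_const, Finset.card_univ, Fintype.card_fin, smul_eq_mul]

omit [Finite G] in
lemma rank_anti (h : Shadow p G Fil i e) {j l : ℕ} (hjl : j ≤ l) : Fil l ≤ Fil j := by
  intro g hg
  by_cases h1 : g = 1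
  · exact h1 ▸ (Fil j).one_mem
  · exact (h.mem g h1 j).2 (hjl.trans ((h.mem g h1 l).1 hg))

open Classical in
/-- The truncated ramification number. -/
noncomputable def rank_m (Fil : ℕ → Subgroup G) (i : G → ℕ) (j : ℕ) (x : G) : ℕ :=
  if x ∈ Fil j then j else i x

omit [Finite G] in
lemma rank_lt [Fintype G] (h : Shadow p G Fil i e) (j : ℕ) :
    ∑ x, rank_m Fil i j x < ∑ x, rank_m Fil i (j + 1) x := by
  refine Finset.sum_lt_sum (fun x _ => ?_) ⟨1, Finset.mem_univ _, ?_⟩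
  · unfold rank_m
    split_ifs with h1 h2 h2
    · omega
    · exact (h.mem x (fun e => h2 (e ▸ Subgroup.one_mem _)) j).1 h1
    · exact absurd (rank_anti h (Nat.le_succ j) h2) h1
    · exact le_rfl
  · unfold rank_m
    rw [if_pos (Subgroup.one_mem _), if_pos (Subgroup.one_mem _)]
    omega

omit [Finite G] in
lemma rank_le (h : Shadow p G Fil i e) {j : ℕ} {g x : G} (hg : g ∈ Fil j) (hx : x ∉ Fil j) :
    i x ≤ i (g * x) := by
  have h1 : x ≠ 1 := fun e => hx (e ▸ Subgroup.one_mem _)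
  have h2 : g * x ≠ 1 := fun e => hx (((Fil j).mul_mem_cancel_left hg).1 (e ▸ Subgroup.one_mem _))
  have h3 : i x ≤ j := le_of_not_ge fun h4 => hx ((h.mem x h1 j).2 h4)
  exact (h.mem _ h2 _).1 ((Fil (i x)).mul_mem (rank_anti h h3 hg) ((h.mem x h1 _).2 le_rfl))

omit [Finite G] in
lemma rank_inv (h : Shadow p G Fil i e) {j : ℕ} {g : G} (hg : g ∈ Fil j) (x : G) :
    rank_m Fil i j (g * x) = rank_m Fil i j x := by
  unfold rank_m
  by_cases hx : x ∈ Fil j
  · rw [if_pos hx, if_pos ((Fil j).mul_mem hg hx)]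
  · have h1 : g * x ∉ Fil j := fun e => hx (((Fil j).mul_mem_cancel_left hg).1 e)
    rw [if_neg hx, if_neg h1]
    refine le_antisymm ?_ (rank_le h hg hx)
    have h2 := rank_le h ((Fil j).inv_mem hg) h1
    rwa [inv_mul_cancel_left] at h2

lemma rank_jump [Fintype G] (h : Shadow p G Fil i e) {K : Subgroup G} (hK : ∀ x, x ^ p ∈ K)
    {j : ℕ} (hj : Fil (j + 1) ≤ K) {g : G} (hg : g ∈ Fil j) (hgK : g ∉ K) :
    ∃ κ, ∑ x, rank_m Fil i j x = κ * Nat.card G ∧ κ * Nat.card G ≤ p * e + Nat.card G := by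
  obtain ⟨H, hKH, hgH, hb⟩ := rank_hyper h.prime hK hgK
  have h1 := rank_sum hb (rank_m Fil i j) (rank_inv h hg)
  have h2 : Nat.card G = p * Nat.card H := by
    rw [← Nat.card_eq_of_bijective _ hb, Nat.card_prod, Nat.card_eq_fintype_card, Fintype.card_fin]
  have h3 : ∑ᶠ x : H, rank_m Fil i j (g * x) = sg i H g := by
    refine finsum_congr fun x => ?_
    have h4 : g * x ∉ H := fun e => hgH ((H.mul_mem_cancel_right x.2).1 e)
    have h5 : g * x ≠ 1 := fun e => h4 (e ▸ H.one_mem)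
    unfold rank_m
    split_ifs with h6
    · have h7 := (h.mem _ h5 j).1 h6
      have h8 : ¬ j + 1 ≤ i (g * x) := fun e => h4 (hKH (hj ((h.mem _ h5 _).2 e)))
      omega
    · rfl
  obtain ⟨κ, hκ⟩ := h.dvd H g hgH
  have h4 := h.last H g hgH (hKH (hK g))
  have h5 : κ * Nat.card G = p * sg i H g := by
    rw [hκ, h2]
    ring
  refine ⟨κ, by rw [h1, h3, h5], ?_⟩
  rw [h5, h2, ← mul_add]
  exact Nat.mul_le_mul_left p h4

end

/-- The `p`-rank is bounded. -/
theorem rank {G : Type} [CommGroup G] [Finite G] {Fil : ℕ → Subgroup G} {i : G → ℕ}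
    {p e q β : ℕ} (h : Shadow p G Fil i e)
    (hq : ∀ j, j ≠ 0 → (Fil (j + 1)).relIndex (Fil j) ≤ q)
    (he : e ≤ β * Nat.card G) : Nat.card {g : G // g ^ p = 1} ≤ q ^ (1 + p * β) := by
  classical
  have := Fintype.ofFinite G
  obtain ⟨N, hN⟩ : ∃ N : Subgroup G, N = (powMonoidHom p : G →* G).range := ⟨_, rfl⟩
  have hN3 : ∀ j x, x ^ p ∈ Fil j ⊔ N := fun j x =>
    Subgroup.mem_sup_right (hN ▸ ⟨x, rfl⟩)
  have hcard : Nat.card {g : G // g ^ p = 1} = N.index := by
    rw [hN, Subgroup.index_range]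
    rfl
  have hG : 0 < Nat.card G := Nat.card_pos
  have hne : ∀ A B : Subgroup G, A.relIndex B ≠ 0 := fun A B => Subgroup.index_ne_zero_of_finite
  have hq1 : 0 < q := (Nat.pos_of_ne_zero (hne _ _)).trans_le (hq 1 one_ne_zero)
  have inv : ∀ j, ∃ t ≤ 1 + p * β, (Fil (j + 2) ⊔ N).index ≤ q ^ t ∧
      t * Nat.card G ≤ ∑ x, rank_m Fil i (j + 1) x := by
    intro j
    induction j with
    | zero => exact ⟨0, Nat.zero_le _, by simp [h.top], by simp⟩
    | succ j ih =>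
      obtain ⟨t, ht, h1, h2⟩ := ih
      have h3 := rank_lt h (j + 1)
      by_cases hj : Fil (j + 2) ≤ Fil (j + 1 + 2) ⊔ N
      · exact ⟨t, ht, (Subgroup.index_antitone (sup_le hj le_sup_right)).trans h1,
          h2.trans h3.le⟩
      · obtain ⟨g, hg, hgK⟩ := SetLike.not_le_iff_exists.1 hj
        obtain ⟨κ, h4, h5⟩ := rank_jump h (hN3 (j + 1 + 2)) (j := j + 2) le_sup_left hg hgK
        have h6 : t < κ := Nat.lt_of_mul_lt_mul_right (a := Nat.card G) (h4 ▸ h2.trans_lt h3)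
        have h7 : κ ≤ 1 + p * β := by
          refine Nat.le_of_mul_le_mul_right ?_ hG
          nlinarith [Nat.mul_le_mul_left p he]
        have h8 : Fil (j + 1 + 2) ≤ Fil (j + 2) := rank_anti h (by omega)
        have h9 : Fil (j + 2) ⊔ N = Fil (j + 2) ⊔ (Fil (j + 1 + 2) ⊔ N) := by
          rw [← sup_assoc, sup_eq_left.2 h8]
        refine ⟨t + 1, by omega, ?_, ?_⟩
        · rw [← Subgroup.relIndex_mul_index (sup_le_sup_right h8 N), pow_succ']
          refine Nat.mul_le_mul ?_ h1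
          rw [h9, Subgroup.relIndex_sup_right]
          exact (Subgroup.relIndex_le_of_le_left le_sup_left (hne _ _)).trans
            (hq (j + 2) (by omega))
        · rw [h4]
          exact Nat.mul_le_mul_right _ h6
  obtain ⟨t, ht, h1, -⟩ := inv (Finset.univ.sup i)
  have h2 : Fil (Finset.univ.sup i + 2) ≤ N := by
    intro g hg
    by_cases h3 : g = 1
    · exact h3 ▸ N.one_mem
    · have h4 := (h.mem g h3 _).1 hg
      have h5 := Finset.le_sup (f := i) (Finset.mem_univ g)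
      omega
  rw [sup_eq_right.2 h2] at h1
  exact hcard ▸ h1.trans (Nat.pow_le_pow_right hq1 ht)

end Pool.Agent.Lib.MP_1e748d_nt.Va
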