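import Pool.Agent.Lib.MP_1e748d_nt.Va.Tei

set_option autoImplicit false

namespace Pool.Agent.Lib.MP_1e748d_nt.Va

open Polynomial

section
variable {R : Type} [CommRing R] [IsDomain R] [IsDiscreteValuationRing R] {π : R} {p : ℕ}
  {G : Type} [Group G] [MulSemiringAction G R]

/-- The tame character. -/
lemma tame_chi (h : Res p π) : ∃ χ : fil G π 1 →* R ⧸ Ideal.span {π},
    ∀ g : fil G π 1, χ g = 1 → (g : G) ∈ fil G π 2 := by
  have hu : ∀ g : fil G π 1, ∃ u : R, (g : G) • π = π * u := fun g => by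
    have h1 : π ∣ (g : G) • π - π := by simpa using g.2 π
    have := dvd_add h1 (dvd_refl π)
    rwa [sub_add_cancel] at this
  choose u hu using hu
  have h0 := h.irr.ne_zero
  refine ⟨⟨⟨fun g => Ideal.Quotient.mk _ (u g), ?_⟩, fun g g' => ?_⟩, fun g hg => ?_⟩
  · have := hu 1
    rw [OneMemClass.coe_one, one_smul] at this
    have e : u 1 = 1 := mul_left_cancel₀ h0 (by rw [← this, mul_one])
    rw [e, map_one]
  · have e : u (g * g') = u g * (g : G) • u g' := mul_left_cancel₀ h0 (by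
      rw [← hu, Subgroup.coe_mul, mul_smul, hu g', smul_mul', hu g, mul_assoc])
    have e2 : Ideal.Quotient.mk (Ideal.span {π}) ((g : G) • u g') = Ideal.Quotient.mk _ (u g') := by
      rw [Ideal.Quotient.eq, Ideal.mem_span_singleton]
      simpa using g.2 (u g')
    change Ideal.Quotient.mk _ (u (g * g')) = Ideal.Quotient.mk _ (u g) * Ideal.Quotient.mk _ (u g')
    rw [e, map_mul, e2]
  · have h1 : π ∣ u g - 1 := by
      rw [← Ideal.mem_span_singleton, ← Ideal.Quotient.eq, map_one]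
      exact hg
    refine tei h g.2 ?_
    rw [hu g, ← mul_sub_one, pow_two]
    exact mul_dvd_mul_left π h1

lemma tame_wild [Finite G] [FaithfulSMul G R] (h : Res p π) {b : ℕ} (hb : ¬ p ∣ b)
    (Z : Subgroup G) (hZ : ∀ g : G, g ^ b ∈ Z) {g : G} (hg : g ∈ fil G π 2) : g ∈ Z := by
  have : Fact p.Prime := ⟨h.prime⟩
  obtain ⟨k, hk⟩ := IsPGroup.iff_orderOf.1 (p3 (A := G) h) ⟨g, hg⟩
  rw [Subgroup.orderOf_mk] at hk
  have hc : b.Coprime (orderOf g) := by
    rw [hk]
    exact ((h.prime.coprime_iff_not_dvd.2 hb).symm).pow_right k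
  obtain ⟨m, hm⟩ := exists_pow_eq_self_of_coprime hc
  rw [← hm]
  exact pow_mem (hZ g) m

end

/-- Tame inertia is cyclic: a subgroup containing all `b`-th powers, `b` prime to `p`, has index
at most `b` in the inertia group. -/
theorem tame {R : Type} [CommRing R] [IsDomain R] [IsDiscreteValuationRing R] {π : R} {p : ℕ}
    {G : Type} [Group G] [Finite G] [MulSemiringAction G R] [FaithfulSMul G R] (h : Res p π)
    {b : ℕ} (hb : ¬ p ∣ b) (Z : Subgroup G) (hZ : ∀ g : G, g ^ b ∈ Z) :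
    Nat.card (fil G π 1) ≤ b * Nat.card (fil Z π 1) := by
  obtain ⟨χ, hχ⟩ := tame_chi (G := G) h
  have : (Ideal.span {π}).IsPrime := (Ideal.span_singleton_prime h.irr.ne_zero).2 h.irr.prime
  have hb0 : 0 < b := Nat.pos_of_ne_zero fun e => hb (e ▸ dvd_zero p)
  have : Finite χ.toHomUnits.range := Finite.of_surjective _ χ.toHomUnits.rangeRestrict_surjective
  obtain ⟨⟨_, g0, rfl⟩, hy⟩ := IsCyclic.exists_monoid_generator (α := χ.toHomUnits.range)
  let f : Fin b × fil Z π 1 → fil G π 1 := fun q =>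
    g0 ^ (q.1 : ℕ) * ⟨((q.2 : Z) : G), fun x => q.2.2 x⟩
  have hf : Function.Surjective f := by
    intro g
    obtain ⟨n, hn⟩ := hy ⟨_, g, rfl⟩
    have h1 : χ.toHomUnits (g0 ^ n) = χ.toHomUnits g := by
      rw [map_pow]
      exact congrArg Subtype.val hn
    have h2 : χ ((g0 ^ n)⁻¹ * g) = 1 := by
      have : χ.toHomUnits ((g0 ^ n)⁻¹ * g) = 1 := by rw [map_mul, map_inv, h1, inv_mul_cancel]
      exact congrArg Units.val this
    have h3 := tame_wild h hb Z hZ (hχ _ h2)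
    set z : fil G π 1 := (g0 ^ (n / b)) ^ b * ((g0 ^ n)⁻¹ * g) with hz
    have h4 : (z : G) ∈ Z := mul_mem (hZ ((g0 ^ (n / b) : fil G π 1) : G)) h3
    refine ⟨(⟨n % b, Nat.mod_lt _ hb0⟩, ⟨⟨z, h4⟩, fun x => z.2 x⟩), ?_⟩
    change g0 ^ (n % b) * z = g
    rw [hz, ← mul_assoc, ← pow_mul, ← pow_add, Nat.mod_add_div', mul_inv_cancel_left]
  have := Nat.card_le_card_of_surjective f hf
  rwa [Nat.card_prod, Nat.card_eq_fintype_card (α := Fin b), Fintype.card_fin] at this

end Pool.Agent.Lib.MP_1e748d_nt.Va
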