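import Pool.Agent.Lib.MP_1e748d_nt.Va.Sha
import Pool.Agent.Lib.MP_1e748d_nt.Va.Idx
import Pool.Agent.Lib.MP_1e748d_nt.Va.Rank
import Pool.Agent.Lib.MP_1e748d_nt.Va.Max
import Pool.Agent.Lib.MP_1e748d_nt.Va.Tame

set_option autoImplicit false

namespace Pool.Agent.Lib.MP_1e748d_nt.Va

open Polynomial

lemma out_anti {R A : Type} [CommRing R] [Group A] [MulSemiringAction A R] (π : R) {i j : ℕ}
    (h : i ≤ j) : fil A π j ≤ fil A π i :=
  fun _ hg x => (pow_dvd_pow π h).trans (hg x)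

lemma out_sub {R A : Type} [CommRing R] [Group A] [MulSemiringAction A R] (π : R)
    (K : Subgroup A) (j : ℕ) : fil K π j = (fil A π j).subgroupOf K :=
  Subgroup.ext fun _ => Iff.rfl

lemma out_card {A : Type} [Group A] {H K : Subgroup A} (h : H ≤ K) :
    Nat.card K = H.relIndex K * Nat.card H := by
  rw [Subgroup.relIndex, ← Nat.card_congr (Subgroup.subgroupOfEquivOfLe h).toEquiv,
    Subgroup.index_mul_card]

lemma out_comm (p q B : ℕ) (hp : p ≠ 2) (hq : 2 ≤ q) : ∃ r : ℕ, 0 < r ∧ ∀ (R : Type) [CommRing R] [IsDomain R]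
    [IsDiscreteValuationRing R] (A : Type) [CommGroup A] [Finite A] [MulSemiringAction A R]
    [FaithfulSMul A R] (π : R) (_ : Res p π) (σ : A) (_ : ∀ x : R, π ∣ σ • x - x ^ q) (e : ℕ)
    (_ : Associated (π ^ e) (p : R)) (_ : e ≤ B * Nat.card (fil A π 1)),
    e ≤ r ∨ ∃ τ : A, τ ≠ 1 ∧ Odd (orderOf τ) ∧ ∀ x : R, (p : R) ∣ (τ • x - x) ^ r := by
  refine ⟨p ^ 2 * (B * q) * q ^ (1 + p * (B * q)) + 1, Nat.succ_pos _, ?_⟩
  intro R _ _ _ A _ _ _ _ π hπ σ hσ e he hB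
  have hw : fil (fil A π 2) π 2 = ⊤ := by rw [out_sub, Subgroup.subgroupOf_self]
  have hS := shadow hπ (p3 (A := A) hπ) hw he
  have hi : ∀ j, j ≠ 0 → (fil (fil A π 2) π (j + 1)).relIndex (fil (fil A π 2) π j) ≤ q := by
    intro j hj
    rcases Nat.lt_or_ge j 2 with h | h
    · obtain rfl : j = 1 := by omega
      rw [hw, Subgroup.relIndex_top_left]
      omega
    · rw [out_sub, out_sub, Subgroup.relIndex_subgroupOf (out_anti π h)]
      exact idx hπ σ hq hσ hj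
  have hβ : e ≤ B * q * Nat.card (fil A π 2) := by
    rw [out_card (out_anti (A := A) π one_le_two)] at hB
    rw [mul_assoc]
    exact hB.trans (Nat.mul_le_mul_left B (Nat.mul_le_mul_right _ (idx hπ σ hq hσ one_ne_zero)))
  have hr := rank hS hi hβ
  rcases brk hS with h | ⟨g, hg, h⟩
  · left
    rw [Nat.card_congr (Equiv.subtypeUnivEquiv h)] at hr
    have h1 := hβ.trans (Nat.mul_le_mul_left _ hr)
    have h2 : 0 < p ^ 2 := pow_pos hπ.prime.pos 2
    rw [mul_assoc (p ^ 2)]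
    exact (h1.trans (Nat.le_mul_of_pos_left _ h2)).trans (Nat.le_succ _)
  · refine Or.inr ⟨g, fun h1 => hg (Subtype.ext h1), ?_, fun x => ?_⟩
    · have : Fact p.Prime := ⟨hπ.prime⟩
      obtain ⟨k, hk⟩ := IsPGroup.iff_orderOf.1 hS.pgrp g
      rw [Subgroup.orderOf_coe, hk]
      exact (hπ.prime.odd_of_ne_two hp).pow
    · have h1 : π ^ iv π g ∣ (g : A) • x - x := (hS.mem g hg _).2 le_rfl x
      have h2 : e ≤ iv π g * (p ^ 2 * (B * q) * q ^ (1 + p * (B * q)) + 1) := by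
        have h3 := hβ.trans (Nat.mul_le_mul_left _
          (h.trans (Nat.mul_le_mul_right _ (Nat.mul_le_mul_left (p ^ 2) hr))))
        nlinarith
      refine he.symm.dvd.trans ((pow_dvd_pow π h2).trans ?_)
      rw [pow_mul]
      exact pow_dvd_pow_of_dvd h1 _

/-- The local alternative in a discrete valuation ring. -/
theorem abs_out (p q B b : ℕ) (hp : p ≠ 2) (hq : 2 ≤ q) (hb : ¬ p ∣ b) : ∃ r : ℕ, 0 < r ∧
    ∀ (R : Type) [CommRing R] [IsDomain R] [IsDiscreteValuationRing R] (G : Type) [Group G]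
      [Finite G] [MulSemiringAction G R] [FaithfulSMul G R] (π : R) (_ : Res p π)
      (Z : Subgroup G) (_ : ∀ g ∈ Z, ∀ h ∈ Z, g * h = h * g) (_ : ∀ g : G, g ^ b ∈ Z)
      (σ : G) (_ : σ ∈ Z) (_ : ∀ x : R, π ∣ σ • x - x ^ q) (e : ℕ)
      (_ : Associated (π ^ e) (p : R)) (_ : e ≤ B * Nat.card (fil G π 1)),
      e ≤ r ∨ ∃ τ ∈ Z, τ ≠ 1 ∧ Odd (orderOf τ) ∧ ∀ x : R, (p : R) ∣ (τ • x - x) ^ r := by
  obtain ⟨r, hr, h⟩ := out_comm p q (B * b) hp hq
  refine ⟨r, hr, ?_⟩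
  intro R _ _ _ G _ _ _ _ π hπ Z hZ hZb σ hσ hσq e he hB
  let : CommGroup Z := { (inferInstance : Group Z) with
    mul_comm := fun g h => Subtype.ext (hZ g g.2 h h.2) }
  refine (h R Z π hπ ⟨σ, hσ⟩ hσq e he ?_).imp_right ?_
  · rw [mul_assoc]
    exact hB.trans (Nat.mul_le_mul_left B (tame hπ hb Z hZb))
  · rintro ⟨τ, h1, h2, h3⟩
    exact ⟨τ, τ.2, fun h4 => h1 (Subtype.ext h4), by rwa [Subgroup.orderOf_coe], h3⟩

end Pool.Agent.Lib.MP_1e748d_nt.Va
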