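import Pool.Agent.Lib.MP_1e748d_nt.Va.Defs

set_option autoImplicit false

namespace Pool.Agent.Lib.MP_1e748d_nt.Va

open Polynomial

lemma ph_rnd {A B : Type} [CommRing A] [CommRing B] (φ : B →+* A) (m : ℕ → A[X])
    (hm : ∀ k, (m k).coeff k = 1) (hm' : ∀ k j, k < j → (m k).coeff j = 0) (P : AddSubgroup A)
    (P' : AddSubgroup B) (hP : ∀ e ∈ P, ∀ k j, e * (m k).coeff j ∈ P) (T : A → Prop)
    (hT : ∀ t ∈ P, ∃ n ∈ P', ∃ e ∈ P, T e ∧ t = φ n + e) (N : ℕ) :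
    ∀ W : A[X], W.degree < N → (∀ j, W.coeff j ∈ P) → ∃ f : B[X], f.degree < N ∧
      (∀ j, f.coeff j ∈ P') ∧ ∃ η : ℕ → A, (∀ b < N, T (η b)) ∧
        W = f.map φ + ∑ b ∈ Finset.range N, C (η b) * m b := by
  induction N with
  | zero =>
    intro W hW _
    refine ⟨0, by simp, fun j => by simp, fun _ => 0, fun b hb => absurd hb (by omega), ?_⟩
    have : W = 0 := by
      ext j
      exact coeff_eq_zero_of_degree_lt (hW.trans_le (by exact_mod_cast Nat.zero_le j))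
    simp [this]
  | succ N ih =>
    intro W hW hc
    obtain ⟨n, hn, e, he, h1, h2⟩ := hT _ (hc N)
    obtain ⟨f, f1, f2, η, f3, f4⟩ := ih (W - monomial N (φ n) - C e * m N) (by
      refine (degree_lt_iff_coeff_zero _ _).2 fun j hj => ?_
      rw [coeff_sub, coeff_sub, coeff_C_mul, coeff_monomial]
      rcases hj.eq_or_lt with rfl | hj
      · rw [if_pos rfl, hm, h2]
        ring
      · rw [if_neg hj.ne, hm' _ _ hj, (degree_lt_iff_coeff_zero _ _).1 hW j hj]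
        ring) (by
      intro j
      rw [coeff_sub, coeff_sub, coeff_C_mul, coeff_monomial]
      refine sub_mem (sub_mem (hc j) ?_) (hP e he _ _)
      split_ifs
      · rw [eq_sub_of_add_eq h2.symm]
        exact sub_mem (hc N) he
      · exact zero_mem _)
    refine ⟨f + monomial N n, ?_, fun j => ?_, Function.update η N e, fun b hb => ?_, ?_⟩
    · refine (degree_lt_iff_coeff_zero _ _).2 fun j hj => ?_
      rw [coeff_add, coeff_monomial, if_neg (by omega),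
        (degree_lt_iff_coeff_zero _ _).1 f1 j (by omega), add_zero]
    · rw [coeff_add, coeff_monomial]
      refine add_mem (f2 j) ?_
      split_ifs
      exacts [hn, zero_mem _]
    · by_cases hb' : b = N
      · rwa [hb', Function.update_self]
      · rw [Function.update_of_ne hb']
        exact f3 b (by omega)
    · rw [Finset.sum_range_succ, Function.update_self, Polynomial.map_add, map_monomial,
        Finset.sum_congr rfl fun b hb => by
          rw [Function.update_of_ne (Finset.mem_range.1 hb).ne]]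
      linear_combination f4

lemma ph_self (c : ℝ) (k : ℕ) : (mo c k).coeff k = 1 := by
  have := (mo_monic c k).coeff_natDegree
  rwa [natDegree_mo] at this

lemma ph_lt (c : ℝ) (k j : ℕ) (h : k < j) : (mo c k).coeff j = 0 :=
  coeff_eq_zero_of_natDegree_lt (by rwa [natDegree_mo])

lemma ph_one (c : ℝ) (N : ℕ) (W : ℝ[X]) (hW : W.degree < N) : ∃ f : ℤ[X], f.degree < N ∧
    ∃ ε : ℕ → ℝ, (∀ a < N, 0 ≤ ε a ∧ ε a < 1) ∧
      W = f.map (Int.castRingHom ℝ) + ∑ a ∈ Finset.range N, C (ε a) * mo c a := by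
  obtain ⟨f, h1, -, h2⟩ := ph_rnd (Int.castRingHom ℝ) (mo c) (ph_self c) (ph_lt c) ⊤ ⊤
    (fun _ _ _ _ => trivial) (fun e => 0 ≤ e ∧ e < 1) (fun t _ => ⟨⌊t⌋, trivial, Int.fract t,
      trivial, ⟨Int.fract_nonneg t, Int.fract_lt_one t⟩, (Int.floor_add_fract t).symm⟩) N W hW
    fun _ => trivial
  exact ⟨f, h1, h2⟩

lemma ph_step (c : ℝ) (N1 : ℕ) : ∀ t ∈ (degreeLT ℝ N1).toAddSubgroup,
    ∃ n ∈ (degreeLT ℤ N1).toAddSubgroup, ∃ e ∈ (degreeLT ℝ N1).toAddSubgroup,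
      (∃ ε : ℕ → ℝ, (∀ a < N1, 0 ≤ ε a ∧ ε a < 1) ∧
        e = ∑ a ∈ Finset.range N1, C (ε a) * mo c a) ∧
      t = mapRingHom (Int.castRingHom ℝ) n + e := by
  intro t ht
  have ht' : t ∈ degreeLT ℝ N1 := ht
  obtain ⟨f, h1, ε, h2, h3⟩ := ph_one c N1 t (mem_degreeLT.1 ht')
  have h4 : f ∈ degreeLT ℤ N1 := mem_degreeLT.2 h1
  have h5 : f.map (Int.castRingHom ℝ) ∈ degreeLT ℝ N1 :=
    mem_degreeLT.2 (degree_map_le.trans_lt h1)
  have h6 := sub_mem ht' h5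
  rw [sub_eq_of_eq_add' h3] at h6
  exact ⟨f, h4, _, h6, ⟨ε, h2, rfl⟩, h3⟩

lemma ph_mem (c : ℝ) (N1 : ℕ) : ∀ e ∈ (degreeLT ℝ N1).toAddSubgroup, ∀ k j,
    e * ((mo c k).map C).coeff j ∈ (degreeLT ℝ N1).toAddSubgroup := by
  intro e he k j
  rw [coeff_map, mul_comm, ← smul_eq_C_mul]
  exact (degreeLT ℝ N1).smul_mem _ he

lemma ph_two (c : ℝ) (N1 N2 : ℕ) (W : ℝ[X][X]) (hW : Box N1 N2 W) : ∃ f : ℤ[X][X], Box N1 N2 f ∧
    ∃ ε : ℕ → ℕ → ℝ, (∀ b < N2, ∀ a < N1, 0 ≤ ε b a ∧ ε b a < 1) ∧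
      W = toR f + ∑ b ∈ Finset.range N2,
        C (∑ a ∈ Finset.range N1, C (ε b a) * mo c a) * (mo c b).map C := by
  have h0 : ∀ j, W.coeff j ∈ degreeLT ℝ N1 := fun j => mem_degreeLT.2 (hW.2 j)
  obtain ⟨f, h1, h2, η, h3, h4⟩ := ph_rnd (mapRingHom (Int.castRingHom ℝ))
    (fun k => (mo c k).map C) (fun k => by rw [coeff_map, ph_self, map_one])
    (fun k j h => by rw [coeff_map, ph_lt c k j h, map_zero]) _ _ (ph_mem c N1) _
    (ph_step c N1) N2 W hW.1 h0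
  have h2' : ∀ j, f.coeff j ∈ degreeLT ℤ N1 := h2
  choose! ε h5 h6 using h3
  refine ⟨f, ⟨h1, fun j => mem_degreeLT.1 (h2' j)⟩, ε, h5, h4.trans ?_⟩
  exact congrArg (toR f + ·)
    (Finset.sum_congr rfl fun b hb => by rw [← h6 b (Finset.mem_range.1 hb)])

lemma ph_close {Q : ℕ} (hQ : 0 < Q) {s t : ℝ} (hs : 0 ≤ s) (ht : 0 ≤ t)
    (h : ⌊Q * s⌋₊ = ⌊Q * t⌋₊) : |s - t| ≤ 1 / Q := by
  have h0 : (0 : ℝ) < Q := by exact_mod_cast hQ
  have a1 := Nat.floor_le (mul_nonneg h0.le hs)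
  have a2 := Nat.floor_le (mul_nonneg h0.le ht)
  have a3 := Nat.lt_floor_add_one (Q * s)
  have a4 := Nat.lt_floor_add_one (Q * t)
  rw [h] at a1 a3
  rw [le_div_iff₀ h0, ← abs_of_pos h0, ← abs_mul, abs_le]
  constructor <;> nlinarith

/-- Pigeonhole with rounding in the basis `mo c a (x) * mo c b (u)`. -/
theorem ph (c : ℝ) (N1 N2 Q : ℕ) (hQ : 0 < Q) {ι : Type} (S : Finset ι) (W : ι → ℝ[X][X])
    (hW : ∀ z ∈ S, Box N1 N2 (W z)) (hS : Q ^ (N1 * N2) < S.card) :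
    ∃ z ∈ S, ∃ z' ∈ S, z ≠ z' ∧ ∃ f : ℤ[X][X], Box N1 N2 f ∧ ∀ x ∈ II c, ∀ u : ℂ,
      ‖evR x u (W z) - evR x u (W z') - ev (x : ℂ) u f‖ ≤
        2 * N1 / Q * ∑ b ∈ Finset.range N2, ‖(mo c b).eval₂ Complex.ofRealHom u‖ := by
  classical
  choose! f h1 ε h2 h3 using fun z hz => ph_two c N1 N2 (W z) (hW z hz)
  have h0 : (0 : ℝ) < Q := by exact_mod_cast hQ
  obtain ⟨z, hz, z', hz', hne, e⟩ := Finset.exists_ne_map_eq_of_card_lt_of_maps_to
    (t := Fintype.piFinset fun _ : Fin N1 × Fin N2 => Finset.range Q) (s := S)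
    (f := fun z k => ⌊Q * ε z k.2 k.1⌋₊) (by simpa using hS) (by
      intro z hz
      refine Fintype.mem_piFinset.2 fun k => Finset.mem_range.2 ?_
      obtain ⟨a1, a2⟩ := h2 z hz _ k.2.2 _ k.1.2
      rw [Nat.floor_lt (mul_nonneg h0.le a1)]
      nlinarith)
  refine ⟨z, hz, z', hz', hne, f z - f z',
    ⟨(degree_sub_le _ _).trans_lt (max_lt (h1 z hz).1 (h1 z' hz').1), fun j => ?_⟩,
    fun x hx u => ?_⟩
  · rw [coeff_sub]
    exact (degree_sub_le _ _).trans_lt (max_lt ((h1 z hz).2 j) ((h1 z' hz').2 j))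
  have h4 : evR x u (W z) - evR x u (W z') - ev (x : ℂ) u (f z - f z') =
      ∑ b ∈ Finset.range N2, ((∑ a ∈ Finset.range N1,
        (ε z b a - ε z' b a) * (mo c a).eval x : ℝ) : ℂ) * (mo c b).eval₂ Complex.ofRealHom u := by
    have k : ∀ p : ℝ[X], p.eval₂ Complex.ofRealHom (x : ℂ) = ((p.eval x : ℝ) : ℂ) := fun p =>
      eval₂_at_apply Complex.ofRealHom x
    rw [h3 z hz, h3 z' hz']
    simp only [map_add, map_sub, map_sum, map_mul, evR_toR, e2_map_C, e2_C, k, eval_C, sub_mul,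
      Finset.sum_sub_distrib, Complex.ofReal_sub, Complex.ofReal_sum, Complex.ofReal_mul]
    ring
  rw [h4, Finset.mul_sum]
  refine (norm_sum_le _ _).trans (Finset.sum_le_sum fun b hb => ?_)
  rw [norm_mul, Complex.norm_real, Real.norm_eq_abs]
  refine mul_le_mul_of_nonneg_right ((Finset.abs_sum_le_sum_abs _ _).trans ?_) (norm_nonneg _)
  refine (Finset.sum_le_card_nsmul _ _ (1 / (Q : ℝ) * 2) fun a ha => ?_).trans_eq ?_
  · have ha' := Finset.mem_range.1 ha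
    have hb' := Finset.mem_range.1 hb
    rw [abs_mul]
    exact mul_le_mul (ph_close hQ (h2 z hz b hb' a ha').1 (h2 z' hz' b hb' a ha').1
      (congrFun e (⟨a, ha'⟩, ⟨b, hb'⟩))) (abs_mo_le hx a) (abs_nonneg _) (by positivity)
  · rw [Finset.card_range, nsmul_eq_mul]
    ring

end Pool.Agent.Lib.MP_1e748d_nt.Va
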