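import Pool.Agent.Lib.MP_1e748d_nt.Va.Top
import Pool.Agent.Lib.MP_1e748d_nt.Va.Ce

set_option autoImplicit false

namespace Pool.Agent.Lib.MP_1e748d_nt.Va

open Polynomial

lemma pk_swap (s : Multiset ℝ) (n : ℕ) (g : ℕ → ℝ) :
    ∑ i ∈ Finset.range n, g i * (s.map (· ^ i)).sum =
      (s.map fun y => ∑ i ∈ Finset.range n, g i * y ^ i).sum := by
  induction s using Multiset.induction_on with
  | empty => simp
  | cons y s ih => simp only [Multiset.map_cons, Multiset.sum_cons, mul_add,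
      Finset.sum_add_distrib, ih]

lemma pk_abs (s : Multiset ℝ) (g : ℝ → ℝ) (h : ∀ y ∈ s, |g y| ≤ 2) :
    |(s.map g).sum| ≤ 2 * (s.card : ℝ) := by
  induction s using Multiset.induction_on with
  | empty => simp
  | cons y s ih =>
    have h1 := ih fun z hz => h z (Multiset.mem_cons_of_mem hz)
    have h2 := h y (Multiset.mem_cons_self _ _)
    have h3 := abs_add_le (g y) (s.map g).sum
    rw [Multiset.map_cons, Multiset.sum_cons, Multiset.card_cons]
    push_cast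
    linarith

lemma pk_real {c : ℝ} {Φ : ℤ[X][X]} (hΦ : Φ.Monic) (hC : Crit c Φ) {x : ℝ} (hx : x ∈ II c) :
    ((rts Φ x).map Complex.re).map Complex.ofReal = rts Φ x := by
  rw [Multiset.map_map]
  conv_rhs => rw [← Multiset.map_id (rts Φ x)]
  refine Multiset.map_congr rfl fun z hz => ?_
  obtain ⟨y, -, rfl⟩ := hC x hx z ((mem_rts hΦ).1 hz)
  simp

lemma pk_ps {c : ℝ} {Φ : ℤ[X][X]} (hΦ : Φ.Monic) (hC : Crit c Φ) {p : ℕ → ℤ[X]} (hp : IsPs Φ p)
    {x : ℝ} (hx : x ∈ II c) (i : ℕ) :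
    (p i).eval₂ (Int.castRingHom ℝ) x = (((rts Φ x).map Complex.re).map (· ^ i)).sum := by
  apply Complex.ofReal_injective
  have h1 := hom_eval₂ (p i) (Int.castRingHom ℝ) Complex.ofRealHom x
  rw [RingHom.ext_int (RingHom.comp _ _) (Int.castRingHom ℂ)] at h1
  have h2 := map_multiset_sum Complex.ofRealHom (((rts Φ x).map Complex.re).map (· ^ i))
  refine h1.trans (Eq.trans ?_ h2.symm)
  refine (hp i x).trans ?_
  conv_lhs => rw [← pk_real hΦ hC hx]
  simp only [Multiset.map_map]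
  exact congrArg Multiset.sum (Multiset.map_congr rfl fun z _ => by simp)

/-- The Chebyshev sums of a critical curve and its top form. -/
theorem core {c : ℝ} {Φ : ℤ[X][X]} (hΦ : Φ.Monic) (hC : Crit c Φ) {a b : ℕ} (ha : 0 < a)
    (hb : 0 < b) (hab : ∀ i, b * (Φ.coeff i).natDegree ≤ a * (Φ.natDegree - i)) :
    ∃ (E : ℤ[X]) (T : ℕ) (p : ℕ → ℤ[X]) (P : ℕ → ℝ[X]) (ys : ℝ → Multiset ℝ),
      E.Monic ∧ E.natDegree = Φ.natDegree ∧
      (∀ i n, i ≤ Φ.natDegree → b * n = a * (Φ.natDegree - i) → E.coeff i = (Φ.coeff i).coeff n) ∧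
      0 < T ∧ (∀ z ∈ (E.map (Int.castRingHom ℂ)).roots, z ≠ 0 → z ^ T = 1) ∧
      (∀ K, b * (p K).natDegree ≤ a * K ∧ ∀ n, b * n = a * K →
        (((p K).coeff n : ℤ) : ℂ) = ((E.map (Int.castRingHom ℂ)).roots.map (· ^ K)).sum) ∧
      (∀ K n, (P K).coeff n = ∑ i ∈ Finset.range (K + 1), (ch c K).coeff i * (p i).coeff n) ∧
      (∀ k, 0 < k → (P (k * b)).natDegree ≤ k * a ∧
        (P (k * b)).coeff (k * a) = (p (k * b)).coeff (k * a)) ∧
      (∀ x ∈ II c, (ys x).card = Φ.natDegree ∧ (∀ y ∈ ys x, y ∈ II c) ∧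
        (∀ y : ℝ, y ∈ ys x ↔ ev x y Φ = 0) ∧
        ∀ K, (P K).eval x = ((ys x).map fun y => (ch c K).eval y).sum) := by
  obtain ⟨p, hp⟩ := exists_ps hΦ
  obtain ⟨E, hE1, hE2, hE3, hE4⟩ := top hΦ hb hab hp
  obtain ⟨P, hP⟩ : ∃ P : ℕ → ℝ[X], ∀ K, P K =
      ∑ i ∈ Finset.range (K + 1), C ((ch c K).coeff i) * (p i).map (Int.castRingHom ℝ) :=
    ⟨_, fun _ => rfl⟩
  have h1 : ∀ K n, (P K).coeff n =
      ∑ i ∈ Finset.range (K + 1), (ch c K).coeff i * (p i).coeff n := fun K n => by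
    simp only [hP, finsetSum_coeff, coeff_C_mul, coeff_map, eq_intCast]
  have h2 : ∀ k, 0 < k → (P (k * b)).natDegree ≤ k * a ∧
      (P (k * b)).coeff (k * a) = (p (k * b)).coeff (k * a) := fun k hk => by
    constructor
    · refine natDegree_le_iff_coeff_eq_zero.2 fun N hN => ?_
      rw [h1]
      refine Finset.sum_eq_zero fun i hi => ?_
      have h3 : b * (p i).natDegree ≤ b * (k * a) := by
        refine (hE4 i).1.trans ((Nat.mul_le_mul_left a
          (Nat.lt_succ_iff.1 (Finset.mem_range.1 hi))).trans (le_of_eq ?_))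
        ring
      rw [coeff_eq_zero_of_natDegree_lt ((Nat.le_of_mul_le_mul_left h3 hb).trans_lt hN),
        Int.cast_zero, mul_zero]
    · rw [h1, Finset.sum_range_succ, ch_coeff_self c (Nat.mul_pos hk hb).ne', one_mul,
        Finset.sum_eq_zero, zero_add]
      intro i hi
      have h3 : b * (p i).natDegree < b * (k * a) := by
        refine (hE4 i).1.trans_lt ((Nat.mul_lt_mul_of_pos_left (Finset.mem_range.1 hi)
          ha).trans_le (le_of_eq ?_))
        ring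
      rw [coeff_eq_zero_of_natDegree_lt (Nat.lt_of_mul_lt_mul_left h3), Int.cast_zero, mul_zero]
  have h3 : ∀ x ∈ II c, ((rts Φ x).map Complex.re).card = Φ.natDegree ∧
      (∀ y ∈ (rts Φ x).map Complex.re, y ∈ II c) ∧
      (∀ y : ℝ, y ∈ (rts Φ x).map Complex.re ↔ ev x y Φ = 0) ∧
      ∀ K, (P K).eval x = (((rts Φ x).map Complex.re).map fun y => (ch c K).eval y).sum := by
    intro x hx
    refine ⟨by rw [Multiset.card_map, card_rts hΦ], fun y hy => ?_, fun y => ?_, fun K => ?_⟩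
    · obtain ⟨z, hz, rfl⟩ := Multiset.mem_map.1 hy
      obtain ⟨w, hw, rfl⟩ := hC x hx z ((mem_rts hΦ).1 hz)
      exact hw
    · rw [← Multiset.mem_map_of_injective Complex.ofReal_injective, pk_real hΦ hC hx,
        mem_rts hΦ, ← ofReal_ev, Complex.ofReal_eq_zero]
    · simp only [hP, eval_finsetSum, eval_mul, eval_C, eval_map, pk_ps hΦ hC hp hx, pk_swap,
        eval_eq_sum_range' (Nat.lt_succ_of_le (natDegree_ch_le c K))]
  obtain ⟨T, hT, hT'⟩ := kron E hE1 hb (Φ.natDegree : ℝ) fun k hk => by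
    have h4 := ce1 (c := c) (μ := Φ.natDegree) (Nat.mul_pos hk ha).ne' (h2 k hk).1 fun x hx => by
      obtain ⟨e1, e2, -, e4⟩ := h3 x hx
      rw [e4, ← e1]
      exact pk_abs _ _ fun y hy => abs_ch_le (e2 y hy) _
    rw [mul_comm b k, ← (hE4 (k * b)).2 (k * a) (by ring), Complex.norm_intCast, ← (h2 k hk).2]
    exact h4
  exact ⟨E, T, p, P, fun x => (rts Φ x).map Complex.re, hE1, hE2, hE3, hT, hT', hE4, h1, h2, h3⟩

end Pool.Agent.Lib.MP_1e748d_nt.Va
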