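import Pool.Agent.Lib.MP_1e748d_nt.Va.Her

set_option autoImplicit false

namespace Pool.Agent.Lib.MP_1e748d_nt.Va

open Polynomial

variable {R : Type} [CommRing R] [IsDomain R] [IsDiscreteValuationRing R] {π : R} {p : ℕ}
variable {G : Type} [CommGroup G] [Finite G] [MulSemiringAction G R] [FaithfulSMul G R]

omit [IsDomain R] [IsDiscreteValuationRing R] [Finite G] [FaithfulSMul G R] in
lemma sha_fil_one (hw : fil G π 2 = ⊤) (g : G) : g ∈ fil G π 1 := fun x =>
  (pow_dvd_pow π (by norm_num)).trans (mem_fil.1 (hw ▸ Subgroup.mem_top g : g ∈ fil G π 2) x)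

omit [IsDomain R] [IsDiscreteValuationRing R] [Finite G] [FaithfulSMul G R] in
lemma sha_fixed {H : Subgroup G} (g : G) {x : R} (hx : ∀ k ∈ H, k • x = x) :
    ∀ k ∈ H, k • (g • x - x) = g • x - x := fun k hk => by
  rw [smul_sub, ← mul_smul, mul_comm, mul_smul, hx k hk]

omit [IsDomain R] [IsDiscreteValuationRing R] [Finite G] [FaithfulSMul G R] in
lemma sha_nat (g : G) (m : ℕ) : g • (m : R) = m := map_natCast (MulSemiringAction.toRingHom G R g) m

/-- The iterated differences. -/
def sha_y (g : G) (w : R) : ℕ → R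
  | 0 => w
  | k + 1 => g • sha_y g w k - sha_y g w k

omit [IsDomain R] [IsDiscreteValuationRing R] [Finite G] [FaithfulSMul G R] in
lemma sha_sum (g : G) (w : R) (m : ℕ) :
    g ^ m • w = ∑ k ∈ Finset.range (m + 1), (m.choose k : R) * sha_y g w k := by
  induction m with
  | zero => simp [sha_y]
  | succ m ih =>
    rw [Finset.sum_choose_succ_mul (fun k _ => sha_y g w k) m, pow_succ', mul_smul, ih,
      Finset.smul_sum, ← Finset.sum_add_distrib]
    refine Finset.sum_congr rfl fun k _ => ?_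
    rw [smul_mul', sha_nat, sha_y]
    ring

lemma sha_le (h : Res p π) (hG : IsPGroup p G) (hw : fil G π 2 = ⊤) (H : Subgroup G) {g : G}
    (hg : g ∉ H) : Nat.card H ≤ sg (iv π) H g := by
  refine (her h hG hw H hg _).1 (eh h hG hw H (sha_fixed g (nm_fixed H)) ?_)
  simpa using mem_fil.1 (sha_fil_one hw g) (nm π H)

/-- The expansion of the `p`-th power. -/
lemma sha_diff (h : Res p π) (hG : IsPGroup p G) (hw : fil G π 2 = ⊤) (H : Subgroup G) {g : G}
    (hg : g ∉ H) : ∃ (s : ℕ) (y z : R), sg (iv π) H g = Nat.card H + s ∧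
      π ^ (Nat.card H + s) ∣ g • nm π H - nm π H ∧ (p : R) * π ^ (Nat.card H + s + s) ∣ y ∧
      π ^ (Nat.card H + p * s) ∣ z ∧
      g ^ p • nm π H - nm π H = z + y + p * (g • nm π H - nm π H) := by
  obtain ⟨s, hs⟩ := Nat.exists_eq_add_of_le (sha_le h hG hw H hg)
  have h1 : π ^ (Nat.card H + s) ∣ g • nm π H - nm π H := (her h hG hw H hg _).2 hs.ge
  have h2 : ∀ k, (∀ t ∈ H, t • sha_y g (nm π H) k = sha_y g (nm π H) k) ∧
      π ^ (Nat.card H + k * s) ∣ sha_y g (nm π H) k := by
    intro k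
    induction k with
    | zero =>
      rw [zero_mul, add_zero]
      exact ⟨nm_fixed H, (nm_assoc h.irr H).symm.dvd⟩
    | succ k ih =>
      rw [add_mul, one_mul, ← add_assoc]
      exact ⟨sha_fixed g ih.1, th h hG hw H g h1 ih.1 ih.2⟩
  obtain ⟨m, hm⟩ := Nat.exists_eq_add_of_le' h.prime.two_le
  refine ⟨s, ∑ k ∈ Finset.range m, (p.choose (k + 1 + 1) : R) * sha_y g (nm π H) (k + 1 + 1),
    sha_y g (nm π H) p, hs, h1, Finset.dvd_sum fun k hk => mul_dvd_mul ?_ ?_, (h2 p).2, ?_⟩
  · have := Finset.mem_range.1 hk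
    exact Nat.cast_dvd_cast (h.prime.dvd_choose_self (by omega) (by omega))
  · refine (pow_dvd_pow π ?_).trans (h2 _).2
    rw [add_mul, add_mul, one_mul]
    omega
  · rw [sha_sum, Finset.sum_range_succ, Nat.choose_self]
    have e : Finset.range p = Finset.range (m + 1 + 1) := by rw [hm]
    rw [e, Finset.sum_range_succ', Finset.sum_range_succ']
    simp only [sha_y, zero_add, Nat.choose_one_right, Nat.choose_zero_right, Nat.cast_one]
    ring

theorem shadow (h : Res p π) (hG : IsPGroup p G) (hw : fil G π 2 = ⊤) {e : ℕ}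
    (he : Associated (π ^ e) (p : R)) : Shadow p G (fil G π) (iv π) e := by
  have h0 := h.irr.ne_zero
  have hu := h.irr.not_isUnit
  refine ⟨h.prime, hG, hw, fun g hg j => mem_fil_iff h (sha_fil_one hw g) hg j, ?_,
    fun H g hg => ?_, fun H g hg => ?_, fun H g hg hg3 => ?_⟩
  · have h1 := eh h hG hw ⊤ (x := (p : R)) (fun g _ => sha_nat g p) h.dvd
    rw [Subgroup.card_top] at h1
    exact (pow_dvd_pow_iff h0 hu).1 (h1.trans he.symm.dvd)
  · have hy : g • nm π H - nm π H ≠ 0 := fun e0 => by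
      have := (her h hG hw H hg (sg (iv π) H g + 1)).1 (e0 ▸ dvd_zero _)
      omega
    obtain ⟨k, u, hu1, -, hk⟩ := ehd h hG hw H (sha_fixed g (nm_fixed H)) hy
    have ha : Associated (g • nm π H - nm π H) (π ^ (Nat.card H * k)) := by
      rw [hk, pow_mul]
      exact (associated_mul_unit_left _ _ hu1).trans (nm_assoc h.irr H).pow_pow
    have h1 := (her h hG hw H hg _).1 ha.symm.dvd
    have h2 := (pow_dvd_pow_iff h0 hu).1 (((her h hG hw H hg _).2 le_rfl).trans ha.dvd)
    exact ⟨k, le_antisymm h2 h1⟩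
  · have hg1 : g ∉ H := fun hm => hg (H.pow_mem hm p)
    obtain ⟨s, y, z, hs, h1, h2, h3, h4⟩ := sha_diff h hG hw H hg1
    have h5 : π ^ min (Nat.card H + p * s) (e + (Nat.card H + s)) ∣
        g ^ p • nm π H - nm π H := by
      rw [h4]
      refine dvd_add (dvd_add ((pow_dvd_pow π (min_le_left _ _)).trans h3) ?_) ?_
      · refine (pow_dvd_pow π (min_le_right _ _)).trans ?_
        rw [pow_add]
        exact (mul_dvd_mul he.dvd (pow_dvd_pow π (Nat.le_add_right _ _))).trans h2
      · refine (pow_dvd_pow π (min_le_right _ _)).trans ?_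
        rw [pow_add]
        exact mul_dvd_mul he.dvd h1
    have h6 := (her h hG hw H hg _).1 h5
    rw [hs, mul_add]
    omega
  · obtain ⟨s, y, z, hs, h1, h2, h3, h4⟩ := sha_diff h hG hw H hg
    by_contra hc
    rw [nm_fixed H _ hg3, sub_self] at h4
    have h8 : 2 * s ≤ p * s := Nat.mul_le_mul_right s h.prime.two_le
    have h5 : π ^ e * π ^ (Nat.card H + s + 1) ∣ p * (g • nm π H - nm π H) := by
      rw [show p * (g • nm π H - nm π H) = -(z + y) by linear_combination -h4, dvd_neg]
      refine dvd_add ?_ ((mul_dvd_mul he.dvd (pow_dvd_pow π (by omega))).trans h2)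
      rw [← pow_add]
      exact (pow_dvd_pow π (by omega)).trans h3
    have h6 : π ^ (Nat.card H + s + 1) ∣ g • nm π H - nm π H :=
      (mul_dvd_mul_iff_left (pow_ne_zero e h0)).1
        (h5.trans (mul_dvd_mul_right he.symm.dvd _))
    have h7 := (her h hG hw H hg _).1 h6
    omega

end Pool.Agent.Lib.MP_1e748d_nt.Va
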