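import Pool.Agent.Lib.MP_1e748d_nt.Va.Defs

set_option autoImplicit false

namespace Pool.Agent.Lib.MP_1e748d_nt.Va

open Polynomial

variable {R : Type} [CommRing R] [IsDomain R] [IsDiscreteValuationRing R] {π : R}
  {p : ℕ}

lemma tei_pow (hp : p.Prime) (h3 : π ∣ (p : R)) {u v : R} (h : π ∣ u - v) (n : ℕ) :
    π ^ (n + 1) ∣ u ^ p ^ n - v ^ p ^ n := by
  induction n with
  | zero => simpa using h
  | succ n ih =>
    obtain ⟨r, hr⟩ := exists_add_pow_prime_eq hp (v ^ p ^ n) (u ^ p ^ n - v ^ p ^ n)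
    rw [add_sub_cancel, ← pow_mul, ← pow_mul, ← pow_succ] at hr
    rw [hr, add_assoc (v ^ p ^ (n + 1)), add_sub_cancel_left]
    refine dvd_add ((pow_dvd_pow π ?_).trans (pow_mul π (n + 1) p ▸ pow_dvd_pow_of_dvd ih p)) ?_
    · nlinarith [hp.two_le]
    · rw [pow_succ' π (n + 1)]
      exact (mul_dvd_mul (h3.mul_right _) ih).mul_right r

lemma tei_lift {f : ℕ} (hf : ∀ x : R, π ∣ x ^ p ^ f - x) (x : R) (n : ℕ) :
    π ∣ x ^ p ^ (f * n) - x := by
  induction n with
  | zero => simp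
  | succ n ih =>
    have := dvd_add (hf (x ^ p ^ (f * n))) ih
    rwa [sub_add_sub_cancel, ← pow_mul, ← pow_add, ← Nat.mul_succ] at this

/-- For inertia elements the uniformizer decides the ramification level. -/
theorem tei {G : Type} [Group G] [MulSemiringAction G R] (h : Res p π) {g : G}
    (hg : g ∈ fil G π 1) {j : ℕ} (hj : π ^ j ∣ g • π - π) : g ∈ fil G π j := by
  obtain ⟨f, hf0, hf⟩ := h.frob
  suffices H : ∀ k ≤ j, ∀ x : R, π ^ k ∣ g • x - x from H j le_rfl
  intro k
  induction k with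
  | zero => simp
  | succ k ih =>
    intro hk x
    obtain ⟨c, hc⟩ := tei_lift hf x j
    have h1 := tei_pow h.prime h.dvd (by simpa using hg x : π ∣ g • x - x) (f * j)
    rw [← smul_pow'] at h1
    have h2 : π ^ (k + 1) ∣ g • x ^ p ^ (f * j) - x ^ p ^ (f * j) :=
      (pow_dvd_pow π (by nlinarith)).trans h1
    have h3 : π ^ (k + 1) ∣ (g • π - π) * g • c := ((pow_dvd_pow π hk).trans hj).mul_right _
    have h4 : π ^ (k + 1) ∣ π * (g • c - c) := by
      rw [pow_succ']
      exact mul_dvd_mul_left π (ih (by omega) c)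
    have hx : x = x ^ p ^ (f * j) - π * c := by rw [← hc]; ring
    have e : g • x - x = g • x ^ p ^ (f * j) - x ^ p ^ (f * j) -
        ((g • π - π) * g • c + π * (g • c - c)) := by
      conv_lhs => rw [hx]
      rw [smul_sub, smul_mul']; ring
    rw [e]
    exact dvd_sub h2 (dvd_add h3 h4)

theorem smul_ne {G : Type} [Group G] [MulSemiringAction G R] [FaithfulSMul G R] (h : Res p π)
    {g : G} (hg : g ∈ fil G π 1) (h1 : g ≠ 1) : g • π ≠ π := by
  intro e
  refine h1 (FaithfulSMul.eq_of_smul_eq_smul (α := R) fun x => ?_)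
  rw [one_smul, ← sub_eq_zero]
  by_contra hx
  obtain ⟨n, hn⟩ := FiniteMultiplicity.of_not_isUnit h.irr.not_isUnit hx
  exact hn (tei h hg (by rw [e, sub_self]; exact dvd_zero _) x)

theorem mem_fil_iff {G : Type} [Group G] [MulSemiringAction G R] [FaithfulSMul G R] (h : Res p π)
    {g : G} (hg : g ∈ fil G π 1) (h1 : g ≠ 1) (j : ℕ) : g ∈ fil G π j ↔ j ≤ iv π g := by
  have hf := FiniteMultiplicity.of_not_isUnit h.irr.not_isUnit (sub_ne_zero.2 (smul_ne h hg h1))
  rw [iv, ← hf.pow_dvd_iff_le_multiplicity]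
  exact ⟨fun H => H π, tei h hg⟩

lemma tei_step {G : Type} [Group G] [MulSemiringAction G R] {g : G} (hg : g ∈ fil G π 2) (m : ℕ) :
    ∀ x : R, π ^ m ∣ x → π ^ (m + 1) ∣ g • x - x := by
  induction m with
  | zero => exact fun x _ => (pow_dvd_pow π (by omega)).trans (hg x)
  | succ m ih =>
    intro x hx
    rw [pow_succ'] at hx
    obtain ⟨c, rfl⟩ := hx
    have h1 := ih (π ^ m * c) (dvd_mul_right _ _)
    have h2 : π ^ m ∣ g • (π ^ m * c) := by
      have := dvd_add ((pow_dvd_pow π m.le_succ).trans h1) (dvd_mul_right (π ^ m) c)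
      rwa [sub_add_cancel] at this
    have e : g • (π * π ^ m * c) - π * π ^ m * c = (g • π - π) * g • (π ^ m * c) +
        π * (g • (π ^ m * c) - π ^ m * c) := by
      rw [mul_assoc, smul_mul']; ring
    rw [e]
    refine dvd_add ?_ ?_
    · rw [show m + 1 + 1 = 2 + m by ring, pow_add]
      exact mul_dvd_mul (hg π) h2
    · rw [pow_succ' π (m + 1)]
      exact mul_dvd_mul_left π h1

/-- Wild inertia is a `p`-group. -/
theorem p3 {A : Type} [Group A] [Finite A] [MulSemiringAction A R] [FaithfulSMul A R]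
    (h : Res p π) : IsPGroup p (fil A π 2) := by
  have : Fact p.Prime := ⟨h.prime⟩
  refine IsPGroup.iff_orderOf.2 fun g => ⟨_, Nat.eq_prime_pow_of_unique_prime_dvd
    (orderOf_pos g).ne' fun {l} hl hlg => ?_⟩
  have ho := orderOf_pow_orderOf_div (orderOf_pos g).ne' hlg
  obtain ⟨u, hu, ho⟩ : ∃ u : A, u ∈ fil A π 2 ∧ orderOf u = l :=
    ⟨_, (g ^ (orderOf g / l)).2, by rw [Subgroup.orderOf_coe, ho]⟩
  have hu1 : u ≠ 1 := by
    rintro rfl
    rw [orderOf_one] at ho
    exact hl.one_lt.ne ho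
  have hu' : u ∈ fil A π 1 := fun x => (pow_dvd_pow π one_le_two).trans (hu x)
  have hf := FiniteMultiplicity.of_not_isUnit h.irr.not_isUnit (sub_ne_zero.2 (smul_ne h hu' hu1))
  set i := multiplicity π (u • π - π)
  have hi : π ^ i ∣ u • π - π := pow_multiplicity_dvd _ _
  have key : ∀ k : ℕ, π ^ (i + 1) ∣ u ^ k • π - π - k * (u • π - π) := by
    intro k
    induction k with
    | zero => simp
    | succ k ih =>
      have e : u ^ (k + 1) • π - π - (k + 1 : ℕ) * (u • π - π) =
          u ^ k • π - π - k * (u • π - π) + (u ^ k • (u • π - π) - (u • π - π)) := by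
        rw [pow_succ, mul_smul, smul_sub]; push_cast; ring
      rw [e]
      exact dvd_add ih (tei_step (pow_mem hu k) i _ hi)
  have h1 := key l
  rw [← ho, pow_orderOf_eq_one, one_smul, sub_self, zero_sub, dvd_neg, ho] at h1
  obtain ⟨d, hd⟩ := hi
  have h2 : π ∣ (l : R) * d := by
    rw [hd, pow_succ, mul_left_comm] at h1
    exact (mul_dvd_mul_iff_left (pow_ne_zero i h.irr.ne_zero)).1 h1
  rcases h.irr.prime.dvd_or_dvd h2 with h3 | h3
  · by_contra hne
    have hc : IsCoprime (l : R) (p : R) :=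
      ((Nat.coprime_primes hl h.prime).2 hne).cast
    exact h.irr.not_isUnit (hc.isUnit_of_dvd' h3 h.dvd)
  · refine absurd ?_ (hf.not_pow_dvd_of_multiplicity_lt (Nat.lt_succ_self i))
    rw [hd, pow_succ]
    exact mul_dvd_mul_left _ h3

end Pool.Agent.Lib.MP_1e748d_nt.Va
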