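import Pool.Agent.Lib.MP_1e748d_nt.Va.Char

set_option autoImplicit false

namespace Pool.Agent.Lib.MP_1e748d_nt.Va

open Polynomial

lemma top_refl {τ : ℂ} (hτ : τ ≠ 0) {N : ℕ} {f : ℤ[X]} (hf : f.natDegree ≤ N) :
    (reflect N f).eval₂ (Int.castRingHom ℂ) τ = τ ^ N * f.eval₂ (Int.castRingHom ℂ) τ⁻¹ := by
  let _ : Invertible τ⁻¹ := invertibleOfNonzero (inv_ne_zero hτ)
  have h := eval₂_reflect_mul_pow (Int.castRingHom ℂ) τ⁻¹ N f hf
  rw [invOf_eq_inv, inv_inv] at h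
  rw [← h, mul_left_comm, ← mul_pow, mul_inv_cancel₀ hτ, one_pow, mul_one]

lemma top_expand (b : ℕ) (f : ℤ[X]) (x : ℂ) :
    (expand ℤ b f).eval₂ (Int.castRingHom ℂ) x = f.eval₂ (Int.castRingHom ℂ) (x ^ b) := by
  rw [expand_eq_comp_X_pow, eval₂_comp, eval₂_X_pow]

/-- The weighted homogenisation. -/
noncomputable def top_pt (Φ : ℤ[X][X]) (a b : ℕ) : ℤ[X][X] :=
  ∑ i ∈ Finset.range (Φ.natDegree + 1),
    monomial i (reflect (a * (Φ.natDegree - i)) (expand ℤ b (Φ.coeff i)))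

lemma top_coeff (Φ : ℤ[X][X]) (a b i : ℕ) : (top_pt Φ a b).coeff i =
    reflect (a * (Φ.natDegree - i)) (expand ℤ b (Φ.coeff i)) := by
  rw [top_pt, finsetSum_coeff]
  simp only [coeff_monomial, Finset.sum_ite_eq', Finset.mem_range]
  split_ifs with h
  · rfl
  · rw [coeff_eq_zero_of_natDegree_lt (by omega), map_zero, reflect_zero]

lemma top_monic {Φ : ℤ[X][X]} (hΦ : Φ.Monic) (a b : ℕ) :
    (top_pt Φ a b).Monic ∧ (top_pt Φ a b).natDegree = Φ.natDegree := by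
  have h1 : (top_pt Φ a b).natDegree ≤ Φ.natDegree := by
    rw [natDegree_le_iff_coeff_eq_zero]
    intro i hi
    rw [top_coeff, coeff_eq_zero_of_natDegree_lt hi, map_zero, reflect_zero]
  have h2 : (top_pt Φ a b).coeff Φ.natDegree = 1 := by
    rw [top_coeff, hΦ.coeff_natDegree, map_one, Nat.sub_self, mul_zero, reflect_one, pow_zero]
  exact ⟨monic_of_natDegree_le_of_coeff_eq_one _ h1 h2,
    natDegree_eq_of_le_of_coeff_ne_zero h1 (by rw [h2]; exact one_ne_zero)⟩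

lemma top_rts {Φ : ℤ[X][X]} (hΦ : Φ.Monic) {a b : ℕ}
    (hab : ∀ i, b * (Φ.coeff i).natDegree ≤ a * (Φ.natDegree - i)) {τ : ℂ} (hτ : τ ≠ 0) :
    rts (top_pt Φ a b) τ = (rts Φ (τ⁻¹ ^ b)).map (τ ^ a * ·) := by
  have h : (top_pt Φ a b).map (eval₂RingHom (Int.castRingHom ℂ) τ) =
      (Φ.map (eval₂RingHom (Int.castRingHom ℂ) (τ⁻¹ ^ b))).scaleRoots (τ ^ a) := by
    ext i
    rw [coeff_scaleRoots, coeff_map, coeff_map, top_coeff, hΦ.natDegree_map, coe_eval₂RingHom,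
      coe_eval₂RingHom, top_refl hτ (by rw [natDegree_expand, mul_comm]; exact hab i),
      top_expand, ← pow_mul, mul_comm]
  rw [rts, rts, h, roots_scaleRoots _ (pow_ne_zero a hτ).isUnit]

lemma top_id {q g : ℤ[X]} {M N : ℕ} (hM : M ≤ N) (hg : g.natDegree ≤ N)
    (h : ∀ τ : ℂ, τ ≠ 0 → q.eval₂ (Int.castRingHom ℂ) τ =
      τ ^ M * g.eval₂ (Int.castRingHom ℂ) τ⁻¹) : X ^ (N - M) * q = reflect N g := by
  apply map_injective (Int.castRingHom ℂ) (RingHom.injective_int _)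
  apply eq_of_infinite_eval_eq
  refine ((Set.finite_singleton (0 : ℂ)).infinite_compl).mono fun τ hτ => ?_
  have hτ0 : τ ≠ 0 := hτ
  simp only [Set.mem_ofPred_eq]
  rw [eval_map, eval_map, top_refl hτ0 hg, eval₂_mul, eval₂_X_pow, h τ hτ0, ← mul_assoc,
    ← pow_add, Nat.sub_add_cancel hM]

/-- The top form of a monic curve for the weights `(b, a)`. -/
theorem top {Φ : ℤ[X][X]} (hΦ : Φ.Monic) {a b : ℕ} (hb : 0 < b)
    (hab : ∀ i, b * (Φ.coeff i).natDegree ≤ a * (Φ.natDegree - i)) {p : ℕ → ℤ[X]}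
    (hp : IsPs Φ p) : ∃ E : ℤ[X], E.Monic ∧ E.natDegree = Φ.natDegree ∧
      (∀ i n, i ≤ Φ.natDegree → b * n = a * (Φ.natDegree - i) → E.coeff i = (Φ.coeff i).coeff n) ∧
      ∀ K, b * (p K).natDegree ≤ a * K ∧ ∀ n, b * n = a * K →
        (((p K).coeff n : ℤ) : ℂ) = ((E.map (Int.castRingHom ℂ)).roots.map (· ^ K)).sum := by
  obtain ⟨hm, hd⟩ := top_monic hΦ a b
  obtain ⟨pt, hpt⟩ := exists_ps hm
  refine ⟨(top_pt Φ a b).map (evalRingHom 0), hm.map _, by rw [hm.natDegree_map, hd], ?_, ?_⟩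
  · intro i n _ hn
    rw [coeff_map, coe_evalRingHom, ← coeff_zero_eq_eval_zero, top_coeff, coeff_reflect,
      revAt_zero, ← hn, coeff_expand_mul' hb]
  intro K
  have key : ∀ τ : ℂ, τ ≠ 0 → (pt K).eval₂ (Int.castRingHom ℂ) τ =
      τ ^ (a * K) * (expand ℤ b (p K)).eval₂ (Int.castRingHom ℂ) τ⁻¹ := by
    intro τ hτ
    rw [hpt, top_rts hΦ hab hτ, top_expand, hp, Multiset.map_map, ← Multiset.sum_map_mul_left]
    congr 1
    refine Multiset.map_congr rfl fun z _ => ?_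
    simp only [Function.comp_apply]
    rw [mul_pow, ← pow_mul]
  have hdeg : (expand ℤ b (p K)).natDegree ≤ a * K := by
    by_contra hlt
    rw [not_le] at hlt
    have h1 := congrArg (fun f : ℤ[X] => f.coeff 0) (top_id hlt.le le_rfl key)
    simp only [coeff_reflect, revAt_zero, coeff_natDegree] at h1
    rw [mul_coeff_zero, coeff_X_pow, if_neg (by omega), zero_mul] at h1
    have h2 := leadingCoeff_eq_zero.1 h1.symm
    rw [h2, natDegree_zero] at hlt
    omega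
  refine ⟨by rwa [natDegree_expand, mul_comm] at hdeg, fun n hn => ?_⟩
  have h1 := congrArg (fun f : ℤ[X] => f.coeff 0) (top_id le_rfl hdeg key)
  simp only [Nat.sub_self, pow_zero, one_mul, coeff_reflect, revAt_zero] at h1
  rw [← hn, coeff_expand_mul' hb] at h1
  have h2 := hpt K 0
  rw [eval₂_at_zero, h1] at h2
  have h3 : (Int.castRingHom ℂ).comp (evalRingHom 0) = eval₂RingHom (Int.castRingHom ℂ) 0 := by
    ext <;> simp
  rw [Polynomial.map_map, h3]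
  exact h2

end Pool.Agent.Lib.MP_1e748d_nt.Va
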