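import Pool.Agent.Lib.MP_1e748d_nt.Va.Eng
import Pool.Agent.Lib.MP_1e748d_nt.Va.Ce

set_option autoImplicit false

namespace Pool.Agent.Lib.MP_1e748d_nt.Va

open Polynomial

lemma z0_cont (f : ℝ[X][X]) : Continuous fun z : ℂ × ℂ => evR z.1 z.2 f := by
  have : (fun z : ℂ × ℂ => evR z.1 z.2 f) = fun z : ℂ × ℂ =>
      ∑ j ∈ Finset.range (f.natDegree + 1),
        (f.coeff j).eval₂ Complex.ofRealHom z.1 * z.2 ^ j := by
    funext z
    exact e2_sum _ _ _ _ (Nat.lt_succ_self _)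
  rw [this]
  refine continuous_finsetSum _ fun j _ => ?_
  exact ((Polynomial.continuous_eval₂ _ _).comp continuous_fst).mul (continuous_snd.pow j)

lemma z0_prod (s : Multiset ℂ) (u0 : ℂ) {η : ℝ} (hη : 0 ≤ η) (h : ∀ u ∈ s, η ≤ ‖u - u0‖) :
    η ^ s.card ≤ ‖(s.map (u0 - ·)).prod‖ := by
  induction s using Multiset.induction_on with
  | empty => simp
  | cons a s ih =>
    rw [Multiset.map_cons, Multiset.prod_cons, norm_mul, Multiset.card_cons, pow_succ', norm_sub_rev]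
    exact mul_le_mul (h a (Multiset.mem_cons_self _ _))
      (ih fun u hu => h u (Multiset.mem_cons_of_mem hu)) (pow_nonneg hη _) (norm_nonneg _)

/-- Continuity of roots of a monic family. -/
theorem root_near (P : ℝ[X][X]) (hP : P.Monic) (x0 : ℝ) (u0 : ℂ) (h : evR x0 u0 P = 0)
    {η : ℝ} (hη : 0 < η) : ∃ δ : ℝ, 0 < δ ∧ ∀ x : ℝ, |x - x0| < δ →
      ∃ u : ℂ, evR x u P = 0 ∧ ‖u - u0‖ < η := by
  have hc : Continuous fun x : ℝ => evR x u0 P :=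
    (z0_cont P).comp (f := fun x : ℝ => ((x : ℂ), u0)) (by fun_prop)
  obtain ⟨δ, hδ, hh⟩ := Metric.continuous_iff.mp hc x0 (η ^ P.natDegree) (pow_pos hη _)
  refine ⟨δ, hδ, fun x hx => ?_⟩
  have h2 := hh x (by rwa [Real.dist_eq])
  rw [h, dist_zero_right] at h2
  by_contra hcon
  push Not at hcon
  set Q := P.map (eval₂RingHom Complex.ofRealHom (x : ℂ)) with hQ
  have hQm : Q.Monic := hP.map _
  have hs : Q.Splits := IsAlgClosed.splits _
  have e1 : evR x u0 P = (Q.roots.map (u0 - ·)).prod := by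
    rw [e2_eq, ← hQ, hs.eval_eq_prod_roots_of_monic hQm]
  have e2 : Q.roots.card = P.natDegree := by
    rw [← hs.natDegree_eq_card_roots, hQ, hP.natDegree_map]
  have h3 := z0_prod Q.roots u0 hη.le fun u hu => hcon u (by
    rw [mem_roots hQm.ne_zero, IsRoot.def] at hu
    rw [e2_eq, ← hQ, hu])
  rw [e2, ← e1] at h3
  exact absurd h2 (not_lt.mpr h3)

lemma z0_mod {P p : ℝ[X][X]} (k : ℕ) {x u : ℂ} (h : evR x u P = 0) :
    evR x u (p ^ k %ₘ P) = evR x u p ^ k := by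
  have := congrArg (evR x u) (modByMonic_add_div (p ^ k) P)
  rw [map_add, map_mul, h, zero_mul, add_zero, map_pow] at this
  exact this

lemma z0_box {N1 N2 : ℕ} {W : ℝ[X][X]} (h : Box N1 N2 W) (a : ℝ) : Box N1 N2 (C (C a) * W) := by
  refine ⟨lt_of_le_of_lt ?_ h.1, fun j => lt_of_le_of_lt ?_ (h.2 j)⟩
  · rw [← smul_eq_C_mul]
    exact degree_smul_le _ _
  · rw [coeff_C_mul, ← smul_eq_C_mul]
    exact degree_smul_le _ _

lemma z0_ofReal (A : ℤ[X]) (x : ℝ) :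
    ((A.eval₂ (Int.castRingHom ℝ) x : ℝ) : ℂ) = A.eval₂ (Int.castRingHom ℂ) (x : ℂ) := by
  have := hom_eval₂ A (Int.castRingHom ℝ) Complex.ofRealHom x
  rw [RingHom.ext_int (RingHom.comp _ _) (Int.castRingHom ℂ)] at this
  exact this

/-- The separating polynomial. -/
noncomputable def z0_p (η x0 a : ℝ) : ℝ[X][X] :=
  1 - C (C η) * ((C X - C (C x0)) ^ 2 + (X - C (C a)) ^ 2)

lemma z0_p_eval (η x0 a : ℝ) (x u : ℂ) :
    evR x u (z0_p η x0 a) = 1 - η * ((x - x0) ^ 2 + (u - a) ^ 2) := by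
  simp [z0_p]

lemma z0_p_real (η x0 : ℝ) (u0 : ℂ) (x u : ℝ) :
    evR x u (z0_p η x0 u0.re) =
      ((1 + η * u0.im ^ 2 - η * ((x - x0) ^ 2 + ‖(u : ℂ) - u0‖ ^ 2) : ℝ) : ℂ) := by
  rw [z0_p_eval, Complex.sq_norm, Complex.normSq_apply]
  simp only [Complex.sub_re, Complex.sub_im, Complex.ofReal_re, Complex.ofReal_im]
  push_cast
  ring

lemma z0_p_at (η x0 : ℝ) (u0 : ℂ) :
    evR x0 u0 (z0_p η x0 u0.re) = ((1 + η * u0.im ^ 2 : ℝ) : ℂ) := by
  rw [z0_p_eval]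
  have : u0 - (u0.re : ℂ) = u0.im * Complex.I := by
    rw [sub_eq_iff_eq_add', Complex.re_add_im]
  rw [this, mul_pow, Complex.I_sq]
  push_cast
  ring

/-- Two-sided bound on the square. -/
lemma z0_bounds {c x0 : ℝ} (a : ℝ → ℝ) (ha : Continuous a) (u0 : ℂ)
    (h : ∀ y ∈ II c, ((a x0 * y : ℝ) : ℂ) ≠ u0) :
    ∃ r R : ℝ, 0 < r ∧ r ≤ R ∧ ∀ x ∈ II c, ∀ y ∈ II c,
      r ≤ (x - x0) ^ 2 + ‖((a x * y : ℝ) : ℂ) - u0‖ ^ 2 ∧
      (x - x0) ^ 2 + ‖((a x * y : ℝ) : ℂ) - u0‖ ^ 2 ≤ R := by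
  set F : ℝ × ℝ → ℝ := fun z => (z.1 - x0) ^ 2 + ‖((a z.1 * z.2 : ℝ) : ℂ) - u0‖ ^ 2 with hF
  have hc : Continuous F := by
    rw [hF]
    fun_prop
  have hK : IsCompact (II c ×ˢ II c) := isCompact_Icc.prod isCompact_Icc
  have hne : (II c ×ˢ II c).Nonempty :=
    ⟨(c, c), ⟨by constructor <;> linarith, by constructor <;> linarith⟩⟩
  obtain ⟨z1, hz1, h1⟩ := hK.exists_isMinOn hne hc.continuousOn
  obtain ⟨z2, hz2, h2⟩ := hK.exists_isMaxOn hne hc.continuousOn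
  refine ⟨F z1, F z2, ?_, h1 hz2, fun x hx y hy => ⟨h1 (Set.mk_mem_prod hx hy),
    h2 (Set.mk_mem_prod hx hy)⟩⟩
  by_cases e : z1.1 = x0
  · have : ((a z1.1 * z1.2 : ℝ) : ℂ) - u0 ≠ 0 := by
      rw [e]
      exact sub_ne_zero.mpr (h _ hz1.2)
    exact add_pos_of_nonneg_of_pos (sq_nonneg _) (pow_pos (norm_pos_iff.mpr this) 2)
  · exact add_pos_of_pos_of_nonneg (sq_pos_of_ne_zero (sub_ne_zero.mpr e)) (sq_nonneg _)

/-- An interval on which the curve has a point where `p` is large. -/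
lemma z0_int {c x0 : ℝ} (hx0 : x0 ∈ II c) {P p : ℝ[X][X]} (hP : P.Monic) {u0 : ℂ}
    (h : evR x0 u0 P = 0) {p1 : ℝ} (hp : p1 < ‖evR x0 u0 p‖) :
    ∃ s t : ℝ, s < t ∧ ∀ x ∈ Set.Icc s t, x ∈ II c ∧
      ∃ u : ℂ, evR x u P = 0 ∧ ‖u‖ ≤ ‖u0‖ + 1 ∧ p1 ≤ ‖evR x u p‖ := by
  obtain ⟨δ1, hδ1, h1⟩ := Metric.continuous_iff.mp (z0_cont p) ((x0 : ℂ), u0)
    (‖evR x0 u0 p‖ - p1) (sub_pos.mpr hp)
  obtain ⟨δ2, hδ2, h2⟩ := root_near P hP x0 u0 h (lt_min hδ1 one_pos)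
  have hδ : 0 < min δ1 δ2 := lt_min hδ1 hδ2
  have a1 : min δ1 δ2 ≤ δ1 := min_le_left _ _
  have a2 : min δ1 δ2 ≤ δ2 := min_le_right _ _
  obtain ⟨b1, b2⟩ := hx0
  refine ⟨max (c - 2) (x0 - min δ1 δ2 / 2), min (c + 2) (x0 + min δ1 δ2 / 2), ?_, ?_⟩
  · simp only [max_lt_iff, lt_min_iff]
    refine ⟨⟨?_, ?_⟩, ?_, ?_⟩ <;> linarith
  · rintro x ⟨c1, c2⟩
    rw [max_le_iff] at c1
    rw [le_min_iff] at c2
    have hx : |x - x0| < min δ1 δ2 := by
      rw [abs_lt]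
      constructor <;> linarith [c1.2, c2.2]
    obtain ⟨u, hu, hu'⟩ := h2 x (hx.trans_le a2)
    rw [lt_min_iff] at hu'
    refine ⟨⟨c1.1, c2.1⟩, u, hu, ?_, ?_⟩
    · have := norm_sub_norm_le u u0
      linarith [hu'.2]
    · have h3 := h1 ((x : ℂ), u) (by
        rw [Prod.dist_eq, max_lt_iff, dist_eq_norm, dist_eq_norm, ← Complex.ofReal_sub,
          Complex.norm_real, Real.norm_eq_abs]
        exact ⟨hx.trans_le a1, hu'.1⟩)
      rw [dist_eq_norm, norm_sub_rev] at h3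
      have := norm_sub_norm_le (evR x0 u0 p) (evR x u p)
      simp only at h3
      linarith

/-- The core of the argument. -/
lemma z0_core {c : ℝ} {Φ : ℤ[X][X]} (hN : NoSmall c Φ) {A : ℤ[X]}
    (hA : A ≠ 0) {P p : ℝ[X][X]} (hP : P.Monic) (hd : P.natDegree = Φ.natDegree)
    {q0 p1 Cu s t : ℝ} (hq0 : 0 ≤ q0) (hq : q0 < p1) (hst : s < t)
    (hc : ∀ x ∈ II c, ∀ y ∈ II c, ev x y Φ = 0 →
      evR x (A.eval₂ (Int.castRingHom ℂ) x * y) P = 0 ∧
      ‖A.eval₂ (Int.castRingHom ℂ) x * y‖ ≤ Cu ∧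
      ‖evR x (A.eval₂ (Int.castRingHom ℂ) x * y) p‖ ≤ q0)
    (hi : ∀ x ∈ Set.Icc s t, x ∈ II c ∧ ∃ u : ℂ, evR x u P = 0 ∧ ‖u‖ ≤ Cu ∧ p1 ≤ ‖evR x u p‖) :
    False := by
  have hp1 : 0 < p1 := hq0.trans_lt hq
  obtain ⟨κ, hκ, hlb⟩ := lb hst
  set ρ : ℝ := 4 * (|c| + 2) with hρ
  have hρ0 : 0 < ρ := by positivity
  obtain ⟨C', hC'⟩ := exists_pow_lt_of_lt_one (show 0 < κ / (4 * ρ) by positivity)
    ((div_lt_one hp1).mpr hq)
  obtain ⟨d, hdm⟩ := deg_mod P p hP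
  obtain ⟨ω, hω, he⟩ := eng c Cu Φ.natDegree (d * C')
  set lam : ℝ := (κ ^ ω * p1 ^ (C' * ω))⁻¹ with hlam
  have hlam0 : 0 < lam := by positivity
  have hbox : Box (d * C' * ω + 1) Φ.natDegree (C (C lam) * (p ^ (C' * ω) %ₘ P)) := by
    have := z0_box (hdm (C' * ω)) lam
    rwa [hd, ← mul_assoc] at this
  obtain ⟨h, h0, hdeg, -, hub, f, hf, hap⟩ := he _ hbox
  have hG : ∀ (x : ℝ) (u : ℂ), evR x u P = 0 →
      ‖h.eval₂ (Int.castRingHom ℂ) x * evR x u (C (C lam) * (p ^ (C' * ω) %ₘ P))‖ =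
        |h.eval₂ (Int.castRingHom ℝ) x| * (lam * ‖evR x u p‖ ^ (C' * ω)) := by
    intro x u hu
    rw [map_mul, z0_mod _ hu, norm_mul, norm_mul, norm_pow, ← z0_ofReal, Complex.norm_real,
      Real.norm_eq_abs]
    simp [abs_of_pos hlam0]
  have hdv : Φ ∣ f.comp (C A * X) := by
    refine hN _ fun x hx y hy hxy => ?_
    obtain ⟨c1, c2, c3⟩ := hc x hx y hy hxy
    have c4 := hap x hx _ c2
    have c5 := hG x _ c1
    have c6 : |h.eval₂ (Int.castRingHom ℝ) x| *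
        (lam * ‖evR x (A.eval₂ (Int.castRingHom ℂ) x * y) p‖ ^ (C' * ω)) ≤ 1 / 4 := by
      calc _ ≤ ρ ^ ω * (lam * q0 ^ (C' * ω)) := by
            gcongr
            exact hub x hx
        _ = (ρ / κ * (q0 / p1) ^ C') ^ ω := by
            rw [hlam, mul_pow (ρ / κ), ← pow_mul, div_pow, div_pow]
            field_simp
        _ ≤ (1 / 4) ^ ω := by
            gcongr
            calc _ ≤ ρ / κ * (κ / (4 * ρ)) := by gcongr
              _ = 1 / 4 := by field_simp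
        _ ≤ 1 / 4 := pow_le_of_le_one (by norm_num) (by norm_num) hω.ne'
    rw [← Real.norm_eq_abs, ← Complex.norm_real, ofReal_ev, e2_comp]
    have c7 := norm_sub_norm_le (ev (x : ℂ) (A.eval₂ (Int.castRingHom ℂ) x * y) f)
      (h.eval₂ (Int.castRingHom ℂ) x * evR x (A.eval₂ (Int.castRingHom ℂ) x * y)
        (C (C lam) * (p ^ (C' * ω) %ₘ P)))
    rw [norm_sub_rev] at c7
    linarith
  have hf0 : f = 0 := by
    by_contra hne
    have d1 : f.natDegree < Φ.natDegree := (natDegree_lt_iff_degree_lt hne).mpr hf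
    have d2 : (f.comp (C A * X)).natDegree < Φ.natDegree := by
      refine lt_of_le_of_lt natDegree_comp_le ?_
      rwa [natDegree_C_mul_X _ hA, mul_one]
    have d3 := eq_zero_of_dvd_of_natDegree_lt hdv d2
    apply hne
    ext1 n
    have := congrArg (fun g => coeff g n) d3
    simp only [comp_C_mul_X_coeff, coeff_zero, mul_eq_zero, pow_eq_zero_iff', hA, false_and,
      or_false] at this
    simpa using this
  obtain ⟨x, hx, hxl⟩ := hlb ω h h0 hdeg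
  obtain ⟨hxI, u, u1, u2, u3⟩ := hi x hx
  have c4 := hap x hxI u u2
  rw [hf0, map_zero, sub_zero, hG x u u1] at c4
  have c5 : κ ^ ω * (lam * p1 ^ (C' * ω)) ≤
      |h.eval₂ (Int.castRingHom ℝ) x| * (lam * ‖evR x u p‖ ^ (C' * ω)) := by
    gcongr
  have c6 : κ ^ ω * (lam * p1 ^ (C' * ω)) = 1 := by
    rw [hlam]
    field_simp
  linarith

/-- Without small sections the curve stays in the square above the interval. -/
theorem crit0 {c : ℝ} {Φ : ℤ[X][X]} (h1 : Φ.natDegree ≠ 0) (hN : NoSmall c Φ) :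
    ∀ x ∈ II c, Φ.leadingCoeff.eval₂ (Int.castRingHom ℝ) x ≠ 0 →
      ∀ y : ℂ, ev (x : ℂ) y Φ = 0 → ∃ y' ∈ II c, y = (y' : ℝ) := by
  intro x0 hx0 hA0 y0 hy0
  by_contra hcon
  push Not at hcon
  have hΦ : Φ ≠ 0 := fun e => h1 (by rw [e, natDegree_zero])
  set A := Φ.leadingCoeff with hA
  have hAne : A ≠ 0 := leadingCoeff_ne_zero.mpr hΦ
  set P := toR (integralNormalization Φ) with hPdef
  have hm : (integralNormalization Φ).Monic := monic_integralNormalization hΦ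
  have hP : P.Monic := hm.map _
  have hd : P.natDegree = Φ.natDegree := by
    rw [hPdef, hm.natDegree_map, natDegree_integralNormalization]
  have hroot : ∀ x y : ℂ, ev x y Φ = 0 → evR x (A.eval₂ (Int.castRingHom ℂ) x * y) P = 0 := by
    intro x y hxy
    rw [hPdef, evR_toR]
    have := integralNormalization_eval₂_leadingCoeff_mul (p := Φ) (Nat.one_le_iff_ne_zero.mpr h1)
      (eval₂RingHom (Int.castRingHom ℂ) x) y
    have e : Φ.eval₂ (eval₂RingHom (Int.castRingHom ℂ) x) y = 0 := hxy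
    rw [e, mul_zero] at this
    exact this
  set u0 : ℂ := A.eval₂ (Int.castRingHom ℂ) x0 * y0 with hu0
  obtain ⟨r, R, hr, hrR, hb⟩ := z0_bounds (c := c) (x0 := x0)
    (fun x => A.eval₂ (Int.castRingHom ℝ) x) (Polynomial.continuous_eval₂ _ _) u0 (by
      intro y hy e
      rw [hu0, Complex.ofReal_mul, ← z0_ofReal] at e
      exact hcon y hy (mul_left_cancel₀ (Complex.ofReal_ne_zero.mpr hA0) e).symm)
  have hR : 0 < R := hr.trans_le hrR
  have hη : 0 < R⁻¹ := inv_pos.mpr hR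
  have hRR : R⁻¹ * R = 1 := inv_mul_cancel₀ hR.ne'
  have him : 0 ≤ R⁻¹ * u0.im ^ 2 := by positivity
  have hrr : R⁻¹ * r ≤ 1 := by
    rw [← hRR]
    gcongr
  have hr0 : 0 < R⁻¹ * r := by positivity
  obtain ⟨s, t, hst, hi⟩ := z0_int hx0 hP (hroot _ _ hy0) (p := z0_p R⁻¹ x0 u0.re)
    (p1 := 1 + R⁻¹ * u0.im ^ 2 - R⁻¹ * r / 2) (by
      rw [← hu0, z0_p_at, Complex.norm_real, Real.norm_eq_abs, abs_of_pos (by positivity)]
      linarith)
  refine z0_core hN hAne hP hd (p := z0_p R⁻¹ x0 u0.re)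
    (q0 := 1 + R⁻¹ * u0.im ^ 2 - R⁻¹ * r) (p1 := 1 + R⁻¹ * u0.im ^ 2 - R⁻¹ * r / 2)
    (Cu := ‖u0‖ + 1 + R) (by linarith) (by linarith) hst ?_ ?_
  · intro x hx y hy hxy
    obtain ⟨b1, b2⟩ := hb x hx y hy
    refine ⟨hroot _ _ (by rw [← ofReal_ev, hxy, Complex.ofReal_zero]), ?_, ?_⟩
    · rw [← z0_ofReal, ← Complex.ofReal_mul]
      have := norm_sub_norm_le (((A.eval₂ (Int.castRingHom ℝ) x * y : ℝ) : ℂ)) u0
      nlinarith [sq_nonneg (x - x0),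
        sq_nonneg (‖((A.eval₂ (Int.castRingHom ℝ) x * y : ℝ) : ℂ) - u0‖ - 1),
        norm_nonneg (((A.eval₂ (Int.castRingHom ℝ) x * y : ℝ) : ℂ) - u0)]
    · rw [← z0_ofReal, ← Complex.ofReal_mul, z0_p_real, Complex.norm_real, Real.norm_eq_abs]
      have e1 := mul_le_mul_of_nonneg_left b1 hη.le
      have e2 := mul_le_mul_of_nonneg_left b2 hη.le
      rw [abs_of_nonneg (by linarith)]
      linarith
  · intro x hx
    obtain ⟨hxI, u, u1, u2, u3⟩ := hi x hx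
    exact ⟨hxI, u, u1, by rw [← hu0] at u2; linarith, u3⟩

end Pool.Agent.Lib.MP_1e748d_nt.Va
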